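import Pool.Agent.H.MP_6c077c_gt.N2.DefsB
import Pool.Agent.H.MP_6c077c_gt.Al.Unico
import Pool.Agent.H.MP_6c077c_gt.F2.StartK

/-! Unicoherence for closed sets. -/

set_option autoImplicit false

namespace Pool.Schoen

open Filter Set Metric
open scoped Topology RealInnerProductSpace

private theorem Unis_image {Y : Type*} [TopologicalSpace Y] {C A : Set Y} (h : A ⊆ C) :
    (Subtype.val : C → Y) '' (Subtype.val ⁻¹' A) = A := by
  rw [Subtype.image_preimage_coe, inter_eq_right.2 h]

private theorem Unis_pre {Y : Type*} [TopologicalSpace Y] {C A : Set Y} (h : A ⊆ C) :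
    IsPreconnected ((Subtype.val : C → Y) ⁻¹' A) ↔ IsPreconnected A := by
  rw [← Topology.IsInducing.subtypeVal.isPreconnected_image, Unis_image h]

/-- Unicoherence of closed sets with the lifting property: `alu_unicoherent` for the subtype. -/
theorem unico_set {Y : Type*} [TopologicalSpace Y] [NormalSpace Y] {A B : Set Y} (hA : IsClosed A)
    (hB : IsClosed B) (hl : LiftS (A ∪ B)) (hcA : IsPreconnected A) (hcB : IsPreconnected B) :
    IsPreconnected (A ∩ B) := by
  classical
  have hC : IsClosed (A ∪ B) := hA.union hB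
  have : NormalSpace ↥(A ∪ B) := hC.isClosedEmbedding_subtypeVal.normalSpace
  have hsA : A ⊆ A ∪ B := subset_union_left
  have hsB : B ⊆ A ∪ B := subset_union_right
  have hlift : LiftS (univ : Set ↥(A ∪ B)) := by
    intro u hu hu1
    obtain ⟨v, hv, hv1⟩ := hl (fun x => if h : x ∈ A ∪ B then u ⟨x, h⟩ else 1) (by
      rw [continuousOn_iff_continuous_domRestrict]
      refine (continuousOn_univ.1 hu).congr fun x => ?_
      change u x = if h : (x : Y) ∈ A ∪ B then u ⟨x, h⟩ else 1
      rw [dif_pos x.2]) (by
      intro x hx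
      rw [dif_pos hx]
      exact hu1 ⟨x, hx⟩ (mem_univ _))
    refine ⟨fun x => v x, (continuousOn_iff_continuous_domRestrict.1 hv).continuousOn, ?_⟩
    intro x _
    have h := hv1 x x.2
    rw [dif_pos x.2] at h
    exact h
  have h := alu_unicoherent hlift (A := (Subtype.val : ↥(A ∪ B) → Y) ⁻¹' A)
    (B := (Subtype.val : ↥(A ∪ B) → Y) ⁻¹' B) (hA.preimage continuous_subtype_val)
    (hB.preimage continuous_subtype_val) ((Unis_pre hsA).2 hcA) ((Unis_pre hsB).2 hcB) (by
      rw [← preimage_union]
      exact Subtype.coe_preimage_self _)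
  rw [← preimage_inter] at h
  exact (Unis_pre (inter_subset_left.trans hsA)).1 h

/-- If two closed sets cover a connected set and their intersection is connected, they are
connected: `preconn_of_cover` for the subtype. -/
theorem preconn_cover_set {Y : Type*} [TopologicalSpace Y] {A B : Set Y} (hA : IsClosed A)
    (hB : IsClosed B) (hc : IsPreconnected (A ∪ B)) (hI : IsPreconnected (A ∩ B))
    (hne : (A ∩ B).Nonempty) : IsPreconnected A := by
  have hsA : A ⊆ A ∪ B := subset_union_left
  have : PreconnectedSpace ↥(A ∪ B) := isPreconnected_iff_preconnectedSpace.1 hc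
  have h := preconn_of_cover (A := (Subtype.val : ↥(A ∪ B) → Y) ⁻¹' A)
    (B := (Subtype.val : ↥(A ∪ B) → Y) ⁻¹' B) (hA.preimage continuous_subtype_val)
    (hB.preimage continuous_subtype_val) (by
      rw [← preimage_union]
      exact Subtype.coe_preimage_self _) (by
      rw [← preimage_inter]
      exact (Unis_pre (inter_subset_left.trans hsA)).2 hI) (by
      obtain ⟨x, hx⟩ := hne
      exact ⟨⟨x, Or.inl hx.1⟩, hx⟩)
  exact (Unis_pre hsA).1 h

end Pool.Schoen
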