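import Pool.Agent.H.MP_6c077c_gt.N2.Climb
import Pool.Agent.H.MP_6c077c_gt.N2.Unis
import Pool.Agent.H.MP_6c077c_gt.F3.Slab

/-! Slices with spheres and tori: the base case of the induction. -/

set_option autoImplicit false

namespace Pool.Schoen

open Filter Set Metric
open scoped Topology RealInnerProductSpace ContDiff

variable {V : Type*} [NormedAddCommGroup V] [InnerProductSpace ℝ V] [FiniteDimensional ℝ V]
variable {f : V → ℝ} {e : V} {L : Set ℝ} {A B : ℝ → ℕ → Prop} {S : Finset V}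

/-- PROOF. `L' = L ∪ {-T, T}` with `T` larger than the norms of the body; there are no points of the
body at `± T`. -/
theorem baseP_of_kt (he : ‖e‖ = 1) (hs : SepL L A B) (h : KT f e L A B S)
    (hno : ∀ x, f x ≤ 0 → ⟪e, x⟫ ∈ L → ¬ LiftS (bdC f e x)) : ∃ L', BaseP f e L' := by
  obtain ⟨R, hR⟩ := h.bdd.exists_norm_le
  have hT : ∀ x, f x ≤ 0 → |⟪e, x⟫| < R + 1 := by
    intro x hx
    have h1 := abs_real_inner_le_norm e x
    rw [he, one_mul] at h1
    have h2 : ‖x‖ ≤ R := hR x hx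
    linarith
  have hcr : ∀ x, Crit f e x ↔ Inward f e x ∨ Inward f (-e) x := crit_iff he h.mo.reg
  have hnot : ∀ x, Inward f e x → ¬ Inward f (-e) x := by
    rintro x ⟨-, l, hl, h1⟩ ⟨-, m, hm, h2⟩
    have h3 : (l + m) • e = 0 := by
      rw [h1, smul_neg, neg_neg] at h2
      rw [add_smul, ← h2, add_neg_cancel]
    have h4 := congrArg norm h3
    rw [norm_smul, he, norm_zero, mul_one, Real.norm_of_nonneg (by positivity)] at h4
    linarith
  refine ⟨L ∪ {-(R + 1), R + 1}, he, h.mo, h.bdd, h.conn, h.out, h.lift,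
    hs.fin.union (Set.toFinite _), ?_, ?_, ?_, ?_, ?_⟩
  · rintro x hx (h1 | h1 | h1)
    · exact h.reg x hx h1
    · have h2 := abs_lt.1 (hT x hx.1.le)
      linarith [h2.1]
    · have h2 := abs_lt.1 (hT x hx.1.le)
      rw [mem_singleton_iff] at h1
      linarith [h2.2]
  · rintro x hx (h1 | h1 | h1)
    · obtain ⟨h2, h3⟩ := h.sl x hx h1
      have h4 := hno x hx h1
      exact ⟨h2, h4, h3.resolve_left h4⟩
    · have h2 := abs_lt.1 (hT x hx)
      linarith [h2.1]
    · have h2 := abs_lt.1 (hT x hx)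
      rw [mem_singleton_iff] at h1
      linarith [h2.2]
  · exact ⟨-(R + 1), Or.inr (Or.inl rfl), fun x hx => (abs_lt.1 (hT x hx)).1⟩
  · exact ⟨R + 1, Or.inr (Or.inr rfl), fun x hx => (abs_lt.1 (hT x hx)).2⟩
  · intro x y j k hx hy hxj hyk hj hk hc
    have hAx : Inward f e x → A ⟪e, x⟫ j := fun hi => (h.up x hi j hxj).resolve_left hj
    have hBx : Inward f (-e) x → B ⟪e, x⟫ j := fun hi => (h.dn x hi j hxj).resolve_left hj
    have hAy : Inward f e y → A ⟪e, y⟫ k := fun hi => (h.up y hi k hyk).resolve_left hk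
    have hBy : Inward f (-e) y → B ⟪e, y⟫ k := fun hi => (h.dn y hi k hyk).resolve_left hk
    have hABx : A ⟪e, x⟫ j ∨ B ⟪e, x⟫ j := by
      rcases (hcr x).1 hx with h1 | h1
      · exact Or.inl (hAx h1)
      · exact Or.inr (hBx h1)
    have hABy : A ⟪e, y⟫ k ∨ B ⟪e, y⟫ k := by
      rcases (hcr y).1 hy with h1 | h1
      · exact Or.inl (hAy h1)
      · exact Or.inr (hBy h1)
    have hxy : ⟪e, x⟫ = ⟪e, y⟫ := by
      rcases lt_trichotomy ⟪e, x⟫ ⟪e, y⟫ with h1 | h1 | h1
      · obtain ⟨c, hcL, h2, h3⟩ := hs.gap _ _ j k hABx hABy h1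
        exact absurd ((hc c (Or.inl hcL)).1 h2) (not_lt.2 h3.le)
      · exact h1
      · obtain ⟨c, hcL, h2, h3⟩ := hs.gap _ _ k j hABy hABx h1
        exact absurd ((hc c (Or.inl hcL)).2 h2) (not_lt.2 h3.le)
    rcases (hcr x).1 hx with h1 | h1
    · rcases (hcr y).1 hy with h2 | h2
      · have h3 := hAy h2
        rw [← hxy] at h3
        exact ⟨hs.oneA _ _ _ (hAx h1) h3, fun _ => h2, fun _ => h1⟩
      · have h3 := hBy h2
        rw [← hxy] at h3
        exact absurd h3 (hs.oneAB _ _ _ (hAx h1))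
    · rcases (hcr y).1 hy with h2 | h2
      · have h3 := hAy h2
        rw [← hxy] at h3
        exact absurd (hBx h1) (hs.oneAB _ _ _ h3)
      · have h3 := hBy h2
        rw [← hxy] at h3
        exact ⟨hs.oneB _ _ _ (hBx h1) h3, fun h4 => absurd h1 (hnot x h4),
          fun h4 => absurd h2 (hnot y h4)⟩

/-- PROOF. `BaseP.order` and `f2_ord`; `{f = 0}` is connected by unicoherence (`unico_set`, both sides
are connected). -/
theorem kt_base (hV : Module.finrank ℝ V = 4) (he : ‖e‖ = 1) (hs : SepL L A B)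
    (h : KT f e L A B S) (hno : ∀ x, f x ≤ 0 → ⟪e, x⟫ ∈ L → ¬ LiftS (bdC f e x)) : Rd f := by
  obtain ⟨L', hB⟩ := baseP_of_kt he hs h hno
  have hf := h.mo.smooth.continuous
  have hA : IsClosed {x | f x ≤ 0} := isClosed_le hf continuous_const
  have hC : IsClosed {x | 0 ≤ f x} := isClosed_le continuous_const hf
  have e1 : {x | f x ≤ 0} ∩ {x | 0 ≤ f x} = {x | f x = 0} := by
    ext x
    exact ⟨fun hx => le_antisymm hx.1 hx.2, fun hx => ⟨hx.le, hx.ge⟩⟩
  have e2 : {x | f x ≤ 0} ∪ {x | 0 ≤ f x} = univ := by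
    rw [Set.eq_univ_iff_forall]
    intro x
    exact le_total (f x) 0
  have hMc : IsConnected {x | f x = 0} := by
    refine ⟨?_, ?_⟩
    · obtain ⟨a, ha⟩ := h.conn.nonempty
      obtain ⟨b, hb⟩ := h.out.nonempty
      obtain ⟨c, hc⟩ := mem_range_of_exists_le_of_exists_ge hf ⟨a, ha⟩ ⟨b, hb⟩
      exact ⟨c, hc⟩
    · have h1 := unico_set hA hC (by rw [e2]; exact liftS_univ V) h.conn.isPreconnected
        h.out.isPreconnected
      rwa [e1] at h1
  exact f2_ord hV h.mo.smooth h.mo.bdd h.mo.reg hMc h.lift he h.mo.nd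
    fun x y hx hx2 hy hy2 => hB.order hV hx hx2 hy hy2

end Pool.Schoen
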