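import Pool.Agent.H.MP_6c077c_gt.N2.Three

/-! The indices on the other side. -/

set_option autoImplicit false

namespace Pool.Schoen

open Filter Set Metric
open scoped Topology RealInnerProductSpace ContDiff

variable {V : Type*} [NormedAddCommGroup V] [InnerProductSpace ℝ V] [FiniteDimensional ℝ V]
variable {f : V → ℝ} {e : V}

/-- The index on the other side (dimension four): `Idx (-f) e x k ↔ Idx f e x (3 - k)`, and `Inward (-f)
e x ↔ Inward f (-e) x` (`BaseN_idx_neg`, `CapClass_neg'`). -/
theorem noI_neg (hV : Module.finrank ℝ V = 4) (he : ‖e‖ = 1) (h : Mo f e) {k : ℕ} (hk : k ≤ 3)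
    {c t : ℝ} : NoI (fun x => -f x) e (3 - k) c t ↔
      ∀ x, Inward f (-e) x → c < ⟪e, x⟫ → ⟪e, x⟫ < t → ¬ Idx f e x k := by
  have hff : (fun x => - -f x) = f := by
    funext x
    exact neg_neg _
  constructor
  · intro H x hx hc ht hi
    obtain ⟨j, hj, h1⟩ := BaseN_idx_neg h.smooth he hi
    rw [hV] at hj
    have h2 : j = 3 - k := by omega
    rw [h2] at h1
    refine H x ?_ hc ht h1
    refine CapClass_neg' (F := fun y => -f y) ?_
    rw [hff]
    exact hx
  · intro H x hx hc ht hi
    obtain ⟨j, hj, h1⟩ := BaseN_idx_neg h.smooth.neg he hi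
    rw [hV] at hj
    have h2 : j = k := by omega
    rw [hff, h2] at h1
    refine H x ?_ hc ht h1
    refine CapClass_neg' ?_
    rw [neg_neg]
    exact hx

end Pool.Schoen
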