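import Pool.Agent.H.MP_6c077c_gt.N2.LiftR
import Pool.Agent.H.MP_6c077c_gt.Al.Unico

/-! A handle of index one on a connected part. -/

set_option autoImplicit false

namespace Pool.Schoen

open Filter Set Metric
open scoped Topology RealInnerProductSpace ContDiff

variable {V : Type*} [NormedAddCommGroup V] [InnerProductSpace ℝ V] [FiniteDimensional ℝ V]

/-- Local coordinates at a point of index one: a box `U ⊆ L` around `p` and a coordinate `α`. -/
theorem LocX_box (F : V → ℝ) (hF : ContDiff ℝ ∞ F) (e : V) (he : ‖e‖ = 1) (p : V)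
    (hp : Inward F e p) (hd : Idx F e p 1) :
    ∃ (U L : Set V) (α : V → ℝ) (r η : ℝ), IsOpen U ∧ U ⊆ L ∧ IsClosed L ∧ Continuous α ∧
      0 < r ∧ 0 < η ∧
      (∀ x ∈ L, x ∉ U → F x ≤ 0 → ⟪e, x⟫ ≤ ⟪e, p⟫ + η → |α x| = r) ∧
      (∀ x ∈ L, F x ≤ 0 → ⟪e, x⟫ < ⟪e, p⟫ → α x ≠ 0) ∧
      ∃ n : V, ⟪e, n⟫ = 0 ∧
        (∀ τ : ℝ, |τ| ≤ r → F (p + τ • n) ≤ 0 ∧ p + τ • n ∈ L ∧ α (p + τ • n) = τ) ∧
        ∀ τ : ℝ, |τ| = r → ∀ σ : ℝ, 0 ≤ σ → σ < η → F (p + τ • n + (-σ) • e) ≤ 0 ∧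
          p + τ • n + (-σ) • e ∈ L ∧ p + τ • n + (-σ) • e ∉ U ∧
          α (p + τ • n + (-σ) • e) = τ := by
  obtain ⟨N, P, hS, hfin⟩ := hd
  obtain ⟨ρ₀, hρ₀, hρ⟩ := ix_uniform F hF e he p hp N P hS
  obtain ⟨ρ, hρ0, hρ1⟩ : ∃ ρ : ℝ, 0 < ρ ∧ 4 * ρ ≤ ρ₀ := ⟨ρ₀ / 4, by positivity, by linarith⟩
  -- coordinates
  obtain ⟨ca, hca⟩ : ∃ ca : V → V, ca = fun x => N.starProjection (Ring_w p e x) := ⟨_, rfl⟩
  obtain ⟨cb, hcb⟩ : ∃ cb : V → V, cb = fun x => Ring_w p e x - N.starProjection (Ring_w p e x) :=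
    ⟨_, rfl⟩
  have hmem : ∀ x, ca x ∈ N ∧ cb x ∈ P := by
    intro x
    rw [hca, hcb]
    exact hS.proj _ (Ring_orth he p x)
  have hxe : ∀ x, p + (ca x + cb x) + Ring_t p e x • e = x := by
    intro x
    rw [hca, hcb]
    show p + (N.starProjection (Ring_w p e x) +
      (Ring_w p e x - N.starProjection (Ring_w p e x))) + Ring_t p e x • e = x
    rw [add_sub_cancel]
    exact Ring_eq p e x
  have hmk : ∀ a ∈ N, ∀ b ∈ P, ∀ t : ℝ, Ring_t p e (p + (a + b) + t • e) = t ∧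
      ca (p + (a + b) + t • e) = a ∧ cb (p + (a + b) + t • e) = b := by
    intro a ha b hb t
    obtain ⟨h1, h2, h3⟩ := IxRing_mk he hS ha hb t
    refine ⟨h1, by rw [hca]; exact h3, ?_⟩
    rw [hcb]
    show Ring_w p e (p + (a + b) + t • e) - N.starProjection (Ring_w p e (p + (a + b) + t • e)) = b
    rw [h3, h2, add_sub_cancel_left]
  have hct := Ring_cont_t p e
  have hcac : Continuous ca := by
    rw [hca]
    exact N.starProjection.continuous.comp (Ring_cont_w p e)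
  have hcbc : Continuous cb := by
    rw [hcb]
    exact (Ring_cont_w p e).sub (N.starProjection.continuous.comp (Ring_cont_w p e))
  have hdist : ∀ x, dist x p ≤ ‖ca x‖ + ‖cb x‖ + |Ring_t p e x| := by
    intro x
    have h1 := Ring_dist he p x
    have h2 : Ring_w p e x = ca x + cb x := by
      rw [hca, hcb]
      exact (add_sub_cancel _ _).symm
    have h3 := norm_add_le (ca x) (cb x)
    rw [← h2] at h3
    linarith
  have hball : ∀ (a b : V) (t : ℝ), ‖a‖ ≤ ρ → ‖b‖ ≤ ρ → |t| ≤ ρ →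
      p + (a + b) + t • e ∈ closedBall p ρ₀ := by
    intro a b t ha hb ht
    rw [mem_closedBall, dist_eq_norm]
    have e1 : p + (a + b) + t • e - p = a + b + t • e := by abel
    rw [e1]
    refine (norm_add₃_le).trans ?_
    rw [norm_smul, he, mul_one, Real.norm_eq_abs]
    linarith
  have hvert : ∀ (a b : V) (t t' : ℝ), ‖a‖ ≤ ρ → ‖b‖ ≤ ρ → -ρ ≤ t → t < t' → t' ≤ ρ →
      F (p + (a + b) + t' • e) < F (p + (a + b) + t • e) := by
    intro a b t t' ha hb h1 h2 h3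
    have h4 := cg_vertical F hF (p + (a + b) + t' • e) e (t - t') (by linarith) (fun r hr => by
      have e1 : p + (a + b) + t' • e + r • e = p + (a + b) + (t' + r) • e := by
        rw [add_smul]; abel
      rw [e1]
      exact (hρ _ (hball a b _ ha hb (abs_le.2 ⟨by linarith [hr.1], by linarith [hr.2]⟩))).1)
    have e1 : p + (a + b) + t' • e + (t - t') • e = p + (a + b) + t • e := by
      rw [sub_smul]; abel
    rwa [e1] at h4
  have hF0 : F (p + (0 + 0) + (0 : ℝ) • e) = 0 := by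
    rw [zero_smul, add_zero, add_zero, add_zero]; exact hp.1
  have hcont : Continuous F := hF.continuous
  have hN0 : (0 : V) ∈ N := N.zero_mem
  have hP0 : (0 : V) ∈ P := P.zero_mem
  have hnorm0 : ‖(0 : V)‖ ≤ ρ := by rw [norm_zero]; exact hρ0.le
  have habs0 : |(0 : ℝ)| ≤ ρ := by rw [abs_zero]; exact hρ0.le
  -- positive on `P`
  have hPb : ∀ b ∈ P, b ≠ 0 → ‖b‖ ≤ ρ → 0 < F (p + (0 + b) + (0 : ℝ) • e) := by
    intro b hb hb0 hbρ
    have h1 := cg_segment F hF p b 1 (Ring_fd hp (hS.hP b hb)) (fun t ht => by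
      have hm := hball 0 (t • b) 0 hnorm0 (by
        rw [norm_smul, Real.norm_eq_abs, abs_of_nonneg ht.1]
        nlinarith [norm_nonneg b, ht.2]) habs0
      rw [zero_smul, add_zero, zero_add] at hm
      rw [one_mul]
      exact (hρ _ hm).2.2 b hb hb0)
    rw [hp.1, one_mul, one_mul] at h1
    rw [zero_smul, add_zero, zero_add]
    exact h1
  have hPb' : ∀ b ∈ P, ‖b‖ ≤ ρ → 0 ≤ F (p + (0 + b) + (0 : ℝ) • e) := by
    intro b hb hbρ
    by_cases hb0 : b = 0
    · rw [hb0, hF0]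
    · exact (hPb b hb hb0 hbρ).le
  -- negative on `N`
  have hNa : ∀ a ∈ N, a ≠ 0 → ‖a‖ ≤ ρ → F (p + a) < 0 := by
    intro a ha ha0 haρ
    have h1 := cg_segment F hF p a (-1) (Ring_fd hp (hS.hN a ha)) (fun t ht => by
      have hm := hball (t • a) 0 0 (by
        rw [norm_smul, Real.norm_eq_abs, abs_of_nonneg ht.1]
        nlinarith [norm_nonneg a, ht.2]) hnorm0 habs0
      rw [zero_smul, add_zero, add_zero] at hm
      have := (hρ _ hm).2.1 a ha ha0
      linarith)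
    rw [hp.1] at h1
    linarith
  have habs : ∀ x : V, -ρ ≤ Ring_t p e x → Ring_t p e x ≤ 0 → |Ring_t p e x| ≤ ρ := fun x h1 h2 =>
    abs_le.2 ⟨h1, by linarith⟩
  -- below the level of `p` the domain avoids `ca = 0`
  have hneg0 : ∀ b ∈ P, ‖b‖ ≤ ρ → ∀ t : ℝ, -ρ ≤ t → t < 0 → 0 < F (p + (0 + b) + t • e) := by
    intro b hb hbρ t ht ht0
    exact (hPb' b hb hbρ).trans_lt (hvert 0 b t 0 hnorm0 hbρ ht ht0 hρ0.le)
  -- the compact set on which `F` is positive
  obtain ⟨δ, hδ, hδ'⟩ : ∃ δ > 0, ∀ a ∈ N, ∀ b ∈ P, ∀ t : ℝ, ‖a‖ < δ → ‖b‖ ≤ ρ → -ρ ≤ t →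
      t < δ → (‖b‖ = ρ ∨ t = -ρ) → 0 < F (p + (a + b) + t • e) := by
    obtain ⟨K, hK⟩ : ∃ K : Set V, K = {x | ca x = 0 ∧ ‖cb x‖ ≤ ρ ∧ -ρ ≤ Ring_t p e x ∧
        Ring_t p e x ≤ 0 ∧ (‖cb x‖ = ρ ∨ Ring_t p e x = -ρ)} := ⟨_, rfl⟩
    have hKc : IsCompact K := by
      refine Metric.isCompact_of_isClosed_isBounded ?_ ?_
      · rw [hK]
        exact (isClosed_eq hcac continuous_const).inter
          ((isClosed_le hcbc.norm continuous_const).inter
          ((isClosed_le continuous_const hct).inter ((isClosed_le hct continuous_const).inter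
          ((isClosed_eq hcbc.norm continuous_const).union (isClosed_eq hct continuous_const)))))
      · refine (Metric.isBounded_closedBall (x := p) (r := ρ₀)).subset ?_
        intro x hx
        rw [hK] at hx
        obtain ⟨h1, h2, h3, h4, _⟩ := hx
        rw [mem_closedBall]
        have h5 := hdist x
        have h6 := habs x h3 h4
        rw [h1, norm_zero] at h5
        linarith
    have hKpos : K ⊆ {x | 0 < F x} := by
      intro x hx
      rw [hK] at hx
      obtain ⟨h1, h2, h3, h4, h5⟩ := hx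
      show 0 < F x
      rw [← hxe x, h1]
      have h6 := hPb' (cb x) (hmem x).2 h2
      rcases h5 with h5 | h5
      · have hb0 : cb x ≠ 0 := by
          intro h7
          rw [h7, norm_zero] at h5
          exact hρ0.ne h5
        have h7 := hPb (cb x) (hmem x).2 hb0 h2
        rcases h4.lt_or_eq with h8 | h8
        · exact h7.trans (hvert 0 (cb x) _ 0 hnorm0 h2 h3 h8 hρ0.le)
        · rw [h8]
          exact h7
      · have h8 : Ring_t p e x < 0 := by rw [h5]; linarith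
        exact h6.trans_lt (hvert 0 (cb x) _ 0 hnorm0 h2 h3 h8 hρ0.le)
    obtain ⟨δ, hδ, hth⟩ := hKc.exists_thickening_subset_open (isOpen_lt continuous_const hcont)
      hKpos
    refine ⟨δ / 2, by positivity, fun a ha b hb t h1 h2 h3 h4 h5 => ?_⟩
    apply hth
    rw [Metric.mem_thickening_iff]
    refine ⟨p + (0 + b) + (min t 0) • e, ?_, ?_⟩
    · rw [hK]
      obtain ⟨h6, h7, h8⟩ := hmk 0 hN0 b hb (min t 0)
      refine ⟨h7, ?_, ?_, ?_, ?_⟩
      · rw [h8]; exact h2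
      · rw [h6]; exact le_min h3 (by linarith)
      · rw [h6]; exact min_le_right _ _
      · rw [h6, h8]
        rcases h5 with h5 | h5
        · exact Or.inl h5
        · right
          rw [h5]
          exact min_eq_left (by linarith)
    · rw [dist_eq_norm]
      have e1 : p + (a + b) + t • e - (p + (0 + b) + (min t 0) • e) = a + (t - min t 0) • e := by
        rw [sub_smul]
        abel
      rw [e1]
      refine (norm_add_le _ _).trans_lt ?_
      rw [norm_smul, he, mul_one, Real.norm_eq_abs]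
      have h9 : |t - min t 0| < δ / 2 := by
        rcases le_total t 0 with h | h
        · rw [min_eq_left h, sub_self, abs_zero]
          positivity
        · rw [min_eq_right h, sub_zero, abs_of_nonneg h]
          exact h4
      linarith
  obtain ⟨r, hr0, hrρ, hr1⟩ : ∃ r : ℝ, 0 < r ∧ r < ρ ∧ r < δ := by
    refine ⟨min ρ δ / 2, by positivity, ?_, ?_⟩
    · linarith [min_le_left ρ δ]
    · linarith [min_le_right ρ δ]
  -- slightly below the two points of the sphere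
  obtain ⟨η₀, hη₀, hη₀ρ, hsph⟩ : ∃ η₀ : ℝ, 0 < η₀ ∧ η₀ ≤ ρ ∧ ∀ η : ℝ, 0 ≤ η → η < η₀ →
      ∀ a ∈ N, ‖a‖ = r → F (p + (a + 0) + (-η) • e) ≤ 0 := by
    have hKc : IsCompact ((N : Set V) ∩ sphere 0 r) :=
      (isCompact_sphere 0 r).inter_left (Submodule.closed_of_finiteDimensional N)
    have hev : ∀ᶠ η in nhds (0 : ℝ), ∀ a ∈ (N : Set V) ∩ sphere 0 r,
        F (p + (a + 0) + (-η) • e) < 0 := by
      apply hKc.eventually_forall_of_forall_eventually
      rintro a ⟨haN, har⟩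
      rw [mem_sphere_zero_iff_norm] at har
      have h3 : Continuous fun z : ℝ × V => F (p + (z.2 + 0) + (-z.1) • e) :=
        hcont.comp (by fun_prop)
      refine h3.continuousAt.eventually_lt continuousAt_const ?_
      show F (p + (a + 0) + (-(0 : ℝ)) • e) < 0
      rw [neg_zero, zero_smul, add_zero, add_zero]
      refine hNa a haN ?_ (by rw [har]; exact hrρ.le)
      intro h
      rw [h, norm_zero] at har
      exact hr0.ne har
    obtain ⟨δ, hδ, h⟩ := Metric.eventually_nhds_iff.1 hev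
    refine ⟨min δ ρ, lt_min hδ hρ0, min_le_right _ _, fun η h0 h1 a ha har => ?_⟩
    refine (h (y := η) ?_ a ⟨ha, by rw [mem_sphere_zero_iff_norm]; exact har⟩).le
    rw [dist_zero_right, Real.norm_eq_abs, abs_of_nonneg h0]
    exact h1.trans_le (min_le_left _ _)
  -- the unit vector of `N`
  obtain ⟨n, hnN, hn1, hnall⟩ : ∃ n ∈ N, ‖n‖ = 1 ∧ ∀ a ∈ N, a = ⟪n, a⟫ • n := by
    have : Nontrivial N := Module.nontrivial_of_finrank_pos (R := ℝ) (by omega)
    obtain ⟨v, hv⟩ := exists_norm_eq N (zero_le_one (α := ℝ))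
    have hv0 : v ≠ 0 := by
      rintro rfl
      simp at hv
    refine ⟨v, v.2, hv, fun a ha => ?_⟩
    obtain ⟨c, hc⟩ := (finrank_eq_one_iff_of_nonzero' v hv0).1 hfin ⟨a, ha⟩
    have h1 : c • (v : V) = a := congrArg Subtype.val hc
    have hv' : ‖(v : V)‖ = 1 := hv
    rw [← h1, real_inner_smul_right, real_inner_self_eq_norm_sq, hv']
    norm_num
  have hne0 : ⟪e, n⟫ = 0 := by
    rw [real_inner_comm]
    exact hS.hN n hnN
  obtain ⟨α, hα⟩ : ∃ α : V → ℝ, α = fun x => ⟪n, ca x⟫ := ⟨_, rfl⟩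
  have hαc : Continuous α := by
    rw [hα]
    exact continuous_const.inner hcac
  have hαn : ∀ x, ‖ca x‖ = |α x| := by
    intro x
    conv_lhs => rw [hnall (ca x) (hmem x).1]
    rw [norm_smul, hn1, mul_one, Real.norm_eq_abs, hα]
  have hpt : ∀ τ σ : ℝ, p + τ • n + σ • e = p + (τ • n + 0) + σ • e := by
    intro τ σ
    rw [add_zero]
  have hαp : ∀ τ σ : ℝ, Ring_t p e (p + τ • n + σ • e) = σ ∧ ca (p + τ • n + σ • e) = τ • n ∧
      cb (p + τ • n + σ • e) = 0 ∧ α (p + τ • n + σ • e) = τ := by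
    intro τ σ
    obtain ⟨h1, h2, h3⟩ := hmk (τ • n) (N.smul_mem _ hnN) 0 hP0 σ
    rw [← hpt] at h1 h2 h3
    refine ⟨h1, h2, h3, ?_⟩
    rw [hα]
    show ⟪n, ca (p + τ • n + σ • e)⟫ = τ
    rw [h2, real_inner_smul_right, real_inner_self_eq_norm_sq, hn1]
    ring
  have hRt : ∀ x, ⟪e, x⟫ = ⟪e, p⟫ + Ring_t p e x := by
    intro x
    rw [Ring_t, inner_sub_left, real_inner_comm, real_inner_comm e p]
    ring
  refine ⟨{x | ‖ca x‖ < r ∧ ‖cb x‖ < ρ ∧ |Ring_t p e x| < ρ},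
    {x | ‖ca x‖ ≤ r ∧ ‖cb x‖ ≤ ρ ∧ |Ring_t p e x| ≤ ρ}, α, r, min η₀ (min δ ρ) / 2,
    ?_, ?_, ?_, hαc, hr0, by positivity, ?_, ?_, n, hne0, ?_, ?_⟩
  · exact (isOpen_lt hcac.norm continuous_const).inter
      ((isOpen_lt hcbc.norm continuous_const).inter (isOpen_lt hct.abs continuous_const))
  · rintro x ⟨h1, h2, h3⟩
    exact ⟨h1.le, h2.le, h3.le⟩
  · exact (isClosed_le hcac.norm continuous_const).inter
      ((isClosed_le hcbc.norm continuous_const).inter (isClosed_le hct.abs continuous_const))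
  · rintro x ⟨h1, h2, h3⟩ hxU hxF hxe'
    have hη1 : Ring_t p e x < δ := by
      have := hRt x
      have h7 : min η₀ (min δ ρ) ≤ δ := (min_le_right _ _).trans (min_le_left _ _)
      linarith
    have hη2 : Ring_t p e x < ρ := by
      have := hRt x
      have h7 : min η₀ (min δ ρ) ≤ ρ := (min_le_right _ _).trans (min_le_right _ _)
      linarith
    rw [← hαn]
    by_contra hne
    have h7 : ‖ca x‖ < r := lt_of_le_of_ne h1 hne
    have h8 : ‖cb x‖ = ρ ∨ Ring_t p e x = -ρ := by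
      by_contra h9
      push Not at h9
      refine hxU ⟨h7, lt_of_le_of_ne h2 h9.1, ?_⟩
      rw [abs_lt]
      exact ⟨lt_of_le_of_ne (abs_le.1 h3).1 (Ne.symm h9.2), hη2⟩
    have h9 := hδ' (ca x) (hmem x).1 (cb x) (hmem x).2 (Ring_t p e x) (h7.trans hr1) h2
      (abs_le.1 h3).1 hη1 h8
    rw [hxe x] at h9
    linarith
  · rintro x ⟨h1, h2, h3⟩ hxF hxt h0
    have h4 : ca x = 0 := by
      rw [← norm_eq_zero, hαn, h0, abs_zero]
    have h5 : Ring_t p e x < 0 := by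
      have := hRt x
      linarith
    have h6 := hneg0 (cb x) (hmem x).2 h2 (Ring_t p e x) (abs_le.1 h3).1 h5
    rw [← h4, hxe x] at h6
    linarith
  · intro τ hτ
    obtain ⟨g1, g2, g3, g4⟩ := hαp τ 0
    rw [zero_smul, add_zero] at g1 g2 g3 g4
    refine ⟨?_, ⟨?_, ?_, ?_⟩, g4⟩
    · by_cases h0 : τ = 0
      · rw [h0, zero_smul, add_zero]
        exact hp.1.le
      · refine (hNa (τ • n) (N.smul_mem _ hnN) ?_ ?_).le
        · intro h1
          rw [smul_eq_zero] at h1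
          rcases h1 with h1 | h1
          · exact h0 h1
          · rw [h1, norm_zero] at hn1
            exact zero_ne_one hn1
        · rw [norm_smul, hn1, mul_one, Real.norm_eq_abs]
          linarith
    · rw [g2, norm_smul, hn1, mul_one, Real.norm_eq_abs]
      exact hτ
    · rw [g3]
      exact hnorm0
    · rw [g1]
      exact habs0
  · intro τ hτ σ hσ hσ1
    obtain ⟨g1, g2, g3, g4⟩ := hαp τ (-σ)
    have hna : ‖τ • n‖ = r := by
      rw [norm_smul, hn1, mul_one, Real.norm_eq_abs]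
      exact hτ
    have hσ2 : σ < η₀ := by
      have h7 : min η₀ (min δ ρ) ≤ η₀ := min_le_left _ _
      linarith
    refine ⟨?_, ⟨?_, ?_, ?_⟩, ?_, g4⟩
    · rw [hpt]
      exact hsph σ hσ hσ2 (τ • n) (N.smul_mem _ hnN) hna
    · rw [g2, hna]
    · rw [g3]
      exact hnorm0
    · rw [g1, abs_neg, abs_of_nonneg hσ]
      linarith
    · rintro ⟨h1, -, -⟩
      rw [g2, hna] at h1
      exact lt_irrefl _ h1

/-- A handle of index one on a connected part creates a map to the circle which does not lift. -/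
theorem locX {F : V → ℝ} {e : V} (he : ‖e‖ = 1) (h : Mo F e) {p : V} (hp : Inward F e p)
    (hi : Idx F e p 1) {a : ℝ} (ha : a < ⟪e, p⟫)
    (hconn : ∀ s, a < s → s < ⟪e, p⟫ → IsPreconnected (wle F e s)) {b : ℝ} (hb : ⟪e, p⟫ < b) :
    ∃ t, ⟪e, p⟫ < t ∧ t < b ∧ ∀ t', ⟪e, p⟫ ≤ t' → t' ≤ t → ¬ LiftS (wle F e t') := by
  obtain ⟨U, L, α, r, η, hU, hUL, hL, hαc, hr, hη, hring, hne, n, hn, hseg, hvert⟩ :=
    LocX_box F h.smooth e he p hp hi
  have hFc : Continuous F := h.smooth.continuous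
  have hz : Continuous fun x : V => ⟪e, x⟫ := continuous_const.inner continuous_id
  have hcl : ∀ s : ℝ, IsClosed (wle F e s) := fun s =>
    (isClosed_le hFc continuous_const).inter (isClosed_le hz continuous_const)
  have hee : ⟪e, e⟫ = 1 := by
    rw [real_inner_self_eq_norm_sq, he]
    norm_num
  refine ⟨min ((⟪e, p⟫ + b) / 2) (⟪e, p⟫ + η), lt_min (by linarith) (by linarith),
    (min_le_left _ _).trans_lt (by linarith), fun t' ht' htt hl => ?_⟩
  have ht2 : t' ≤ ⟪e, p⟫ + η := htt.trans (min_le_right _ _)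
  obtain ⟨B, hB⟩ : ∃ B : Set V, B = wle F e t' := ⟨_, rfl⟩
  have hBc : IsClosed B := by
    rw [hB]
    exact hcl t'
  -- the map
  obtain ⟨ψ, hψ⟩ : ∃ ψ : V → ℝ, ψ = fun x => Real.pi * (1 + α x / r) := ⟨_, rfl⟩
  have hψc : Continuous ψ := by
    rw [hψ]
    exact continuous_const.mul (continuous_const.add (hαc.div_const r))
  have hψr : ∀ x, α x = r → ψ x = 2 * Real.pi := by
    intro x hx
    rw [hψ]
    show Real.pi * (1 + α x / r) = 2 * Real.pi
    rw [hx, div_self hr.ne']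
    ring
  have hψl : ∀ x, α x = -r → ψ x = 0 := by
    intro x hx
    rw [hψ]
    show Real.pi * (1 + α x / r) = 0
    rw [hx, neg_div, div_self hr.ne']
    ring
  have hexp : ∀ x, |α x| = r → Complex.exp (ψ x * Complex.I) = 1 := by
    intro x hx
    rcases (abs_eq hr.le).1 hx with h1 | h1
    · rw [hψr x h1]
      push_cast
      exact Complex.exp_two_pi_mul_I
    · rw [hψl x h1]
      simp
  have hecont : Continuous fun x => Complex.exp (ψ x * Complex.I) :=
    Complex.continuous_exp.comp ((Complex.continuous_ofReal.comp hψc).mul continuous_const)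
  obtain ⟨g, hg, hg1, hg2⟩ := glue_contOn (A := B \ U) (B := B ∩ L) (hBc.sdiff hU) (hBc.inter hL)
    (f := fun _ : V => (1 : ℂ)) (g := fun x => Complex.exp (ψ x * Complex.I)) continuousOn_const
    hecont.continuousOn (by
      rintro x ⟨⟨hx1, hx2⟩, -, hx3⟩
      rw [hB] at hx1
      exact (hexp x (hring x hx3 hx2 hx1.1 (hx1.2.trans ht2))).symm)
  have hBU : B \ U ∪ B ∩ L = B := by
    ext x
    constructor
    · rintro (hx | hx)
      · exact hx.1
      · exact hx.1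
    · intro hx
      by_cases hxU : x ∈ U
      · exact Or.inr ⟨hx, hUL hxU⟩
      · exact Or.inl ⟨hx, hxU⟩
  rw [hBU] at hg
  obtain ⟨θ, hθ, hθe⟩ := hl g (by rw [← hB]; exact hg) (by
    intro x hx
    rw [← hB] at hx
    by_cases hxU : x ∈ U
    · rw [hg2 x ⟨hx, hUL hxU⟩]
      exact Complex.norm_exp_ofReal_mul_I _
    · rw [hg1 x ⟨hx, hxU⟩, norm_one])
  rw [← hB] at hθ hθe
  -- the level slightly below
  obtain ⟨σ, hσ0, hση, hσa⟩ : ∃ σ : ℝ, 0 < σ ∧ σ < η ∧ a < ⟪e, p⟫ - σ := by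
    refine ⟨min η (⟪e, p⟫ - a) / 2, ?_, ?_, ?_⟩
    · have : 0 < min η (⟪e, p⟫ - a) := lt_min hη (by linarith)
      linarith
    · have h1 := min_le_left η (⟪e, p⟫ - a)
      linarith
    · have h1 := min_le_right η (⟪e, p⟫ - a)
      have : 0 < ⟪e, p⟫ - a := by linarith
      linarith
  obtain ⟨C, hC⟩ : ∃ C : Set V, C = wle F e (⟪e, p⟫ - σ) := ⟨_, rfl⟩
  have hCp : IsPreconnected C := by
    rw [hC]
    exact hconn _ hσa (by linarith)
  have hCc : IsClosed C := by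
    rw [hC]
    exact hcl _
  have hCB : C ⊆ B := by
    rw [hC, hB]
    rintro x ⟨h1, h2⟩
    exact ⟨h1, by linarith⟩
  have hCring : ∀ x ∈ C, x ∈ L → x ∉ U → |α x| = r := by
    intro x hx hxL hxU
    rw [hC] at hx
    exact hring x hxL hxU hx.1 (by linarith [hx.2])
  have hCne : ∀ x ∈ C, x ∈ L → α x ≠ 0 := by
    intro x hx hxL
    rw [hC] at hx
    exact hne x hxL hx.1 (by linarith [hx.2])
  -- the lift on `C`
  obtain ⟨w1, hw1, hw1a, hw1b⟩ := glue_contOn (A := (C ∩ L) ∩ {x | α x ≤ 0})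
    (B := (C ∩ L) ∩ {x | 0 ≤ α x}) ((hCc.inter hL).inter (isClosed_le hαc continuous_const))
    ((hCc.inter hL).inter (isClosed_le continuous_const hαc)) (f := ψ)
    (g := fun x => ψ x - 2 * Real.pi) hψc.continuousOn (hψc.sub continuous_const).continuousOn (by
      rintro x ⟨⟨⟨hx1, hx2⟩, hx3⟩, -, hx4⟩
      exact absurd (le_antisymm hx3 hx4) (hCne x hx1 hx2))
  have hCL : (C ∩ L) ∩ {x | α x ≤ 0} ∪ (C ∩ L) ∩ {x | 0 ≤ α x} = C ∩ L := by
    ext x
    constructor
    · rintro (hx | hx)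
      · exact hx.1
      · exact hx.1
    · intro hx
      rcases le_total (α x) 0 with h1 | h1
      · exact Or.inl ⟨hx, h1⟩
      · exact Or.inr ⟨hx, h1⟩
  rw [hCL] at hw1
  obtain ⟨w, hw, hwa, hwb⟩ := glue_contOn (A := C \ U) (B := C ∩ L) (hCc.sdiff hU) (hCc.inter hL)
    (f := fun _ : V => (0 : ℝ)) (g := w1) continuousOn_const hw1 (by
      rintro x ⟨⟨hx1, hx2⟩, -, hx3⟩
      rcases (abs_eq hr.le).1 (hCring x hx1 hx3 hx2) with h1 | h1
      · rw [hw1b x ⟨⟨hx1, hx3⟩, by show 0 ≤ α x; rw [h1]; exact hr.le⟩, hψr x h1, sub_self]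
      · rw [hw1a x ⟨⟨hx1, hx3⟩, by show α x ≤ 0; rw [h1]; linarith⟩, hψl x h1])
  have hCU : C \ U ∪ C ∩ L = C := by
    ext x
    constructor
    · rintro (hx | hx)
      · exact hx.1
      · exact hx.1
    · intro hx
      by_cases hxU : x ∈ U
      · exact Or.inr ⟨hx, hUL hxU⟩
      · exact Or.inl ⟨hx, hxU⟩
  rw [hCU] at hw
  have hwe : ∀ x ∈ C, g x = Complex.exp (w x * Complex.I) := by
    intro x hx
    by_cases hxU : x ∈ U
    · have hxL := hUL hxU
      rw [hg2 x ⟨hCB hx, hxL⟩, hwb x ⟨hx, hxL⟩]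
      rcases le_total (α x) 0 with h1 | h1
      · rw [hw1a x ⟨⟨hx, hxL⟩, h1⟩]
      · rw [hw1b x ⟨⟨hx, hxL⟩, h1⟩]
        push_cast
        rw [sub_mul, Complex.exp_sub, Complex.exp_two_pi_mul_I, div_one]
    · rw [hg1 x ⟨hCB hx, hxU⟩, hwa x ⟨hx, hxU⟩]
      simp
  have hdiv : ∀ (x : V) (s t : ℝ), g x = Complex.exp (s * Complex.I) →
      g x = Complex.exp (t * Complex.I) → Complex.exp (((s - t : ℝ) : ℂ) * Complex.I) = 1 := by
    intro x s t h1 h2
    push_cast
    rw [sub_mul, Complex.exp_sub, ← h1, ← h2, div_self]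
    rw [h1]
    exact Complex.exp_ne_zero _
  have hconst : ∀ x ∈ C, ∀ y ∈ C, θ x - w x = θ y - w y := by
    intro x hx y hy
    exact alu_const hCp (f := fun z => θ z - w z) ((hθ.mono hCB).sub hw)
      (fun z hz' => hdiv z _ _ (hθe z (hCB hz')) (hwe z hz')) hx hy
  -- the vertical segments
  have hpe : ∀ τ σ' : ℝ, ⟪e, p + τ • n + (-σ') • e⟫ = ⟪e, p⟫ - σ' := by
    intro τ σ'
    rw [inner_add_right, inner_add_right, real_inner_smul_right, real_inner_smul_right, hn, hee]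
    ring
  have hv : ∀ τ : ℝ, |τ| = r → θ (p + τ • n + (-σ) • e) = θ (p + τ • n) ∧
      p + τ • n + (-σ) • e ∈ C ∧ w (p + τ • n + (-σ) • e) = 0 := by
    intro τ hτ
    have h1 : ∀ σ' ∈ Icc (0 : ℝ) σ, p + τ • n + (-σ') • e ∈ B \ U := by
      intro σ' hσ'
      obtain ⟨h2, h3, h4, h5⟩ := hvert τ hτ σ' hσ'.1 (by linarith [hσ'.2])
      refine ⟨?_, h4⟩
      rw [hB]
      exact ⟨h2, by rw [hpe]; linarith [hσ'.1]⟩
    obtain ⟨h2, h3, h4, h5⟩ := hvert τ hτ σ hσ0.le hση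
    have hC1 : p + τ • n + (-σ) • e ∈ C := by
      rw [hC]
      exact ⟨h2, (hpe τ σ).le⟩
    refine ⟨?_, hC1, hwa _ ⟨hC1, h4⟩⟩
    have hpc : ContinuousOn (fun σ' : ℝ => p + τ • n + (-σ') • e) (Icc 0 σ) :=
      Continuous.continuousOn (by fun_prop)
    have h6 := alu_const (A := Icc (0 : ℝ) σ) isPreconnected_Icc
      (f := fun σ' => θ (p + τ • n + (-σ') • e)) (hθ.comp hpc fun σ' hσ' => (h1 σ' hσ').1)
      (fun σ' hσ' => by
        rw [← hθe _ (h1 σ' hσ').1]
        exact hg1 _ (h1 σ' hσ')) (x := σ) (x' := 0) ⟨hσ0.le, le_rfl⟩ ⟨le_rfl, hσ0.le⟩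
    simpa using h6
  -- the horizontal segment
  have hh : θ (p + r • n) - 2 * Real.pi = θ (p + (-r) • n) - 0 := by
    have h1 : ∀ τ ∈ Icc (-r) r, p + τ • n ∈ B ∩ L := by
      intro τ hτ
      obtain ⟨h2, h3, h4⟩ := hseg τ (abs_le.2 hτ)
      refine ⟨?_, h3⟩
      rw [hB]
      refine ⟨h2, ?_⟩
      rw [inner_add_right, real_inner_smul_right, hn, mul_zero, add_zero]
      exact ht'
    have hpc : ContinuousOn (fun τ : ℝ => p + τ • n) (Icc (-r) r) :=
      Continuous.continuousOn (by fun_prop)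
    have h6 := alu_const (A := Icc (-r) r) isPreconnected_Icc
      (f := fun τ => θ (p + τ • n) - ψ (p + τ • n))
      ((hθ.comp hpc fun τ hτ => (h1 τ hτ).1).sub (hψc.comp_continuousOn hpc))
      (fun τ hτ => hdiv _ _ _ (hθe _ (h1 τ hτ).1) (hg2 _ (h1 τ hτ))) (x := r) (x' := -r)
      ⟨by linarith, le_rfl⟩ ⟨le_rfl, by linarith⟩
    change θ (p + r • n) - ψ (p + r • n) = θ (p + (-r) • n) - ψ (p + (-r) • n) at h6
    rw [hψr _ (hseg r (by rw [abs_of_pos hr])).2.2,
      hψl _ (hseg (-r) (by rw [abs_neg, abs_of_pos hr])).2.2] at h6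
    exact h6
  obtain ⟨k1, k2, k3⟩ := hv r (abs_of_pos hr)
  obtain ⟨l1, l2, l3⟩ := hv (-r) (by rw [abs_neg, abs_of_pos hr])
  have h9 := hconst _ k2 _ l2
  rw [k1, k3, l1, l3] at h9
  have := Real.pi_pos
  linarith

end Pool.Schoen
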