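import Pool.Agent.H.MP_6c077c_gt.N2.DefsB
import Pool.Agent.H.MP_6c077c_gt.CG.Local

/-! Without points of index zero the part below a height stays connected. -/

set_option autoImplicit false

namespace Pool.Schoen

open Filter Set Metric
open scoped Topology RealInnerProductSpace ContDiff

variable {V : Type*} [NormedAddCommGroup V] [InnerProductSpace ℝ V] [FiniteDimensional ℝ V]

/-- Below a point with `F < 0` there are points with `F < 0`. -/
private theorem Low_down {F : V → ℝ} {e : V} (he : ‖e‖ = 1) (hF : Continuous F) {y₀ : V} {h : ℝ}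
    (h1 : F y₀ < 0) (h2 : ∀ᶠ y in 𝓝 y₀, F y ≤ 0 → h ≤ ⟪e, y⟫) (h3 : ⟪e, y₀⟫ ≤ h) : False := by
  have h4 : Tendsto (fun τ : ℝ => y₀ - τ • e) (𝓝[>] 0) (𝓝 y₀) := by
    have h5 : Tendsto (fun τ : ℝ => y₀ - τ • e) (𝓝 0) (𝓝 (y₀ - (0 : ℝ) • e)) :=
      Continuous.tendsto (by fun_prop) 0
    rw [zero_smul, sub_zero] at h5
    exact h5.mono_left nhdsWithin_le_nhds
  have h5 := h4.eventually (h2.and ((hF.tendsto y₀).eventually_lt_const h1))
  obtain ⟨τ, ⟨h6, h7⟩, h8⟩ := (h5.and self_mem_nhdsWithin).exists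
  have h9 := h6 h7.le
  rw [inner_sub_right, real_inner_smul_right, real_inner_self_eq_norm_sq, he] at h9
  have h10 : 0 < τ := h8
  linarith

/-- At a local minimum of the height on `{F ≤ 0}` the derivative is nonnegative downwards. -/
private theorem Low_deriv {F : V → ℝ} {e : V} (hF : ContDiff ℝ ∞ F) {x v : V} (h1 : F x = 0)
    (h2 : ∀ᶠ y in 𝓝 x, F y ≤ 0 → ⟪e, x⟫ ≤ ⟪e, y⟫) (hv : ⟪e, v⟫ < 0) : 0 ≤ fderiv ℝ F x v := by
  by_contra hc
  push Not at hc
  have hd : HasDerivAt (fun τ : ℝ => F (x + τ • v)) (fderiv ℝ F x v) 0 := by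
    have h3 := cgLocal_deriv hF x v 0
    rwa [zero_smul, add_zero] at h3
  have h3 : Tendsto (fun τ : ℝ => x + τ • v) (𝓝[>] 0) (𝓝 x) := by
    have h5 : Tendsto (fun τ : ℝ => x + τ • v) (𝓝 0) (𝓝 (x + (0 : ℝ) • v)) :=
      Continuous.tendsto (by fun_prop) 0
    rw [zero_smul, add_zero] at h5
    exact h5.mono_left nhdsWithin_le_nhds
  have h4 : ∀ᶠ τ in 𝓝[>] (0 : ℝ), F (x + τ • v) < 0 := by
    have h5 := hd.tendsto_slope
    have h6 := (h5.mono_left (nhdsWithin_mono 0
      (fun τ (hτ : 0 < τ) => (ne_of_gt hτ : τ ≠ 0)))).eventually_lt_const hc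
    filter_upwards [h6, self_mem_nhdsWithin] with τ h7 h8
    have h9 : 0 < τ := h8
    rw [slope_def_field, zero_smul, add_zero, h1, sub_zero, sub_zero] at h7
    by_contra h10
    push Not at h10
    exact absurd h7 (not_lt.2 (div_nonneg h10 h9.le))
  obtain ⟨τ, ⟨h5, h6⟩, h7⟩ := ((h4.and (h3.eventually h2)).and self_mem_nhdsWithin).exists
  have h8 := h6 h5.le
  rw [inner_add_right, real_inner_smul_right] at h8
  have h9 : 0 < τ := h7
  have h10 := mul_neg_of_pos_of_neg h9 hv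
  linarith

/-- The gradient at such a point. -/
private theorem Low_grad {e g : V} (he : ‖e‖ = 1) (hg : g ≠ 0)
    (h : ∀ v : V, ⟪e, v⟫ < 0 → 0 ≤ ⟪g, v⟫) : ∃ l : ℝ, 0 < l ∧ g = -(l • e) := by
  have hee : ⟪e, e⟫ = 1 := by rw [real_inner_self_eq_norm_sq, he]; norm_num
  obtain ⟨w, hw⟩ : ∃ w : V, w = g - ⟪e, g⟫ • e := ⟨_, rfl⟩
  have hwe : ⟪e, w⟫ = 0 := by
    rw [hw, inner_sub_right, real_inner_smul_right, hee]
    ring
  have hgw : g = ⟪e, g⟫ • e + w := by rw [hw]; abel
  have hgw' : ⟪g, w⟫ = ‖w‖ ^ 2 := by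
    rw [← real_inner_self_eq_norm_sq]
    nth_rewrite 1 [hgw]
    rw [inner_add_left, real_inner_smul_left, hwe]
    ring
  have hw0 : w = 0 := by
    by_contra hne
    have hpos : 0 < ‖w‖ ^ 2 := by positivity
    have h1 := h (-e - ((|⟪e, g⟫| + 1) / ‖w‖ ^ 2) • w) (by
      rw [inner_sub_right, inner_neg_right, real_inner_smul_right, hwe, hee]
      norm_num)
    rw [inner_sub_right, inner_neg_right, real_inner_smul_right, hgw',
      div_mul_cancel₀ _ hpos.ne', real_inner_comm g e] at h1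
    have h2 := neg_abs_le ⟪e, g⟫
    have h3 : ⟪g, e⟫ = ⟪e, g⟫ := real_inner_comm _ _
    first
      | linarith
      | (rw [h3] at h1; linarith)
  rw [hw0, add_zero] at hgw
  refine ⟨-⟪e, g⟫, ?_, ?_⟩
  · have h1 := h (-e) (by rw [inner_neg_right, hee]; norm_num)
    rw [inner_neg_right, real_inner_comm] at h1
    refine lt_of_le_of_ne h1 ?_
    intro h2
    apply hg
    rw [hgw]
    have h3 : ⟪e, g⟫ = 0 := by linarith
    rw [h3, zero_smul]
  · rw [neg_smul, neg_neg]
    exact hgw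

/-- PROOF. Otherwise `wle F e s` is the union of disjoint closed sets `A₁`, `A₂` with `wle F e c ⊆ A₁`
and `A₂` nonempty, so the heights of `A₂` are in `(c, s]`. `A₂` is bounded: if `‖hpr e x‖` is larger
than the norms of the zeros of `F` then the vertical line through `x ∈ A₂` does not meet `{F = 0}`, so
its part below `x` is in `wle F e s` and connects `x` to `wle F e c`. Let `x` be a lowest point of the
compact set `A₂`. Near `x` all points of `wle F e s` are in `A₂`, so `F y ≤ 0`, `y` near `x` imply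
`⟪e, x⟫ ≤ ⟪e, y⟫`. So `F x = 0` (else `x - τ e`), `fderiv ℝ F x v ≥ 0` whenever `⟪e, v⟫ < 0`, hence
`gradient F x = -(l • e)`, `l > 0` (regularity): `Inward F e x`. The index `k` of `x` (`h.nd`) is zero:
for `n` in the negative space, `n ≠ 0`, `F (x + τ n) < 0` for small `τ > 0` (`cg_segment` as in
`ext_box`), and a point slightly below has smaller height. Contradiction to `h0`. -/
theorem below_conn {F : V → ℝ} {e : V} (he : ‖e‖ = 1) (h : Mo F e) {c s : ℝ} (hcs : c ≤ s)
    (hc : IsPreconnected (wle F e c)) (hne : (wle F e c).Nonempty)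
    (h0 : ∀ x, Inward F e x → c < ⟪e, x⟫ → ⟪e, x⟫ ≤ s → ¬ Idx F e x 0) :
    IsPreconnected (wle F e s) := by
  have hF := h.smooth.continuous
  have hsub : wle F e c ⊆ wle F e s := fun x hx => ⟨hx.1, hx.2.trans hcs⟩
  have hcl : IsClosed (wle F e s) := by
    have h1 : IsClosed {x : V | F x ≤ 0} := isClosed_le hF continuous_const
    have h2 : IsClosed {x : V | ⟪e, x⟫ ≤ s} := isClosed_le (by fun_prop) continuous_const
    exact h1.inter h2
  obtain ⟨R, hR⟩ := h.bdd.exists_norm_le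
  -- the main step: a closed part which does not meet the part below `c` is empty
  have main : ∀ t t' : Set V, IsClosed t → IsClosed t' → wle F e s ⊆ t ∪ t' →
      wle F e s ∩ (t ∩ t') = ∅ → wle F e c ∩ t' = ∅ → ¬ (wle F e s ∩ t').Nonempty := by
    intro t t' ht ht' hcov hdis hct hnon
    have hmem : ∀ y ∈ wle F e s, y ∈ t' → y ∉ t := fun y hy h1 h2 => by
      have h3 : y ∈ wle F e s ∩ (t ∩ t') := ⟨hy, h2, h1⟩
      rw [hdis] at h3
      exact h3
    have hlow : ∀ y ∈ wle F e s ∩ t', c < ⟪e, y⟫ := by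
      intro y hy
      by_contra h1
      push Not at h1
      have h3 : y ∈ wle F e c ∩ t' := ⟨⟨hy.1.1, h1⟩, hy.2⟩
      rw [hct] at h3
      exact h3
    have hbd : ∀ y ∈ wle F e s ∩ t', ‖y‖ ≤ R + (s - c) := by
      intro y hy
      by_contra hy1
      push Not at hy1
      have hy2 := hlow y hy
      have hy3 := hy.1.2
      obtain ⟨γ, hγ⟩ : ∃ γ : ℝ → V, γ = fun τ => y - τ • e := ⟨_, rfl⟩
      have hγc : Continuous γ := by rw [hγ]; fun_prop
      have hγi : ∀ τ, ⟪e, γ τ⟫ = ⟪e, y⟫ - τ := by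
        intro τ
        rw [hγ]
        show ⟪e, y - τ • e⟫ = _
        rw [inner_sub_right, real_inner_smul_right, real_inner_self_eq_norm_sq, he]
        ring
      have hγ0 : γ 0 = y := by rw [hγ]; simp
      have hne0 : ∀ τ ∈ Icc (0 : ℝ) (⟪e, y⟫ - c), F (γ τ) ≠ 0 := by
        intro τ hτ h1
        have h2 := hR (γ τ) h1
        have h3 : ‖y‖ ≤ ‖γ τ‖ + τ := by
          have h4 : y = γ τ + τ • e := by rw [hγ]; simp
          calc ‖y‖ = ‖γ τ + τ • e‖ := by rw [← h4]
            _ ≤ ‖γ τ‖ + ‖τ • e‖ := norm_add_le _ _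
            _ = ‖γ τ‖ + τ := by rw [norm_smul, he, Real.norm_of_nonneg hτ.1, mul_one]
        linarith [hτ.2]
      have hneg : ∀ τ ∈ Icc (0 : ℝ) (⟪e, y⟫ - c), F (γ τ) ≤ 0 := by
        intro τ hτ
        by_contra h1
        push Not at h1
        have h2 : F (γ 0) ≤ 0 := by rw [hγ0]; exact hy.1.1
        have h3 : (0 : ℝ) ∈ Icc (F (γ 0)) (F (γ τ)) := ⟨h2, h1.le⟩
        obtain ⟨σ, hσ, hσ0⟩ := intermediate_value_Icc hτ.1 (hF.comp hγc).continuousOn h3
        exact hne0 σ ⟨hσ.1, hσ.2.trans hτ.2⟩ hσ0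
      have hseg : IsPreconnected (γ '' Icc (0 : ℝ) (⟪e, y⟫ - c)) :=
        isPreconnected_Icc.image γ hγc.continuousOn
      have hin : γ '' Icc (0 : ℝ) (⟪e, y⟫ - c) ⊆ wle F e s := by
        rintro _ ⟨τ, hτ, rfl⟩
        refine ⟨hneg τ hτ, ?_⟩
        rw [hγi]
        linarith [hτ.1]
      have hend : γ (⟪e, y⟫ - c) ∈ wle F e c := by
        refine ⟨hneg _ ⟨by linarith, le_rfl⟩, ?_⟩
        rw [hγi]
        linarith
      have hend' : γ (⟪e, y⟫ - c) ∈ t := by
        rcases hcov (hsub hend) with h1 | h1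
        · exact h1
        · exfalso
          have h3 : γ (⟪e, y⟫ - c) ∈ wle F e c ∩ t' := ⟨hend, h1⟩
          rw [hct] at h3
          exact h3
      obtain ⟨z, hz, hz'⟩ := isPreconnected_closed_iff.1 hseg t t' ht ht' (hin.trans hcov)
        ⟨_, ⟨_, ⟨by linarith, le_rfl⟩, rfl⟩, hend'⟩
        ⟨y, ⟨0, ⟨le_rfl, by linarith⟩, hγ0⟩, hy.2⟩
      exact hmem z (hin hz) hz'.2 hz'.1
    have hcomp : IsCompact (wle F e s ∩ t') := by
      refine (isCompact_closedBall (0 : V) (R + (s - c))).of_isClosed_subset (hcl.inter ht') ?_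
      intro y hy
      rw [mem_closedBall_zero_iff]
      exact hbd y hy
    obtain ⟨x, hx, hmin⟩ := hcomp.exists_isMinOn hnon
      (show ContinuousOn (fun y : V => ⟪e, y⟫) (wle F e s ∩ t') by fun_prop)
    have hxc := hlow x hx
    have hxs := hx.1.2
    have hloc : ∀ᶠ y in 𝓝 x, F y ≤ 0 → ⟪e, x⟫ ≤ ⟪e, y⟫ := by
      have h1 : ∀ᶠ y in 𝓝 x, y ∉ t := ht.isOpen_compl.mem_nhds (hmem x hx.1 hx.2)
      filter_upwards [h1] with y hy hFy
      by_cases hys : ⟪e, y⟫ ≤ s
      · have h2 : y ∈ wle F e s := ⟨hFy, hys⟩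
        rcases hcov h2 with h3 | h3
        · exact absurd h3 hy
        · exact hmin ⟨h2, h3⟩
      · exact hxs.trans (not_le.1 hys).le
    have hx0 : F x = 0 := by
      rcases (hx.1.1 : F x ≤ 0).lt_or_eq with h1 | h1
      · exact (Low_down he hF h1 hloc le_rfl).elim
      · exact h1
    have hgr : ∀ v : V, fderiv ℝ F x v = ⟪gradient F x, v⟫ := by
      intro v
      rw [gradient, InnerProductSpace.toDual_symm_apply]
    obtain ⟨l, hl, hgl⟩ := Low_grad he (h.reg x hx0) (fun v hv => by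
      rw [← hgr]
      exact Low_deriv h.smooth hx0 hloc hv)
    have hinw : Inward F e x := ⟨hx0, l, hl, hgl⟩
    have hhor : ∀ w : V, ⟪w, e⟫ = 0 → fderiv ℝ F x w = 0 := by
      intro w hw
      rw [hgr, hgl, inner_neg_left, real_inner_smul_left, real_inner_comm, hw]
      simp
    obtain ⟨k, N, P, hNP, hk⟩ := h.nd x ⟨hx0, hhor⟩
    have hk0 : k ≠ 0 := by
      rintro rfl
      exact h0 x hinw hxc hxs ⟨N, P, hNP, hk⟩
    have hNne : N ≠ ⊥ := by
      rintro rfl
      rw [finrank_bot] at hk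
      exact hk0 hk.symm
    obtain ⟨n, hn, hn0⟩ := N.ne_bot_iff.1 hNne
    have hneg := hNP.neg n hn hn0
    have hne' := hNP.hN n hn
    -- the second derivative stays negative near `x`
    have hcont : Continuous fun y : V => fderiv ℝ (fderiv ℝ F) y n n := by
      have h1 : Continuous (fderiv ℝ (fderiv ℝ F)) := by
        have h2 : ContDiff ℝ ∞ (fderiv ℝ F) := h.smooth.fderiv_right (by simp)
        exact h2.continuous_fderiv (by simp)
      exact (h1.clm_apply continuous_const).clm_apply continuous_const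
    have hev : ∀ᶠ y in 𝓝 x, fderiv ℝ (fderiv ℝ F) y n n < 0 :=
      (hcont.tendsto x).eventually_lt_const hneg
    obtain ⟨ρ, hρ, hball⟩ := Metric.eventually_nhds_iff.1 (hev.and (eventually_eventually_nhds.2 hloc))
    obtain ⟨τ, hτ0, hτ⟩ : ∃ τ : ℝ, 0 < τ ∧ τ * ‖n‖ < ρ := by
      have h1 : 0 < ‖n‖ := norm_pos_iff.2 hn0
      refine ⟨ρ / (2 * ‖n‖), by positivity, ?_⟩
      have h2 : ρ / (2 * ‖n‖) * ‖n‖ = ρ / 2 := by
        field_simp
      rw [h2]
      linarith
    have hdist : ∀ σ ∈ Icc (0 : ℝ) 1, dist (x + σ • τ • n) x < ρ := by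
      intro σ hσ
      rw [dist_eq_norm, add_sub_cancel_left, norm_smul, norm_smul, Real.norm_of_nonneg hσ.1,
        Real.norm_of_nonneg hτ0.le]
      have h1 : 0 ≤ τ * ‖n‖ := by positivity
      calc σ * (τ * ‖n‖) ≤ 1 * (τ * ‖n‖) := mul_le_mul_of_nonneg_right hσ.2 h1
        _ < ρ := by rw [one_mul]; exact hτ
    have hseg := cg_segment F h.smooth x (τ • n) (-1)
      (by rw [map_smul, hhor n hne', smul_zero]) (fun σ hσ => by
        have h1 := (hball (hdist σ hσ)).1
        rw [map_smul, map_smul]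
        simp only [smul_eq_mul, smul_apply]
        have h2 : 0 < τ * (τ * -(fderiv ℝ (fderiv ℝ F) (x + σ • τ • n) n n)) := by
          have h3 : 0 < -(fderiv ℝ (fderiv ℝ F) (x + σ • τ • n) n n) := by linarith
          positivity
        linarith)
    rw [hx0, mul_zero] at hseg
    have h1 := (hball (by simpa using hdist 1 ⟨zero_le_one, le_rfl⟩ : dist (x + τ • n) x < ρ)).2
    refine Low_down he hF (y₀ := x + τ • n) (by linarith) h1 ?_
    rw [inner_add_right, real_inner_smul_right, real_inner_comm n e, hne']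
    simp
  rw [isPreconnected_closed_iff]
  intro t t' ht ht' hcov h1 h2
  by_contra h3
  rw [not_nonempty_iff_eq_empty] at h3
  by_cases h4 : (wle F e c ∩ t').Nonempty
  · by_cases h5 : (wle F e c ∩ t).Nonempty
    · obtain ⟨z, hz, hz'⟩ := isPreconnected_closed_iff.1 hc t t' ht ht' (hsub.trans hcov) h5 h4
      have h6 : z ∈ wle F e s ∩ (t ∩ t') := ⟨hsub hz, hz'⟩
      rw [h3] at h6
      exact h6
    · rw [not_nonempty_iff_eq_empty] at h5
      exact main t' t ht' ht (by rwa [union_comm]) (by rwa [inter_comm t' t]) h5 h1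
  · rw [not_nonempty_iff_eq_empty] at h4
    exact main t t' ht ht' hcov h3 h4 h2

end Pool.Schoen
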