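import Pool.Agent.H.MP_6c077c_gt.N2.ConnL
import Pool.Agent.H.MP_6c077c_gt.N2.LocX
import Pool.Agent.H.MP_6c077c_gt.N2.Low
import Pool.Agent.H.MP_6c077c_gt.N2.ClA

/-! Base pieces: above a drill. -/

set_option autoImplicit false

namespace Pool.Schoen

open Filter Set Metric
open scoped Topology RealInnerProductSpace ContDiff

variable {V : Type*} [NormedAddCommGroup V] [InnerProductSpace ℝ V] [FiniteDimensional ℝ V]
variable {f : V → ℝ} {e : V} {L : Set ℝ}

private theorem ClB_neg2 (f : V → ℝ) : (fun x => -(fun y => -f y) x) = f := by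
  funext x
  exact neg_neg _

/-- the points with normal `e` of the other side -/
private theorem ClB_inw {x : V} (hx : Inward (fun z => -f z) e x) : Inward f (-e) x := by
  apply CapClass_neg'
  rwa [neg_neg]

private theorem ClB_inw' {x : V} (hx : Inward f (-e) x) : Inward (fun z => -f z) e x := by
  have h1 := CapClass_neg hx
  rwa [neg_neg] at h1

private theorem ClB_idx (hV : Module.finrank ℝ V = 4) (he : ‖e‖ = 1) (hf : ContDiff ℝ ∞ f) {x : V}
    {j : ℕ} (h : Idx (fun z => -f z) e x j) : ∃ k, k + j = 3 ∧ Idx f e x k := by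
  obtain ⟨k, hk, h1⟩ := BaseN_idx_neg hf.neg he h
  rw [ClB_neg2 f] at h1
  exact ⟨k, by omega, h1⟩

/-- Two critical points in the same gap have the same index. -/
private theorem ClB_one (h : BaseP f e L) {x y : V} (hx : Crit f e x) (hy : Crit f e y) {j k : ℕ}
    (hxj : Idx f e x j) (hyk : Idx f e y k) (hj : j ≠ 0) (hk : k ≠ 0) {c c' : ℝ}
    (hgap : ∀ c'' ∈ L, c'' ≤ c ∨ c' ≤ c'') (h1 : c < ⟪e, x⟫) (h2 : ⟪e, x⟫ < c') (h3 : c < ⟪e, y⟫)
    (h4 : ⟪e, y⟫ < c') : j = k := by
  refine (h.one x y j k hx hy hxj hyk hj hk fun c'' hc'' => ?_).1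
  rcases hgap c'' hc'' with h5 | h5
  · constructor
    · intro h6
      linarith
    · intro h6
      linarith
  · constructor
    · intro h6
      linarith
    · intro h6
      linarith

/-- Above a drill the outer side has a map which does not lift. PROOF. `c` the largest level below `y`,
`c'` the smallest level above. `wle (-f) e c` is preconnected (`out_conn`) and nonempty; between `c` and
`y` there is no point with normal `e` and index `3` (`one`; `y` has index `2`), so `wle (-f) e s` is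
preconnected for `s < ⟪e, y⟫` (`below_conn`); `locX` for `-f` at `y` (index `1` for `-f`): `wle (-f) e t`
does not lift for `t` slightly above `y`, no critical point between; in between `t` and `c'` no index `2`
for `-f` (no cut, `one`): `slab_extS`, `ExtS.add`, `ExtS.liftS`. -/
theorem BaseP.drill (hV : Module.finrank ℝ V = 4) (h : BaseP f e L) {y : V}
    (hy : Inward f (-e) y) (hy2 : Idx f e y 2) :
    ∃ c' ∈ L, ⟪e, y⟫ < c' ∧ (∀ c'' ∈ L, c'' < ⟪e, y⟫ ∨ c' ≤ c'') ∧
      ¬ LiftS (wle (fun x => -f x) e c') := by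
  have he := h.he
  have hF : Mo (fun x => -f x) e := mo_neg he h.mo
  have hFc : Continuous (fun x => -f x) := h.mo.smooth.continuous.neg
  have hcrit : ∀ x, Crit f e x ↔ Inward f e x ∨ Inward f (-e) x := crit_iff he h.mo.reg
  have hcy : Crit f e y := (hcrit y).2 (Or.inr hy)
  have hyL : ⟪e, y⟫ ∉ L := h.reg y hcy
  have hy0 : f y ≤ 0 := hy.1.le
  -- the two neighbours
  obtain ⟨c, ⟨hcL, hcy'⟩, hcmax⟩ : ∃ c ∈ {c | c ∈ L ∧ c < ⟪e, y⟫}, ∀ c'' ∈ {c | c ∈ L ∧
      c < ⟪e, y⟫}, c'' ≤ c := by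
    obtain ⟨c₀, hc₀, hc₀'⟩ := h.lo
    exact Set.exists_max_image _ id (h.fin.subset fun c hc => hc.1) ⟨c₀, hc₀, hc₀' y hy0⟩
  obtain ⟨c', ⟨hcL', hyc'⟩, hcmin⟩ : ∃ c ∈ {c | c ∈ L ∧ ⟪e, y⟫ < c}, ∀ c'' ∈ {c | c ∈ L ∧
      ⟪e, y⟫ < c}, c ≤ c'' := by
    obtain ⟨c₀, hc₀, hc₀'⟩ := h.hi
    exact Set.exists_min_image _ id (h.fin.subset fun c hc => hc.1) ⟨c₀, hc₀, hc₀' y hy0⟩
  have hgap : ∀ c'' ∈ L, c'' ≤ c ∨ c' ≤ c'' := by
    intro c'' hc''
    rcases lt_trichotomy c'' ⟪e, y⟫ with h1 | h1 | h1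
    · exact Or.inl (hcmax c'' ⟨hc'', h1⟩)
    · exact absurd (h1 ▸ hc'') hyL
    · exact Or.inr (hcmin c'' ⟨hc'', h1⟩)
  refine ⟨c', hcL', hyc', fun c'' hc'' => ?_, ?_⟩
  · rcases hgap c'' hc'' with h1 | h1
    · exact Or.inl (lt_of_le_of_lt h1 hcy')
    · exact Or.inr h1
  have hyF : Inward (fun x => -f x) e y := ClB_inw' hy
  have hyF1 : Idx (fun x => -f x) e y 1 := by
    obtain ⟨j, hj, h1⟩ := BaseN_idx_neg h.mo.smooth he hy2
    have h2 : j = 1 := by omega
    rwa [h2] at h1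
  -- below the point the outer side is connected
  have hne : (wle (fun x => -f x) e c).Nonempty := by
    obtain ⟨R, hR⟩ := h.bdd.exists_norm_le
    refine ⟨(-(|c| + |R| + 1)) • e, ?_, ?_⟩
    · have h1 : ‖(-(|c| + |R| + 1)) • e‖ = |c| + |R| + 1 := by
        rw [norm_smul, he, mul_one, norm_neg, Real.norm_of_nonneg (by positivity)]
      have h2 : ¬ f ((-(|c| + |R| + 1)) • e) ≤ 0 := by
        intro h3
        have h4 := hR _ h3
        rw [h1] at h4
        have h5 := le_abs_self R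
        have h6 := abs_nonneg c
        linarith
      show -f ((-(|c| + |R| + 1)) • e) ≤ 0
      linarith
    · rw [real_inner_smul_right, real_inner_self_eq_norm_sq, he]
      have h5 := neg_abs_le c
      have h6 := abs_nonneg R
      linarith
  have hconn : ∀ s, c < s → s < ⟪e, y⟫ → IsPreconnected (wle (fun x => -f x) e s) := by
    intro s hs hsy
    refine below_conn he hF hs.le (h.out_conn hV hcL) hne fun x hx h1 h2 h3 => ?_
    obtain ⟨k, hk, h4⟩ := ClB_idx hV he h.mo.smooth h3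
    have hk3 : k = 3 := by omega
    have h5 := ClB_one h ((hcrit x).2 (Or.inr (ClB_inw hx))) hcy h4 hy2 (by omega) (by norm_num)
      hgap h1 (by linarith) hcy' hyc'
    omega
  obtain ⟨t, ht1, ht2, ht3⟩ := locX he hF hyF hyF1 hcy' hconn hyc'
  -- a regular height
  have hfin : ((fun x : V => ⟪e, x⟫) '' {x | Crit f e x}).Finite := by
    refine Set.Finite.image _ ?_
    have he' : ‖-e‖ = 1 := by rw [norm_neg, he]
    refine ((inward_finite h.mo.smooth h.mo.bdd h.mo.reg he fun x hx =>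
      h.mo.nd x ((hcrit x).2 (Or.inl hx))).union (inward_finite h.mo.smooth h.mo.bdd h.mo.reg he'
      fun x hx => ?_)).subset fun x hx => (hcrit x).1 hx
    obtain ⟨k, hk⟩ := h.mo.nd x ((hcrit x).2 (Or.inr hx))
    exact ⟨k, idx_neg_dir.2 hk⟩
  obtain ⟨t', ⟨h1, h2⟩, h3⟩ := (Set.Ioo_infinite ht1).exists_notMem_finite hfin
  have hreg' : ∀ x, Crit (fun x => -f x) e x → ⟪e, x⟫ ≠ t' := fun x hx hxt =>
    h3 ⟨x, crit_neg.1 hx, hxt⟩
  have hregc : ∀ x, Crit (fun x => -f x) e x → ⟪e, x⟫ ≠ c' := fun x hx hxt =>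
    h.reg x (crit_neg.1 hx) (by rw [hxt]; exact hcL')
  have hext := slab_extS he hF (c := t') (t := c') (by linarith) hreg' hregc (by
    intro x hx h4 h5 h6
    obtain ⟨k, hk, h7⟩ := ClB_idx hV he h.mo.smooth h6
    have hk1 : k = 1 := by omega
    have h8 := ClB_one h ((hcrit x).2 (Or.inr (ClB_inw hx))) hcy h7 hy2 (by omega) (by norm_num)
      hgap (by linarith) h5 hcy' hyc'
    omega)
  intro hl
  refine ht3 t' h1.le h2.le ?_
  have hz : Continuous fun x : V => ⟪e, x⟫ := continuous_const.inner continuous_id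
  have hcB : IsClosed (layS (fun x => -f x) e t' c') :=
    (isClosed_le hFc continuous_const).inter
      ((isClosed_le continuous_const hz).inter (isClosed_le hz continuous_const))
  have hcC : IsClosed (wle (fun x => -f x) e t') :=
    (isClosed_le hFc continuous_const).inter (isClosed_le hz continuous_const)
  have hadd := ExtS.add hcB hcC hext (fun x hx => ⟨hx.1, hx.2.2⟩)
    (fun x hx => ⟨hx.1.1, hx.2.2.1, hx.1.2⟩)
  have hun : wle (fun x => -f x) e t' ∪ layS (fun x => -f x) e t' c' =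
      wle (fun x => -f x) e c' := by
    ext x
    constructor
    · rintro (hx | hx)
      · exact ⟨hx.1, hx.2.trans (by linarith)⟩
      · exact ⟨hx.1, hx.2.2⟩
    · rintro ⟨hx1, hx2⟩
      rcases le_total ⟪e, x⟫ t' with h4 | h4
      · exact Or.inl ⟨hx1, h4⟩
      · exact Or.inr ⟨hx1, h4, hx2⟩
  rw [hun] at hadd
  exact hadd.liftS (fun x hx => ⟨hx.1, hx.2.trans (by linarith)⟩) hl

end Pool.Schoen
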