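import Pool.Agent.H.MP_6c077c_gt.N2.ConnL
import Pool.Agent.H.MP_6c077c_gt.N2.ClA

/-! Base pieces: one step up. -/

set_option autoImplicit false

namespace Pool.Schoen

open Filter Set Metric
open scoped Topology RealInnerProductSpace ContDiff

variable {V : Type*} [NormedAddCommGroup V] [InnerProductSpace ℝ V] [FiniteDimensional ℝ V]
variable {f : V → ℝ} {e : V} {L : Set ℝ}

omit [FiniteDimensional ℝ V] in
private theorem ClC_lay (F : V → ℝ) (e : V) (c : ℝ) : layS F e c c = slW F e c := by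
  ext x
  constructor
  · rintro ⟨h1, h2, h3⟩
    exact ⟨h1, le_antisymm h3 h2⟩
  · rintro ⟨h1, h2⟩
    exact ⟨h1, h2.ge, h2.le⟩

omit [FiniteDimensional ℝ V] in
private theorem ClC_union (F : V → ℝ) (e : V) {c t : ℝ} (hct : c ≤ t) :
    wle F e c ∪ layS F e c t = wle F e t := by
  ext x
  constructor
  · rintro (⟨h1, h2⟩ | ⟨h1, h2, h3⟩)
    · exact ⟨h1, h2.trans hct⟩
    · exact ⟨h1, h3⟩
  · rintro ⟨h1, h2⟩
    rcases le_total ⟪e, x⟫ c with h3 | h3
    · exact Or.inl ⟨h1, h3⟩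
    · exact Or.inr ⟨h1, h3, h2⟩

omit [FiniteDimensional ℝ V] in
private theorem ClC_inter (F : V → ℝ) (e : V) {c t : ℝ} (hct : c ≤ t) :
    wle F e c ∩ layS F e c t = layS F e c c := by
  ext x
  constructor
  · rintro ⟨⟨h1, h2⟩, -, h3, -⟩
    exact ⟨h1, h3, h2⟩
  · rintro ⟨h1, h2, h3⟩
    exact ⟨⟨h1, h3⟩, h1, h2, h3.trans hct⟩

omit [FiniteDimensional ℝ V] in
private theorem ClC_wle_closed {F : V → ℝ} (hF : Continuous F) (e : V) (c : ℝ) :
    IsClosed (wle F e c) := by
  have hz : Continuous fun x : V => ⟪e, x⟫ := continuous_const.inner continuous_id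
  exact (isClosed_le hF continuous_const).inter (isClosed_le hz continuous_const)

private theorem ClC_excl (he : ‖e‖ = 1) {x : V} (h1 : Inward f e x) (h2 : Inward f (-e) x) :
    False := by
  obtain ⟨-, l, hl, g1⟩ := h1
  obtain ⟨-, m, hm, g2⟩ := h2
  have h3 : (l + m) • e = 0 := by
    rw [smul_neg, neg_neg] at g2
    rw [add_smul]
    have h4 : -(l • e) = m • e := g1.symm.trans g2
    rw [← h4, add_neg_cancel]
  rcases smul_eq_zero.1 h3 with h4 | h4
  · linarith
  · rw [h4, norm_zero] at he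
    exact zero_ne_one he

/-- One step up. PROOF. If there is no cut in the gap: `slab_extS` for `-f`, `ExtS.add`, `ExtS.liftS`.
Otherwise there is no tube, drill or wall in the gap (`one`). `v` nonliftable on `wle (-f) e c`, `u`
nonliftable on the slice at `t` (`rk_out`), extended down over the slab (`slab_extS_dn` for `-f`: no tube);
it does not lift on the slice at `c` (`slab_inj` for `-f`: no drill). `Dep2` on the slice at `c`:
`v ^ a * u ^ b` lifts there, `(a, b) ≠ 0`, `a ≠ 0` as `u` does not lift. `not_liftS_glue` with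
`A = wle (-f) e c`, `B = layS (-f) e c t`. -/
theorem BaseP.climb (hV : Module.finrank ℝ V = 4) (h : BaseP f e L) {c t : ℝ} (hcL : c ∈ L)
    (htL : t ∈ L) (hct : c < t) (hn : ∀ c' ∈ L, c' ≤ c ∨ t ≤ c') (hc0 : (slW f e c).Nonempty)
    (ht0 : (slW f e t).Nonempty) (hl : ¬ LiftS (wle (fun x => -f x) e c)) :
    ¬ LiftS (wle (fun x => -f x) e t) := by
  have hm := mo_neg h.he h.mo
  have hcont : Continuous fun x => -f x := hm.smooth.continuous
  have hcr : ∀ x, Crit (fun x => -f x) e x → ⟪e, x⟫ ≠ c := fun x hx hxc =>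
    h.reg x (crit_neg.1 hx) (hxc ▸ hcL)
  have htr : ∀ x, Crit (fun x => -f x) e x → ⟪e, x⟫ ≠ t := fun x hx hxt =>
    h.reg x (crit_neg.1 hx) (hxt ▸ htL)
  have hgap : ∀ x y : V, c < ⟪e, x⟫ → ⟪e, x⟫ < t → c < ⟪e, y⟫ → ⟪e, y⟫ < t →
      ∀ c' ∈ L, (⟪e, x⟫ < c' ↔ ⟪e, y⟫ < c') := by
    intro x y hx1 hx2 hy1 hy2 c' hc'
    rcases hn c' hc' with h1 | h1
    · exact ⟨fun h2 => absurd h2 (by linarith), fun h2 => absurd h2 (by linarith)⟩
    · exact ⟨fun _ => by linarith, fun _ => by linarith⟩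
  by_cases hcut : ∀ x, Inward f (-e) x → c < ⟪e, x⟫ → ⟪e, x⟫ < t → ¬ Idx f e x 1
  · -- no cut in the gap
    have h2 : NoI (fun x => -f x) e 2 c t := (noI_neg hV h.he h.mo (k := 1) (by norm_num)).2 hcut
    have h3 := slab_extS h.he hm hct.le hcr htr h2
    intro hlt
    have h4 : ExtS (wle (fun x => -f x) e c) (wle (fun x => -f x) e c ∪ layS (fun x => -f x) e c t) :=
      ExtS.add (layS_closed hcont e c t) (ClC_wle_closed hcont e c) h3
        (fun x hx => ⟨hx.1, hx.2.2⟩) (ClC_inter _ e hct.le).subset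
    exact hl (h4.liftS subset_union_left (by rw [ClC_union _ e hct.le]; exact hlt))
  · -- a cut
    push Not at hcut
    obtain ⟨y, hy, hy1, hy2, hyi⟩ := hcut
    have hyc : Crit f e y := (crit_iff h.he h.mo.reg y).2 (Or.inr hy)
    -- no drill
    have hdr : NoI (fun x => -f x) e 1 c t := by
      refine (noI_neg hV h.he h.mo (k := 2) (by norm_num)).2 fun x hx hx1 hx2 hxi => ?_
      have h1 := h.one x y 2 1 ((crit_iff h.he h.mo.reg x).2 (Or.inr hx)) hyc hxi hyi (by norm_num)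
        (by norm_num) (hgap x y hx1 hx2 hy1 hy2)
      exact absurd h1.1 (by norm_num)
    -- no tube
    have htu : NoI (fun x => -f x) (-e) 2 (-t) (-c) := by
      intro x hx hx1 hx2 hxi
      rw [inner_neg_left] at hx1 hx2
      have hx' : Inward f e x := CapClass_neg' hx
      have hxc : Crit f e x := (crit_iff h.he h.mo.reg x).2 (Or.inl hx')
      obtain ⟨j, hj, hjx⟩ := BaseN_idx_neg hm.smooth h.he (idx_neg_dir.1 hxi)
      have hjx' : Idx f e x j := by simpa using hjx
      have hj1 : j = 1 := by omega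
      rw [hj1] at hjx'
      have h1 := h.one x y 1 1 hxc hyc hjx' hyi (by norm_num) (by norm_num)
        (hgap x y (by linarith) (by linarith) hy1 hy2)
      exact ClC_excl h.he (h1.2.1 hx') hy
    obtain ⟨v, hvc, hv1, hvn⟩ : ∃ v : V → ℂ, ContinuousOn v (wle (fun x => -f x) e c) ∧
        (∀ x ∈ wle (fun x => -f x) e c, ‖v x‖ = 1) ∧ ¬ Lifts (wle (fun x => -f x) e c) v := by
      unfold LiftS at hl
      push Not at hl
      obtain ⟨v, h1, h2, h3⟩ := hl
      refine ⟨v, h1, h2, ?_⟩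
      rintro ⟨w, hw, hw'⟩
      obtain ⟨x, hx, hx'⟩ := h3 w hw
      exact hx' (hw' x hx)
    obtain ⟨u, huc, hu1, hun⟩ : ∃ u : V → ℂ, ContinuousOn u (layS (fun x => -f x) e t t) ∧
        (∀ x ∈ layS (fun x => -f x) e t t, ‖u x‖ = 1) ∧
        ¬ Lifts (layS (fun x => -f x) e t t) u := by
      have h0 := (h.rk_out hV htL ht0).1
      rw [← ClC_lay] at h0
      unfold LiftS at h0
      push Not at h0
      obtain ⟨v, h1, h2, h3⟩ := h0
      refine ⟨v, h1, h2, ?_⟩
      rintro ⟨w, hw, hw'⟩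
      obtain ⟨x, hx, hx'⟩ := h3 w hw
      exact hx' (hw' x hx)
    obtain ⟨U, hUc, hU1, hUe⟩ := slab_extS_dn h.he hm hct.le hcr htr htu u huc hu1
    have hUn : ¬ Lifts (layS (fun x => -f x) e c c) U := by
      intro h1
      have h2 := slab_inj h.he hm hct.le hcr htr hdr hUc hU1 h1
      refine hun ((h2.mono ?_).congr hUe)
      exact fun x hx => ⟨hx.1, hct.le.trans hx.2.1, hx.2.2⟩
    have hs1 : layS (fun x => -f x) e c c ⊆ wle (fun x => -f x) e c := fun x hx => ⟨hx.1, hx.2.2⟩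
    have hs2 : layS (fun x => -f x) e c c ⊆ layS (fun x => -f x) e c t := layS_mono hct.le
    obtain ⟨a, b, hab, hL⟩ := (h.rk_out hV hcL hc0).2 v U
      (by rw [← ClC_lay]; exact hvc.mono hs1) (by rw [← ClC_lay]; exact hUc.mono hs2)
      (by rw [← ClC_lay]; exact fun x hx => hv1 x (hs1 hx))
      (by rw [← ClC_lay]; exact fun x hx => hU1 x (hs2 hx))
    rw [← ClC_lay] at hL
    have ha : a ≠ 0 := by
      rintro rfl
      have hb : b ≠ 0 := hab.resolve_left fun h => h rfl
      refine hUn (lifts_of_zpow (hUc.mono hs2) (fun x hx => hU1 x (hs2 hx)) hb ?_)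
      refine hL.congr fun x _ => ?_
      rw [zpow_zero, one_mul]
    have h5 := not_liftS_glue (ClC_wle_closed hcont e c) (layS_closed hcont e c t) hvc hv1 hvn hUc
      hU1 ha (b := b) (by rw [ClC_inter _ e hct.le]; exact hL)
    rwa [ClC_union _ e hct.le] at h5

end Pool.Schoen
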