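import Pool.Agent.H.MP_6c077c_gt.N2.DefsB
import Pool.Agent.H.MP_6c077c_gt.Ix.DescC
import Pool.Agent.H.MP_6c077c_gt.Gd.SliceGeo

/-! Components of regular slices are relatively clopen. -/

set_option autoImplicit false

namespace Pool.Schoen

open Filter Set Metric
open scoped Topology RealInnerProductSpace ContDiff

private theorem Cmp_fd {E : Type*} [NormedAddCommGroup E] [InnerProductSpace ℝ E]
    [FiniteDimensional ℝ E] (g : E → ℝ) (x v : E) : fderiv ℝ g x v = ⟪gradient g x, v⟫ :=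
  (InnerProductSpace.toDual_symm_apply (𝕜 := ℝ)).symm

private theorem Cmp_reg {E : Type*} [NormedAddCommGroup E] [InnerProductSpace ℝ E]
    [FiniteDimensional ℝ E] {g : E → ℝ} (hg : ContDiff ℝ ∞ g)
    (hr : ∀ x, g x = 0 → gradient g x ≠ 0) : Reg g 0 := by
  intro x hx
  refine ⟨-gradient g x, desc1_smooth ((hg.of_le (by simp)).contDiffAt) ?_⟩
  rw [Cmp_fd, inner_neg_right, real_inner_self_eq_norm_sq]
  have h1 : 0 < ‖gradient g x‖ := norm_pos_iff.2 (hr x hx)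
  have h2 := pow_pos h1 2
  linarith

private theorem Cmp_comp {Z : Type*} [TopologicalSpace Z] {A : Set Z} {x : Z} (hx : x ∈ A) :
    connectedComponentIn A x = {y | Jn A x y} := by
  ext y
  constructor
  · intro hy
    exact ⟨connectedComponentIn A x, connectedComponentIn_subset A x,
      isPreconnected_connectedComponentIn, mem_connectedComponentIn hx, hy⟩
  · rintro ⟨K, h1, h2, h3, h4⟩
    exact h2.subset_connectedComponentIn h3 h1 h4

/-- PROOF. `reg_local` (Ts/Sep.lean): near a point of `{g ≤ 0}` all points of `{g ≤ 0}` are joined. -/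
theorem comp_clopen {E : Type*} [NormedAddCommGroup E] [InnerProductSpace ℝ E]
    [FiniteDimensional ℝ E] {g : E → ℝ} (hg : ContDiff ℝ ∞ g)
    (hr : ∀ x, g x = 0 → gradient g x ≠ 0) (x : E) :
    IsClosed (connectedComponentIn {y | g y ≤ 0} x) ∧
      IsClosed ({y | g y ≤ 0} \ connectedComponentIn {y | g y ≤ 0} x) := by
  by_cases hx : g x ≤ 0
  · have h1 := sep_clop hg.continuous (Cmp_reg hg hr) (x := x)
    rw [Cmp_comp (A := {y | g y ≤ 0}) hx]
    exact ⟨h1.cl, h1.cl'⟩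
  · rw [connectedComponentIn_eq_empty (F := {y | g y ≤ 0}) hx, sdiff_empty]
    exact ⟨isClosed_empty, isClosed_le hg.continuous continuous_const⟩

variable {V : Type*} [NormedAddCommGroup V] [InnerProductSpace ℝ V] [FiniteDimensional ℝ V]

/-- The map `w ↦ w + c • e` of the hyperplane carries the components of `{slc f e c ≤ 0}` to those of
`slW f e c`. -/
theorem cmpW_eq {f : V → ℝ} {e : V} (he : ‖e‖ = 1) {x : V} (hx : f x ≤ 0) :
    cmpW f e x = (fun w : (ℝ ∙ e)ᗮ => (w : V) + ⟪e, x⟫ • e) ''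
      connectedComponentIn {w : (ℝ ∙ e)ᗮ | slc f e ⟪e, x⟫ w ≤ 0} (hpr e x) := by
  have hxs : x ∈ slW f e ⟪e, x⟫ := ⟨hx, rfl⟩
  have hxc : hpr e x ∈ {w : (ℝ ∙ e)ᗮ | slc f e ⟪e, x⟫ w ≤ 0} := by
    show slc f e ⟪e, x⟫ (hpr e x) ≤ 0
    rw [hpr_slc he rfl]
    exact hx
  apply Subset.antisymm
  · intro y hy
    have hys : y ∈ slW f e ⟪e, x⟫ := connectedComponentIn_subset _ _ hy
    refine ⟨hpr e y, ?_, ?_⟩
    · have h1 : IsPreconnected (hprL e '' cmpW f e x) :=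
        isPreconnected_connectedComponentIn.image _ (hprL e).continuous.continuousOn
      refine h1.subset_connectedComponentIn ⟨x, mem_connectedComponentIn hxs, rfl⟩ ?_
        ⟨y, hy, rfl⟩
      rintro _ ⟨z, hz, rfl⟩
      have hzs : z ∈ slW f e ⟪e, x⟫ := connectedComponentIn_subset _ _ hz
      show slc f e ⟪e, x⟫ (hpr e z) ≤ 0
      rw [hpr_slc he hzs.2]
      exact hzs.1
    · show ((hpr e y : (ℝ ∙ e)ᗮ) : V) + ⟪e, x⟫ • e = y
      rw [← hys.2]
      exact hpr_add he y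
  · have hcont : Continuous fun w : (ℝ ∙ e)ᗮ => (w : V) + ⟪e, x⟫ • e :=
      continuous_subtype_val.add continuous_const
    refine (isPreconnected_connectedComponentIn.image _
      hcont.continuousOn).subset_connectedComponentIn
      ⟨hpr e x, mem_connectedComponentIn hxc, hpr_add he x⟩ ?_
    rintro _ ⟨w, hw, rfl⟩
    have h1 : w ∈ {w : (ℝ ∙ e)ᗮ | slc f e ⟪e, x⟫ w ≤ 0} := connectedComponentIn_subset _ _ hw
    exact ⟨h1, inner_hpr he w _⟩

/-- PROOF. `comp_clopen` for `slc f e c` (`slc_smooth`, `slc_reg`) and `cmpW_eq`. -/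
theorem cmpW_clopen {f : V → ℝ} {e : V} (he : ‖e‖ = 1) (h : Mo f e) {x : V} (hx : f x ≤ 0)
    (hc : ∀ y, Crit f e y → ⟪e, y⟫ ≠ ⟪e, x⟫) :
    IsClosed (cmpW f e x) ∧ IsClosed (slW f e ⟪e, x⟫ \ cmpW f e x) := by
  have hreg : ∀ w : (ℝ ∙ e)ᗮ, slc f e ⟪e, x⟫ w = 0 → gradient (slc f e ⟪e, x⟫) w ≠ 0 := by
    refine slc_reg h.smooth he fun y hy hye l hl => hc y ⟨hy, fun w hw => ?_⟩ hye
    rw [Cmp_fd, hl, inner_smul_left, real_inner_comm, hw, mul_zero]
  obtain ⟨h1, h2⟩ := comp_clopen (slc_smooth h.smooth e ⟪e, x⟫) hreg (hpr e x)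
  have hE : IsClosed {y : V | ⟪e, y⟫ = ⟪e, x⟫} :=
    isClosed_eq (continuous_const.inner continuous_id) continuous_const
  have key : ∀ C : Set (ℝ ∙ e)ᗮ, (fun w : (ℝ ∙ e)ᗮ => (w : V) + ⟪e, x⟫ • e) '' C =
      {y : V | ⟪e, y⟫ = ⟪e, x⟫} ∩ hprL e ⁻¹' C := by
    intro C
    ext y
    constructor
    · rintro ⟨w, hw, rfl⟩
      refine ⟨inner_hpr he w _, ?_⟩
      show hpr e ((w : V) + ⟪e, x⟫ • e) ∈ C
      rw [hpr_coe he]
      exact hw
    · rintro ⟨hy, hyC⟩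
      refine ⟨hpr e y, hyC, ?_⟩
      show ((hpr e y : (ℝ ∙ e)ᗮ) : V) + ⟪e, x⟫ • e = y
      have hy' : ⟪e, y⟫ = ⟪e, x⟫ := hy
      rw [← hy']
      exact hpr_add he y
  have h3 : slW f e ⟪e, x⟫ = (fun w : (ℝ ∙ e)ᗮ => (w : V) + ⟪e, x⟫ • e) ''
      {w : (ℝ ∙ e)ᗮ | slc f e ⟪e, x⟫ w ≤ 0} := by
    rw [key]
    ext y
    constructor
    · rintro ⟨hy1, hy2⟩
      refine ⟨hy2, ?_⟩
      show slc f e ⟪e, x⟫ (hpr e y) ≤ 0
      rw [hpr_slc he hy2]
      exact hy1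
    · rintro ⟨hy1, hy2⟩
      have hy3 : slc f e ⟪e, x⟫ (hpr e y) ≤ 0 := hy2
      rw [hpr_slc he hy1] at hy3
      exact ⟨hy3, hy1⟩
  have hinj : Function.Injective fun w : (ℝ ∙ e)ᗮ => (w : V) + ⟪e, x⟫ • e := by
    intro w w' hww
    exact Subtype.ext (add_right_cancel (b := ⟪e, x⟫ • e) hww)
  constructor
  · rw [cmpW_eq he hx, key]
    exact hE.inter (h1.preimage (hprL e).continuous)
  · rw [cmpW_eq he hx, h3, ← image_sdiff hinj, key]
    exact hE.inter (h2.preimage (hprL e).continuous)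

end Pool.Schoen
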