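import Pool.Agent.H.MP_6c077c_gt.N2.DefsB

/-! Separation by relatively clopen parts. -/

set_option autoImplicit false

namespace Pool.Schoen

open Filter Set Metric
open scoped Topology RealInnerProductSpace

/-- Two points of a compact Hausdorff space in different components are separated by a clopen set. -/
private theorem Sepc_point {Y : Type*} [TopologicalSpace Y] [T2Space Y] [CompactSpace Y] {a b : Y}
    (h : b ∉ connectedComponent a) : ∃ s : Set Y, IsClopen s ∧ a ∈ s ∧ b ∉ s := by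
  rw [connectedComponent_eq_iInter_isClopen, mem_iInter] at h
  push Not at h
  obtain ⟨⟨s, hs, has⟩, hbs⟩ := h
  exact ⟨s, hs, has, hbs⟩

private theorem Sepc_one {Y : Type*} [TopologicalSpace Y] [T2Space Y] [CompactSpace Y] {a : Y}
    {B : Set Y} (hB : IsClosed B) (h : ∀ b ∈ B, b ∉ connectedComponent a) :
    ∃ s : Set Y, IsClopen s ∧ a ∈ s ∧ Disjoint s B := by
  refine hB.isCompact.induction_on (p := fun S => ∃ s : Set Y, IsClopen s ∧ a ∈ s ∧ Disjoint s S)
    ⟨univ, isClopen_univ, mem_univ a, disjoint_empty _⟩ ?_ ?_ ?_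
  · rintro S T hST ⟨s, h1, h2, h3⟩
    exact ⟨s, h1, h2, h3.mono_right hST⟩
  · rintro S T ⟨s, h1, h2, h3⟩ ⟨t, h4, h5, h6⟩
    refine ⟨s ∩ t, h1.inter h4, ⟨h2, h5⟩, ?_⟩
    rw [disjoint_union_right]
    exact ⟨h3.mono_left inter_subset_left, h6.mono_left inter_subset_right⟩
  · intro b hb
    obtain ⟨s, h1, h2, h3⟩ := Sepc_point (h b hb)
    exact ⟨sᶜ, mem_nhdsWithin_of_mem_nhds (h1.compl.isOpen.mem_nhds h3), s, h1, h2,
      disjoint_compl_right⟩

private theorem Sepc_two {Y : Type*} [TopologicalSpace Y] [T2Space Y] [CompactSpace Y]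
    {A B : Set Y} (hA : IsClosed A) (hB : IsClosed B)
    (h : ∀ a ∈ A, ∀ b ∈ B, b ∉ connectedComponent a) :
    ∃ s : Set Y, IsClopen s ∧ A ⊆ s ∧ Disjoint s B := by
  refine hA.isCompact.induction_on (p := fun S => ∃ s : Set Y, IsClopen s ∧ S ⊆ s ∧ Disjoint s B)
    ⟨∅, isClopen_empty, empty_subset _, empty_disjoint _⟩ ?_ ?_ ?_
  · rintro S T hST ⟨s, h1, h2, h3⟩
    exact ⟨s, h1, hST.trans h2, h3⟩
  · rintro S T ⟨s, h1, h2, h3⟩ ⟨t, h4, h5, h6⟩
    refine ⟨s ∪ t, h1.union h4, union_subset_union h2 h5, ?_⟩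
    rw [disjoint_union_left]
    exact ⟨h3, h6⟩
  · intro a ha
    obtain ⟨s, h1, h2, h3⟩ := Sepc_one hB (h a ha)
    exact ⟨s, mem_nhdsWithin_of_mem_nhds (h1.isOpen.mem_nhds h2), s, h1, Subset.rfl, h3⟩

/-- A continuous map of a connected set to `{0, 1}` is constant. -/
private theorem Sepc_const {Y : Type*} [TopologicalSpace Y] {C : Set Y} (hC : IsPreconnected C)
    {U : Y → ℝ} (hU : ContinuousOn U C) (h01 : ∀ x ∈ C, U x = 0 ∨ U x = 1) {x y : Y} (hx : x ∈ C)
    (hy : y ∈ C) (h0 : U x = 0) (h1 : U y = 1) : False := by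
  obtain ⟨z, hz, hz'⟩ := (hC.image U hU).Icc_subset (mem_image_of_mem U hx)
    (mem_image_of_mem U hy) (show (1 / 2 : ℝ) ∈ Icc (U x) (U y) by
      rw [h0, h1]
      constructor <;> norm_num)
  rcases h01 z hz with h | h <;> rw [h] at hz' <;> norm_num at hz'

/-- Two closed parts of a compact set which are not joined by a connected subset are separated by a
relatively clopen part. PROOF. In the compact Hausdorff space `K` the component of `a` is the
intersection of the clopen sets containing `a` (`connectedComponent_eq_iInter_isClopen`); it misses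
`B`, so by compactness of `B` one clopen set containing `a` misses `B`; finitely many of these cover
`A`. -/
theorem clopen_sep {X : Type*} [TopologicalSpace X] [T2Space X] {K A B : Set X} (hK : IsCompact K)
    (hA : IsClosed A) (hB : IsClosed B) (hAK : A ⊆ K) (hBK : B ⊆ K)
    (h : ∀ a ∈ A, ∀ b ∈ B, ¬ Jn K a b) :
    ∃ Q ⊆ K, IsClosed Q ∧ IsClosed (K \ Q) ∧ A ⊆ Q ∧ Disjoint Q B := by
  have hKc : CompactSpace ↥K := isCompact_iff_compactSpace.1 hK
  obtain ⟨s, hs, hAs, hsB⟩ := Sepc_two (Y := ↥K) (A := Subtype.val ⁻¹' A) (B := Subtype.val ⁻¹' B)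
    (hA.preimage continuous_subtype_val) (hB.preimage continuous_subtype_val) (by
      intro a ha b hb hab
      refine h a.1 ha b.1 hb ⟨Subtype.val '' connectedComponent a, ?_,
        isPreconnected_connectedComponent.image _ continuous_subtype_val.continuousOn,
        ⟨a, mem_connectedComponent, rfl⟩, ⟨b, hab, rfl⟩⟩
      rintro _ ⟨x, -, rfl⟩
      exact x.2)
  refine ⟨Subtype.val '' s, ?_, ?_, ?_, ?_, ?_⟩
  · rintro _ ⟨x, -, rfl⟩
    exact x.2
  · exact (hs.isClosed.isCompact.image continuous_subtype_val).isClosed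
  · have h1 : K \ Subtype.val '' s = Subtype.val '' sᶜ := by
      ext x
      constructor
      · rintro ⟨hx, hxs⟩
        exact ⟨⟨x, hx⟩, fun h' => hxs ⟨⟨x, hx⟩, h', rfl⟩, rfl⟩
      · rintro ⟨y, hy, rfl⟩
        refine ⟨y.2, ?_⟩
        rintro ⟨z, hz, hzy⟩
        rw [Subtype.ext hzy] at hz
        exact hy hz
    rw [h1]
    exact (hs.compl.isClosed.isCompact.image continuous_subtype_val).isClosed
  · intro x hx
    exact ⟨⟨x, hAK hx⟩, hAs hx, rfl⟩
  · rw [Set.disjoint_left]
    rintro _ ⟨x, hx, rfl⟩ hxB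
    exact Set.disjoint_left.1 hsB hx hxB

/-- Extension of locally constant maps: if a closed part `A` of the compact set `K` meets every
component of `K` in a part which is joined in `A`, then locally constant maps extend. PROOF.
`clopen_sep` for the parts `{u = 0}` and `{u = 1}` of `A`. -/
theorem extB_of_jn {X : Type*} [TopologicalSpace X] [T2Space X] {K A : Set X} (hK : IsCompact K)
    (hA : IsClosed A) (hAK : A ⊆ K) (h : ∀ x ∈ A, ∀ y ∈ A, Jn K x y → Jn A x y) : ExtB A K := by
  classical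
  intro u hu hu01
  have hc : ∀ c : ℝ, IsClosed (A ∩ {x | u x = c}) := fun c =>
    hu.preimage_isClosed_of_isClosed hA isClosed_singleton
  obtain ⟨Q, hQK, hQ1, hQ2, hAQ, hQB⟩ := clopen_sep hK (hc 1) (hc 0)
    (inter_subset_left.trans hAK) (inter_subset_left.trans hAK) (by
      rintro a ⟨ha, ha1⟩ b ⟨hb, hb0⟩ hj
      obtain ⟨C, hCA, hC, haC, hbC⟩ := h a ha b hb hj
      exact Sepc_const hC (hu.mono hCA) (fun x hx => hu01 x (hCA hx)) hbC haC hb0 ha1)
  refine ⟨fun x => if x ∈ Q then 1 else 0, ?_, ?_, ?_⟩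
  · have h1 : ContinuousOn (fun x => if x ∈ Q then (1 : ℝ) else 0) Q :=
      (continuousOn_const (c := (1 : ℝ))).congr fun x hx => if_pos hx
    have h2 : ContinuousOn (fun x => if x ∈ Q then (1 : ℝ) else 0) (K \ Q) :=
      (continuousOn_const (c := (0 : ℝ))).congr fun x hx => if_neg hx.2
    have h3 := h1.union_of_isClosed h2 hQ1 hQ2
    rwa [show Q ∪ K \ Q = K from Set.union_sdiff_cancel hQK] at h3
  · intro x _
    show (if x ∈ Q then (1 : ℝ) else 0) = 0 ∨ (if x ∈ Q then (1 : ℝ) else 0) = 1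
    split_ifs <;> simp
  · intro x hx
    show (if x ∈ Q then (1 : ℝ) else 0) = u x
    rcases hu01 x hx with h1 | h1
    · rw [if_neg (fun hxQ => Set.disjoint_left.1 hQB hxQ ⟨hx, h1⟩), h1]
    · rw [if_pos (hAQ ⟨hx, h1⟩), h1]

/-- The converse. PROOF. If `x`, `y` are joined in `K` and not in `A` then by `clopen_sep` (for `A`,
`{x}`, `{y}`) there is a locally constant map of `A` with `u x = 1`, `u y = 0`; its extension is
constant on the connected set joining them. -/
theorem ExtB.jn {X : Type*} [TopologicalSpace X] [T2Space X] {K A : Set X} (hA : IsCompact A)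
    (h : ExtB A K) (hAK : A ⊆ K) : ∀ x ∈ A, ∀ y ∈ A, Jn K x y → Jn A x y := by
  classical
  intro x hx y hy hj
  by_contra hno
  obtain ⟨Q, hQA, hQ1, hQ2, hxQ, hyQ⟩ := clopen_sep hA (isClosed_singleton (x := x))
    (isClosed_singleton (x := y)) (singleton_subset_iff.2 hx) (singleton_subset_iff.2 hy) (by
      rintro a rfl b rfl
      exact hno)
  rw [singleton_subset_iff] at hxQ
  rw [disjoint_singleton_right] at hyQ
  have h1 : ContinuousOn (fun x => if x ∈ Q then (1 : ℝ) else 0) Q :=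
    (continuousOn_const (c := (1 : ℝ))).congr fun x hx => if_pos hx
  have h2 : ContinuousOn (fun x => if x ∈ Q then (1 : ℝ) else 0) (A \ Q) :=
    (continuousOn_const (c := (0 : ℝ))).congr fun x hx => if_neg hx.2
  have h3 := h1.union_of_isClosed h2 hQ1 hQ2
  rw [show Q ∪ A \ Q = A from Set.union_sdiff_cancel hQA] at h3
  obtain ⟨U, hU, hU01, hUA⟩ := h _ h3 (fun z _ => by
    show (if z ∈ Q then (1 : ℝ) else 0) = 0 ∨ (if z ∈ Q then (1 : ℝ) else 0) = 1
    split_ifs <;> simp)
  obtain ⟨C, hCK, hC, hxC, hyC⟩ := hj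
  refine Sepc_const hC (hU.mono hCK) (fun z hz => hU01 z (hCK hz)) hyC hxC ?_ ?_
  · rw [hUA y hy]
    exact if_neg hyQ
  · rw [hUA x hx]
    exact if_pos hxQ

end Pool.Schoen
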