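import Pool.Agent.H.MP_6c077c_gt.N2.Three
import Pool.Agent.H.MP_6c077c_gt.N2.Sepc
import Pool.Agent.H.MP_6c077c_gt.N2.Cmp

/-! Components of a slab meet the lower slice in at most one component. -/

set_option autoImplicit false

namespace Pool.Schoen

open Filter Set Metric
open scoped Topology RealInnerProductSpace ContDiff

section top

variable {Y : Type*} [TopologicalSpace Y]

private theorem ClaimA_comp_closed {F : Set Y} (hF : IsClosed F) (x : Y) :
    IsClosed (connectedComponentIn F x) := by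
  by_cases hx : x ∈ F
  · refine isClosed_of_closure_subset ?_
    exact (isPreconnected_connectedComponentIn.closure).subset_connectedComponentIn
      (subset_closure (mem_connectedComponentIn hx))
      (hF.closure_subset_iff.2 (connectedComponentIn_subset F x))
  · rw [connectedComponentIn_eq_empty hx]
    exact isClosed_empty

private theorem ClaimA_bump {S C : Set Y} (hCS : C ⊆ S) (hC : IsClosed C) (hD : IsClosed (S \ C))
    {u : Y → ℂ} (hu : ContinuousOn u C) (hu1 : ∀ x ∈ C, ‖u x‖ = 1) :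
    ∃ w : Y → ℂ, ContinuousOn w S ∧ (∀ x ∈ S, ‖w x‖ = 1) ∧ (∀ x ∈ C, w x = u x) ∧
      ∀ x ∈ S \ C, w x = 1 := by
  obtain ⟨w, hw, hw1, hw2⟩ := glue_contOn hC hD hu (continuousOn_const (c := (1 : ℂ)))
    (fun x hx => absurd hx.1 hx.2.2)
  rw [union_sdiff_cancel hCS] at hw
  refine ⟨w, hw, fun x hx => ?_, hw1, hw2⟩
  by_cases hxC : x ∈ C
  · rw [hw1 x hxC]; exact hu1 x hxC
  · rw [hw2 x ⟨hx, hxC⟩]; exact norm_one

private theorem ClaimA_lifts {S C : Set Y} (hC : IsClosed C) (hD : IsClosed (S \ C)) {u : Y → ℂ}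
    (h : Lifts C u) (h1 : ∀ x ∈ S \ C, u x = 1) : Lifts S u := by
  obtain ⟨v, hv, hv1⟩ := h
  obtain ⟨w, hw, hw1, hw2⟩ := glue_contOn hC hD hv (continuousOn_const (c := (0 : ℝ)))
    (fun x hx => absurd hx.1 hx.2.2)
  refine ⟨w, hw.mono fun x hx => ?_, fun x hx => ?_⟩
  · by_cases hxC : x ∈ C
    · exact Or.inl hxC
    · exact Or.inr ⟨hx, hxC⟩
  · by_cases hxC : x ∈ C
    · rw [hw1 x hxC]; exact hv1 x hxC
    · rw [hw2 x ⟨hx, hxC⟩, h1 x ⟨hx, hxC⟩]
      simp

private theorem ClaimA_comp_sub {F : Set Y} {x y : Y} (h : Jn F x y) :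
    y ∈ connectedComponentIn F x := by
  obtain ⟨K, h1, h2, h3, h4⟩ := h
  exact h2.subset_connectedComponentIn h3 h1 h4

private theorem ClaimA_jn {F : Set Y} {x y : Y} (h : y ∈ connectedComponentIn F x) (hx : x ∈ F) :
    Jn F x y :=
  ⟨connectedComponentIn F x, connectedComponentIn_subset F x, isPreconnected_connectedComponentIn,
    mem_connectedComponentIn hx, h⟩

end top

variable {V : Type*} [NormedAddCommGroup V] [InnerProductSpace ℝ V] [FiniteDimensional ℝ V]

omit [FiniteDimensional ℝ V] in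
private theorem ClaimA_lay (f : V → ℝ) (e : V) (c : ℝ) : layS f e c c = slW f e c := by
  ext x
  exact ⟨fun hx => ⟨hx.1, le_antisymm hx.2.2 hx.2.1⟩, fun hx => ⟨hx.1, hx.2.ge, hx.2.le⟩⟩

/-- If there are no tubes in the slab, or no walls and no cuts, then points of the lower slice which
are joined in the slab are joined in the slice. PROOF. No tubes: `slab_extB` and `ExtB.jn`. Second
case: let `K` be the component of `x` in the slab, `x`, `y` in different components `C₁`, `C₂` of the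
slice. Take `θ₁`, `θ₂` nonliftable on `C₁`, `C₂` (`Rk`), one elsewhere (the components are clopen in
the slice: `cmpW_clopen`), extended over the slab (`slab_extS`): `Θ₁`, `Θ₂`. By `slab_extB_dn` and
`ExtB.jn` the set `K ∩ top` is empty or a component `C'` of the upper slice; by `Rk` (upper slice) there
are `(a, b) ≠ 0` with `Θ₁ ^ a * Θ₂ ^ b` liftable on `K ∩ top` (`(1, 0)` if it is empty). By `clopen_sep`
there is a clopen part `Q ⊇ K` of the slab with `Q ∩ top = K ∩ top`. The map `g = Θ₁ ^ a * Θ₂ ^ b` on `Q`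
and `1` off `Q` lifts on the upper slice, so on the slab (`slab_inj_dn`), so `θ₁ ^ a` lifts on `C₁` and
`θ₂ ^ b` on `C₂`: `a = b = 0` by `lifts_of_zpow`. -/
theorem claimA {f : V → ℝ} {e : V} (he : ‖e‖ = 1) (h : Mo f e)
    (hb : Bornology.IsBounded {x | f x ≤ 0}) {c t : ℝ} (hct : c ≤ t)
    (hc : ∀ x, Crit f e x → ⟪e, x⟫ ≠ c) (ht : ∀ x, Crit f e x → ⟪e, x⟫ ≠ t)
    (hRc : Rk f e c) (hRt : Rk f e t)
    (hk : NoI f e 1 c t ∨ (NoI f e 2 c t ∧ NoI f (-e) 1 (-t) (-c))) :
    ∀ x ∈ slW f e c, ∀ y ∈ slW f e c, Jn (layS f e c t) x y → Jn (slW f e c) x y := by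
  have hcont : Continuous f := h.smooth.continuous
  have hcomp : ∀ a b : ℝ, IsCompact (layS f e a b) := fun a b =>
    Metric.isCompact_of_isClosed_isBounded (layS_closed hcont e a b)
      (hb.subset fun x hx => hx.1)
  have hsubc : layS f e c c ⊆ layS f e c t := layS_mono hct
  have hsubt : layS f e t t ⊆ layS f e c t := fun x hx => ⟨hx.1, hct.trans hx.2.1, hx.2.2⟩
  rcases hk with h1 | ⟨h2, h3⟩
  · have h4 := ExtB.jn (hcomp c c) (slab_extB he h hct hc ht h1) hsubc
    rw [ClaimA_lay] at h4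
    exact h4
  have hES := slab_extS he h hct hc ht h2
  have hEB := ExtB.jn (hcomp t t) (slab_extB_dn he h hct hc ht h3) hsubt
  rw [ClaimA_lay] at hES hEB hsubc hsubt
  intro x hx y hy hj
  by_contra hnj
  have hxc : ⟪e, x⟫ = c := hx.2
  have hyc : ⟪e, y⟫ = c := hy.2
  -- the two components
  have hC1 := cmpW_clopen he h hx.1 (fun z hz => by rw [hxc]; exact hc z hz)
  have hC2 := cmpW_clopen he h hy.1 (fun z hz => by rw [hyc]; exact hc z hz)
  have e1 : cmpW f e x = connectedComponentIn (slW f e c) x := by unfold cmpW; rw [hxc]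
  have e2 : cmpW f e y = connectedComponentIn (slW f e c) y := by unfold cmpW; rw [hyc]
  rw [hxc] at hC1
  rw [hyc] at hC2
  have hs1 : cmpW f e x ⊆ slW f e c := by rw [e1]; exact connectedComponentIn_subset _ _
  have hs2 : cmpW f e y ⊆ slW f e c := by rw [e2]; exact connectedComponentIn_subset _ _
  have hdis : ∀ z, z ∈ cmpW f e x → z ∉ cmpW f e y := by
    intro z hz hz'
    rw [e1] at hz
    rw [e2] at hz'
    exact hnj ((ClaimA_jn hz hx).trans (ClaimA_jn hz' hy).symm)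
  have hr1 := (hRc x hx.1 hxc).1
  have hr2 := (hRc y hy.1 hyc).1
  unfold LiftS at hr1 hr2
  push Not at hr1 hr2
  obtain ⟨θ1, hθ1, hθ1n, hθ1l⟩ := hr1
  obtain ⟨θ2, hθ2, hθ2n, hθ2l⟩ := hr2
  obtain ⟨w1, hw1, hw1n, hw1c, hw1d⟩ := ClaimA_bump hs1 hC1.1 hC1.2 hθ1 hθ1n
  obtain ⟨w2, hw2, hw2n, hw2c, hw2d⟩ := ClaimA_bump hs2 hC2.1 hC2.2 hθ2 hθ2n
  obtain ⟨T1, hT1, hT1n, hT1e⟩ := hES w1 hw1 hw1n
  obtain ⟨T2, hT2, hT2n, hT2e⟩ := hES w2 hw2 hw2n
  -- the component of the slab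
  have hxL : x ∈ layS f e c t := hsubc hx
  have hKc : IsClosed (connectedComponentIn (layS f e c t) x) :=
    ClaimA_comp_closed (layS_closed hcont e c t) x
  have hKs : connectedComponentIn (layS f e c t) x ⊆ layS f e c t :=
    connectedComponentIn_subset _ _
  -- the part of the upper slice
  have key : ∃ (D : Set V) (a b : ℤ), (a ≠ 0 ∨ b ≠ 0) ∧ IsClosed D ∧ IsClosed (slW f e t \ D) ∧
      connectedComponentIn (layS f e c t) x ∩ slW f e t ⊆ D ∧
      Lifts D fun z => T1 z ^ a * T2 z ^ b := by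
    by_cases hne : (connectedComponentIn (layS f e c t) x ∩ slW f e t).Nonempty
    · obtain ⟨z, hzK, hzt⟩ := hne
      have hzt' : ⟪e, z⟫ = t := hzt.2
      have hCz := cmpW_clopen he h hzt.1 (fun z' hz' => by rw [hzt']; exact ht z' hz')
      rw [hzt'] at hCz
      have e3 : cmpW f e z = connectedComponentIn (slW f e t) z := by unfold cmpW; rw [hzt']
      have hs3 : cmpW f e z ⊆ slW f e t := by rw [e3]; exact connectedComponentIn_subset _ _
      obtain ⟨a, b, hab, hl⟩ := (hRt z hzt.1 hzt').2 T1 T2 (hT1.mono (hs3.trans hsubt))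
        (hT2.mono (hs3.trans hsubt)) (fun z' hz' => hT1n z' (hsubt (hs3 hz')))
        (fun z' hz' => hT2n z' (hsubt (hs3 hz')))
      refine ⟨cmpW f e z, a, b, hab, hCz.1, hCz.2, ?_, hl⟩
      rintro z' ⟨hz'K, hz't⟩
      rw [e3]
      refine ClaimA_comp_sub (hEB z hzt z' hz't ?_)
      exact (ClaimA_jn hzK hxL).symm.trans (ClaimA_jn hz'K hxL)
    · refine ⟨∅, 1, 0, Or.inl one_ne_zero, isClosed_empty, ?_, ?_, ?_⟩
      · rw [sdiff_empty, ← ClaimA_lay]
        exact layS_closed hcont e t t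
      · intro z hz
        exact absurd ⟨z, hz⟩ hne
      · exact ⟨fun _ => 0, continuousOn_empty _, fun z hz => absurd hz (notMem_empty z)⟩
  obtain ⟨D, a, b, hab, hDc, hDd, hKD, hDl⟩ := key
  obtain ⟨Q, hQs, hQc, hQd, hKQ, hQB⟩ := clopen_sep (hcomp c t) hKc hDd hKs
    (sdiff_subset.trans hsubt) (by
      intro p hp q hq hpq
      have hqK : q ∈ connectedComponentIn (layS f e c t) x :=
        ClaimA_comp_sub ((ClaimA_jn hp hxL).trans hpq)
      exact hq.2 (hKD ⟨hqK, hq.1⟩))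
  have hT1z : ∀ z ∈ layS f e c t, T1 z ≠ 0 := by
    intro z hz h0
    have := hT1n z hz
    rw [h0, norm_zero] at this
    exact zero_ne_one this
  have hT2z : ∀ z ∈ layS f e c t, T2 z ≠ 0 := by
    intro z hz h0
    have := hT2n z hz
    rw [h0, norm_zero] at this
    exact zero_ne_one this
  have hgc : ContinuousOn (fun z => T1 z ^ a * T2 z ^ b) (layS f e c t) :=
    (hT1.zpow₀ a fun z hz => Or.inl (hT1z z hz)).mul (hT2.zpow₀ b fun z hz => Or.inl (hT2z z hz))
  have hgn : ∀ z ∈ layS f e c t, ‖T1 z ^ a * T2 z ^ b‖ = 1 := by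
    intro z hz
    rw [norm_mul, norm_zpow, norm_zpow, hT1n z hz, hT2n z hz, one_zpow, one_zpow, one_mul]
  obtain ⟨g, hg, hgn', hgQ, hgD⟩ := ClaimA_bump hQs hQc hQd (hgc.mono hQs)
    (fun z hz => hgn z (hQs hz))
  have hQt : Q ∩ slW f e t ⊆ D := by
    rintro z ⟨hzQ, hzt⟩
    by_contra hzD
    exact (Set.disjoint_left.1 hQB) hzQ ⟨hzt, hzD⟩
  have hslt : IsClosed (slW f e t) := by
    rw [← ClaimA_lay]
    exact layS_closed hcont e t t
  have hgt : Lifts (slW f e t) g := by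
    refine ClaimA_lifts (C := Q ∩ slW f e t) (hQc.inter hslt) ?_ ?_ ?_
    · have : slW f e t \ (Q ∩ slW f e t) = (layS f e c t \ Q) ∩ slW f e t := by
        ext z
        constructor
        · rintro ⟨hz1, hz2⟩
          exact ⟨⟨hsubt hz1, fun hq => hz2 ⟨hq, hz1⟩⟩, hz1⟩
        · rintro ⟨⟨_, hz2⟩, hz3⟩
          exact ⟨hz3, fun hq => hz2 hq.1⟩
      rw [this]
      exact hQd.inter hslt
    · exact (hDl.mono hQt).congr fun z hz => (hgQ z hz.1).symm
    · rintro z ⟨hz1, hz2⟩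
      exact hgD z ⟨hsubt hz1, fun hq => hz2 ⟨hq, hz1⟩⟩
  have hgl : Lifts (layS f e c t) g := slab_inj_dn he h hct hc ht h3 hg hgn' (by
    rw [ClaimA_lay]; exact hgt)
  -- restrict to the two components
  have hin1 : cmpW f e x ⊆ Q := by
    intro z hz
    rw [e1] at hz
    exact hKQ (ClaimA_comp_sub ((ClaimA_jn hz hx).mono hsubc))
  have hin2 : cmpW f e y ⊆ Q := by
    intro z hz
    rw [e2] at hz
    exact hKQ (ClaimA_comp_sub (hj.trans ((ClaimA_jn hz hy).mono hsubc)))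
  have hl1 : Lifts (cmpW f e x) fun z => θ1 z ^ a := by
    refine (hgl.mono (hs1.trans hsubc)).congr fun z hz => ?_
    rw [hgQ z (hin1 hz), hT1e z (hs1 hz), hT2e z (hs1 hz), hw1c z hz,
      hw2d z ⟨hs1 hz, hdis z hz⟩, one_zpow, mul_one]
  have hl2 : Lifts (cmpW f e y) fun z => θ2 z ^ b := by
    refine (hgl.mono (hs2.trans hsubc)).congr fun z hz => ?_
    rw [hgQ z (hin2 hz), hT1e z (hs2 hz), hT2e z (hs2 hz), hw2c z hz,
      hw1d z ⟨hs2 hz, fun hz' => hdis z hz' hz⟩, one_zpow, one_mul]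
  rcases hab with ha | hb'
  · obtain ⟨v, hv, hv'⟩ := lifts_of_zpow hθ1 hθ1n ha hl1
    obtain ⟨z, hz, hz'⟩ := hθ1l v hv
    exact hz' (hv' z hz)
  · obtain ⟨v, hv, hv'⟩ := lifts_of_zpow hθ2 hθ2n hb' hl2
    obtain ⟨z, hz, hz'⟩ := hθ2l v hv
    exact hz' (hv' z hz)

end Pool.Schoen
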