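import Pool.Agent.H.MP_6c077c_gt.N2.ClB
import Pool.Agent.H.MP_6c077c_gt.N2.ClC

/-! Base pieces: every wall is below every drill. -/

set_option autoImplicit false

namespace Pool.Schoen

open Filter Set Metric
open scoped Topology RealInnerProductSpace ContDiff

variable {V : Type*} [NormedAddCommGroup V] [InnerProductSpace ℝ V] [FiniteDimensional ℝ V]
variable {f : V → ℝ} {e : V} {L : Set ℝ}

/-- PROOF. Suppose `⟪e, y⟫ ≤ ⟪e, x⟫`. By `one` the points are in different gaps: `c'` (from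
`BaseP.drill` for `y`) is at most `d`, the largest level below `x`. By induction on the levels between
(`BaseP.climb`; the slices are nonempty by `sl_ne`) `wle (-f) e d` does not lift. By `BaseP.drill` for
`h.flip` at `x` also `{f ≥ 0, ⟪e, z⟫ ≥ d}` does not lift. The intersection is `slW (-f) e d`, of rank one
(`rk_out`): `not_liftS_glue` gives that `{0 ≤ f}` does not lift; but it does (`BaseN_liftS`). -/
theorem BaseP.order (hV : Module.finrank ℝ V = 4) (h : BaseP f e L) {x y : V}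
    (hx : Inward f e x) (hx2 : Idx f e x 2) (hy : Inward f (-e) y) (hy2 : Idx f e y 2) :
    ⟪e, x⟫ < ⟪e, y⟫ := by
  by_contra hxy
  rw [not_lt] at hxy
  obtain ⟨c', hc'L, hyc', hc'n, hc'l⟩ := h.drill hV hy hy2
  have hx' : Inward f (-(-e)) x := by rwa [neg_neg]
  obtain ⟨c₁, hc₁L, hxc₁, hc₁n, hc₁l⟩ := h.flip.drill hV hx' (idx_neg_dir.2 hx2)
  have hdL : -c₁ ∈ L := hc₁L
  have hxd : -c₁ < ⟪e, x⟫ := by
    rw [inner_neg_left] at hxc₁
    linarith
  have hdn : ∀ c'' ∈ L, ⟪e, x⟫ < c'' ∨ c'' ≤ -c₁ := by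
    intro c'' hc''
    have h1 : -c'' ∈ {c : ℝ | -c ∈ L} := by
      show -(-c'') ∈ L
      rwa [neg_neg]
    rcases hc₁n _ h1 with h2 | h2
    · left
      rw [inner_neg_left] at h2
      linarith
    · right
      linarith
  have hcx := hx.crit h.he
  have hcy := hy.crit_neg h.he
  have hnI : ¬ Inward f e y := by
    rintro ⟨-, l, hl, h1⟩
    obtain ⟨-, m, hm, h2⟩ := hy
    have h3 : (l + m) • e = 0 := by
      rw [h1, smul_neg, neg_neg] at h2
      rw [add_smul, ← h2, add_neg_cancel]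
    have h4 : e ≠ 0 := by
      intro h5
      have h6 := h.he
      rw [h5, norm_zero] at h6
      norm_num at h6
    rcases smul_eq_zero.1 h3 with h5 | h5
    · linarith
    · exact h4 h5
  have hcd : c' ≤ -c₁ := by
    by_contra hcd
    refine hnI ((h.one x y 2 2 hcx hcy hx2 hy2 (by norm_num) (by norm_num) fun c hc => ?_).2.1 hx)
    constructor
    · intro h1
      exact lt_of_le_of_lt hxy h1
    · intro h1
      rcases hc'n c hc with h2 | h2
      · exact absurd h1 (not_lt.2 h2.le)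
      · rcases hdn c hc with h3 | h3
        · exact h3
        · exact absurd (h2.trans h3) hcd
  have hfx : f x ≤ 0 := hx.1.le
  have hfy : f y ≤ 0 := hy.1.le
  have hne : ∀ t, c' ≤ t → t ≤ -c₁ → (slW f e t).Nonempty := fun t h1 h2 =>
    h.sl_ne hfy hfx (lt_of_lt_of_le hyc' h1) (lt_of_le_of_lt h2 hxd)
  have key : ∀ t ∈ L, c' ≤ t → t ≤ -c₁ → ¬ LiftS (wle (fun x => -f x) e t) := by
    by_contra hk
    push Not at hk
    obtain ⟨t₀, ht₀⟩ := hk
    have hfin : {t : ℝ | t ∈ L ∧ c' ≤ t ∧ t ≤ -c₁ ∧ LiftS (wle (fun x => -f x) e t)}.Finite :=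
      h.fin.subset fun _ h1 => h1.1
    obtain ⟨t, ⟨htL, hct, htd, htl⟩, htm⟩ := Set.exists_min_image _ id hfin ⟨t₀, ht₀⟩
    have hct' : c' < t := by
      rcases hct.lt_or_eq with h1 | h1
      · exact h1
      · subst h1
        exact absurd htl hc'l
    have hfin2 : {c : ℝ | c ∈ L ∧ c < t}.Finite := h.fin.subset fun _ h1 => h1.1
    obtain ⟨c, ⟨hcL, hclt⟩, hcm⟩ := Set.exists_max_image _ id hfin2 ⟨c', hc'L, hct'⟩
    have hc'c : c' ≤ c := hcm c' ⟨hc'L, hct'⟩
    refine h.climb hV hcL htL hclt (fun c'' hc'' => ?_) (hne c hc'c (hclt.le.trans htd))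
      (hne t hct htd) (fun hl => ?_) htl
    · rcases lt_or_ge c'' t with h1 | h1
      · exact Or.inl (hcm c'' ⟨hc'', h1⟩)
      · exact Or.inr h1
    · exact absurd (htm c ⟨hcL, hc'c, hclt.le.trans htd, hl⟩) (not_le.2 hclt)
  have hA' := key _ hdL hcd le_rfl
  have hf := h.mo.smooth.continuous
  have hcl : ∀ (e' : V) (c : ℝ), IsClosed (wle (fun x => -f x) e' c) := by
    intro e' c
    have h1 : Continuous fun z : V => ⟪e', z⟫ := continuous_const.inner continuous_id
    exact (isClosed_le hf.neg continuous_const).inter (isClosed_le h1 continuous_const)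
  have hA := hcl e (-c₁)
  have hB := hcl (-e) c₁
  have hU : wle (fun x => -f x) e (-c₁) ∪ wle (fun x => -f x) (-e) c₁ = {x | 0 ≤ f x} := by
    ext z
    constructor
    · rintro (h1 | h1)
      · have h2 : -f z ≤ 0 := h1.1
        show 0 ≤ f z
        linarith
      · have h2 : -f z ≤ 0 := h1.1
        show 0 ≤ f z
        linarith
    · intro h1
      have h2 : -f z ≤ 0 := by
        have h3 : 0 ≤ f z := h1
        linarith
      rcases le_total ⟪e, z⟫ (-c₁) with h3 | h3
      · exact Or.inl ⟨h2, h3⟩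
      · refine Or.inr ⟨h2, ?_⟩
        rw [inner_neg_left]
        linarith
  have hI : wle (fun x => -f x) e (-c₁) ∩ wle (fun x => -f x) (-e) c₁ =
      slW (fun x => -f x) e (-c₁) := by
    ext z
    constructor
    · rintro ⟨⟨h1, h2⟩, -, h3⟩
      rw [inner_neg_left] at h3
      exact ⟨h1, le_antisymm h2 (by linarith)⟩
    · rintro ⟨h1, h2⟩
      refine ⟨⟨h1, h2.le⟩, h1, ?_⟩
      rw [inner_neg_left]
      linarith
  obtain ⟨-, hdep⟩ := h.rk_out hV hdL (hne _ hcd le_rfl)
  have ex : ∀ A : Set V, ¬ LiftS A →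
      ∃ v : V → ℂ, ContinuousOn v A ∧ (∀ x ∈ A, ‖v x‖ = 1) ∧ ¬ Lifts A v := by
    intro A hA1
    by_contra hcon
    refine hA1 fun u hu hu1 => ?_
    by_contra hul
    exact hcon ⟨u, hu, hu1, hul⟩
  obtain ⟨v, hv, hv1, hvn⟩ := ex _ hA'
  obtain ⟨w, hw, hw1, hwn⟩ := ex _ hc₁l
  have hlift := (BaseN_liftS hf h.lift).2
  obtain ⟨a, b, hab, hl⟩ := hdep v w
    (hv.mono (by rw [← hI]; exact inter_subset_left))
    (hw.mono (by rw [← hI]; exact inter_subset_right))
    (fun z hz => hv1 z (by rw [← hI] at hz; exact hz.1))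
    (fun z hz => hw1 z (by rw [← hI] at hz; exact hz.2))
  rw [← hI] at hl
  rw [← hU] at hlift
  rcases hab with ha | hb
  · exact not_liftS_glue hA hB hv hv1 hvn hw hw1 ha hl hlift
  · rw [union_comm] at hlift
    rw [inter_comm] at hl
    exact not_liftS_glue hB hA hw hw1 hwn hv hv1 hb
      (hl.congr fun z _ => mul_comm _ _) hlift

end Pool.Schoen
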