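import Pool.Agent.H.MP_6c077c_gt.N2.RankA
import Pool.Agent.H.MP_6c077c_gt.F3.SphLift

/-! A smooth function whose zero set is one component of a regular level surface. -/

set_option autoImplicit false

namespace Pool.Schoen

open Filter Set Metric
open scoped Topology RealInnerProductSpace ContDiff

section gen

variable {Y : Type*} [TopologicalSpace Y]

private theorem CompFun_int {x y : ℝ}
    (h : Complex.exp (x * Complex.I) = Complex.exp (y * Complex.I)) :
    ∃ n : ℤ, x = y + n * (2 * Real.pi) := by
  obtain ⟨n, hn⟩ := Complex.exp_eq_exp_iff_exists_int.1 h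
  refine ⟨n, ?_⟩
  have h1 := congrArg Complex.im hn
  simpa using h1

/-- Uniqueness of lifts on a connected set. -/
theorem lifts_uni {A : Set Y} (hA : IsPreconnected A) {v w : Y → ℝ} (hv : ContinuousOn v A)
    (hw : ContinuousOn w A)
    (h : ∀ x ∈ A, Complex.exp (v x * Complex.I) = Complex.exp (w x * Complex.I))
    {x₀ : Y} (hx₀ : x₀ ∈ A) (h0 : v x₀ = w x₀) : ∀ x ∈ A, v x = w x := by
  intro x hx
  have hc : ContinuousOn (fun z => v z - w z) A := hv.sub hw
  have hpi : 0 < Real.pi := Real.pi_pos
  have hmid : ∀ z ∈ A, v z - w z ≠ Real.pi ∧ v z - w z ≠ -Real.pi := by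
    intro z hz
    obtain ⟨n, hn⟩ := CompFun_int (h z hz)
    constructor
    · intro h1
      have h2 : (n : ℝ) * 2 = 1 := by
        have h3 : (n : ℝ) * (2 * Real.pi) = Real.pi := by linarith
        have h4 : ((n : ℝ) * 2 - 1) * Real.pi = 0 := by linarith
        rcases mul_eq_zero.1 h4 with h5 | h5
        · linarith
        · exact absurd h5 hpi.ne'
      have h3 : n * 2 = 1 := by exact_mod_cast h2
      omega
    · intro h1
      have h2 : (n : ℝ) * 2 = -1 := by
        have h3 : (n : ℝ) * (2 * Real.pi) = -Real.pi := by linarith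
        have h4 : ((n : ℝ) * 2 + 1) * Real.pi = 0 := by linarith
        rcases mul_eq_zero.1 h4 with h5 | h5
        · linarith
        · exact absurd h5 hpi.ne'
      have h3 : n * 2 = -1 := by exact_mod_cast h2
      omega
  obtain ⟨n, hn⟩ := CompFun_int (h x hx)
  have hn0 : n = 0 := by
    by_contra hne
    rcases lt_or_gt_of_ne hne with h1 | h1
    · have h2 : (n : ℝ) ≤ -1 := by exact_mod_cast (by omega : n ≤ -1)
      have h3 : -Real.pi ∈ Icc ((fun z => v z - w z) x) ((fun z => v z - w z) x₀) := by
        constructor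
        · change v x - w x ≤ -Real.pi
          nlinarith
        · change -Real.pi ≤ v x₀ - w x₀
          linarith
      obtain ⟨z, hz, hz'⟩ := hA.intermediate_value hx hx₀ hc h3
      exact (hmid z hz).2 hz'
    · have h2 : (1 : ℝ) ≤ n := by exact_mod_cast (by omega : 1 ≤ n)
      have h3 : Real.pi ∈ Icc ((fun z => v z - w z) x₀) ((fun z => v z - w z) x) := by
        constructor
        · change v x₀ - w x₀ ≤ Real.pi
          linarith
        · change Real.pi ≤ v x - w x
          nlinarith
      obtain ⟨z, hz, hz'⟩ := hA.intermediate_value hx₀ hx hc h3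
      exact (hmid z hz).1 hz'
  rw [hn, hn0]
  simp

/-- Uniqueness of lifts near a point. -/
theorem lifts_uni_near {v w : Y → ℝ} {y : Y} (hv : ContinuousAt v y) (hw : ContinuousAt w y)
    (h : ∀ᶠ x in 𝓝 y, Complex.exp (v x * Complex.I) = Complex.exp (w x * Complex.I))
    (h0 : v y = w y) : ∀ᶠ x in 𝓝 y, v x = w x := by
  have h1 : ContinuousAt (fun x => v x - w x) y := hv.sub hw
  have h2 : Tendsto (fun x => v x - w x) (𝓝 y) (𝓝 0) := by
    have h3 := h1.tendsto
    simpa [h0] using h3
  have h3 : ∀ᶠ x in 𝓝 y, v x - w x ∈ Ioo (-1 : ℝ) 1 :=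
    h2.eventually (Ioo_mem_nhds (by norm_num) one_pos)
  filter_upwards [h, h3] with x hx hx'
  obtain ⟨n, hn⟩ := CompFun_int hx
  have hpi : 3 < Real.pi := Real.pi_gt_three
  have hn0 : n = 0 := by
    by_contra hne
    rcases lt_or_gt_of_ne hne with h1 | h1
    · have h2 : (n : ℝ) ≤ -1 := by exact_mod_cast (by omega : n ≤ -1)
      nlinarith [hx'.1]
    · have h2 : (1 : ℝ) ≤ n := by exact_mod_cast (by omega : 1 ≤ n)
      nlinarith [hx'.2]
  rw [hn, hn0]
  simp

end gen

variable {E : Type*} [NormedAddCommGroup E] [InnerProductSpace ℝ E] [FiniteDimensional ℝ E]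

/-- A compact connected relatively open part `Y` of a level set `{k = 0}` is the whole zero set of
a smooth function which agrees with `k` near `Y`. -/
theorem comp_fun {k : E → ℝ} (hk : ContDiff ℝ ∞ k) {Y W : Set E} (hYc : IsCompact Y)
    (hYn : IsConnected Y) (hW : IsOpen W) (hYW : Y ⊆ W) (hY : ∀ x ∈ W, k x = 0 ↔ x ∈ Y) :
    ∃ g : E → ℝ, ContDiff ℝ ∞ g ∧ (∀ x, g x = 0 ↔ x ∈ Y) ∧ ∀ x ∈ Y, g =ᶠ[𝓝 x] k := by
  classical
  obtain ⟨U, hU, hYU, hUW, hUc⟩ := exists_open_between_and_isCompact_closure hYc hW hYW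
  have hkc := hk.continuous
  have hpi : 0 < Real.pi := Real.pi_pos
  -- `|k| ≥ ε` on the boundary of `U`
  obtain ⟨ε, hε, hεU⟩ : ∃ ε > 0, ∀ x ∈ frontier U, ε ≤ |k x| := by
    have hFc : IsCompact (frontier U) := hUc.of_isClosed_subset isClosed_frontier
      frontier_subset_closure
    rcases (frontier U).eq_empty_or_nonempty with he | hne
    · exact ⟨1, one_pos, fun x hx => by rw [he] at hx; exact absurd hx (notMem_empty x)⟩
    · obtain ⟨z, hz, hz'⟩ := hFc.exists_isMinOn hne (f := fun x => |k x|)
        hkc.abs.continuousOn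
      refine ⟨|k z|, abs_pos.2 fun h0 => ?_, fun x hx => hz' hx⟩
      have h1 : z ∈ Y := (hY z (hUW (frontier_subset_closure hz))).1 h0
      have h2 : z ∉ U := by
        rw [hU.frontier_eq] at hz
        exact hz.2
      exact h2 (hYU h1)
  set τ : E → ℝ := fun x => max (-1) (min 1 (k x / ε)) with hτ
  have hτc : Continuous τ := by
    rw [hτ]
    fun_prop
  have hτ1 : ∀ x, -1 ≤ τ x ∧ τ x ≤ 1 := fun x =>
    ⟨le_max_left _ _, max_le (by norm_num) (min_le_left _ _)⟩
  have hτ0 : ∀ x, τ x = 0 → k x = 0 := by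
    intro x hx
    by_contra hne
    rcases lt_or_gt_of_ne hne with h1 | h1
    · have h2 : k x / ε < 0 := div_neg_of_neg_of_pos h1 hε
      have h3 : τ x < 0 := by
        rw [hτ]
        exact max_lt (by norm_num) (lt_of_le_of_lt (min_le_right _ _) h2)
      linarith
    · have h2 : 0 < k x / ε := div_pos h1 hε
      have h3 : 0 < τ x := by
        rw [hτ]
        exact lt_max_of_lt_right (lt_min one_pos h2)
      linarith
  have hτs : ∀ x, 0 < τ x → 0 < k x := by
    intro x hx
    by_contra hne
    rw [not_lt] at hne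
    have h2 : k x / ε ≤ 0 := div_nonpos_of_nonpos_of_nonneg hne hε.le
    have h3 : τ x ≤ 0 := by
      rw [hτ]
      exact max_le (by norm_num) ((min_le_right _ _).trans h2)
    linarith
  have hτs' : ∀ x, τ x < 0 → k x < 0 := by
    intro x hx
    by_contra hne
    rw [not_lt] at hne
    have h2 : 0 ≤ k x / ε := div_nonneg hne hε.le
    have h3 : 0 ≤ τ x := by
      rw [hτ]
      exact le_max_of_le_right (le_min zero_le_one h2)
    linarith
  have hτk : ∀ x, k x = 0 → τ x = 0 := by
    intro x hx
    rw [hτ]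
    change max (-1 : ℝ) (min 1 (k x / ε)) = 0
    rw [hx, zero_div]
    norm_num
  set u : E → ℂ := fun x => if x ∈ U then
    Complex.exp ((Real.pi * (1 + τ x) : ℝ) * Complex.I) else 1 with hu
  have huU : ∀ x ∈ closure U, u x = Complex.exp ((Real.pi * (1 + τ x) : ℝ) * Complex.I) := by
    intro x hx
    by_cases hxU : x ∈ U
    · exact if_pos hxU
    · have h1 : u x = 1 := if_neg hxU
      rw [h1]
      have hxf : x ∈ frontier U := by
        rw [hU.frontier_eq]
        exact ⟨hx, hxU⟩
      have h2 := hεU x hxf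
      rcases le_abs.1 h2 with h3 | h3
      · have h4 : τ x = 1 := by
          rw [hτ]
          change max (-1 : ℝ) (min 1 (k x / ε)) = 1
          rw [min_eq_left ((one_le_div hε).2 h3)]
          norm_num
        rw [h4]
        have h5 : ((Real.pi * (1 + 1) : ℝ) : ℂ) * Complex.I = 2 * Real.pi * Complex.I := by
          push_cast
          ring
        rw [h5, Complex.exp_two_pi_mul_I]
      · have h4 : τ x = -1 := by
          rw [hτ]
          change max (-1 : ℝ) (min 1 (k x / ε)) = -1
          have h5 : k x / ε ≤ -1 := by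
            rw [div_le_iff₀ hε]
            linarith
          rw [min_eq_right (h5.trans (by norm_num))]
          exact max_eq_left h5
        rw [h4]
        simp
  have huc : Continuous u := by
    rw [← continuousOn_univ]
    have h1 : (univ : Set E) = closure U ∪ Uᶜ := by
      ext x
      simp only [mem_univ, mem_union, mem_compl_iff, true_iff]
      by_cases hx : x ∈ U
      · exact Or.inl (subset_closure hx)
      · exact Or.inr hx
    rw [h1]
    refine ContinuousOn.union_of_isClosed ?_ ?_ isClosed_closure hU.isClosed_compl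
    · refine ContinuousOn.congr (f := fun x =>
        Complex.exp ((Real.pi * (1 + τ x) : ℝ) * Complex.I)) ?_ huU
      fun_prop
    · exact continuousOn_const.congr fun x hx => if_neg hx
  have hun : ∀ x, ‖u x‖ = 1 := by
    intro x
    by_cases hx : x ∈ U
    · have h1 : u x = _ := if_pos hx
      rw [h1, Complex.norm_exp_ofReal_mul_I]
    · have h1 : u x = 1 := if_neg hx
      rw [h1, norm_one]
  obtain ⟨v₀, hv₀, hv₁⟩ := liftS_univ E u huc.continuousOn fun x _ => hun x
  obtain ⟨y₀, hy₀⟩ := hYn.nonempty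
  have hkY : ∀ y ∈ Y, k y = 0 := fun y hy => (hY y (hYW hy)).2 hy
  have huY : ∀ y ∈ Y, u y = Complex.exp ((Real.pi : ℝ) * Complex.I) := by
    intro y hy
    rw [huU y (subset_closure (hYU hy)), hτk y (hkY y hy), add_zero, mul_one]
  obtain ⟨n, hn⟩ := CompFun_int ((hv₁ y₀ (mem_univ _)).symm.trans (huY y₀ hy₀))
  obtain ⟨v, hv⟩ : ∃ v : E → ℝ, v = fun x => v₀ x - n * (2 * Real.pi) := ⟨_, rfl⟩
  have hvc : Continuous v := by
    have := continuousOn_univ.1 hv₀
    rw [hv]
    fun_prop
  have hvu : ∀ x, u x = Complex.exp (v x * Complex.I) := by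
    intro x
    rw [hv₁ x (mem_univ x), hv, Complex.exp_eq_exp_iff_exists_int]
    refine ⟨n, ?_⟩
    push_cast
    ring
  have hvy₀ : v y₀ = Real.pi := by
    rw [hv]
    change v₀ y₀ - n * (2 * Real.pi) = Real.pi
    rw [hn]
    ring
  have hvY : ∀ y ∈ Y, v y = Real.pi :=
    lifts_uni hYn.isPreconnected (w := fun _ => Real.pi) hvc.continuousOn continuousOn_const
      (fun x hx => by rw [← hvu, huY x hx]) hy₀ hvy₀
  have hvn : ∀ y ∈ Y, ∀ᶠ x in 𝓝 y, v x = Real.pi * (1 + τ x) := by
    intro y hy
    refine lifts_uni_near hvc.continuousAt (by fun_prop) ?_ ?_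
    · filter_upwards [hU.mem_nhds (hYU hy)] with x hx
      rw [← hvu, huU x (subset_closure hx)]
    · rw [hvY y hy, hτk y (hkY y hy)]
      ring
  have hvπ : ∀ x, v x = Real.pi → x ∈ Y := by
    intro x hx
    have h1 : u x = Complex.exp ((Real.pi : ℝ) * Complex.I) := by rw [hvu, hx]
    by_cases hxU : x ∈ U
    · rw [huU x (subset_closure hxU)] at h1
      obtain ⟨m, hm⟩ := CompFun_int h1
      have h2 : Real.pi * (τ x - 2 * m) = 0 := by linarith
      have h3 : τ x = 2 * m := by
        rcases mul_eq_zero.1 h2 with h4 | h4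
        · exact absurd h4 hpi.ne'
        · linarith
      have h4 : m = 0 := by
        have h5 := hτ1 x
        rw [h3] at h5
        have h6 : (-1 : ℝ) < m := by linarith
        have h7 : (m : ℝ) < 1 := by linarith
        have h6' : -1 < m := by exact_mod_cast h6
        have h7' : m < 1 := by exact_mod_cast h7
        omega
      rw [h4] at h3
      have h5 : τ x = 0 := by rw [h3]; simp
      exact (hY x (hUW (subset_closure hxU))).1 (hτ0 x h5)
    · have h2 : u x = 1 := if_neg hxU
      rw [h2, Complex.exp_pi_mul_I] at h1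
      norm_num at h1
  -- the good neighbourhood of `Y`
  set N : Set E := interior {x | x ∈ U ∧ v x = Real.pi * (1 + τ x)} with hN
  have hYN : Y ⊆ N := by
    intro y hy
    rw [hN, mem_interior_iff_mem_nhds]
    filter_upwards [hvn y hy, hU.mem_nhds (hYU hy)] with x h1 h2 using ⟨h2, h1⟩
  obtain ⟨χ, h1, h2, h3⟩ :=
    exists_contMDiffMap_one_nhds_of_subset_interior (modelWithCornersSelf ℝ E) (n := (⊤ : ℕ∞))
      hYc.isClosed (t := N) (by rwa [isOpen_interior.interior_eq])
  have hχ : ContDiff ℝ ∞ χ := χ.contMDiff.contDiff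
  have hnear : ∀ x ∈ Y, ∀ᶠ y in 𝓝 x, χ y = 1 := fun x hx =>
    h1.filter_mono (nhds_le_nhdsSet hx)
  set σ : E → ℝ := fun x => if Real.pi < v x then 1 else -1 with hσ
  set g : E → ℝ := fun x => χ x * k x + (1 - χ x) * σ x with hg
  have hgY : ∀ x ∈ Y, g =ᶠ[𝓝 x] k := by
    intro x hx
    filter_upwards [hnear x hx] with y hy
    rw [hg]
    change χ y * k y + (1 - χ y) * σ y = k y
    rw [hy]
    ring
  have hpos : ∀ x, Real.pi < v x → 0 < g x := by
    intro x hx
    have hσx : σ x = 1 := if_pos hx
    change 0 < χ x * k x + (1 - χ x) * σ x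
    rw [hσx, mul_one]
    have h4 := h3 x
    by_cases hxN : x ∈ N
    · have h5 : v x = Real.pi * (1 + τ x) := (interior_subset hxN).2
      have h6 : 0 < τ x := by
        by_contra hneg
        rw [not_lt] at hneg
        nlinarith
      have h7 := hτs x h6
      rcases eq_or_lt_of_le h4.1 with h8 | h8
      · rw [← h8]
        norm_num
      · have h9 := mul_pos h8 h7
        linarith [h4.2]
    · rw [h2 x hxN]
      norm_num
  have hneg : ∀ x, v x < Real.pi → g x < 0 := by
    intro x hx
    have hσx : σ x = -1 := if_neg (not_lt.2 hx.le)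
    change χ x * k x + (1 - χ x) * σ x < 0
    rw [hσx]
    have h4 := h3 x
    by_cases hxN : x ∈ N
    · have h5 : v x = Real.pi * (1 + τ x) := (interior_subset hxN).2
      have h6 : τ x < 0 := by
        by_contra hneg
        rw [not_lt] at hneg
        nlinarith
      have h7 := hτs' x h6
      rcases eq_or_lt_of_le h4.1 with h8 | h8
      · rw [← h8]
        norm_num
      · have h9 := mul_neg_of_pos_of_neg h8 h7
        linarith [h4.2]
    · rw [h2 x hxN]
      norm_num
  refine ⟨g, contDiff_iff_contDiffAt.2 fun x => ?_, fun x => ⟨fun hx => ?_, fun hx => ?_⟩, hgY⟩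
  · by_cases hx : x ∈ Y
    · exact (hk.contDiffAt (x := x)).congr_of_eventuallyEq (hgY x hx)
    · have hne : v x ≠ Real.pi := fun h => hx (hvπ x h)
      have hσe : ∃ s : ℝ, ∀ᶠ y in 𝓝 x, σ y = s := by
        rcases lt_or_gt_of_ne hne with h4 | h4
        · refine ⟨-1, ?_⟩
          filter_upwards [hvc.continuousAt.eventually_lt_const h4] with y hy
          exact if_neg (not_lt.2 (le_of_lt hy))
        · refine ⟨1, ?_⟩
          filter_upwards [hvc.continuousAt.eventually_const_lt h4] with y hy
          exact if_pos hy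
      obtain ⟨s, hs⟩ := hσe
      have h4 : ContDiffAt ℝ ∞ (fun y => χ y * k y + (1 - χ y) * s) x :=
        ((hχ.mul hk).add ((contDiff_const.sub hχ).mul contDiff_const)).contDiffAt
      refine h4.congr_of_eventuallyEq ?_
      filter_upwards [hs] with y hy
      change χ y * k y + (1 - χ y) * σ y = _
      rw [hy]
  · by_contra hxY
    have hne : v x ≠ Real.pi := fun h => hxY (hvπ x h)
    rcases lt_or_gt_of_ne hne with h4 | h4
    · exact absurd hx (hneg x h4).ne
    · exact absurd hx (hpos x h4).ne'
  · rw [(hgY x hx).self_of_nhds]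
    exact hkY x hx

end Pool.Schoen
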