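import Pool.Agent.H.MP_6c077c_gt.N2.Defs

/-! Slices with spheres and tori: invariance of the class. -/

set_option autoImplicit false

namespace Pool.Schoen

open Filter Set
open scoped Topology RealInnerProductSpace ContDiff

theorem Dep3.of_maps {Y Z : Type*} [TopologicalSpace Y] [TopologicalSpace Z] {A : Set Y} {B : Set Z}
    (h : Dep3 A) {φ : Y → Z} {ψ : Z → Y} (hφ : ContinuousOn φ A) (hψ : ContinuousOn ψ B)
    (hφm : ∀ x ∈ A, φ x ∈ B) (hψm : ∀ x ∈ B, ψ x ∈ A) (hr : ∀ x ∈ B, φ (ψ x) = x) : Dep3 B := by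
  intro u v w hu hv hw h1 h2 h3
  obtain ⟨a, b, c, habc, l, hl, hl'⟩ := h (fun x => u (φ x)) (fun x => v (φ x)) (fun x => w (φ x))
    (hu.comp hφ hφm) (hv.comp hφ hφm) (hw.comp hφ hφm) (fun x hx => h1 _ (hφm x hx))
    (fun x hx => h2 _ (hφm x hx)) (fun x hx => h3 _ (hφm x hx))
  refine ⟨a, b, c, habc, fun x => l (ψ x), hl.comp hψ hψm, fun x hx => ?_⟩
  have h4 := hl' (ψ x) (hψm x hx)
  simp only [hr x hx] at h4
  exact h4

theorem Bd12.of_maps {Y Z : Type*} [TopologicalSpace Y] [TopologicalSpace Z] {A : Set Y} {B : Set Z}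
    (h : Bd12 A) {φ : Y → Z} {ψ : Z → Y} (hφ : ContinuousOn φ A) (hψ : ContinuousOn ψ B)
    (hφm : ∀ x ∈ A, φ x ∈ B) (hψm : ∀ x ∈ B, ψ x ∈ A) (hr : ∀ x ∈ B, φ (ψ x) = x) : Bd12 B := by
  have hB : B = φ '' A := by
    ext x
    constructor
    · intro hx
      exact ⟨ψ x, hψm x hx, hr x hx⟩
    · rintro ⟨y, hy, rfl⟩
      exact hφm y hy
  refine ⟨?_, h.2.imp (fun h1 => ?_) fun h1 => ?_⟩
  · rw [hB]
    exact h.1.image φ hφ
  · exact h1.of_maps hφ hψ hφm hψm hr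
  · exact h1.of_maps hφ hψ hφm hψm hr

variable {V : Type*} [NormedAddCommGroup V] [InnerProductSpace ℝ V]
variable {f g : V → ℝ} {e : V} {L : Set ℝ} {A B : ℝ → ℕ → Prop} {S : Finset V}

/-- Only the signs at the levels matter. -/
theorem slW_congr {c : ℝ} (h : ∀ x, ⟪e, x⟫ = c → (g x ≤ 0 ↔ f x ≤ 0)) : slW g e c = slW f e c := by
  ext x
  exact and_congr_left fun hx => h x hx

theorem bdC_congr {x : V} (h : ∀ y, ⟪e, y⟫ = ⟪e, x⟫ → (g y ≤ 0 ↔ f y ≤ 0))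
    (hz : ∀ y, ⟪e, y⟫ = ⟪e, x⟫ → (g y = 0 ↔ f y = 0)) : bdC g e x = bdC f e x := by
  unfold bdC
  rw [slW_congr h]
  ext y
  refine and_congr_right fun hy => hz y ?_
  exact (connectedComponentIn_subset _ _ hy).2

/-- The boundary of a component under a homeomorphism which preserves the height. -/
theorem bdC_comp {Φ Ψ : V → V} (hΦ : Continuous Φ) (hΨ : Continuous Ψ) (h1 : ∀ x, Ψ (Φ x) = x)
    (h2 : ∀ x, Φ (Ψ x) = x) (hh : ∀ x, ⟪e, Φ x⟫ = ⟪e, x⟫) {x : V} (hx : f (Φ x) ≤ 0) :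
    bdC (fun y => f (Φ y)) e x = Ψ '' bdC f e (Φ x) := by
  have hh' : ∀ x, ⟪e, Ψ x⟫ = ⟪e, x⟫ := fun x => by rw [← hh, h2]
  obtain ⟨H, hH⟩ : ∃ H : V ≃ₜ V, H = ⟨⟨Ψ, Φ, h2, h1⟩, hΨ, hΦ⟩ := ⟨_, rfl⟩
  have hH1 : ∀ y, H y = Ψ y := by
    intro y
    rw [hH]
    rfl
  have hsl : slW (fun y => f (Φ y)) e ⟪e, x⟫ = Ψ '' slW f e ⟪e, Φ x⟫ := by
    ext y
    constructor
    · rintro ⟨h3, h4⟩
      exact ⟨Φ y, ⟨h3, by rw [hh, hh, h4]⟩, h1 y⟩
    · rintro ⟨z, ⟨h3, h4⟩, rfl⟩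
      refine ⟨?_, ?_⟩
      · show f (Φ (Ψ z)) ≤ 0
        rw [h2]
        exact h3
      · rw [hh', h4, hh]
  have hcc : connectedComponentIn (slW (fun y => f (Φ y)) e ⟪e, x⟫) x =
      Ψ '' connectedComponentIn (slW f e ⟪e, Φ x⟫) (Φ x) := by
    have h3 := H.image_connectedComponentIn (s := slW f e ⟪e, Φ x⟫) (x := Φ x) ⟨hx, rfl⟩
    have h4 : ∀ s : Set V, H '' s = Ψ '' s := fun s => by
      ext y
      constructor
      · rintro ⟨z, hz, rfl⟩
        exact ⟨z, hz, (hH1 z).symm⟩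
      · rintro ⟨z, hz, rfl⟩
        exact ⟨z, hz, hH1 z⟩
    rw [h4, h4, hH1, h1] at h3
    rw [hsl]
    exact h3.symm
  unfold bdC
  rw [hcc]
  ext y
  constructor
  · rintro ⟨⟨z, hz, rfl⟩, h3⟩
    have h4 : f (Φ (Ψ z)) = 0 := h3
    rw [h2] at h4
    exact ⟨z, ⟨hz, h4⟩, rfl⟩
  · rintro ⟨z, ⟨hz, h3⟩, rfl⟩
    refine ⟨⟨z, hz, rfl⟩, ?_⟩
    show f (Φ (Ψ z)) = 0
    rw [h2]
    exact h3

theorem Bd12.comp {Φ Ψ : V → V} (hΦ : Continuous Φ) (hΨ : Continuous Ψ) (h1 : ∀ x, Ψ (Φ x) = x)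
    (h2 : ∀ x, Φ (Ψ x) = x) (hh : ∀ x, ⟪e, Φ x⟫ = ⟪e, x⟫) {x : V} (hx : f (Φ x) ≤ 0)
    (h : Bd12 (bdC f e (Φ x))) : Bd12 (bdC (fun y => f (Φ y)) e x) := by
  rw [bdC_comp hΦ hΨ h1 h2 hh hx]
  refine h.of_maps (φ := Ψ) (ψ := Φ) hΨ.continuousOn hΦ.continuousOn
    (fun y hy => mem_image_of_mem _ hy) ?_ fun y _ => h1 y
  rintro _ ⟨z, hz, rfl⟩
  rw [h2]
  exact hz

variable [FiniteDimensional ℝ V]

theorem KT.topE (h : KT f e L A B S) : TopE f :=
  ⟨h.conn, h.out, Or.inl (BaseN_liftS h.mo.smooth.continuous h.lift).1⟩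

/-- Invariance under a homotopy to a function with the same germs at the horizontal zeros and the
same signs at the levels. -/
theorem KT.hom (he : ‖e‖ = 1) (h : KT f e L A B S) (hfg : Hom f g) (hg : ContDiff ℝ ∞ g)
    (hc : ∀ x, Crit g e x → g =ᶠ[𝓝 x] f) (hz : ∀ x, ⟪e, x⟫ ∈ L → (g x = 0 ↔ f x = 0))
    (hz' : ∀ x, ⟪e, x⟫ ∈ L → (g x ≤ 0 ↔ f x ≤ 0)) :
    KT g e L A B S := by
  have hmo : Mo g e := by
    refine h.mo.transfer hg hfg.good_right.bdd (fun x hx h0 => ?_) hc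
    refine hfg.good_right.regular hg x hx ?_
    rw [gradient, LinearIsometryEquiv.map_eq_zero_iff] at h0
    exact h0
  have htop := h.topE.of_hom hfg h.mo.smooth hg
  obtain ⟨φ, ψ, h1, h2, h3, h4, ⟨R, h5⟩, h6, h7⟩ := hfg.carries h.mo.smooth hg
  have hlift : LiftS {x | g x = 0} := by
    have hD : Dif ψ φ := ⟨h2, h1, h4, h3⟩
    have h8 : {x | g x = 0} = {x | ψ x ∈ {y | f y = 0}} := by
      ext x
      constructor
      · intro hx
        have h9 : x ∈ φ '' {x | f x = 0} := by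
          rw [h6]
          exact hx
        obtain ⟨y, hy, rfl⟩ := h9
        show ψ (φ y) ∈ {y | f y = 0}
        rw [h3]
        exact hy
      · intro hx
        have h9 : x ∈ {x | g x = 0} := by
          rw [← h6]
          exact ⟨ψ x, hx, h4 x⟩
        exact h9
    rw [h8]
    exact hD.liftS h.lift
  have hbdd : Bornology.IsBounded {x | g x ≤ 0} := by
    rw [← h7]
    have hc1 : IsCompact (closure {x | f x ≤ 0}) := by
      haveI : ProperSpace V := FiniteDimensional.proper ℝ V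
      exact h.bdd.isCompact_closure
    exact (hc1.image h1.continuous).isBounded.subset (image_mono subset_closure)
  refine ⟨hmo, hbdd, fun x hx => h.reg x (hx.congr (hc x hx)), htop.conn, htop.out, hlift,
    fun x hx hxL => ?_, fun x hx k hi => ?_, fun x hx k hi => ?_, h.mark.congr hz⟩
  · rw [bdC_congr (g := g) (f := f) (fun y hy => hz' y (by rw [hy]; exact hxL))
      fun y hy => hz y (by rw [hy]; exact hxL)]
    exact h.sl x ((hz' x hxL).1 hx) hxL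
  · have h8 := hc x (hx.crit he)
    exact h.up x (hx.congr' h8) k (hi.congr' h8)
  · have h8 := hc x (hx.crit_neg he)
    exact h.dn x (hx.congr' h8) k (hi.congr' h8)

/-- Invariance under diffeomorphisms of the hyperplane. -/
theorem KT.comp_dif [DecidableEq V] (he : ‖e‖ = 1) (h : KT f e L A B S)
    {φ ψ : (ℝ ∙ e)ᗮ → (ℝ ∙ e)ᗮ} (hφ : Dif φ ψ) :
    KT (fun x => f (extH e φ x)) e L A B (S.image (extH e ψ)) := by
  have hΦ : Dif (extH e φ) (extH e ψ) := hφ.extH he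
  have hh : ∀ x, ⟪e, extH e φ x⟫ = ⟪e, x⟫ := extH_height he φ
  have hh' : ∀ x, ⟪e, extH e ψ x⟫ = ⟪e, x⟫ := extH_height he ψ
  have hs : ContDiff ℝ ∞ fun x => f (extH e φ x) := h.mo.smooth.comp hΦ.smooth
  have hcr : ∀ x, Crit (fun y => f (extH e φ y)) e x ↔ Crit f e (extH e φ x) := by
    intro x
    constructor
    · intro hx
      obtain ⟨l, hl⟩ := hx.vert he
      exact crit_of_vert hx.1 ((gradient_comp_height h.mo.smooth hΦ hh x l).1 hl)
    · intro hx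
      obtain ⟨l, hl⟩ := hx.vert he
      exact crit_of_vert (f := fun y => f (extH e φ y)) hx.1
        ((gradient_comp_height h.mo.smooth hΦ hh x l).2 hl)
  have hid : ∀ x, Crit (fun y => f (extH e φ y)) e x → ∀ k, Idx (fun y => f (extH e φ y)) e x k →
      Idx f e (extH e φ x) k := by
    intro x hx k hk
    obtain ⟨l, hl⟩ := hx.vert he
    have h1 := idx_comp_height hs hΦ.symm hh' (extH e φ x) l (k := k) (by
      simp only [hΦ.left]
      exact hl) (by simpa only [hΦ.left] using hk)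
    simpa only [hΦ.right] using h1
  refine ⟨⟨hs, hΦ.bounded h.mo.bdd, fun x hx => hΦ.reg h.mo.smooth (h.mo.reg _ hx),
    fun x hx => ?_⟩, hΦ.bounded (A := {x | f x ≤ 0}) h.bdd, fun x hx => ?_, hΦ.isConnected h.conn,
    hΦ.isConnected h.out, hΦ.liftS h.lift, fun x hx hxL => ?_, fun x hx k hi => ?_,
    fun x hx k hi => ?_, h.mark.transport hΦ.symm.continuous hΦ.left hΦ.right hh⟩
  · obtain ⟨k, hk⟩ := h.mo.nd _ ((hcr x).1 hx)
    obtain ⟨l, hl⟩ := ((hcr x).1 hx).vert he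
    exact ⟨k, idx_comp_height h.mo.smooth hΦ hh x l hl hk⟩
  · rw [← hh]
    exact h.reg _ ((hcr x).1 hx)
  · refine Bd12.comp hΦ.continuous hΦ.symm.continuous hΦ.left hΦ.right hh hx ?_
    exact h.sl _ hx (by rw [hh]; exact hxL)
  · rw [← hh]
    exact h.up _ ((inward_comp_height h.mo.smooth hΦ hh x).1 hx) k (hid x (hx.crit he) k hi)
  · rw [← hh]
    exact h.dn _ ((inward_comp_height' h.mo.smooth hΦ hh x).1 hx) k (hid x (hx.crit_neg he) k hi)

end Pool.Schoen
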