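import Pool.Agent.H.MP_6c077c_gt.N2.RankA
import Pool.Agent.H.MP_6c077c_gt.N2.Cmp
import Pool.Agent.H.MP_6c077c_gt.N2.KHom

/-! The components of the slices have rank one. -/

set_option autoImplicit false

namespace Pool.Schoen

open Filter Set Metric
open scoped Topology RealInnerProductSpace ContDiff

private theorem Rank_dep2 {Y Z : Type*} [TopologicalSpace Y] [TopologicalSpace Z] {A : Set Y}
    {B : Set Z} (h : Dep2 A) {φ : Y → Z} {ψ : Z → Y} (hφ : ContinuousOn φ A)
    (hψ : ContinuousOn ψ B) (hφm : ∀ x ∈ A, φ x ∈ B) (hψm : ∀ x ∈ B, ψ x ∈ A)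
    (hr : ∀ x ∈ B, φ (ψ x) = x) : Dep2 B := by
  intro u v hu hv h1 h2
  obtain ⟨a, b, hab, l, hl, hl'⟩ := h (fun x => u (φ x)) (fun x => v (φ x))
    (hu.comp hφ hφm) (hv.comp hφ hφm) (fun x hx => h1 _ (hφm x hx))
    (fun x hx => h2 _ (hφm x hx))
  refine ⟨a, b, hab, fun x => l (ψ x), hl.comp hψ hψm, fun x hx => ?_⟩
  have h4 := hl' (ψ x) (hψm x hx)
  simp only [hr x hx] at h4
  exact h4

variable {V : Type*} [NormedAddCommGroup V] [InnerProductSpace ℝ V] [FiniteDimensional ℝ V]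

/-- `S` is the set `T` of the plane `⟪e, y⟫ = c`, moved to the hyperplane through `0`. -/
private structure Rank_tr (e : V) (c : ℝ) (S : Set (ℝ ∙ e)ᗮ) (T : Set V) : Prop where
  he : ‖e‖ = 1
  iff : ∀ w : (ℝ ∙ e)ᗮ, w ∈ S ↔ (w : V) + c • e ∈ T
  ht : ∀ y ∈ T, ⟪e, y⟫ = c

section tr
variable {e : V} {c : ℝ} {S : Set (ℝ ∙ e)ᗮ} {T : Set V}

omit [FiniteDimensional ℝ V] in
private theorem Rank_cont1 (e : V) : Continuous (hpr e) := (hprL e).continuous

omit [FiniteDimensional ℝ V] in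
private theorem Rank_cont2 (e : V) (c : ℝ) :
    Continuous fun w : (ℝ ∙ e)ᗮ => (w : V) + c • e :=
  continuous_subtype_val.add continuous_const

omit [FiniteDimensional ℝ V] in
private theorem Rank_tr.back (h : Rank_tr e c S T) {y : V} (hy : y ∈ T) :
    ((hpr e y : (ℝ ∙ e)ᗮ) : V) + c • e = y := by
  have h1 := hpr_add h.he y
  rw [h.ht y hy] at h1
  exact h1

omit [FiniteDimensional ℝ V] in
private theorem Rank_tr.mem (h : Rank_tr e c S T) {y : V} (hy : y ∈ T) : hpr e y ∈ S := by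
  rw [h.iff, h.back hy]
  exact hy

omit [FiniteDimensional ℝ V] in
private theorem Rank_tr.eq_down (h : Rank_tr e c S T) : S = hpr e '' T := by
  ext w
  constructor
  · intro hw
    exact ⟨_, (h.iff w).1 hw, hpr_coe h.he w c⟩
  · rintro ⟨y, hy, rfl⟩
    exact h.mem hy

omit [FiniteDimensional ℝ V] in
private theorem Rank_tr.eq_up (h : Rank_tr e c S T) :
    T = (fun w : (ℝ ∙ e)ᗮ => (w : V) + c • e) '' S := by
  ext y
  constructor
  · intro hy
    exact ⟨_, h.mem hy, h.back hy⟩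
  · rintro ⟨w, hw, rfl⟩
    exact (h.iff w).1 hw

omit [FiniteDimensional ℝ V] in
private theorem Rank_tr.lift_up (h : Rank_tr e c S T) (hl : LiftS S) : LiftS T :=
  hl.of_maps (Rank_cont2 e c).continuousOn (Rank_cont1 e).continuousOn
    (fun w hw => (h.iff w).1 hw) (fun _ hy => h.mem hy) (fun _ hy => h.back hy)

omit [FiniteDimensional ℝ V] in
private theorem Rank_tr.lift_down (h : Rank_tr e c S T) (hl : LiftS T) : LiftS S :=
  hl.of_maps (Rank_cont1 e).continuousOn (Rank_cont2 e c).continuousOn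
    (fun _ hy => h.mem hy) (fun w hw => (h.iff w).1 hw) (fun w _ => hpr_coe h.he w c)

omit [FiniteDimensional ℝ V] in
private theorem Rank_tr.dep2_up (h : Rank_tr e c S T) (hl : Dep2 S) : Dep2 T :=
  Rank_dep2 hl (Rank_cont2 e c).continuousOn (Rank_cont1 e).continuousOn
    (fun w hw => (h.iff w).1 hw) (fun _ hy => h.mem hy) (fun _ hy => h.back hy)

omit [FiniteDimensional ℝ V] in
private theorem Rank_tr.dep3_down (h : Rank_tr e c S T) (hl : Dep3 T) : Dep3 S :=
  hl.of_maps (Rank_cont1 e).continuousOn (Rank_cont2 e c).continuousOn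
    (fun _ hy => h.mem hy) (fun w hw => (h.iff w).1 hw) (fun w _ => hpr_coe h.he w c)

omit [FiniteDimensional ℝ V] in
private theorem Rank_tr.conn_down (h : Rank_tr e c S T) (hl : IsConnected T) :
    IsConnected S := by
  rw [h.eq_down]
  exact hl.image _ (Rank_cont1 e).continuousOn

omit [FiniteDimensional ℝ V] in
private theorem Rank_tr.pre_up (h : Rank_tr e c S T) (hl : IsPreconnected S) :
    IsPreconnected T := by
  rw [h.eq_up]
  exact hl.image _ (Rank_cont2 e c).continuousOn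

end tr

private theorem Rank_fin (hV : Module.finrank ℝ V = 4) {e : V} (he : ‖e‖ = 1) :
    Module.finrank ℝ (ℝ ∙ e)ᗮ = 3 := by
  have he0 : e ≠ 0 := by
    rintro rfl
    rw [norm_zero] at he
    exact zero_ne_one he
  exact Submodule.finrank_orthogonal_span_singleton (𝕜 := ℝ) (_i := ⟨hV⟩) he0

/-- PROOF. Let `x` be in the slice, `K` the component in the hyperplane (`hpr`); it is a compact,
relatively clopen part of `{slc f e c ≤ 0}` (`comp_clopen`, `cmpW_eq`); `exists_smooth_part` gives `k` with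
`{k ≤ 0} = K`, `{k = 0} = K ∩ {slc f e c = 0}` (which is `bdC f e x` moved by `w ↦ w + c • e`).
`rank_not`, `rank_dep`, transport. -/
theorem rk_of_bd (hV : Module.finrank ℝ V = 4) {f : V → ℝ} {e : V} (he : ‖e‖ = 1) (h : Mo f e)
    (hb : Bornology.IsBounded {x | f x ≤ 0}) {c : ℝ} (hc : ∀ x, Crit f e x → ⟪e, x⟫ ≠ c)
    (hT : ∀ x, f x ≤ 0 → ⟪e, x⟫ = c →
      IsConnected (bdC f e x) ∧ ¬ LiftS (bdC f e x) ∧ Dep3 (bdC f e x)) : Rk f e c := by
  intro x hx hxc
  obtain ⟨hT1, hT2, hT3⟩ := hT x hx hxc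
  have hE := Rank_fin hV he
  obtain ⟨g, hg⟩ : ∃ g, g = slc f e c := ⟨_, rfl⟩
  have hgs : ContDiff ℝ ∞ g := by rw [hg]; exact slc_smooth h.smooth e c
  have hgr : ∀ w, g w = 0 → gradient g w ≠ 0 := by
    rw [hg]
    exact slc_reg h.smooth he fun y hy hyc l hl => hc y (crit_of_vert hy hl) hyc
  have hgb : Bornology.IsBounded {w | g w ≤ 0} := by rw [hg]; exact slc_bdd hb e c
  obtain ⟨K, hK⟩ : ∃ K, K = connectedComponentIn {w | g w ≤ 0} (hpr e x) := ⟨_, rfl⟩
  obtain ⟨hK1, hK2⟩ := comp_clopen hgs hgr (hpr e x)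
  rw [← hK] at hK1 hK2
  have hKg : K ⊆ {w | g w ≤ 0} := by
    rw [hK]
    exact connectedComponentIn_subset _ _
  have hKc : IsCompact K := Metric.isCompact_of_isClosed_isBounded hK1 (hgb.subset hKg)
  obtain ⟨k, hk, hk0, hkg⟩ := exists_smooth_part hgs 1 hKc hK2.isOpen_compl
    (W := ({w | g w ≤ 0} \ K)ᶜ) (fun w hw hw' => hw'.2 hw) (fun w hw => by
      rw [one_mul]
      constructor
      · intro h1
        by_contra h2
        exact hw ⟨h1, h2⟩
      · intro h1
        exact hKg h1)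
  have hkg' : ∀ w ∈ K, k =ᶠ[𝓝 w] g := by
    intro w hw
    have h1 := hkg w hw
    simpa only [one_mul] using h1
  have hk00 : ∀ w, k w = 0 ↔ w ∈ K ∧ g w = 0 := by
    intro w
    constructor
    · intro h1
      have h2 := (hk0 w).1 h1.le
      exact ⟨h2, by rw [← (hkg' w h2).self_of_nhds, h1]⟩
    · rintro ⟨h1, h2⟩
      rw [(hkg' w h1).self_of_nhds, h2]
  have hcm : cmpW f e x = (fun w : (ℝ ∙ e)ᗮ => (w : V) + c • e) '' K := by
    have h1 := cmpW_eq he hx
    rw [hxc] at h1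
    rw [hK, hg]
    exact h1
  have trK : Rank_tr e c K (cmpW f e x) := by
    refine ⟨he, fun w => ?_, fun y hy => ?_⟩
    · rw [hcm]
      constructor
      · intro hw
        exact ⟨w, hw, rfl⟩
      · rintro ⟨w', hw', hww⟩
        have h1 : w' = w := Subtype.ext (add_right_cancel hww)
        rw [← h1]
        exact hw'
    · rw [hcm] at hy
      obtain ⟨w, _, rfl⟩ := hy
      exact inner_hpr he w c
  have trB : Rank_tr e c {w | k w = 0} (bdC f e x) := by
    refine ⟨he, fun w => ?_, fun y hy => trK.ht y hy.1⟩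
    have h1 : w ∈ {w | k w = 0} ↔ w ∈ K ∧ g w = 0 := hk00 w
    rw [h1, trK.iff w, hg]
    rfl
  have hk1 : {w | k w ≤ 0} = K := by
    ext w
    exact hk0 w
  have hkb : Bornology.IsBounded {w | k w = 0} :=
    (hgb.subset hKg).subset fun w hw => ((hk00 w).1 hw).1
  have hkr : ∀ w, k w = 0 → gradient k w ≠ 0 := by
    intro w hw
    obtain ⟨h1, h2⟩ := (hk00 w).1 hw
    have h3 : gradient k w = gradient g w := by
      unfold gradient
      rw [(hkg' w h1).fderiv_eq]
    rw [h3]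
    exact hgr w h2
  have hkc : IsConnected {w | k w = 0} := trB.conn_down hT1
  have hkn : ¬ LiftS {w | k w = 0} := fun h1 => hT2 (trB.lift_up h1)
  have r1 := (rank_not hE hk hkb hkr hkc hkn).1
  have r2 := (rank_dep hE hk hkb hkr hkc hkn (trB.dep3_down hT3)).1
  rw [hk1] at r1 r2
  exact ⟨fun h1 => r1 (trK.lift_down h1), trK.dep2_up r2⟩

/-- PROOF. If the slice of the body is connected then `bdC f e x` is `{f = 0, ⟪e, y⟫ = c}`, and
`slW (-f)` is the other side in the hyperplane: `sides_conn`, `rank_not`, `rank_dep`. -/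
theorem rk_out (hV : Module.finrank ℝ V = 4) {f : V → ℝ} {e : V} (he : ‖e‖ = 1) (h : Mo f e)
    (hb : Bornology.IsBounded {x | f x ≤ 0}) {c : ℝ} (hc : ∀ x, Crit f e x → ⟪e, x⟫ ≠ c)
    (hT : ∀ x, f x ≤ 0 → ⟪e, x⟫ = c →
      IsConnected (bdC f e x) ∧ ¬ LiftS (bdC f e x) ∧ Dep3 (bdC f e x))
    (hconn : IsPreconnected (slW f e c)) (hne : (slW f e c).Nonempty) :
    IsPreconnected (slW (fun x => -f x) e c) ∧ ¬ LiftS (slW (fun x => -f x) e c) ∧
      Dep2 (slW (fun x => -f x) e c) := by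
  obtain ⟨x, hx⟩ := hne
  obtain ⟨hT1, hT2, hT3⟩ := hT x hx.1 hx.2
  have hE := Rank_fin hV he
  obtain ⟨g, hg⟩ : ∃ g, g = slc f e c := ⟨_, rfl⟩
  have hgs : ContDiff ℝ ∞ g := by rw [hg]; exact slc_smooth h.smooth e c
  have hgr : ∀ w, g w = 0 → gradient g w ≠ 0 := by
    rw [hg]
    exact slc_reg h.smooth he fun y hy hyc l hl => hc y (crit_of_vert hy hl) hyc
  have hgb : Bornology.IsBounded {w | g w ≤ 0} := by rw [hg]; exact slc_bdd hb e c
  have hbd : bdC f e x = {y | f y = 0 ∧ ⟪e, y⟫ = c} := by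
    unfold bdC
    rw [hx.2, hconn.connectedComponentIn hx]
    ext y
    constructor
    · rintro ⟨h1, h2⟩
      exact ⟨h2, h1.2⟩
    · rintro ⟨h1, h2⟩
      exact ⟨⟨h1.le, h2⟩, h1⟩
  have trB : Rank_tr e c {w | g w = 0} (bdC f e x) := by
    refine ⟨he, fun w => ?_, fun y hy => ?_⟩
    · rw [hbd, hg]
      constructor
      · intro hw
        exact ⟨hw, inner_hpr he w c⟩
      · intro hw
        exact hw.1
    · rw [hbd] at hy
      exact hy.2
  have trO : Rank_tr e c {w | 0 ≤ g w} (slW (fun x => -f x) e c) := by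
    refine ⟨he, fun w => ?_, fun y hy => hy.2⟩
    rw [hg]
    constructor
    · intro hw
      exact ⟨neg_nonpos.2 hw, inner_hpr he w c⟩
    · intro hw
      exact neg_nonpos.1 hw.1
  have hgb0 : Bornology.IsBounded {w | g w = 0} := hgb.subset fun w hw => le_of_eq hw
  have hgc : IsConnected {w | g w = 0} := trB.conn_down hT1
  have hgn : ¬ LiftS {w | g w = 0} := fun h1 => hT2 (trB.lift_up h1)
  have r0 := (sides_conn hgs.continuous hgc).2
  have r1 := (rank_not hE hgs hgb0 hgr hgc hgn).2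
  have r2 := (rank_dep hE hgs hgb0 hgr hgc hgn (trB.dep3_down hT3)).2
  exact ⟨trO.pre_up r0.isPreconnected, fun h1 => r1 (trO.lift_down h1), trO.dep2_up r2⟩

end Pool.Schoen
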