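import Pool.Agent.H.MP_6c077c_gt.N2.ClaimA
import Pool.Agent.H.MP_6c077c_gt.N2.Rank

/-! Base pieces: the opposite direction, ranks, kinds. -/

set_option autoImplicit false

namespace Pool.Schoen

open Filter Set Metric
open scoped Topology RealInnerProductSpace ContDiff

variable {V : Type*} [NormedAddCommGroup V] [InnerProductSpace ℝ V] [FiniteDimensional ℝ V]
variable {f : V → ℝ} {e : V} {L : Set ℝ}

private theorem ConnA_excl (he : ‖e‖ = 1) {x : V} (h1 : Inward f e x) (h2 : Inward f (-e) x) :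
    False := by
  obtain ⟨-, l, hl, hg⟩ := h1
  obtain ⟨-, l', hl', hg'⟩ := h2
  rw [hg, smul_neg, neg_neg] at hg'
  have h3 : (l + l') • e = 0 := by
    rw [add_smul, ← hg']
    abel
  rcases smul_eq_zero.1 h3 with h4 | h4
  · linarith
  · rw [h4, norm_zero] at he
    exact zero_ne_one he

private theorem ConnA_iff (he : ‖e‖ = 1) (h : Mo f e) {x : V} (hx : Crit f e x) :
    Inward f (-e) x ↔ ¬ Inward f e x := by
  constructor
  · exact fun h1 h2 => ConnA_excl he h2 h1
  · intro h1
    rcases (crit_iff he h.reg x).1 hx with h2 | h2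
    · exact absurd h2 h1
    · exact h2

private theorem ConnA_slW (c : ℝ) : slW f (-e) (-c) = slW f e c := by
  unfold slW
  ext x
  simp only [mem_ofPred_eq, inner_neg_left, neg_inj]

private theorem ConnA_bdC (x : V) : bdC f (-e) x = bdC f e x := by
  unfold bdC
  rw [inner_neg_left, ConnA_slW]

theorem BaseP.flip (h : BaseP f e L) : BaseP f (-e) {c | -c ∈ L} where
  he := by rw [norm_neg]; exact h.he
  mo := h.mo.flip
  bdd := h.bdd
  conn := h.conn
  out := h.out
  lift := h.lift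
  fin := h.fin.preimage neg_injective.injOn
  reg := fun x hx hL => by
    have h1 : -⟪-e, x⟫ ∈ L := hL
    rw [inner_neg_left, neg_neg] at h1
    exact h.reg x (crit_flip.1 hx) h1
  bd := fun x hx hL => by
    have h1 : -⟪-e, x⟫ ∈ L := hL
    rw [inner_neg_left, neg_neg] at h1
    rw [ConnA_bdC]
    exact h.bd x hx h1
  lo := by
    obtain ⟨c, hc, h1⟩ := h.hi
    refine ⟨-c, ?_, fun x hx => ?_⟩
    · show - -c ∈ L
      rwa [neg_neg]
    · rw [inner_neg_left]
      exact neg_lt_neg (h1 x hx)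
  hi := by
    obtain ⟨c, hc, h1⟩ := h.lo
    refine ⟨-c, ?_, fun x hx => ?_⟩
    · show - -c ∈ L
      rwa [neg_neg]
    · rw [inner_neg_left]
      exact neg_lt_neg (h1 x hx)
  one := fun x y j k hx hy hj hk hj0 hk0 hL => by
    have hx' := crit_flip.1 hx
    have hy' := crit_flip.1 hy
    obtain ⟨h1, h2⟩ := h.one x y j k hx' hy' (idx_neg_dir.1 hj) (idx_neg_dir.1 hk) hj0 hk0 (by
      intro c hc
      have h3 := hL (-c) (by show - -c ∈ L; rwa [neg_neg])
      rw [inner_neg_left, inner_neg_left, neg_lt_neg_iff, neg_lt_neg_iff] at h3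
      have h4 : ⟪e, x⟫ ≠ c := fun h5 => h.reg x hx' (h5 ▸ hc)
      have h5 : ⟪e, y⟫ ≠ c := fun h6 => h.reg y hy' (h6 ▸ hc)
      constructor
      · intro h6
        rcases lt_or_gt_of_ne h5 with h7 | h7
        · exact h7
        · exact absurd (h3.2 h7) (not_lt.2 h6.le)
      · intro h6
        rcases lt_or_gt_of_ne h4 with h7 | h7
        · exact h7
        · exact absurd (h3.1 h7) (not_lt.2 h6.le))
    refine ⟨h1, ?_⟩
    rw [ConnA_iff h.he h.mo hx', ConnA_iff h.he h.mo hy', h2]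

theorem BaseP.rk (hV : Module.finrank ℝ V = 4) (h : BaseP f e L) {c : ℝ} (hc : c ∈ L) :
    Rk f e c :=
  rk_of_bd hV h.he h.mo h.bdd (fun x hx h1 => h.reg x hx (h1 ▸ hc))
    fun x hx h1 => h.bd x hx (h1 ▸ hc)

/-- Between two neighbours `c < t` in `L` at most one kind of points of index different from zero.
PROOF. `h.one`; `NoI f (-e) k` is about `Inward f (-e)`; the kinds are (normal `-e` or `e`, index). -/
theorem BaseP.kinds (h : BaseP f e L) {c t : ℝ} (hcL : c ∈ L) (htL : t ∈ L)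
    (hn : ∀ c' ∈ L, c' ≤ c ∨ t ≤ c') :
    NoI f e 1 c t ∨ (NoI f e 2 c t ∧ NoI f e 3 c t ∧ NoI f (-e) 1 (-t) (-c) ∧
      NoI f (-e) 2 (-t) (-c) ∧ NoI f (-e) 3 (-t) (-c)) := by
  by_cases h0 : NoI f e 1 c t
  · exact Or.inl h0
  · right
    unfold NoI at h0
    push Not at h0
    obtain ⟨x, hx, hcx, hxt, hx1⟩ := h0
    have key : ∀ y k, Crit f e y → c < ⟪e, y⟫ → ⟪e, y⟫ < t → Idx f e y k → k ≠ 0 →
        1 = k ∧ Inward f e y := by
      intro y k hy h1 h2 hk hk0
      obtain ⟨h3, h4⟩ := h.one x y 1 k (hx.crit h.he) hy hx1 hk one_ne_zero hk0 (by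
        intro c' hc'
        rcases hn c' hc' with h5 | h5
        · exact ⟨fun h6 => absurd h6 (by linarith), fun h6 => absurd h6 (by linarith)⟩
        · exact ⟨fun _ => by linarith, fun _ => by linarith⟩)
      exact ⟨h3, h4.1 hx⟩
    have key2 : ∀ k, k ≠ 0 → NoI f (-e) k (-t) (-c) := by
      intro k hk0 y hy h1 h2 hk
      rw [inner_neg_left] at h1 h2
      exact ConnA_excl h.he (key y k (hy.crit_neg h.he) (by linarith) (by linarith)
        (idx_neg_dir.1 hk) hk0).2 hy
    refine ⟨fun y hy h1 h2 hk => ?_, fun y hy h1 h2 hk => ?_, key2 1 (by norm_num),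
      key2 2 (by norm_num), key2 3 (by norm_num)⟩
    · have := (key y 2 (hy.crit h.he) h1 h2 hk (by norm_num)).1
      omega
    · have := (key y 3 (hy.crit h.he) h1 h2 hk (by norm_num)).1
      omega

end Pool.Schoen
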