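import Pool.Agent.H.MP_6c077c_gt.N2.ConnA

/-! Base pieces: the parts below the levels are connected. -/

set_option autoImplicit false

namespace Pool.Schoen

open Filter Set Metric
open scoped Topology RealInnerProductSpace ContDiff

variable {V : Type*} [NormedAddCommGroup V] [InnerProductSpace ℝ V] [FiniteDimensional ℝ V]
variable {f : V → ℝ} {e : V} {L : Set ℝ}

omit [FiniteDimensional ℝ V] in
/-- A locally constant map of a preconnected set is constant. -/
private theorem ConnB_const {W : V → ℝ} {A : Set V} (hA : IsPreconnected A) (hW : ContinuousOn W A)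
    (h01 : ∀ x ∈ A, W x = 0 ∨ W x = 1) {x y : V} (hx : x ∈ A) (hy : y ∈ A) (hx0 : W x = 0)
    (hy1 : W y = 1) : False := by
  have h1 := (hA.image W hW).ordConnected.out (mem_image_of_mem W hx) (mem_image_of_mem W hy)
  rw [hx0, hy1] at h1
  obtain ⟨z, hz, hz2⟩ := h1 (show (1 / 2 : ℝ) ∈ Icc (0 : ℝ) 1 by constructor <;> norm_num)
  rcases h01 z hz with h2 | h2 <;> rw [h2] at hz2 <;> norm_num at hz2

omit [FiniteDimensional ℝ V] in
/-- If locally constant maps of the slice at `c` extend over the slab, and the part below `t` is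
preconnected, then the part below `c` is preconnected. -/
private theorem ConnB_step (hf : Continuous f) {c t : ℝ} (hct : c ≤ t)
    (hE : ExtB (slW f e c) (layS f e c t)) (ht : IsPreconnected (wle f e t)) :
    IsPreconnected (wle f e c) := by
  classical
  have hz : Continuous fun x : V => ⟪e, x⟫ := continuous_const.inner continuous_id
  have hcl : IsClosed (wle f e c) := (isClosed_le hf continuous_const).inter
    (isClosed_le hz continuous_const)
  rw [isPreconnected_closed_iff]
  intro P Q hP hQ hPQ hneP hneQ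
  by_contra hno
  rw [not_nonempty_iff_eq_empty] at hno
  obtain ⟨x, hx, hxP⟩ := hneP
  obtain ⟨y, hy, hyQ⟩ := hneQ
  let u : V → ℝ := fun z => if z ∈ Q then 1 else 0
  have hu1 : ∀ z ∈ Q, u z = 1 := fun z hz => if_pos hz
  have hu0 : ∀ z ∉ Q, u z = 0 := fun z hz => if_neg hz
  have hnQ : ∀ z ∈ wle f e c, z ∈ P → z ∉ Q := by
    intro z hzw hzP hzQ
    have h1 : z ∈ wle f e c ∩ (P ∩ Q) := ⟨hzw, hzP, hzQ⟩
    rw [hno] at h1
    exact h1
  have hu01 : ∀ z, u z = 0 ∨ u z = 1 := by
    intro z
    by_cases hzQ : z ∈ Q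
    · exact Or.inr (hu1 z hzQ)
    · exact Or.inl (hu0 z hzQ)
  have huc : ContinuousOn u (wle f e c) := by
    have h1 : ContinuousOn u (wle f e c ∩ P) :=
      (continuousOn_const (c := (0 : ℝ))).congr fun z hz => hu0 z (hnQ z hz.1 hz.2)
    have h2 : ContinuousOn u (wle f e c ∩ Q) :=
      (continuousOn_const (c := (1 : ℝ))).congr fun z hz => hu1 z hz.2
    have h3 := h1.union_of_isClosed h2 (hcl.inter hP) (hcl.inter hQ)
    rwa [← inter_union_distrib_left, inter_eq_self_of_subset_left hPQ] at h3
  obtain ⟨U, hUc, hU01, hUu⟩ := hE u (huc.mono fun z hz => ⟨hz.1, hz.2.le⟩) (fun z _ => hu01 z)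
  let W : V → ℝ := fun z => if ⟪e, z⟫ ≤ c then u z else U z
  have hWu : ∀ z ∈ wle f e c, W z = u z := fun z hz => if_pos hz.2
  have hWU : ∀ z ∈ layS f e c t, W z = U z := by
    intro z hz
    by_cases h1 : ⟪e, z⟫ ≤ c
    · have h2 : W z = u z := if_pos h1
      rw [h2]
      exact (hUu z ⟨hz.1, le_antisymm h1 hz.2.1⟩).symm
    · exact if_neg h1
  have hun : wle f e t = wle f e c ∪ layS f e c t := by
    ext z
    constructor
    · intro hz
      rcases le_total ⟪e, z⟫ c with h1 | h1
      · exact Or.inl ⟨hz.1, h1⟩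
      · exact Or.inr ⟨hz.1, h1, hz.2⟩
    · rintro (hz | hz)
      · exact ⟨hz.1, hz.2.trans hct⟩
      · exact ⟨hz.1, hz.2.2⟩
  have hWc : ContinuousOn W (wle f e t) := by
    rw [hun]
    exact (huc.congr hWu).union_of_isClosed (hUc.congr hWU) hcl (layS_closed hf e c t)
  have hW01 : ∀ z ∈ wle f e t, W z = 0 ∨ W z = 1 := by
    intro z hz
    rw [hun] at hz
    rcases hz with hz | hz
    · rw [hWu z hz]
      exact hu01 z
    · rw [hWU z hz]
      exact hU01 z hz
  refine ConnB_const ht hWc hW01 (x := x) (y := y) ⟨hx.1, hx.2.trans hct⟩ ⟨hy.1, hy.2.trans hct⟩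
    ?_ ?_
  · rw [hWu x hx]
    exact hu0 x (hnQ x hx hxP)
  · rw [hWu y hy]
    exact hu1 y hyQ

/-- PROOF. Otherwise take the largest `c ∈ L` for which it fails (`L` is finite); `c` is not the largest
element of `L` (`hi`: `wle f e c` is the body, connected); let `t` be the next element. `wle f e t` is
preconnected. By `claimA` (`BaseP.kinds`) and `extB_of_jn` locally constant maps of the slice at `c`
extend over `layS f e c t`. If `wle f e c = A₁ ∪ A₂`, disjoint closed, nonempty, the map `0` on `A₁`, `1`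
on `A₂` extends to a locally constant map of `wle f e t = wle f e c ∪ layS f e c t`. -/
theorem BaseP.le_conn (hV : Module.finrank ℝ V = 4) (h : BaseP f e L) {c : ℝ} (hc : c ∈ L) :
    IsPreconnected (wle f e c) := by
  have hf : Continuous f := h.mo.smooth.continuous
  have hz : Continuous fun x : V => ⟪e, x⟫ := continuous_const.inner continuous_id
  by_contra hno
  have hfin : {c | c ∈ L ∧ ¬ IsPreconnected (wle f e c)}.Finite := h.fin.subset fun _ hx => hx.1
  obtain ⟨b, hb, hbmax⟩ := hfin.exists_maximal ⟨c, hc, hno⟩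
  obtain ⟨hbL, hbn⟩ := hb
  apply hbn
  by_cases htop : ∃ t ∈ L, b < t
  · have hfin2 : {t | t ∈ L ∧ b < t}.Finite := h.fin.subset fun _ hx => hx.1
    obtain ⟨t, ⟨htL, hbt⟩, htmin⟩ := hfin2.exists_minimal htop
    have hn : ∀ c' ∈ L, c' ≤ b ∨ t ≤ c' := by
      intro c' hc'
      rcases le_or_gt c' b with h1 | h1
      · exact Or.inl h1
      · right
        rcases le_total t c' with h2 | h2
        · exact h2
        · exact htmin ⟨hc', h1⟩ h2
    have ht : IsPreconnected (wle f e t) := by
      by_contra h1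
      have h2 := hbmax ⟨htL, h1⟩ hbt.le
      exact absurd hbt (not_lt.2 h2)
    have hk : NoI f e 1 b t ∨ (NoI f e 2 b t ∧ NoI f (-e) 1 (-t) (-b)) := by
      rcases h.kinds hbL htL hn with h1 | h1
      · exact Or.inl h1
      · exact Or.inr ⟨h1.1, h1.2.2.1⟩
    have hA := claimA h.he h.mo h.bdd hbt.le (fun x hx he => h.reg x hx (he ▸ hbL))
      (fun x hx he => h.reg x hx (he ▸ htL)) (h.rk hV hbL) (h.rk hV htL) hk
    have hK : IsCompact (layS f e b t) := Metric.isCompact_of_isClosed_isBounded
      (layS_closed hf e b t) (h.bdd.subset fun x hx => hx.1)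
    have hcl : IsClosed (slW f e b) := (isClosed_le hf continuous_const).inter
      (isClosed_eq hz continuous_const)
    have hE := extB_of_jn hK hcl (fun x hx => ⟨hx.1, hx.2.ge, hx.2.le.trans hbt.le⟩) hA
    exact ConnB_step hf hbt.le hE ht
  · obtain ⟨c1, hc1, hc1x⟩ := h.hi
    have h1 : wle f e b = {x | f x ≤ 0} := by
      ext x
      constructor
      · intro hx
        exact hx.1
      · intro hx
        have h2 : c1 ≤ b := not_lt.1 fun h3 => htop ⟨c1, hc1, h3⟩
        exact ⟨hx, (hc1x x hx).le.trans h2⟩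
    rw [h1]
    exact h.conn.isPreconnected

end Pool.Schoen
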