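import Pool.Agent.H.MP_6c077c_gt.N2.ConnB
import Pool.Agent.H.MP_6c077c_gt.N2.Unis

/-! Base pieces: all slices at the levels are connected. -/

set_option autoImplicit false

namespace Pool.Schoen

open Filter Set Metric
open scoped Topology RealInnerProductSpace ContDiff

variable {V : Type*} [NormedAddCommGroup V] [InnerProductSpace ℝ V] [FiniteDimensional ℝ V]
variable {f : V → ℝ} {e : V} {L : Set ℝ}

private theorem ConnL_closed (hf : Continuous f) (e : V) (c : ℝ) : IsClosed (wle f e c) := by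
  have h1 : wle f e c = {x | f x ≤ 0} ∩ {x | ⟪e, x⟫ ≤ c} := rfl
  rw [h1]
  exact (isClosed_le hf continuous_const).inter
    (isClosed_le (continuous_const.inner continuous_id) continuous_const)

private theorem ConnL_inter (f : V → ℝ) (e : V) (c : ℝ) :
    wle f e c ∩ wle f (-e) (-c) = slW f e c := by
  ext x
  constructor
  · rintro ⟨⟨h1, h2⟩, -, h3⟩
    refine ⟨h1, le_antisymm h2 ?_⟩
    rw [inner_neg_left] at h3
    linarith
  · rintro ⟨h1, h2⟩
    refine ⟨⟨h1, h2.le⟩, h1, ?_⟩
    show ⟪-e, x⟫ ≤ -c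
    rw [inner_neg_left, h2]

private theorem ConnL_union (f : V → ℝ) (e : V) (c : ℝ) :
    wle f e c ∪ wle f (-e) (-c) = {x | f x ≤ 0} := by
  ext x
  constructor
  · rintro (h | h)
    · exact h.1
    · exact h.1
  · intro h
    rcases le_total ⟪e, x⟫ c with h1 | h1
    · exact Or.inl ⟨h, h1⟩
    · refine Or.inr ⟨h, ?_⟩
      show ⟪-e, x⟫ ≤ -c
      rw [inner_neg_left]
      linarith

/-- PROOF. `BaseP.le_conn` for `e` and `-e`, `unico_set`, and `LiftS {f ≤ 0}` (`BaseN_liftS`). -/
theorem BaseP.sl_conn (hV : Module.finrank ℝ V = 4) (h : BaseP f e L) {c : ℝ} (hc : c ∈ L) :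
    IsPreconnected (slW f e c) := by
  have h1 := BaseP.le_conn hV h hc
  have h2 : IsPreconnected (wle f (-e) (-c)) := by
    refine BaseP.le_conn hV h.flip ?_
    show - -c ∈ L
    rwa [neg_neg]
  rw [← ConnL_inter f e c]
  have hf := h.mo.smooth.continuous
  refine unico_set (ConnL_closed hf e c) (ConnL_closed hf (-e) (-c)) ?_ h1 h2
  rw [ConnL_union]
  exact (BaseN_liftS hf h.lift).1

/-- PROOF. `{f ≤ 0}` is connected and has points below and above `c`, so it meets the height `c`. -/
theorem BaseP.sl_ne (h : BaseP f e L) {c : ℝ} {x y : V} (hx : f x ≤ 0) (hy : f y ≤ 0)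
    (hxc : ⟪e, x⟫ < c) (hcy : c < ⟪e, y⟫) : (slW f e c).Nonempty := by
  have h1 := h.conn.isPreconnected.intermediate_value (f := fun x => ⟪e, x⟫) hx hy
    (continuous_const.inner continuous_id).continuousOn
  obtain ⟨z, hz, hzc⟩ := h1 ⟨hxc.le, hcy.le⟩
  exact ⟨z, hz, hzc⟩

private theorem ConnL_rk (hV : Module.finrank ℝ V = 4) (h : BaseP f e L) {c : ℝ} (hc : c ∈ L)
    (hne : (slW f e c).Nonempty) :
    IsPreconnected (slW (fun x => -f x) e c) ∧ ¬ LiftS (slW (fun x => -f x) e c) ∧
      Dep2 (slW (fun x => -f x) e c) := by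
  refine rk_out hV h.he h.mo h.bdd (fun x hx hxc => h.reg x hx ?_) (fun x hx hxc => ?_)
    (BaseP.sl_conn hV h hc) hne
  · rw [hxc]
    exact hc
  · refine h.bd x hx ?_
    rw [hxc]
    exact hc

/-- PROOF. The slice `slW (-f) e c` is preconnected (`rk_out`, or it is the hyperplane), and
`{0 ≤ f}` is connected: `preconn_cover_set`. -/
theorem BaseP.out_conn (hV : Module.finrank ℝ V = 4) (h : BaseP f e L) {c : ℝ} (hc : c ∈ L) :
    IsPreconnected (wle (fun x => -f x) e c) := by
  have hf : Continuous fun x => -f x := h.mo.smooth.continuous.neg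
  have key : IsPreconnected (slW (fun x => -f x) e c) ∧ (slW (fun x => -f x) e c).Nonempty := by
    by_cases hne : (slW f e c).Nonempty
    · obtain ⟨h1, h2, -⟩ := ConnL_rk hV h hc hne
      refine ⟨h1, ?_⟩
      by_contra h3
      rw [Set.not_nonempty_iff_eq_empty] at h3
      rw [h3] at h2
      exact h2 liftS_empty
    · have h1 : slW (fun x => -f x) e c = {x | ⟪e, x⟫ = c} := by
        ext x
        constructor
        · exact fun hx => hx.2
        · intro hx
          refine ⟨?_, hx⟩
          have h2 : ¬ f x ≤ 0 := fun h3 => hne ⟨x, h3, hx⟩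
          show -f x ≤ 0
          linarith
      rw [h1]
      constructor
      · have h2 : Convex ℝ {x : V | ⟪e, x⟫ = c} :=
          convex_hyperplane (innerSL ℝ e).isLinear c
        exact h2.isPreconnected
      · refine ⟨c • e, ?_⟩
        show ⟪e, c • e⟫ = c
        rw [inner_smul_right, real_inner_self_eq_norm_sq, h.he]
        norm_num
  refine preconn_cover_set (ConnL_closed hf e c) (ConnL_closed hf (-e) (-c)) ?_ ?_ ?_
  · rw [ConnL_union (fun x => -f x)]
    have h2 : {x | -f x ≤ 0} = {x | 0 ≤ f x} := by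
      ext x
      show -f x ≤ 0 ↔ 0 ≤ f x
      exact neg_nonpos
    rw [h2]
    exact h.out.isPreconnected
  · rw [ConnL_inter (fun x => -f x)]
    exact key.1
  · rw [ConnL_inter (fun x => -f x)]
    exact key.2

/-- PROOF. `rk_out`. -/
theorem BaseP.rk_out (hV : Module.finrank ℝ V = 4) (h : BaseP f e L) {c : ℝ} (hc : c ∈ L)
    (hne : (slW f e c).Nonempty) :
    ¬ LiftS (slW (fun x => -f x) e c) ∧ Dep2 (slW (fun x => -f x) e c) := by
  exact (ConnL_rk hV h hc hne).2

end Pool.Schoen
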