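import Pool.Agent.H.MP_6c077c_gt.F3.K3

/-! Slices with spheres and tori: the class of the induction. -/

set_option autoImplicit false

namespace Pool.Schoen

open Filter Set
open scoped Topology RealInnerProductSpace ContDiff

/-- Any three maps of `T` to the circle are dependent up to maps which lift to the line. -/
def Dep3 {Y : Type*} [TopologicalSpace Y] (T : Set Y) : Prop :=
  ∀ u v w : Y → ℂ, ContinuousOn u T → ContinuousOn v T → ContinuousOn w T →
    (∀ x ∈ T, ‖u x‖ = 1) → (∀ x ∈ T, ‖v x‖ = 1) → (∀ x ∈ T, ‖w x‖ = 1) →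
    ∃ a b c : ℤ, (a ≠ 0 ∨ b ≠ 0 ∨ c ≠ 0) ∧ Lifts T fun x => u x ^ a * v x ^ b * w x ^ c

/-- Connected, with the lifting property or of rank at most two. -/
def Bd12 {Y : Type*} [TopologicalSpace Y] (T : Set Y) : Prop :=
  IsConnected T ∧ (LiftS T ∨ Dep3 T)

variable {V : Type*} [NormedAddCommGroup V] [InnerProductSpace ℝ V]

/-- The slice of the body at height `c`. -/
def slW (f : V → ℝ) (e : V) (c : ℝ) : Set V := {x | f x ≤ 0 ∧ ⟪e, x⟫ = c}

/-- The boundary of the component of the slice of the body which contains `x`. -/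
def bdC (f : V → ℝ) (e x : V) : Set V :=
  connectedComponentIn (slW f e ⟪e, x⟫) x ∩ {y | f y = 0}

variable [FiniteDimensional ℝ V]

/-- The class of the induction: the levels of `L` are regular and every component of a slice of the
body at a level of `L` has a connected boundary of rank at most two; the horizontal points with
normal `-e` of index different from zero satisfy `A` (height, index), those with normal `e` satisfy
`B`; `S` are the markers of the level sets. -/
structure KT (f : V → ℝ) (e : V) (L : Set ℝ) (A B : ℝ → ℕ → Prop) (S : Finset V) : Prop where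
  mo : Mo f e
  bdd : Bornology.IsBounded {x | f x ≤ 0}
  reg : ∀ x, Crit f e x → ⟪e, x⟫ ∉ L
  conn : IsConnected {x | f x ≤ 0}
  out : IsConnected {x | 0 ≤ f x}
  lift : LiftS {x | f x = 0}
  sl : ∀ x, f x ≤ 0 → ⟪e, x⟫ ∈ L → Bd12 (bdC f e x)
  up : ∀ x, Inward f e x → ∀ k, Idx f e x k → k = 0 ∨ A ⟪e, x⟫ k
  dn : ∀ x, Inward f (-e) x → ∀ k, Idx f e x k → k = 0 ∨ B ⟪e, x⟫ k
  mark : Mark f e L S

/-- The points which satisfy `A` or `B` have different heights, in different gaps of `L`, and there
are levels above and below all of them; at each height there is at most one kind. -/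
structure SepL (L : Set ℝ) (A B : ℝ → ℕ → Prop) : Prop where
  fin : L.Finite
  oneA : ∀ t j k, A t j → A t k → j = k
  oneB : ∀ t j k, B t j → B t k → j = k
  oneAB : ∀ t j k, A t j → ¬ B t k
  gap : ∀ s t j k, (A s j ∨ B s j) → (A t k ∨ B t k) → s < t → ∃ c ∈ L, s < c ∧ c < t

end Pool.Schoen
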