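import Pool.Agent.H.MP_6c077c_gt.N2.Defs
import Pool.Agent.H.MP_6c077c_gt.helper58.Ext
import Pool.Agent.H.MP_6c077c_gt.Ts.Sep

/-! Slices with spheres and tori: definitions for the base case. -/

set_option autoImplicit false

namespace Pool.Schoen

open Filter Set Metric
open scoped Topology RealInnerProductSpace ContDiff

/-- Every locally constant map of `A` to `{0, 1}` is the restriction of one of `B`. -/
def ExtB {Y : Type*} [TopologicalSpace Y] (A B : Set Y) : Prop :=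
  ∀ u : Y → ℝ, ContinuousOn u A → (∀ x ∈ A, u x = 0 ∨ u x = 1) →
    ∃ U : Y → ℝ, ContinuousOn U B ∧ (∀ x ∈ B, U x = 0 ∨ U x = 1) ∧ ∀ x ∈ A, U x = u x

/-- Any two maps of `T` to the circle are dependent up to maps which lift to the line. -/
def Dep2 {Y : Type*} [TopologicalSpace Y] (T : Set Y) : Prop :=
  ∀ u v : Y → ℂ, ContinuousOn u T → ContinuousOn v T →
    (∀ x ∈ T, ‖u x‖ = 1) → (∀ x ∈ T, ‖v x‖ = 1) →
    ∃ a b : ℤ, (a ≠ 0 ∨ b ≠ 0) ∧ Lifts T fun x => u x ^ a * v x ^ b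

variable {V : Type*} [NormedAddCommGroup V] [InnerProductSpace ℝ V]

/-- The component of the slice of the body which contains `x`. -/
def cmpW (f : V → ℝ) (e x : V) : Set V := connectedComponentIn (slW f e ⟪e, x⟫) x

/-- The components of the slice have rank one. -/
def Rk (f : V → ℝ) (e : V) (c : ℝ) : Prop :=
  ∀ x, f x ≤ 0 → ⟪e, x⟫ = c → ¬ LiftS (cmpW f e x) ∧ Dep2 (cmpW f e x)

/-- The part of the body below the height `c`. -/
def wle (f : V → ℝ) (e : V) (c : ℝ) : Set V := {x | f x ≤ 0 ∧ ⟪e, x⟫ ≤ c}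

variable [FiniteDimensional ℝ V]

/-- There is no point with normal `-e` and index `k` between the heights `c` and `t`. -/
def NoI (f : V → ℝ) (e : V) (k : ℕ) (c t : ℝ) : Prop :=
  ∀ x, Inward f e x → c < ⟪e, x⟫ → ⟪e, x⟫ < t → ¬ Idx f e x k

/-- The base case: at all levels of `L` the components of the slices have connected boundary of rank
two, between two neighbours in `L` all points of index different from zero are of the same kind. -/
structure BaseP (f : V → ℝ) (e : V) (L : Set ℝ) : Prop where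
  he : ‖e‖ = 1
  mo : Mo f e
  bdd : Bornology.IsBounded {x | f x ≤ 0}
  conn : IsConnected {x | f x ≤ 0}
  out : IsConnected {x | 0 ≤ f x}
  lift : LiftS {x | f x = 0}
  fin : L.Finite
  reg : ∀ x, Crit f e x → ⟪e, x⟫ ∉ L
  bd : ∀ x, f x ≤ 0 → ⟪e, x⟫ ∈ L → IsConnected (bdC f e x) ∧ ¬ LiftS (bdC f e x) ∧ Dep3 (bdC f e x)
  lo : ∃ c ∈ L, ∀ x, f x ≤ 0 → c < ⟪e, x⟫
  hi : ∃ c ∈ L, ∀ x, f x ≤ 0 → ⟪e, x⟫ < c
  one : ∀ x y j k, Crit f e x → Crit f e y → Idx f e x j → Idx f e y k → j ≠ 0 → k ≠ 0 →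
    (∀ c ∈ L, (⟪e, x⟫ < c ↔ ⟪e, y⟫ < c)) → j = k ∧ (Inward f e x ↔ Inward f e y)

end Pool.Schoen
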