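import Pool.Agent.H.MP_6c077c_gt.N2.CompFun
import Pool.Agent.H.MP_6c077c_gt.N2.KHom

/-! Connected sums of surfaces in dimension three: if the sum has rank at most two, one of the
summands has the lifting property. -/

set_option autoImplicit false

namespace Pool.Schoen

open Filter Set Metric
open scoped Topology RealInnerProductSpace ContDiff

/-- `Y` is a connected, relatively clopen part of `Z`. -/
structure Pc {X : Type*} [TopologicalSpace X] (Z Y : Set X) : Prop where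
  sub : Y ⊆ Z
  conn : IsConnected Y
  cl : IsClosed Y
  cl' : IsClosed (Z \ Y)

section gen

variable {X : Type*} [TopologicalSpace X]

/-- The components of a closed locally connected set. -/
theorem Pc.of_loc {Z : Set X} (hZ : IsClosed Z)
    (hloc : ∀ x ∈ Z, ∃ U : Set X, IsOpen U ∧ x ∈ U ∧ IsPreconnected (U ∩ Z)) {x : X} (hx : x ∈ Z) :
    Pc Z (connectedComponentIn Z x) := by
  have hsub := connectedComponentIn_subset Z x
  refine ⟨hsub, isConnected_connectedComponentIn_iff.2 hx, ?_, ?_⟩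
  · refine isClosed_of_closure_subset fun z hz => ?_
    have hzZ : z ∈ Z := closure_minimal hsub hZ hz
    obtain ⟨U, hU, hzU, hc⟩ := hloc z hzZ
    obtain ⟨y, hyU, hy⟩ := mem_closure_iff.1 hz U hU hzU
    have h1 : U ∩ Z ⊆ connectedComponentIn Z y :=
      hc.subset_connectedComponentIn ⟨hyU, hsub hy⟩ inter_subset_right
    rw [← connectedComponentIn_eq hy] at h1
    exact h1 ⟨hzU, hzZ⟩
  · refine isClosed_of_closure_subset fun z hz => ?_
    have hzZ : z ∈ Z := closure_minimal sdiff_subset hZ hz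
    refine ⟨hzZ, fun hzC => ?_⟩
    obtain ⟨U, hU, hzU, hc⟩ := hloc z hzZ
    obtain ⟨y, hyU, hy⟩ := mem_closure_iff.1 hz U hU hzU
    have h1 : U ∩ Z ⊆ connectedComponentIn Z z :=
      hc.subset_connectedComponentIn ⟨hzU, hzZ⟩ inter_subset_right
    rw [← connectedComponentIn_eq hzC] at h1
    exact hy.2 (h1 ⟨hyU, hy.1⟩)

/-- A connected relatively clopen part is a component. -/
theorem Pc.eq_comp {Z Y : Set X} (h : Pc Z Y) {x : X} (hx : x ∈ Y) :
    connectedComponentIn Z x = Y := by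
  refine Subset.antisymm ?_ (h.conn.isPreconnected.subset_connectedComponentIn hx h.sub)
  have h1 : IsPreconnected (connectedComponentIn Z x) := isPreconnected_connectedComponentIn
  have h2 : connectedComponentIn Z x ⊆ Y ∪ Z \ Y := by
    intro y hy
    by_cases hyY : y ∈ Y
    · exact Or.inl hyY
    · exact Or.inr ⟨connectedComponentIn_subset Z x hy, hyY⟩
  have hxZ : x ∈ connectedComponentIn Z x := mem_connectedComponentIn (h.sub hx)
  intro y hy
  by_contra hyY
  have h3 := isPreconnected_closed_iff.1 h1 Y (Z \ Y) h.cl h.cl' h2 ⟨x, hxZ, hx⟩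
    ⟨y, hy, connectedComponentIn_subset Z x hy, hyY⟩
  obtain ⟨z, -, hz1, hz2⟩ := h3
  exact hz2.2 hz1

/-- The union of three connected sets in a row. -/
theorem foot_conn {P D R P' D' : Set X} (cP : IsClosed P) (cD : IsClosed D) (cP' : IsClosed P')
    (cD' : IsClosed D') (hY : IsPreconnected (P ∪ D)) (hY' : IsPreconnected (P' ∪ D'))
    (hC : IsConnected (P ∩ D)) (hC' : IsConnected (P' ∩ D')) (hR : IsPreconnected R)
    (h1 : (P ∩ R).Nonempty) (h2 : (P' ∩ R).Nonempty) : IsConnected (P ∪ R ∪ P') := by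
  have k1 : IsPreconnected P := preconn_cover_set cP cD hY hC.isPreconnected hC.nonempty
  have k2 : IsPreconnected P' := preconn_cover_set cP' cD' hY' hC'.isPreconnected hC'.nonempty
  obtain ⟨x, hx, hxR⟩ := h1
  obtain ⟨y, hy, hyR⟩ := h2
  have k3 : IsPreconnected (P ∪ R) := IsPreconnected.union x hx hxR k1 hR
  exact ⟨⟨x, Or.inl (Or.inl hx)⟩, IsPreconnected.union y (Or.inr hyR) hy k3 k2⟩

theorem LiftS.dep3 {A : Set X} (h : LiftS A) : Dep3 A := by
  intro u v w hu _ _ nu _ _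
  refine ⟨1, 0, 0, Or.inl one_ne_zero, ?_⟩
  refine Lifts.congr (h u hu nu) fun x _ => ?_
  rw [zpow_one, zpow_zero, zpow_zero, mul_one, mul_one]

/-- A map to the circle is changed so that it is trivial on a set with the lifting property. -/
private theorem Foot_norm [NormalSpace X] {A D : Set X} (hD : IsClosed D) (hDA : D ⊆ A)
    (hl : LiftS D) {u : X → ℂ} (hu : ContinuousOn u A) (hn : ∀ x ∈ A, ‖u x‖ = 1) :
    ∃ u' : X → ℂ, ContinuousOn u' A ∧ (∀ x ∈ A, ‖u' x‖ = 1) ∧ (∀ x ∈ D, u' x = 1) ∧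
      ∃ φ : X → ℝ, Continuous φ ∧ ∀ x, u x = u' x * Complex.exp (φ x * Complex.I) := by
  obtain ⟨p, hp, h2⟩ := hl u (hu.mono hDA) fun x hx => hn x (hDA hx)
  obtain ⟨g, hg⟩ := ContinuousMap.exists_restrict_eq hD
    (⟨fun x : D => p x, continuousOn_iff_continuous_domRestrict.1 hp⟩ : C(D, ℝ))
  have hgv : ∀ x ∈ D, g x = p x := by
    intro x hx
    exact DFunLike.congr_fun hg ⟨x, hx⟩
  have hgc : Continuous fun x => Complex.exp (-(g x * Complex.I)) := by
    have := g.continuous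
    fun_prop
  have he : ∀ x, Complex.exp (-(g x * Complex.I)) * Complex.exp (g x * Complex.I) = 1 := by
    intro x
    rw [← Complex.exp_add, neg_add_cancel, Complex.exp_zero]
  refine ⟨fun x => u x * Complex.exp (-(g x * Complex.I)), hu.mul hgc.continuousOn, ?_, ?_, g,
    g.continuous, ?_⟩
  · intro x hx
    rw [norm_mul, hn x hx, one_mul, ← neg_mul, ← Complex.ofReal_neg, Complex.norm_exp_ofReal_mul_I]
  · intro x hx
    change u x * Complex.exp (-(g x * Complex.I)) = 1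
    rw [h2 x hx, ← hgv x hx, mul_comm]
    exact he x
  · intro x
    rw [mul_assoc, he, mul_one]

private theorem Foot_ne {A : Set X} {u : X → ℂ} (h : ∀ x ∈ A, ‖u x‖ = 1) : ∀ x ∈ A, u x ≠ 0 := by
  intro x hx h0
  have := h x hx
  rw [h0, norm_zero] at this
  exact zero_ne_one this

/-- the extension by `1` -/
private theorem Foot_ext {P D Q : Set X} (cP : IsClosed P) (cQ : IsClosed Q) (hQ : P ∩ Q ⊆ D)
    {u : X → ℂ} (hu : ContinuousOn u (P ∪ D)) (hn : ∀ x ∈ P ∪ D, ‖u x‖ = 1)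
    (h1 : ∀ x ∈ D, u x = 1) :
    ∃ U : X → ℂ, ContinuousOn U (P ∪ Q) ∧ (∀ x ∈ P ∪ Q, ‖U x‖ = 1) ∧ (∀ x ∈ P, U x = u x) ∧
      ∀ x ∈ Q, U x = 1 := by
  classical
  have e1 : ∀ x ∈ P, (if x ∈ P then u x else 1) = u x := fun x hx => if_pos hx
  have e2 : ∀ x ∈ Q, (if x ∈ P then u x else 1) = 1 := by
    intro x hx
    split_ifs with hxP
    · exact h1 x (hQ ⟨hxP, hx⟩)
    · rfl
  refine ⟨fun x => if x ∈ P then u x else 1, ?_, ?_, e1, e2⟩
  · exact ContinuousOn.union_of_isClosed ((hu.mono subset_union_left).congr e1)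
      (continuousOn_const.congr e2) cP cQ
  · rintro x (hx | hx)
    · change ‖(if x ∈ P then u x else 1)‖ = 1
      rw [e1 x hx]
      exact hn x (Or.inl hx)
    · change ‖(if x ∈ P then u x else 1)‖ = 1
      rw [e2 x hx, norm_one]

private theorem Foot_triv {A : Set X} {φ : X → ℝ} (h : Continuous φ) :
    Lifts A fun x => Complex.exp (φ x * Complex.I) := ⟨φ, h.continuousOn, fun _ _ => rfl⟩

private theorem Foot_one {A : Set X} {u : X → ℂ} (h : ∀ x ∈ A, u x = 1) : Lifts A u :=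
  ⟨fun _ => 0, continuousOn_const, fun x hx => by rw [h x hx]; simp⟩

/-- The gluing argument: two independent maps on one summand and one nontrivial map on the other
are independent on the sum. -/
theorem foot_glue [NormalSpace X] {P D P' D' R : Set X} (cP : IsClosed P) (cD : IsClosed D)
    (cP' : IsClosed P') (cD' : IsClosed D') (cR : IsClosed R)
    (hdis : Disjoint (P ∪ D) (P' ∪ D')) (hD : LiftS D) (hD' : LiftS D')
    (hC : IsPreconnected (P ∩ D)) (hC' : IsPreconnected (P' ∩ D')) (hR : P ∩ R ⊆ D)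
    (hR' : P' ∩ R ⊆ D')
    (h2 : ∃ u v : X → ℂ, ContinuousOn u (P ∪ D) ∧ ContinuousOn v (P ∪ D) ∧
      (∀ x ∈ P ∪ D, ‖u x‖ = 1) ∧ (∀ x ∈ P ∪ D, ‖v x‖ = 1) ∧
      ∀ a b : ℤ, Lifts (P ∪ D) (fun x => u x ^ a * v x ^ b) → a = 0 ∧ b = 0)
    (hT : Dep3 (P ∪ R ∪ P')) : LiftS (P' ∪ D') := by
  obtain ⟨u, v, hu, hv, nu, nv, huv⟩ := h2
  obtain ⟨u', cu, nu', du, φ, cφ, eu⟩ := Foot_norm cD (A := P ∪ D) subset_union_right hD hu nu
  obtain ⟨v', cv, nv', dv, ψ, cψ, ev⟩ := Foot_norm cD (A := P ∪ D) subset_union_right hD hv nv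
  intro w hw nw
  by_contra hnl
  have hnl' : ¬ Lifts (P' ∪ D') w := hnl
  obtain ⟨w', cw, nw', dw, χ, cχ, ew⟩ :=
    Foot_norm cD' (A := P' ∪ D') subset_union_right hD' hw nw
  have hPP : ∀ x ∈ P, x ∉ P' := fun x hx hx' =>
    disjoint_left.1 hdis (Or.inl hx) (Or.inl hx')
  have hQ : P ∩ (R ∪ P') ⊆ D := by
    rintro x ⟨hx, hxR | hxP⟩
    · exact hR ⟨hx, hxR⟩
    · exact absurd hxP (hPP x hx)
  have hQ' : P' ∩ (P ∪ R) ⊆ D' := by
    rintro x ⟨hx, hxP | hxR⟩
    · exact absurd hx (hPP x hxP)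
    · exact hR' ⟨hx, hxR⟩
  obtain ⟨U, cU, nU, eU, oU⟩ := Foot_ext cP (cR.union cP') hQ cu nu' du
  obtain ⟨V, cV, nV, eV, oV⟩ := Foot_ext cP (cR.union cP') hQ cv nv' dv
  obtain ⟨W, cW, nW, eW, oW⟩ := Foot_ext cP' (cP.union cR) hQ' cw nw' dw
  rw [← union_assoc] at cU nU cV nV
  rw [union_comm P'] at cW nW
  obtain ⟨a, b, c, habc, hl⟩ := hT U V W cU cV cW nU nV nW
  have z1 := Foot_ne nu'
  have z2 := Foot_ne nv'
  have z3 := Foot_ne nw'
  have hab : a = 0 ∧ b = 0 := by
    refine huv a b ?_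
    have l1 : Lifts P fun x => u' x ^ a * v' x ^ b := by
      refine (hl.mono (subset_union_left.trans subset_union_left)).congr fun x hx => ?_
      rw [eU x hx, eV x hx, oW x (Or.inl hx), one_zpow, mul_one]
    have l2 : Lifts D fun x => u' x ^ a * v' x ^ b := by
      refine Foot_one fun x hx => ?_
      rw [du x hx, dv x hx, one_zpow, one_zpow, mul_one]
    have l3 : Lifts (P ∪ D) fun x => u' x ^ a * v' x ^ b :=
      lifts_union cP cD ((cu.zpow₀ a fun x hx => Or.inl (z1 x hx)).mul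
        (cv.zpow₀ b fun x hx => Or.inl (z2 x hx))) l1 l2 hC
    have l4 := l3.mul (((Foot_triv (A := P ∪ D) cφ).zpow a).mul ((Foot_triv cψ).zpow b))
    refine l4.congr fun x _ => ?_
    rw [eu x, ev x, mul_zpow, mul_zpow]
    ring
  obtain ⟨ha, hb⟩ := hab
  have hc : c ≠ 0 := by
    rcases habc with h | h | h
    · exact absurd ha h
    · exact absurd hb h
    · exact h
  have l1 : Lifts P' fun x => w' x ^ c := by
    refine (hl.mono subset_union_right).congr fun x hx => ?_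
    rw [ha, hb, zpow_zero, zpow_zero, one_mul, one_mul, eW x hx]
  have l2 : Lifts D' fun x => w' x ^ c := by
    refine Foot_one fun x hx => ?_
    rw [dw x hx, one_zpow]
  have l3 : Lifts (P' ∪ D') fun x => w' x ^ c :=
    lifts_union cP' cD' (cw.zpow₀ c fun x hx => Or.inl (z3 x hx)) l1 l2 hC'
  have l4 : Lifts (P' ∪ D') w' := lifts_of_zpow cw nw' hc l3
  refine hnl' ((l4.mul (Foot_triv cχ)).congr fun x _ => ?_)
  rw [ew x]

end gen

variable {E : Type*} [NormedAddCommGroup E] [InnerProductSpace ℝ E] [FiniteDimensional ℝ E]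

/-- The components of a regular level set. -/
theorem comp_pc {k : E → ℝ} (hk : ContDiff ℝ ∞ k) (hr : ∀ x, k x = 0 → gradient k x ≠ 0) {x : E}
    (hx : k x = 0) : Pc {y | k y = 0} (connectedComponentIn {y | k y = 0} x) := by
  refine Pc.of_loc (isClosed_eq hk.continuous continuous_const) (fun y hy => ?_) hx
  have h1 : HasStrictFDerivAt k (fderiv ℝ k y) y := hk.contDiffAt.hasStrictFDerivAt (by simp)
  have hs : (fderiv ℝ k y).range = ⊤ := by
    rw [LinearMap.range_eq_top]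
    obtain ⟨v, hv⟩ : ∃ v : E, fderiv ℝ k y v ≠ 0 := by
      by_contra hcon
      push Not at hcon
      refine hr y hy ?_
      have h2 : fderiv ℝ k y = 0 := by
        ext v
        exact hcon v
      unfold gradient
      rw [h2, map_zero]
    intro b
    refine ⟨(b / fderiv ℝ k y v) • v, ?_⟩
    change fderiv ℝ k y ((b / fderiv ℝ k y v) • v) = b
    rw [map_smul, smul_eq_mul, div_mul_cancel₀ _ hv]
  obtain ⟨U, hU, hyU, hc⟩ := local_level h1 hs
  have hy' : k y = 0 := hy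
  rw [hy'] at hc
  exact ⟨U, hU, hyU, hc⟩

/-- A component of a regular level set is the zero set of a smooth regular function. -/
theorem pc_fun {k : E → ℝ} (hk : ContDiff ℝ ∞ k) (hb : Bornology.IsBounded {x | k x = 0})
    (hr : ∀ x, k x = 0 → gradient k x ≠ 0) {Y : Set E} (hY : Pc {x | k x = 0} Y) :
    ∃ g : E → ℝ, ContDiff ℝ ∞ g ∧ (∀ x, g x = 0 ↔ x ∈ Y) ∧ (∀ x ∈ Y, g =ᶠ[𝓝 x] k) ∧
      ∀ x, g x = 0 → gradient g x ≠ 0 := by
  have hYc : IsCompact Y := Metric.isCompact_of_isClosed_isBounded hY.cl (hb.subset hY.sub)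
  obtain ⟨g, h1, h2, h3⟩ := comp_fun hk hYc hY.conn (W := ({x | k x = 0} \ Y)ᶜ)
    hY.cl'.isOpen_compl (fun x hx hx' => hx'.2 hx) (fun x hx => by
      constructor
      · intro h0
        by_contra hxY
        exact hx ⟨h0, hxY⟩
      · intro hxY
        exact hY.sub hxY)
  refine ⟨g, h1, h2, h3, fun x hx => ?_⟩
  have hxY := (h2 x).1 hx
  have h4 : gradient g x = gradient k x := by
    unfold gradient
    rw [(h3 x hxY).fderiv_eq]
  rw [h4]
  exact hr x (hY.sub hxY)

/-- A connected closed surface in dimension three without the lifting property carries two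
independent maps to the circle. -/
theorem two_maps (hE : Module.finrank ℝ E = 3) {k : E → ℝ} (hk : ContDiff ℝ ∞ k)
    (hb : Bornology.IsBounded {x | k x = 0}) (hr : ∀ x, k x = 0 → gradient k x ≠ 0) {Y : Set E}
    (hY : Pc {x | k x = 0} Y) (hn : ¬ LiftS Y) :
    ∃ u v : E → ℂ, ContinuousOn u Y ∧ ContinuousOn v Y ∧ (∀ x ∈ Y, ‖u x‖ = 1) ∧
      (∀ x ∈ Y, ‖v x‖ = 1) ∧
      ∀ a b : ℤ, Lifts Y (fun x => u x ^ a * v x ^ b) → a = 0 ∧ b = 0 := by
  obtain ⟨g, h1, h2, -, h4⟩ := pc_fun hk hb hr hY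
  have hgY : {x | g x = 0} = Y := by
    ext x
    exact h2 x
  obtain ⟨n1, n2⟩ := rank_not hE h1 (by rw [hgY]; exact hb.subset hY.sub) h4
    (by rw [hgY]; exact hY.conn) (by rw [hgY]; exact hn)
  have c1 : IsClosed {x | g x ≤ 0} := isClosed_le h1.continuous continuous_const
  have c2 : IsClosed {x | 0 ≤ g x} := isClosed_le continuous_const h1.continuous
  have hU : {x | g x ≤ 0} ∪ {x | 0 ≤ g x} = univ := by
    ext x
    simp only [mem_union, mem_ofPred_eq, mem_univ, iff_true]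
    exact le_total _ _
  have hI : {x | g x ≤ 0} ∩ {x | 0 ≤ g x} = Y := by
    rw [← hgY]
    ext x
    simp only [mem_inter_iff, mem_ofPred_eq]
    constructor
    · rintro ⟨a, b⟩
      exact le_antisymm a b
    · intro h
      exact ⟨h.le, h.ge⟩
  have hs1 : Y ⊆ {x | g x ≤ 0} := by rw [← hI]; exact inter_subset_left
  have hs2 : Y ⊆ {x | 0 ≤ g x} := by rw [← hI]; exact inter_subset_right
  obtain ⟨u, cu, nu, hu⟩ : ∃ u : E → ℂ, ContinuousOn u {x | g x ≤ 0} ∧
      (∀ x ∈ {x | g x ≤ 0}, ‖u x‖ = 1) ∧ ¬ Lifts {x | g x ≤ 0} u := by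
    by_contra hcon
    push Not at hcon
    exact n1 fun v cv nv => hcon v cv nv
  obtain ⟨v, cv, nv, hv⟩ : ∃ v : E → ℂ, ContinuousOn v {x | 0 ≤ g x} ∧
      (∀ x ∈ {x | 0 ≤ g x}, ‖v x‖ = 1) ∧ ¬ Lifts {x | 0 ≤ g x} v := by
    by_contra hcon
    push Not at hcon
    exact n2 fun v cv nv => hcon v cv nv
  refine ⟨u, v, cu.mono hs1, cv.mono hs2, fun x hx => nu x (hs1 hx), fun x hx => nv x (hs2 hx),
    fun a b hl => ⟨?_, ?_⟩⟩
  · by_contra ha
    refine not_liftS_glue c1 c2 cu nu hu cv nv ha (b := b) ?_ (by rw [hU]; exact liftS_univ E)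
    rw [hI]
    exact hl
  · by_contra hb'
    refine not_liftS_glue c2 c1 cv nv hv cu nu hb' (b := a) ?_
      (by rw [union_comm, hU]; exact liftS_univ E)
    rw [inter_comm, hI]
    exact hl.congr fun x _ => mul_comm _ _

/-- **The foot lemma.** `P ∪ D` and `P' ∪ D'` are two components of a regular level surface in
dimension three, `D` and `D'` discs; the surface `P ∪ R ∪ P'` (the connected sum, `R` the tube) has
rank at most two. Then one of the two components has the lifting property. -/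
theorem foot_lift (hE : Module.finrank ℝ E = 3) {k : E → ℝ} (hk : ContDiff ℝ ∞ k)
    (hb : Bornology.IsBounded {x | k x = 0}) (hr : ∀ x, k x = 0 → gradient k x ≠ 0)
    {P D P' D' R : Set E} (cP : IsClosed P) (cD : IsClosed D) (cP' : IsClosed P')
    (cD' : IsClosed D') (cR : IsClosed R) (hY : Pc {x | k x = 0} (P ∪ D))
    (hdis : Disjoint (P ∪ D) (P' ∪ D')) (hD : LiftS D) (hD' : LiftS D')
    (hC : IsPreconnected (P ∩ D)) (hC' : IsPreconnected (P' ∩ D')) (hR : P ∩ R ⊆ D)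
    (hR' : P' ∩ R ⊆ D') (hT : LiftS (P ∪ R ∪ P') ∨ Dep3 (P ∪ R ∪ P')) :
    LiftS (P ∪ D) ∨ LiftS (P' ∪ D') := by
  by_cases hn : LiftS (P ∪ D)
  · exact Or.inl hn
  · have hT' : Dep3 (P ∪ R ∪ P') := hT.elim LiftS.dep3 id
    exact Or.inr (foot_glue cP cD cP' cD' cR hdis hD hD' hC hC' hR hR'
      (two_maps hE hk hb hr hY hn) hT')

end Pool.Schoen
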