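import Pool.Agent.H.MP_6c077c_gt.N2.KHom
import Pool.Agent.H.MP_6c077c_gt.F3.StepP

/-! Slices with spheres and tori: the pieces of the cut are in the class. -/

set_option autoImplicit false

namespace Pool.Schoen

open Filter Set
open scoped Topology RealInnerProductSpace ContDiff

variable {V : Type*} [NormedAddCommGroup V] [InnerProductSpace ℝ V] [FiniteDimensional ℝ V]
variable {f : V → ℝ} {e : V} {c ζ R d : ℝ} {S : Finset V} {A C : V → ℝ} {L : Set ℝ}
  {P Q : ℝ → ℕ → Prop}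

omit [FiniteDimensional ℝ V] in
/-- At a level where the cut is not positive it agrees with the function. -/
theorem CylN.scut_sl (h : CylN f e (c • e) ζ R) (hd : 0 < d) (hdζ : 2 * d ≤ ζ) {y : V}
    (hL : ⟪e, y⟫ ≠ c → ζ ≤ |⟪e, y⟫ - c|) (hy : scut f e (c • e) d R y ≤ 0) :
    scut f e (c • e) d R =ᶠ[𝓝 y] f := by
  have hce : ⟪e, c • e⟫ = c := by
    rw [real_inner_smul_right, real_inner_self_eq_norm_sq, h.he]
    ring
  by_cases h1 : ⟪e, y⟫ = c
  · refine h.scut_off hd hdζ (Or.inr ?_)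
    by_contra h2
    have h3 : ⟪e, y - c • e⟫ = 0 := by rw [inner_sub_right, hce, h1, sub_self]
    have h4 := h.scut_mid (d := d) h3 (not_le.1 h2)
    linarith
  · refine h.scut_off hd hdζ (Or.inl ?_)
    rw [inner_sub_right, hce]
    exact hL h1

/-- The slice components of a piece are those of the function. -/
theorem CylN.bdC_part (h : CylN f e (c • e) ζ R) (hf : ContDiff ℝ ∞ f)
    (hreg : ∀ x, f x = 0 → gradient f x ≠ 0) (hd : 0 < d) (hdζ : 2 * d ≤ ζ)
    (hA : Continuous A) (hC : Continuous C)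
    (hun : ∀ x, scut f e (c • e) d R x ≤ 0 ↔ A x ≤ 0 ∨ C x ≤ 0) (hdis : ∀ x, A x ≤ 0 → 0 < C x)
    (hAs : ∀ x, A x = 0 → A =ᶠ[𝓝 x] scut f e (c • e) d R)
    {x : V} (hx : A x ≤ 0) (hL : ⟪e, x⟫ ≠ c → ζ ≤ |⟪e, x⟫ - c|) : bdC A e x = bdC f e x := by
  have hnear : ∀ y, ⟪e, y⟫ = ⟪e, x⟫ → A y ≤ 0 → scut f e (c • e) d R =ᶠ[𝓝 y] f := by
    intro y hy hAy
    refine h.scut_sl hd hdζ ?_ ((hun y).2 (Or.inl hAy))
    rw [hy]
    exact hL
  have hle : ∀ y, ⟪e, y⟫ = ⟪e, x⟫ → A y ≤ 0 → f y ≤ 0 := by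
    intro y hy hAy
    rw [← (hnear y hy hAy).self_of_nhds]
    exact (hun y).2 (Or.inl hAy)
  have hz : ∀ y, ⟪e, y⟫ = ⟪e, x⟫ → A y ≤ 0 → (A y = 0 ↔ f y = 0) := by
    intro y hy hAy
    have h1 := (hnear y hy hAy).self_of_nhds
    constructor
    · intro h2
      rw [← h1, ← (hAs y h2).self_of_nhds, h2]
    · intro h2
      rw [h2] at h1
      rcases h.parts_zero hf hreg hd hdζ hA hC hun h1 with h3 | h3
      · exact h3
      · have := hdis y hAy
        linarith
  have hsub : slW A e ⟪e, x⟫ ⊆ slW f e ⟪e, x⟫ := fun y hy => ⟨hle y hy.2 hy.1, hy.2⟩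
  have hcc : connectedComponentIn (slW f e ⟪e, x⟫) x ⊆ slW A e ⟪e, x⟫ := by
    have hpc : IsPreconnected (connectedComponentIn (slW f e ⟪e, x⟫) x) :=
      isPreconnected_connectedComponentIn
    have hxf : x ∈ slW f e ⟪e, x⟫ := hsub ⟨hx, rfl⟩
    -- an open set which contains the slice of `A` and no other point of the slice of `f`
    obtain ⟨O, hO⟩ : ∃ O : Set V, O = {y | (∀ᶠ z in 𝓝 y, scut f e (c • e) d R z = f z) ∧ 0 < C y} :=
      ⟨_, rfl⟩
    have hOo : IsOpen O := by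
      rw [hO]
      exact isOpen_setOfPred_eventually_nhds.inter (isOpen_lt continuous_const hC)
    have hO1 : ∀ y ∈ slW A e ⟪e, x⟫, y ∈ O := by
      rintro y ⟨h1, h2⟩
      rw [hO]
      exact ⟨hnear y h2 h1, hdis y h1⟩
    have hO2 : ∀ y ∈ slW f e ⟪e, x⟫, y ∈ O → A y ≤ 0 := by
      rintro y ⟨h1, h2⟩ h3
      rw [hO] at h3
      obtain ⟨h4, h5⟩ := h3
      have h6 : scut f e (c • e) d R y ≤ 0 := by
        rw [h4.self_of_nhds]
        exact h1
      rcases (hun y).1 h6 with h7 | h7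
      · exact h7
      · linarith
    have hOc : IsOpen {y | 0 < A y} := isOpen_lt continuous_const hA
    intro y hy
    refine ⟨?_, (connectedComponentIn_subset _ _ hy).2⟩
    by_contra h1
    push Not at h1
    obtain ⟨z, hz1, hz2, hz3⟩ := hpc O {y | 0 < A y} hOo hOc (fun z hz1 => by
        rcases le_or_gt (A z) 0 with h2 | h2
        · exact Or.inl (hO1 z ⟨h2, (connectedComponentIn_subset _ _ hz1).2⟩)
        · exact Or.inr h2)
      ⟨x, mem_connectedComponentIn hxf, hO1 x ⟨hx, rfl⟩⟩ ⟨y, hy, h1⟩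
    have h3 := hO2 z (connectedComponentIn_subset _ _ hz1) hz2
    have h4 : 0 < A z := hz3
    linarith
  have hxf : x ∈ slW f e ⟪e, x⟫ := hsub ⟨hx, rfl⟩
  have heq : connectedComponentIn (slW A e ⟪e, x⟫) x =
      connectedComponentIn (slW f e ⟪e, x⟫) x := by
    apply Subset.antisymm
    · exact connectedComponentIn_mono x hsub
    · exact isPreconnected_connectedComponentIn.subset_connectedComponentIn
        (mem_connectedComponentIn hxf) hcc
  unfold bdC
  rw [heq]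
  ext y
  refine and_congr_right fun hy => ?_
  have h1 := hcc hy
  exact hz y h1.2 h1.1

/-- The piece of a cut is in the class, with fewer markers. -/
theorem kt_piece (hn : 4 ≤ Module.finrank ℝ V) (h : KT f e L P Q S) (hc : c ∈ L)
    (hL : ∀ c' ∈ L, c' ≠ c → ζ ≤ |c' - c|)
    (hcy : CylN f e (c • e) ζ R) (hd : 0 < d) (hdζ : 2 * d ≤ ζ)
    (hA : ContDiff ℝ ∞ A) (hC : Continuous C)
    (hun : ∀ x, scut f e (c • e) d R x ≤ 0 ↔ A x ≤ 0 ∨ C x ≤ 0) (hdis : ∀ x, A x ≤ 0 → 0 < C x)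
    (hAs : ∀ x, A x = 0 → A =ᶠ[𝓝 x] scut f e (c • e) d R)
    (hcA : IsConnected {x | A x ≤ 0})
    (hcA' : IsConnected {x | 0 ≤ A x}) (hlA : LiftS {x | A x = 0}) :
    ∃ S' : Finset V, S'.card < S.card ∧ KT A e L P Q S' := by
  classical
  have he := hcy.he
  have hR := hcy.hR
  have hfs : ContDiff ℝ ∞ f := h.mo.smooth
  have hfreg := h.mo.reg
  have hz : ∀ x, A x = 0 → scut f e (c • e) d R x = 0 := fun x hx => by
    rw [← (hAs x hx).self_of_nhds, hx]
  have hce : ⟪e, c • e⟫ = c := by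
    rw [real_inner_smul_right, real_inner_self_eq_norm_sq, he]
    ring
  -- the critical zeros
  have hcr : ∀ x, Crit A e x →
      (Crit f e x ∧ A =ᶠ[𝓝 x] f) ∨ (⟪e, x⟫ ∉ L ∧ Idx A e x 0) := by
    intro x hx
    have h2 := hAs x hx.1
    rcases hcy.scut_crit hd hdζ hfreg (hx.congr h2) with ⟨h3, h4⟩ | ⟨h3, h4⟩
    · left
      have h5 : A =ᶠ[𝓝 x] f := by
        filter_upwards [h2, h4] with y hy1 hy2
        rw [hy1, hy2]
      exact ⟨hx.congr h5, h5⟩
    · right
      rw [hce] at h3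
      refine ⟨fun hxL => ?_, h4.congr' h2.symm⟩
      have h6 : |⟪e, x⟫ - c| = d := by
        rcases h3 with h3 | h3
        · rw [h3, add_sub_cancel_left, abs_of_pos hd]
        · rw [h3, sub_sub_cancel_left, abs_neg, abs_of_pos hd]
      have h7 : ⟪e, x⟫ ≠ c := by
        intro h7
        rw [h7, sub_self, abs_zero] at h6
        exact hd.ne h6
      have := hL _ hxL h7
      linarith
  have hbdd : Bornology.IsBounded {x | A x ≤ 0} := by
    refine h.bdd.subset fun x hx => ?_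
    have h1 := (hun x).2 (Or.inl hx)
    have h2 := scut_ge f e (c • e) d R x
    show f x ≤ 0
    linarith
  have hmo : Mo A e := by
    refine ⟨hA, ?_, ?_, ?_⟩
    · exact hbdd.subset fun x hx => le_of_eq hx
    · intro x hx
      have h1 : gradient A x = gradient (scut f e (c • e) d R) x := by
        unfold gradient
        rw [(hAs x hx).fderiv_eq]
      rw [h1]
      exact hcy.scut_reg hd hdζ hfreg x (hz x hx)
    · intro x hx
      rcases hcr x hx with ⟨h1, h2⟩ | ⟨-, h2⟩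
      · obtain ⟨k, hk⟩ := h.mo.nd x h1
        exact ⟨k, hk.congr' h2.symm⟩
      · exact ⟨0, h2⟩
  -- zeros at the levels
  have hlev : ∀ x, ⟪e, x⟫ ∈ L → A x = 0 → f x = 0 ∧ A =ᶠ[𝓝 x] f := by
    intro x hxL hx
    obtain ⟨h1, h2⟩ := hcy.scut_level hd hdζ (fun h4 => by
      rw [hce] at h4 ⊢
      exact hL _ hxL h4) (hz x hx)
    have h3 : A =ᶠ[𝓝 x] f := by
      filter_upwards [hAs x hx, h2] with y hy1 hy2
      rw [hy1, hy2]
    exact ⟨h1, h3⟩
  refine ⟨S.filter fun x => A x = 0, ?_, hmo, hbdd, ?_, hcA, hcA', hlA, ?_, ?_, ?_, ?_⟩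
  · -- the lost marker
    have hcont1 : Continuous fun x : V => ⟪e, x - c • e⟫ := by fun_prop
    have hcont2 : Continuous fun x : V => ‖orth e (x - c • e)‖ := by
      unfold orth
      fun_prop
    refine h.mark.card_lt hc (K := rimS e (c • e) 0) ?_ ?_ ?_ ?_ ?_
    · have hr := cap_rank he
      have : Nontrivial (ℝ ∙ e)ᗮ := Module.nontrivial_of_finrank_pos (R := ℝ) (by omega)
      obtain ⟨u, hu⟩ := exists_norm_eq (ℝ ∙ e)ᗮ zero_le_one
      obtain ⟨e1, e2, -⟩ := slice_coords he c u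
      exact ⟨(u : V) + c • e, e1, by rw [e2]; exact hu⟩
    · exact (isClosed_eq hcont1 continuous_const).inter (isClosed_eq hcont2 continuous_const)
    · rintro x ⟨h1, h2⟩
      refine ⟨?_, ?_⟩
      · have h3 := hcy.hf x (by rw [h1, abs_zero]; exact hcy.hζ) (by rw [h2]; exact hR)
        rw [h2] at h3
        rw [h3]
        norm_num
      · rw [inner_sub_right, hce] at h1
        linarith
    · refine ⟨{x | |⟪e, x - c • e⟫| < ζ} ∩ {x | ‖orth e (x - c • e)‖ < R},
        (isOpen_lt hcont1.abs continuous_const).inter (isOpen_lt hcont2 continuous_const), ?_, ?_⟩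
      · rintro x ⟨h1, h2⟩
        refine ⟨?_, ?_⟩
        · show |⟪e, x - c • e⟫| < ζ
          rw [h1, abs_zero]
          exact hcy.hζ
        · show ‖orth e (x - c • e)‖ < R
          rw [h2]
          exact hR
      · rintro x ⟨h1, h2⟩ h3 h4
        refine ⟨?_, ?_⟩
        · rw [inner_sub_right, h4, hce, sub_self]
        · have h5 := hcy.hf x h1 h2
          rw [h3] at h5
          have h6 := norm_nonneg (orth e (x - c • e))
          nlinarith
    · rintro x ⟨h1, h2⟩ h3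
      have h4 := hcy.scut_mid (d := d) h1 (by rw [h2]; exact hR)
      have h5 := hz x h3
      linarith
  · intro x hx
    rcases hcr x hx with ⟨h1, -⟩ | ⟨h1, -⟩
    · exact h.reg x h1
    · exact h1
  · -- the slice components
    intro x hx hxL
    rw [hcy.bdC_part hfs hfreg hd hdζ hA.continuous hC hun hdis hAs hx fun h4 => hL _ hxL h4]
    refine h.sl x ?_ hxL
    have h1 := (hun x).2 (Or.inl hx)
    have h2 := scut_ge f e (c • e) d R x
    linarith
  · intro x hx k hi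
    rcases hcr x (hx.crit he) with ⟨-, h2⟩ | ⟨-, h2⟩
    · exact h.up x (hx.congr' h2) k (hi.congr' h2)
    · exact Or.inl (Cy.Idx.unique h2 hi).symm
  · intro x hx k hi
    rcases hcr x (hx.crit_neg he) with ⟨-, h2⟩ | ⟨-, h2⟩
    · exact h.dn x (hx.congr' h2) k (hi.congr' h2)
    · exact Or.inl (Cy.Idx.unique h2 hi).symm
  · -- markers
    refine h.mark.part fun x hxL hx => ?_
    obtain ⟨-, h3⟩ := hlev x hxL hx
    obtain ⟨O, hO1, hO2, hO3⟩ := mem_nhds_iff.1 h3
    refine ⟨O, hO2, hO3, fun y hy _ => ?_⟩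
    have h4 : A y = f y := hO1 hy
    rw [h4]

/-- The two pieces of a cut. -/
theorem kt_pieces (hn4 : 4 ≤ Module.finrank ℝ V) (h : KT f e L P Q S) (hc : c ∈ L)
    (hL : ∀ c' ∈ L, c' ≠ c → ζ ≤ |c' - c|) (hcy : CylN f e (c • e) ζ R) :
    ∃ (gA gC : V → ℝ) (SA SC : Finset V), SA.card < S.card ∧ SC.card < S.card ∧
      KT gA e L P Q SA ∧ KT gC e L P Q SC ∧ (Rd gA → Rd gC → Rd f) := by
  have hfs := h.mo.smooth
  have hfreg := h.mo.reg
  have hd : 0 < ζ / 2 := by have := hcy.hζ; positivity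
  have hdζ : 2 * (ζ / 2) ≤ ζ := by linarith
  obtain ⟨l1, l2⟩ := BaseN_liftS h.mo.smooth.continuous h.lift
  have hg : Good f := by
    refine good_of_regular hfs h.mo.bdd fun x hx h1 => hfreg x hx ?_
    rw [gradient, h1, map_zero]
  obtain ⟨A, C, hA, hC, hAs, hCs, hun, hdis, hpA, hpC, a1, a2, b1, b2, -, -, -, -, hR⟩ :=
    hcy.stopN (by omega) hfs hg h.conn h.out l1 l2 hd hdζ
  have lA : LiftS {x | A x = 0} := hcy.zero_lift hn4 hfs hfreg h.lift hd hdζ hA.continuous
    hC.continuous hAs hCs hun hdis hpA hpC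
  have lC : LiftS {x | C x = 0} := hcy.zero_lift' hn4 hfs hfreg h.lift hd hdζ hA.continuous
    hC.continuous hAs hCs hun hdis hpA hpC
  obtain ⟨SA, hSA, kA⟩ := kt_piece hn4 h hc hL hcy hd hdζ hA hC.continuous hun hdis hAs a1 a2 lA
  obtain ⟨SC, hSC, kC⟩ := kt_piece hn4 h hc hL hcy hd hdζ hC hA.continuous
    (fun x => (hun x).trans or_comm) (fun x hx => by
      by_contra h1
      have h2 := hdis x (not_lt.1 h1)
      linarith) hCs b1 b2 lC
  exact ⟨_, _, SA, SC, hSA, hSC, kA, kC, hR⟩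

end Pool.Schoen
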