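import Pool.Agent.H.MP_6c077c_gt.N2.KStep
import Pool.Agent.H.MP_6c077c_gt.N2.KPiece
import Pool.Agent.H.MP_6c077c_gt.Ts.Sep
import Pool.Agent.H.MP_6c077c_gt.Al.InnS
import Pool.Agent.H.MP_6c077c_gt.F3.Main

/-! Slices with spheres and tori: the induction over the markers. -/

set_option autoImplicit false

namespace Pool.Schoen

open Filter Set
open scoped Topology RealInnerProductSpace ContDiff

variable {V : Type*} [NormedAddCommGroup V] [InnerProductSpace ℝ V]

/-- The component of the slice, in the coordinates of the hyperplane. -/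
theorem slW_jn {f : V → ℝ} {e : V} (he : ‖e‖ = 1) {c : ℝ} {x : V} (hx : f x ≤ 0)
    (hxc : ⟪e, x⟫ = c) (w : (ℝ ∙ e)ᗮ) :
    Jn {z : (ℝ ∙ e)ᗮ | f ((z : V) + c • e) ≤ 0} (hpr e x) w ↔
      (w : V) + c • e ∈ connectedComponentIn (slW f e c) x := by
  have hι : Continuous fun z : (ℝ ∙ e)ᗮ => (z : V) + c • e := by fun_prop
  have hpc : Continuous fun x : V => hpr e x := (hprL e).continuous
  have hback : ∀ y : V, ⟪e, y⟫ = c → (hpr e y : V) + c • e = y := by
    intro y hy
    have h1 := hpr_add he y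
    rw [hy] at h1
    exact h1
  have hh : ∀ z : (ℝ ∙ e)ᗮ, ⟪e, (z : V) + c • e⟫ = c := fun z => (slice_coords he c z).2.2
  have hfor : ∀ z : (ℝ ∙ e)ᗮ, hpr e ((z : V) + c • e) = z := by
    intro z
    apply Subtype.ext
    have h1 := hback _ (hh z)
    exact add_right_cancel h1
  constructor
  · rintro ⟨K, h1, h2, h3, h4⟩
    have h5 : IsPreconnected ((fun z : (ℝ ∙ e)ᗮ => (z : V) + c • e) '' K) :=
      h2.image _ hι.continuousOn
    refine h5.subset_connectedComponentIn ⟨_, h3, hback x hxc⟩ ?_ ⟨w, h4, rfl⟩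
    rintro _ ⟨z, hz, rfl⟩
    exact ⟨h1 hz, hh z⟩
  · intro hw
    refine ⟨hpr e '' connectedComponentIn (slW f e c) x, ?_,
      isPreconnected_connectedComponentIn.image _ hpc.continuousOn,
      ⟨x, mem_connectedComponentIn ⟨hx, hxc⟩, rfl⟩, ⟨_, hw, hfor w⟩⟩
    rintro _ ⟨z, hz, rfl⟩
    obtain ⟨h1, h2⟩ := connectedComponentIn_subset _ _ hz
    show f ((hpr e z : V) + c • e) ≤ 0
    rw [hback z h2]
    exact h1

variable [FiniteDimensional ℝ V]

/-- A component of a slice of the body whose boundary is connected with the lifting property is a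
ball. -/
theorem slW_ball (hV : Module.finrank ℝ V = 4) {e : V} (he : ‖e‖ = 1) {f : V → ℝ} (hm : Mo f e)
    (hb : Bornology.IsBounded {x | f x ≤ 0}) {c : ℝ} (hc : ∀ x, Crit f e x → ⟪e, x⟫ ≠ c)
    {x : V} (hx : f x ≤ 0) (hxc : ⟪e, x⟫ = c) (hcon : IsConnected (bdC f e x))
    (hl : LiftS (bdC f e x)) :
    ∃ k : (ℝ ∙ e)ᗮ → ℝ, Dom k ∧ IsBall k ∧ (∀ w, k w ≤ 0 → f ((w : V) + c • e) ≤ 0) ∧
      ∀ w, k w = 0 → k =ᶠ[𝓝 w] fun w : (ℝ ∙ e)ᗮ => f ((w : V) + c • e) := by
  have he0 : e ≠ 0 := by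
    intro h0
    rw [h0, norm_zero] at he
    exact zero_ne_one he
  have : Fact (Module.finrank ℝ V = 3 + 1) := ⟨hV⟩
  have hfr : Module.finrank ℝ (ℝ ∙ e)ᗮ = 3 := Submodule.finrank_orthogonal_span_singleton he0
  haveI : Nontrivial (ℝ ∙ e)ᗮ := Module.nontrivial_of_finrank_pos (R := ℝ) (by omega)
  obtain ⟨hgs0, hgb0, hgr0⟩ := slice_reg he hm hc
  obtain ⟨g, hg⟩ : ∃ g : (ℝ ∙ e)ᗮ → ℝ, g = slc f e c := ⟨_, rfl⟩
  have hgw : ∀ w : (ℝ ∙ e)ᗮ, f ((w : V) + c • e) = g w := fun w => by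
    rw [hg]
    rfl
  have hgs : ContDiff ℝ ∞ g := by
    rw [hg]
    exact hgs0
  have hgb : Bornology.IsBounded {w | g w = 0} := by
    rw [hg]
    exact hgb0
  have hgr : ∀ w, g w = 0 → gradient g w ≠ 0 := by
    rw [hg]
    exact hgr0
  have hgood : Good g := good_of_regular hgs hgb fun w hw => Final_fderiv_ne (hgr w hw)
  -- the component
  have hJ : ∀ w, Jn {z : (ℝ ∙ e)ᗮ | g z ≤ 0} (hpr e x) w ↔
      (w : V) + c • e ∈ connectedComponentIn (slW f e c) x := by
    intro w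
    rw [hg]
    exact slW_jn he hx hxc w
  have hcl := sep_clop (h := g) (t := 0) hgs.continuous (fun w hw => hgood.desc w hw) (x := hpr e x)
  obtain ⟨K, hK⟩ : ∃ K, K = {y | Jn {z | g z ≤ 0} (hpr e x) y} := ⟨_, rfl⟩
  rw [← hK] at hcl
  have hb' : Bornology.IsBounded {w | g w ≤ 0} := by
    have h1 := slc_bdd hb e c
    rw [hg]
    exact h1
  haveI : ProperSpace (ℝ ∙ e)ᗮ := FiniteDimensional.proper ℝ _
  have hKc : IsCompact K := Metric.isCompact_of_isClosed_isBounded hcl.cl (hb'.subset hcl.sub)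
  obtain ⟨k, hk, hk0, hkg1⟩ := exists_smooth_part hgs 1 hKc hcl.cl'.isOpen_compl
    (fun w hw h1 => h1.2 hw) (fun w hw => by
      rw [one_mul]
      constructor
      · intro h1
        by_contra h2
        exact hw ⟨h1, h2⟩
      · exact fun h1 => hcl.sub w h1)
  have hkg : ∀ w ∈ K, k =ᶠ[𝓝 w] g := by
    intro w hw
    filter_upwards [hkg1 w hw] with y hy
    rw [hy, one_mul]
  have hkz : ∀ w, k w = 0 → g w = 0 := by
    intro w hw
    rw [← (hkg w ((hk0 w).1 hw.le)).self_of_nhds, hw]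
  have hkr : ∀ w, k w = 0 → gradient k w ≠ 0 := by
    intro w hw
    have h1 := hkg w ((hk0 w).1 hw.le)
    have h3 : gradient k w = gradient g w := by
      unfold gradient
      rw [h1.fderiv_eq]
    rw [h3]
    exact hgr w (hkz w hw)
  have hkb : Bornology.IsBounded {w | k w ≤ 0} :=
    hKc.isBounded.subset fun w hw => (hk0 w).1 hw
  -- the boundary
  have hpc : Continuous fun x : V => hpr e x := (hprL e).continuous
  have hι : Continuous fun z : (ℝ ∙ e)ᗮ => (z : V) + c • e := by fun_prop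
  have hback : ∀ y : V, ⟪e, y⟫ = c → (hpr e y : V) + c • e = y := by
    intro y hy
    have h1 := hpr_add he y
    rw [hy] at h1
    exact h1
  have hfor : ∀ z : (ℝ ∙ e)ᗮ, hpr e ((z : V) + c • e) = z := by
    intro z
    apply Subtype.ext
    have h1 := hback _ (slice_coords he c z).2.2
    exact add_right_cancel h1
  have m1 : ∀ w, k w = 0 → (w : V) + c • e ∈ bdC f e x := by
    intro w hw
    have h1 := (hk0 w).1 hw.le
    rw [hK] at h1
    refine ⟨?_, ?_⟩
    · rw [hxc]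
      exact (hJ w).1 h1
    · show f ((w : V) + c • e) = 0
      rw [hgw]
      exact hkz w hw
  have m2 : ∀ y ∈ bdC f e x, k (hpr e y) = 0 := by
    rintro y ⟨h1, h2⟩
    rw [hxc] at h1
    have h3 : ⟪e, y⟫ = c := (connectedComponentIn_subset _ _ h1).2
    have h4 : hpr e y ∈ K := by
      rw [hK]
      refine (hJ _).2 ?_
      rw [hback y h3]
      exact h1
    rw [(hkg _ h4).self_of_nhds, ← hgw, hback y h3]
    exact h2
  have hz : {w | k w = 0} = (fun y => hpr e y) '' bdC f e x := by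
    ext w
    constructor
    · intro hw
      exact ⟨_, m1 w hw, hfor w⟩
    · rintro ⟨y, hy, rfl⟩
      exact m2 y hy
  have hzc : IsConnected {w | k w = 0} := by
    rw [hz]
    exact hcon.image _ hpc.continuousOn
  have hzl : LiftS {w | k w = 0} :=
    hl.of_maps (φ := fun y => hpr e y) (ψ := fun z : (ℝ ∙ e)ᗮ => (z : V) + c • e)
      hpc.continuousOn hι.continuousOn m2 m1 fun w _ => hfor w
  obtain ⟨c1, c2⟩ := sides_conn hk.continuous hzc
  obtain ⟨l1, -⟩ := BaseN_liftS hk.continuous hzl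
  have hball : IsBall k :=
    (alexander_rd hfr hk (hkb.subset fun w hw => le_of_eq hw) hkr ⟨c1, c2, Or.inl l1⟩).isBall hkb
  refine ⟨k, ⟨hk, hkb, hkr, c1, l1⟩, hball, fun w hw => ?_, fun w hw => ?_⟩
  · rw [hgw]
    exact hcl.sub w ((hk0 w).1 hw)
  · filter_upwards [hkg w ((hk0 w).1 hw.le)] with y hy
    rw [hy, hgw]

/-- Induction on the number of markers: the functions whose slices at the levels have no component
with a boundary with the lifting property are the base case. -/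
theorem kt_rd (hV : Module.finrank ℝ V = 4) {e : V} (he : ‖e‖ = 1) {L : Set ℝ} (hL : L.Finite)
    {A B : ℝ → ℕ → Prop}
    (base : ∀ (f : V → ℝ) (S : Finset V), KT f e L A B S →
      (∀ x, f x ≤ 0 → ⟪e, x⟫ ∈ L → ¬ LiftS (bdC f e x)) → Rd f) :
    ∀ (n : ℕ) (S : Finset V) (f : V → ℝ), S.card = n → KT f e L A B S → Rd f := by
  intro n
  induction n using Nat.strong_induction_on with
  | _ n ih =>
    intro S f hn h
    by_cases hne : ∃ x, f x ≤ 0 ∧ ⟪e, x⟫ ∈ L ∧ LiftS (bdC f e x)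
    · obtain ⟨x, hx, hxL, hxl⟩ := hne
      obtain ⟨c, hc⟩ : ∃ c, c = ⟪e, x⟫ := ⟨_, rfl⟩
      have hcL : c ∈ L := by
        rw [hc]
        exact hxL
      obtain ⟨k, hk, hkb, hk1, hk2⟩ := slW_ball hV he h.mo h.bdd (c := c)
        (fun y hy hyc => h.reg y hy (by rw [hyc]; exact hcL)) hx hc.symm (h.sl x hx hxL).1 hxl
      obtain ⟨G, ζ, R, S', hR, hS', hG, hcy, hζ⟩ := kt_step he hL h hcL hk hkb hk1 hk2
      obtain ⟨gA, gC, SA, SC, hSA, hSC, hA, hC, hRR⟩ := kt_pieces hV.ge hG hcL hζ hcy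
      exact hR (hRR (ih SA.card (by omega) SA gA rfl hA) (ih SC.card (by omega) SC gC rfl hC))
    · refine base f S h fun x hx hxL hxl => hne ⟨x, hx, hxL, hxl⟩

end Pool.Schoen
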