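import Pool.Agent.H.MP_6c077c_gt.N2.DefsB

/-! Maps to the circle: homotopies without compactness, gluing. -/

set_option autoImplicit false

namespace Pool.Schoen

open Filter Set Metric
open scoped Topology RealInnerProductSpace

variable {Y : Type*} [TopologicalSpace Y]

/-- Homotopy lifting on an arbitrary set. PROOF. Apply Mathlib's `IsCoveringMap.liftHomotopy` for
`Circle.isCoveringMap_exp` with `A` as a subtype. -/
theorem lifts_homotopy_set {A : Set Y} (U : ℝ → Y → ℂ)
    (hU : ContinuousOn (fun p : ℝ × Y => U p.1 p.2) (Icc (0 : ℝ) 1 ×ˢ A))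
    (h1 : ∀ t ∈ Icc (0 : ℝ) 1, ∀ x ∈ A, ‖U t x‖ = 1) (h : Lifts A (U 0)) : Lifts A (U 1) := by
  classical
  obtain ⟨v, hv, h2⟩ := h
  have hHc : Continuous fun p : unitInterval × A => U (p.1 : ℝ) (p.2 : Y) := by
    have h3 : Continuous fun p : unitInterval × A => ((p.1 : ℝ), (p.2 : Y)) := by fun_prop
    exact hU.comp_continuous h3 fun p => ⟨p.1.2, p.2.2⟩
  let H : C(unitInterval × A, Circle) :=
    ⟨fun p => ⟨U (p.1 : ℝ) (p.2 : Y), mem_sphere_zero_iff_norm.2 (h1 _ p.1.2 _ p.2.2)⟩,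
      Continuous.subtype_mk hHc _⟩
  let f : C(A, ℝ) := ⟨fun a => v a, continuousOn_iff_continuous_domRestrict.1 hv⟩
  have H0 : ∀ a, H (0, a) = Circle.exp (f a) := fun a => Circle.ext (h2 a a.2)
  have L1 : ∀ a, Circle.exp (Circle.isCoveringMap_exp.liftHomotopy H f H0 (1, a)) = H (1, a) :=
    fun a => congrFun (Circle.isCoveringMap_exp.liftHomotopy_lifts H f H0) (1, a)
  set L := Circle.isCoveringMap_exp.liftHomotopy H f H0 with hL
  refine ⟨fun x => if hx : x ∈ A then L (1, ⟨x, hx⟩) else 0, ?_, ?_⟩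
  · rw [continuousOn_iff_continuous_domRestrict]
    have e : A.domRestrict (fun x => if hx : x ∈ A then L (1, ⟨x, hx⟩) else 0) =
        fun a : A => L (1, a) := by
      funext a
      exact dif_pos a.2
    rw [e]
    exact L.continuous.comp (continuous_const.prodMk continuous_id)
  · intro x hx
    have h3 := congrArg (fun z : Circle => (z : ℂ)) (L1 ⟨x, hx⟩)
    have h4 : Complex.exp ((L (1, ⟨x, hx⟩) : ℝ) * Complex.I) = U 1 x := h3
    simp only [dif_pos hx]
    exact h4.symm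

private theorem LiftH_int {x y : ℝ} (h : Complex.exp (x * Complex.I) = Complex.exp (y * Complex.I)) :
    ∃ n : ℤ, x = y + n * (2 * Real.pi) := by
  obtain ⟨n, hn⟩ := Complex.exp_eq_exp_iff_exists_int.1 h
  refine ⟨n, ?_⟩
  have h1 := congrArg Complex.im hn
  simpa using h1

private theorem LiftH_exp (y : ℝ) (n : ℤ) :
    Complex.exp (((y + n * (2 * Real.pi) : ℝ) : ℂ) * Complex.I) = Complex.exp (y * Complex.I) := by
  rw [Complex.exp_eq_exp_iff_exists_int]
  refine ⟨n, ?_⟩
  push_cast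
  ring

/-- Gluing of locally liftable maps along a preconnected intersection. -/
theorem lifts_union {A B : Set Y} (hA : IsClosed A) (hB : IsClosed B) {u : Y → ℂ}
    (hu : ContinuousOn u (A ∪ B)) (ha : Lifts A u) (hb : Lifts B u) (hc : IsPreconnected (A ∩ B)) :
    Lifts (A ∪ B) u := by
  classical
  obtain ⟨v₁, c₁, e₁⟩ := ha
  obtain ⟨v₂, c₂, e₂⟩ := hb
  have hpi : (2 * Real.pi) ≠ 0 := by positivity
  have hint : ∀ x ∈ A ∩ B, ∃ n : ℤ, v₁ x = v₂ x + n * (2 * Real.pi) := by
    rintro x ⟨hxA, hxB⟩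
    exact LiftH_int ((e₁ x hxA).symm.trans (e₂ x hxB))
  choose! n hn' using hint
  have cn : ContinuousOn n (A ∩ B) := by
    have c3 : ContinuousOn (fun x => (v₁ x - v₂ x) / (2 * Real.pi)) (A ∩ B) :=
      ((c₁.mono inter_subset_left).sub (c₂.mono inter_subset_right)).div_const _
    have c4 : ContinuousOn ((fun m : ℤ => (m : ℝ)) ∘ n) (A ∩ B) := by
      refine c3.congr fun x hx => ?_
      change (n x : ℝ) = (v₁ x - v₂ x) / (2 * Real.pi)
      rw [hn' x hx]
      field_simp
      ring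
    exact Int.isClosedEmbedding_coe_real.isInducing.continuousOn_iff.2 c4
  have hk : ∃ k : ℤ, ∀ x ∈ A ∩ B, v₁ x = v₂ x + k * (2 * Real.pi) := by
    rcases (A ∩ B).eq_empty_or_nonempty with he | ⟨x₀, hx₀⟩
    · exact ⟨0, fun x hx => by rw [he] at hx; exact absurd hx (notMem_empty x)⟩
    · exact ⟨n x₀, fun x hx => by rw [← hc.constant cn hx hx₀]; exact hn' x hx⟩
  obtain ⟨k, hk⟩ := hk
  have hvB : ∀ x ∈ B, (if x ∈ A then v₁ x else v₂ x + k * (2 * Real.pi)) =
      v₂ x + k * (2 * Real.pi) := by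
    intro x hx
    split_ifs with hxA
    · exact hk x ⟨hxA, hx⟩
    · rfl
  refine ⟨fun x => if x ∈ A then v₁ x else v₂ x + k * (2 * Real.pi), ?_, ?_⟩
  · refine ContinuousOn.union_of_isClosed ?_ ?_ hA hB
    · exact c₁.congr fun x hx => if_pos hx
    · exact (c₂.add continuousOn_const).congr fun x hx => hvB x hx
  · rintro x (hx | hx)
    · change u x = Complex.exp (((if x ∈ A then v₁ x else v₂ x + k * (2 * Real.pi) : ℝ) : ℂ) *
        Complex.I)
      rw [if_pos hx]
      exact e₁ x hx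
    · change u x = Complex.exp (((if x ∈ A then v₁ x else v₂ x + k * (2 * Real.pi) : ℝ) : ℂ) *
        Complex.I)
      rw [hvB x hx, LiftH_exp]
      exact e₂ x hx

/-- If every map on `A` extends over `B` then every map on `C ⊇ A` extends over `C ∪ B`, when
`C ∩ B ⊆ A`. -/
theorem ExtS.add {A B C : Set Y} (hB : IsClosed B) (hC : IsClosed C) (h : ExtS A B) (hAC : A ⊆ C)
    (hCB : C ∩ B ⊆ A) : ExtS C (C ∪ B) := by
  classical
  intro u hu h1
  obtain ⟨U, hU, hU1, hUe⟩ := h u (hu.mono hAC) fun x hx => h1 x (hAC hx)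
  have e1 : ∀ x ∈ C, (if x ∈ C then u x else U x) = u x := fun x hx => if_pos hx
  have e2 : ∀ x ∈ B, (if x ∈ C then u x else U x) = U x := by
    intro x hx
    split_ifs with hxC
    · exact (hUe x (hCB ⟨hxC, hx⟩)).symm
    · rfl
  refine ⟨fun x => if x ∈ C then u x else U x, ?_, ?_, e1⟩
  · exact ContinuousOn.union_of_isClosed (hu.congr e1) (hU.congr e2) hC hB
  · rintro x (hx | hx)
    · show ‖(if x ∈ C then u x else U x)‖ = 1
      rw [e1 x hx]
      exact h1 x hx
    · show ‖(if x ∈ C then u x else U x)‖ = 1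
      rw [e2 x hx]
      exact hU1 x hx

end Pool.Schoen
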