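import Pool.Agent.H.MP_6c077c_gt.N2.LiftH

/-! Maps to the circle: roots and gluing. -/

set_option autoImplicit false

namespace Pool.Schoen

open Filter Set Metric
open scoped Topology RealInnerProductSpace

variable {Y : Type*} [TopologicalSpace Y]

private theorem LiftR_finite {n : ℤ} (hn : n ≠ 0) : {z : ℂ | z ^ n = 1}.Finite := by
  have hm : 0 < n.natAbs := Int.natAbs_pos.2 hn
  refine (Polynomial.nthRootsFinset n.natAbs (1 : ℂ)).finite_toSet.subset fun z hz => ?_
  have hz' : z ^ n = 1 := hz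
  rw [Finset.mem_coe, Polynomial.mem_nthRootsFinset hm]
  rcases Int.natAbs_eq n with h | h
  · rw [h, zpow_natCast] at hz'
    exact hz'
  · rw [h, zpow_neg, zpow_natCast, inv_eq_one] at hz'
    exact hz'

private theorem LiftR_arg {A : Set Y} {w : Y → ℂ} (hw : ContinuousOn w A) {T : Set ℂ}
    (hT : T.Finite) (h : ∀ x ∈ A, w x ∈ T) : ContinuousOn (fun x => Complex.arg (w x)) A := by
  intro x hx
  have h1 : (T \ {w x})ᶜ ∈ 𝓝 (w x) :=
    (hT.subset sdiff_subset).isClosed.isOpen_compl.mem_nhds fun h => h.2 rfl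
  have h2 : ∀ᶠ y in 𝓝[A] x, w y = w x := by
    filter_upwards [hw x hx h1, self_mem_nhdsWithin] with y hy hyA
    by_contra hne
    exact hy ⟨h y hyA, hne⟩
  have h3 : (fun _ => Complex.arg (w x)) =ᶠ[𝓝[A] x] fun y => Complex.arg (w y) := by
    filter_upwards [h2] with y hy
    rw [hy]
  exact Tendsto.congr' h3 tendsto_const_nhds

/-- Roots. PROOF. If `u ^ n = exp (i v)` then `w = u * exp (-i v / n)` satisfies `w ^ n = 1`; it takes
finitely many values (the `n`-th roots of unity), so `Complex.arg ∘ w` is continuous on `A`. -/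
theorem lifts_of_zpow {A : Set Y} {u : Y → ℂ} (hu : ContinuousOn u A) (h1 : ∀ x ∈ A, ‖u x‖ = 1)
    {n : ℤ} (hn : n ≠ 0) (h : Lifts A fun x => u x ^ n) : Lifts A u := by
  obtain ⟨v, hv, h2⟩ := h
  have hn' : (n : ℂ) ≠ 0 := Int.cast_ne_zero.2 hn
  have hvc : ContinuousOn (fun x => Complex.exp (-(((v x / n : ℝ) : ℂ) * Complex.I))) A := by
    have h3 : ContinuousOn (fun x => ((v x / n : ℝ) : ℂ)) A :=
      Complex.continuous_ofReal.comp_continuousOn (hv.div_const _)
    exact Complex.continuous_exp.comp_continuousOn (h3.mul continuousOn_const).neg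
  have hwc : ContinuousOn (fun x => u x * Complex.exp (-(((v x / n : ℝ) : ℂ) * Complex.I))) A :=
    hu.mul hvc
  have hw : ∀ x ∈ A, u x * Complex.exp (-(((v x / n : ℝ) : ℂ) * Complex.I)) ∈
      {z : ℂ | z ^ n = 1} := by
    intro x hx
    show (u x * Complex.exp (-(((v x / n : ℝ) : ℂ) * Complex.I))) ^ n = 1
    have h3 : (n : ℂ) * -(((v x / n : ℝ) : ℂ) * Complex.I) = -((v x : ℂ) * Complex.I) := by
      push_cast
      field_simp
    have h4 : u x ^ n = Complex.exp (v x * Complex.I) := h2 x hx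
    rw [mul_zpow, ← Complex.exp_int_mul, h3, h4, ← Complex.exp_add, add_neg_cancel,
      Complex.exp_zero]
  refine ⟨fun x => Complex.arg (u x * Complex.exp (-(((v x / n : ℝ) : ℂ) * Complex.I))) + v x / n,
    (LiftR_arg hwc (LiftR_finite hn) hw).add (hv.div_const _), fun x hx => ?_⟩
  have h5 : ‖u x * Complex.exp (-(((v x / n : ℝ) : ℂ) * Complex.I))‖ = 1 := by
    rw [norm_mul, h1 x hx, one_mul, ← neg_mul, ← Complex.ofReal_neg, Complex.norm_exp_ofReal_mul_I]
  have h6 := Complex.norm_mul_exp_arg_mul_I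
    (u x * Complex.exp (-(((v x / n : ℝ) : ℂ) * Complex.I)))
  rw [h5, Complex.ofReal_one, one_mul] at h6
  rw [Complex.ofReal_add, add_mul, Complex.exp_add, h6, mul_assoc, ← Complex.exp_add,
    neg_add_cancel, Complex.exp_zero, mul_one]

/-- PROOF. `v ^ a * w ^ b = exp (i φ)` on `A ∩ B`, extend `φ` to a continuous real function (Tietze),
glue `v ^ a` on `A` with `w ^ (-b) * exp (i φ)` on `B` to a map of `A ∪ B` to the circle. If it
lifts then `v ^ a` lifts on `A`, hence `v` by `lifts_of_zpow`. -/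
theorem not_liftS_glue [NormalSpace Y] {A B : Set Y} (hA : IsClosed A) (hB : IsClosed B) {v w : Y → ℂ}
    (hv : ContinuousOn v A) (hv1 : ∀ x ∈ A, ‖v x‖ = 1) (hvn : ¬ Lifts A v)
    (hw : ContinuousOn w B) (hw1 : ∀ x ∈ B, ‖w x‖ = 1) {a b : ℤ} (ha : a ≠ 0)
    (h : Lifts (A ∩ B) fun x => v x ^ a * w x ^ b) : ¬ LiftS (A ∪ B) := by
  classical
  intro hL
  obtain ⟨p, hp, h2⟩ := h
  obtain ⟨g, hg⟩ := ContinuousMap.exists_restrict_eq (hA.inter hB)
    (⟨fun x : (A ∩ B : Set Y) => p x, continuousOn_iff_continuous_domRestrict.1 hp⟩ :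
      C((A ∩ B : Set Y), ℝ))
  have hgv : ∀ x ∈ A ∩ B, g x = p x := by
    intro x hx
    have := DFunLike.congr_fun hg ⟨x, hx⟩
    exact this
  have hne : ∀ x ∈ A, v x ≠ 0 := by
    intro x hx h0
    have := hv1 x hx
    rw [h0, norm_zero] at this
    exact zero_ne_one this
  have hne' : ∀ x ∈ B, w x ≠ 0 := by
    intro x hx h0
    have := hw1 x hx
    rw [h0, norm_zero] at this
    exact zero_ne_one this
  have hgc : Continuous fun x => Complex.exp (g x * Complex.I) := by
    have := g.continuous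
    fun_prop
  let U : Y → ℂ := fun x => if x ∈ A then v x ^ a else w x ^ (-b) * Complex.exp (g x * Complex.I)
  have hUA : ∀ x ∈ A, U x = v x ^ a := fun x hx => if_pos hx
  have hUB : ∀ x ∈ B, U x = w x ^ (-b) * Complex.exp (g x * Complex.I) := by
    intro x hx
    by_cases hxA : x ∈ A
    · have h3 : v x ^ a * w x ^ b = Complex.exp (p x * Complex.I) := h2 x ⟨hxA, hx⟩
      rw [hUA x hxA, hgv x ⟨hxA, hx⟩, ← h3, mul_comm, mul_assoc, zpow_neg,
        mul_inv_cancel₀ (zpow_ne_zero _ (hne' x hx)), mul_one]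
    · exact if_neg hxA
  have hUc : ContinuousOn U (A ∪ B) := by
    refine ContinuousOn.union_of_isClosed ?_ ?_ hA hB
    · exact (hv.zpow₀ a fun x hx => Or.inl (hne x hx)).congr hUA
    · exact ((hw.zpow₀ (-b) fun x hx => Or.inl (hne' x hx)).mul hgc.continuousOn).congr hUB
  have hU1 : ∀ x ∈ A ∪ B, ‖U x‖ = 1 := by
    rintro x (hx | hx)
    · rw [hUA x hx, norm_zpow, hv1 x hx, one_zpow]
    · rw [hUB x hx, norm_mul, norm_zpow, hw1 x hx, one_zpow, Complex.norm_exp_ofReal_mul_I, one_mul]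
  have h5 : Lifts (A ∪ B) U := hL U hUc hU1
  have h6 : Lifts A fun x => v x ^ a := (h5.mono subset_union_left).congr hUA
  exact hvn (lifts_of_zpow hv hv1 ha h6)

end Pool.Schoen
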