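import Pool.Agent.H.MP_6c077c_gt.N2.LiftR

/-! Pushing down near a level, as a homotopy. -/

set_option autoImplicit false

namespace Pool.Schoen

open Filter Set Metric
open scoped Topology RealInnerProductSpace ContDiff

variable {V : Type*} [NormedAddCommGroup V] [InnerProductSpace ℝ V] [FiniteDimensional ℝ V]

/-- `ext_push` (helper58/Ext.lean) as a homotopy. PROOF. Copy `ext_push`; the homotopy is
`H σ x = x + (σ * max (⟪e, x⟫ - s) 0) • ξ x` (for the last clause: `hflow` covers all small times, and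
within `r / 2` of `p` one stays in the ball of radius `r`). -/
theorem push2 {F : V → ℝ} (hF : ContDiff ℝ ∞ F) (hb : Bornology.IsBounded {x | F x = 0})
    (hreg : ∀ x, F x = 0 → gradient F x ≠ 0) {e : V} (he : ‖e‖ = 1) {t0 δ0 r : ℝ}
    (hδ0 : 0 < δ0) (hr : 0 < r) (P : Finset V)
    (hP : ∀ x, Inward F e x → |⟪e, x⟫ - t0| ≤ δ0 → ∃ p ∈ P, dist x p < r / 2) :
    ∃ δ : ℝ, 0 < δ ∧ ∀ s t : ℝ, t0 - δ < s → s ≤ t → t < t0 + δ → ∃ H : ℝ → V → V,
      Continuous (fun q : ℝ × V => H q.1 q.2) ∧ (∀ x, H 0 x = x) ∧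
      (∀ x, F x ≤ 0 → ⟪e, x⟫ ≤ t →
        (F (H 1 x) ≤ 0 ∧ ⟪e, H 1 x⟫ ≤ s) ∨ ∃ p ∈ P, dist (H 1 x) p < r) ∧
      (∀ σ ∈ Icc (0 : ℝ) 1, ∀ x, ⟪e, x⟫ ≤ s → H σ x = x) ∧
      (∀ σ ∈ Icc (0 : ℝ) 1, ∀ x, min ⟪e, x⟫ s ≤ ⟪e, H σ x⟫ ∧ ⟪e, H σ x⟫ ≤ ⟪e, x⟫) ∧
      ∀ σ ∈ Icc (0 : ℝ) 1, ∀ x, F x ≤ 0 → ⟪e, x⟫ ≤ t → F (H σ x) ≤ 0 ∨ ∃ p ∈ P, dist (H σ x) p < r := by
  have hprop : ProperSpace V := FiniteDimensional.proper ℝ V
  have hz : Continuous fun x : V => ⟪e, x⟫ := continuous_const.inner continuous_id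
  have hd1 : Continuous (fderiv ℝ F) := (hF.fderiv_right (m := ∞) (by simp)).continuous
  have hgr : Continuous (gradient F) := by
    unfold gradient
    exact (InnerProductSpace.toDual ℝ V).symm.continuous.comp hd1
  have hhor : Continuous (horG F e) := by
    unfold horG
    exact hgr.sub ((hgr.inner continuous_const).smul continuous_const)
  obtain ⟨R, hR⟩ := hb.exists_norm_le
  obtain ⟨K, hKd⟩ : ∃ K : Set V, K = {x | F x ≤ 0 ∧ |⟪e, x⟫ - t0| ≤ δ0 ∧
    (∀ p ∈ P, r / 2 ≤ dist x p) ∧ ‖x‖ ≤ R + 2} := ⟨_, rfl⟩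
  have hKc : IsCompact K := by
    refine Metric.isCompact_of_isClosed_isBounded ?_
      ((Metric.isBounded_closedBall (x := (0 : V)) (r := R + 2)).subset ?_)
    · rw [hKd]
      have : {x : V | ∀ p ∈ P, r / 2 ≤ dist x p} = ⋂ p ∈ P, {x | r / 2 ≤ dist x p} := by
        ext x; simp
      have h2 : IsClosed {x : V | ∀ p ∈ P, r / 2 ≤ dist x p} := by
        rw [this]
        exact isClosed_biInter fun p _ =>
          isClosed_le continuous_const (continuous_id.dist continuous_const)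
      exact (isClosed_le hF.continuous continuous_const).inter
        ((isClosed_le (hz.sub continuous_const).abs continuous_const).inter
          (h2.inter (isClosed_le continuous_norm continuous_const)))
    · rw [hKd]
      exact fun x hx => mem_closedBall_zero_iff.2 hx.2.2.2
  have hK0c : IsCompact (K ∩ {x | F x = 0}) :=
    hKc.inter_right (isClosed_eq hF.continuous continuous_const)
  obtain ⟨l, hl, hl'⟩ := exists_combo hK0c (f := fun x => fderiv ℝ F x e)
    (g := fun x => ‖horG F e x‖ ^ 2) (hd1.clm_apply continuous_const) (hhor.norm.pow 2)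
    (fun x => sq_nonneg _) (by
      rintro x ⟨hx, hx0⟩ hg
      have h1 : horG F e x = 0 := by
        have : ‖horG F e x‖ = 0 := by
          have hg' : ‖horG F e x‖ ^ 2 = 0 := hg
          exact pow_eq_zero_iff (two_ne_zero) |>.1 hg'
        exact norm_eq_zero.1 this
      have h2 := (crit_iff he hreg x).1 ((crit_iff_horG he x).2 ⟨hx0, h1⟩)
      rw [hKd] at hx
      rcases h2 with h2 | h2
      · exfalso
        obtain ⟨p, hp, hxp⟩ := hP x h2 hx.2.1
        exact absurd hxp (not_lt.2 (hx.2.2.1 p hp))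
      · obtain ⟨-, m, hm, hg2⟩ := h2
        show 0 < fderiv ℝ F x e
        rw [fderiv_eq_inner_gradient, hg2, smul_neg, neg_neg, real_inner_smul_left,
          real_inner_self_eq_norm_sq, he]
        linarith)
  obtain ⟨φ, hφ⟩ : ∃ φ : V → ℝ, φ = fun x => max 0 (min 1 (R + 2 - ‖x‖)) := ⟨_, rfl⟩
  have hφc : Continuous φ := by
    rw [hφ]
    exact continuous_const.max (continuous_const.min (continuous_const.sub continuous_norm))
  have hφ1 : ∀ x, ‖x‖ ≤ R → φ x = 1 := by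
    intro x hx
    rw [hφ]
    show max 0 (min 1 (R + 2 - ‖x‖)) = 1
    rw [min_eq_left (by linarith), max_eq_right zero_le_one]
  have hφ0 : ∀ x, R + 2 ≤ ‖x‖ → φ x = 0 := by
    intro x hx
    rw [hφ]
    show max 0 (min 1 (R + 2 - ‖x‖)) = 0
    exact max_eq_left ((min_le_right _ _).trans (by linarith))
  obtain ⟨ξ, hξ⟩ : ∃ ξ : V → V, ξ = fun x => -e - (l * φ x) • horG F e x := ⟨_, rfl⟩
  have hξc : Continuous ξ := by
    rw [hξ]
    exact continuous_const.sub ((continuous_const.mul hφc).smul hhor)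
  have hξe : ∀ x, ⟪e, ξ x⟫ = -1 := by
    intro x
    rw [hξ]
    show ⟪e, -e - (l * φ x) • horG F e x⟫ = -1
    rw [inner_sub_right, inner_neg_right, real_inner_self_eq_norm_sq, he,
      real_inner_smul_right, real_inner_comm, horG_orth he]
    norm_num
  have hξd : ∀ x ∈ K, F x = 0 → fderiv ℝ F x (ξ x) < 0 := by
    intro x hx hx0
    have h1 := hl' x ⟨hx, hx0⟩
    rw [hξ]
    show fderiv ℝ F x (-e - (l * φ x) • horG F e x) < 0
    rw [hφ1 x (hR x hx0), mul_one, map_sub, map_neg, map_smul, horG_fderiv he, smul_eq_mul]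
    linarith
  have hflow : ∀ᶠ τ in 𝓝 (0 : ℝ), ∀ x ∈ K, 0 ≤ τ → F x ≤ 0 → F (x + τ • ξ x) ≤ 0 := by
    apply hKc.eventually_forall_of_forall_eventually
    intro y hy
    have hy0 : F y ≤ 0 := by
      rw [hKd] at hy
      exact hy.1
    rcases hy0.lt_or_eq with h1 | h1
    · have h3 : Continuous fun z : ℝ × V => F (z.2 + z.1 • ξ z.2) :=
        hF.continuous.comp (continuous_snd.add (continuous_fst.smul (hξc.comp continuous_snd)))
      have h4 : ∀ᶠ z : ℝ × V in 𝓝 ((0 : ℝ), y), F (z.2 + z.1 • ξ z.2) < 0 := by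
        refine h3.continuousAt.eventually_lt continuousAt_const ?_
        show F (y + (0 : ℝ) • ξ y) < 0
        rw [zero_smul, add_zero]
        exact h1
      filter_upwards [h4] with z hz1 _ _
      exact hz1.le
    · obtain ⟨c, hc, d, hd, hdesc⟩ := (desc1_smooth (hF.contDiffAt.of_le (by simp))
        (hξd y hy h1)).unif
      have e1 : ∀ᶠ z : ℝ × V in 𝓝 ((0 : ℝ), y), ‖z.2 - y‖ < d := by
        have h3 : Continuous fun z : ℝ × V => ‖z.2 - y‖ := by fun_prop
        refine h3.continuousAt.eventually_lt continuousAt_const ?_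
        simpa using hd
      have e2 : ∀ᶠ z : ℝ × V in 𝓝 ((0 : ℝ), y), ‖ξ z.2 - ξ y‖ < d := by
        have h3 : Continuous fun z : ℝ × V => ‖ξ z.2 - ξ y‖ :=
          ((hξc.comp continuous_snd).sub continuous_const).norm
        refine h3.continuousAt.eventually_lt continuousAt_const ?_
        simpa using hd
      have e3 : ∀ᶠ z : ℝ × V in 𝓝 ((0 : ℝ), y), z.1 < d := by
        refine continuous_fst.continuousAt.eventually_lt continuousAt_const ?_
        simpa using hd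
      filter_upwards [e1, e2, e3] with z h3 h4 h5 h6 h7
      rcases h6.lt_or_eq with h8 | h8
      · have h9 := hdesc z.2 h3 (ξ z.2) h4 z.1 h8 h5
        have : 0 < c * z.1 := mul_pos hc h8
        linarith
      · rw [← h8, zero_smul, add_zero]
        exact h7
  obtain ⟨τ0, hτ0, hτ⟩ := Metric.eventually_nhds_iff.1 hflow
  obtain ⟨B, hB⟩ := (isCompact_closedBall (0 : V) (R + 2)).exists_bound_of_continuousOn
    hξc.continuousOn
  have hB1 : 0 < |B| + 1 := by positivity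
  have hBx : ∀ x, ‖ξ x‖ ≤ |B| + 1 := by
    intro x
    rcases le_total ‖x‖ (R + 2) with h | h
    · exact (hB x (mem_closedBall_zero_iff.2 h)).trans ((le_abs_self B).trans (by linarith))
    · rw [hξ]
      show ‖-e - (l * φ x) • horG F e x‖ ≤ |B| + 1
      rw [hφ0 x h, mul_zero, zero_smul, sub_zero, norm_neg, he]
      linarith [abs_nonneg B]
  refine ⟨min (1 / 2) (min δ0 (min (τ0 / 2) (r / (4 * (|B| + 1))))), by positivity, ?_⟩
  intro s t hs hst ht
  set δ := min (1 / 2) (min δ0 (min (τ0 / 2) (r / (4 * (|B| + 1))))) with hδ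
  have d0 : δ ≤ 1 / 2 := min_le_left _ _
  have d1 : δ ≤ δ0 := (min_le_right _ _).trans (min_le_left _ _)
  have d2 : δ ≤ τ0 / 2 :=
    ((min_le_right _ _).trans (min_le_right _ _)).trans (min_le_left _ _)
  have d3 : δ ≤ r / (4 * (|B| + 1)) :=
    ((min_le_right _ _).trans (min_le_right _ _)).trans (min_le_right _ _)
  have d3' : 2 * δ * (|B| + 1) ≤ r / 2 := by
    have : δ * (|B| + 1) ≤ r / (4 * (|B| + 1)) * (|B| + 1) :=
      mul_le_mul_of_nonneg_right d3 hB1.le
    have h2 : r / (4 * (|B| + 1)) * (|B| + 1) = r / 4 := by field_simp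
    rw [h2] at this
    linarith
  have hzρ : ∀ (σ : ℝ) (x : V), ⟪e, x + (σ * max (⟪e, x⟫ - s) 0) • ξ x⟫ =
      ⟪e, x⟫ - σ * max (⟪e, x⟫ - s) 0 := by
    intro σ x
    rw [inner_add_right, real_inner_smul_right, hξe]
    ring
  have hkey : ∀ (u : ℝ) (x : V), F x ≤ 0 → ⟪e, x⟫ ≤ t → s < ⟪e, x⟫ → 0 ≤ u → u ≤ ⟪e, x⟫ - s →
      F (x + u • ξ x) ≤ 0 ∨ ∃ p ∈ P, dist (x + u • ξ x) p < r := by
    intro u x hx hxt h1 hu hu'
    by_cases h3 : ∀ p ∈ P, r / 2 ≤ dist x p
    · left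
      rcases le_or_gt ‖x‖ (R + 2) with h9 | h9
      · refine hτ (y := u) ?_ x ?_ hu hx
        · rw [dist_zero_right, Real.norm_eq_abs, abs_of_nonneg hu]
          linarith
        · rw [hKd]
          exact ⟨hx, abs_le.2 ⟨by linarith, by linarith⟩, h3, h9⟩
      · refine neg_of_segment hF.continuous hx fun t' ht' h10 => ?_
        have h11 := hR _ h10
        have h12 : ‖t' • u • ξ x‖ ≤ 1 := by
          have h13 : ‖ξ x‖ = 1 := by
            rw [hξ]
            show ‖-e - (l * φ x) • horG F e x‖ = 1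
            rw [hφ0 x h9.le, mul_zero, zero_smul, sub_zero, norm_neg, he]
          rw [norm_smul, norm_smul, h13, mul_one, Real.norm_eq_abs, Real.norm_eq_abs,
            abs_of_nonneg ht'.1, abs_of_nonneg hu]
          have h15 : u ≤ 1 := by linarith
          calc t' * u ≤ 1 * 1 := mul_le_mul ht'.2 h15 hu zero_le_one
            _ = 1 := one_mul 1
        have h14 := norm_sub_le (x + t' • u • ξ x) (t' • u • ξ x)
        rw [add_sub_cancel_right] at h14
        linarith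
    · right
      push Not at h3
      obtain ⟨p, hp, hxp⟩ := h3
      refine ⟨p, hp, ?_⟩
      have h4 : dist (x + u • ξ x) x ≤ r / 2 := by
        rw [dist_eq_norm, add_sub_cancel_left, norm_smul, Real.norm_eq_abs, abs_of_nonneg hu]
        have h5 : ‖ξ x‖ ≤ |B| + 1 := hBx x
        calc u * ‖ξ x‖ ≤ (2 * δ) * (|B| + 1) :=
              mul_le_mul (by linarith) h5 (norm_nonneg _) (by linarith)
          _ ≤ r / 2 := d3'
      calc dist (x + u • ξ x) p
          ≤ dist (x + u • ξ x) x + dist x p := dist_triangle _ _ _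
        _ < r := by linarith
  have hsame : ∀ (σ : ℝ) (x : V), ⟪e, x⟫ ≤ s → x + (σ * max (⟪e, x⟫ - s) 0) • ξ x = x := by
    intro σ x hx
    have h2 : max (⟪e, x⟫ - s) 0 = 0 := max_eq_right (by linarith)
    rw [h2, mul_zero, zero_smul, add_zero]
  refine ⟨fun σ x => x + (σ * max (⟪e, x⟫ - s) 0) • ξ x, ?_, ?_, ?_, ?_, ?_, ?_⟩
  · exact continuous_snd.add ((continuous_fst.mul
      (((hz.comp continuous_snd).sub continuous_const).max continuous_const)).smul
      (hξc.comp continuous_snd))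
  · intro x
    show x + ((0 : ℝ) * max (⟪e, x⟫ - s) 0) • ξ x = x
    rw [zero_mul, zero_smul, add_zero]
  · intro x hx hxt
    show (F (x + ((1 : ℝ) * max (⟪e, x⟫ - s) 0) • ξ x) ≤ 0 ∧
        ⟪e, x + ((1 : ℝ) * max (⟪e, x⟫ - s) 0) • ξ x⟫ ≤ s) ∨
      ∃ p ∈ P, dist (x + ((1 : ℝ) * max (⟪e, x⟫ - s) 0) • ξ x) p < r
    by_cases h1 : ⟪e, x⟫ ≤ s
    · left
      rw [hsame 1 x h1]
      exact ⟨hx, h1⟩
    · push Not at h1
      have h2 : max (⟪e, x⟫ - s) 0 = ⟪e, x⟫ - s := max_eq_left (by linarith)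
      rcases hkey (⟪e, x⟫ - s) x hx hxt h1 (by linarith) le_rfl with h4 | h4
      · left
        refine ⟨?_, ?_⟩
        · rw [h2, one_mul]
          exact h4
        · rw [hzρ, h2]
          linarith
      · right
        rw [h2, one_mul]
        exact h4
  · intro σ _ x hx
    exact hsame σ x hx
  · intro σ hσ x
    show min ⟪e, x⟫ s ≤ ⟪e, x + (σ * max (⟪e, x⟫ - s) 0) • ξ x⟫ ∧
      ⟪e, x + (σ * max (⟪e, x⟫ - s) 0) • ξ x⟫ ≤ ⟪e, x⟫
    rw [hzρ]
    rcases le_total ⟪e, x⟫ s with h1 | h1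
    · have h2 : max (⟪e, x⟫ - s) 0 = 0 := max_eq_right (by linarith)
      rw [h2, mul_zero, sub_zero, min_eq_left h1]
      exact ⟨le_rfl, le_rfl⟩
    · have h2 : max (⟪e, x⟫ - s) 0 = ⟪e, x⟫ - s := max_eq_left (by linarith)
      rw [h2, min_eq_right h1]
      have h3 : 0 ≤ σ * (⟪e, x⟫ - s) := mul_nonneg hσ.1 (by linarith)
      have h4 : σ * (⟪e, x⟫ - s) ≤ 1 * (⟪e, x⟫ - s) :=
        mul_le_mul_of_nonneg_right hσ.2 (by linarith)
      constructor <;> linarith
  · intro σ hσ x hx hxt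
    show F (x + (σ * max (⟪e, x⟫ - s) 0) • ξ x) ≤ 0 ∨
      ∃ p ∈ P, dist (x + (σ * max (⟪e, x⟫ - s) 0) • ξ x) p < r
    by_cases h1 : ⟪e, x⟫ ≤ s
    · left
      rw [hsame σ x h1]
      exact hx
    · push Not at h1
      have h2 : max (⟪e, x⟫ - s) 0 = ⟪e, x⟫ - s := max_eq_left (by linarith)
      rw [h2]
      refine hkey _ x hx hxt h1 (mul_nonneg hσ.1 (by linarith)) ?_
      have h4 : σ * (⟪e, x⟫ - s) ≤ 1 * (⟪e, x⟫ - s) :=
        mul_le_mul_of_nonneg_right hσ.2 (by linarith)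
      linarith

end Pool.Schoen
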