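import Pool.Agent.H.MP_6c077c_gt.N2.Defs
import Pool.Agent.H.MP_6c077c_gt.Ix.LiftA
import Pool.Agent.H.MP_6c077c_gt.IxB.Lift
import Pool.Agent.H.MP_6c077c_gt.IxB.LiftSphere
import Pool.Agent.H.MP_6c077c_gt.helper58.Planar

/-! Sets homeomorphic to the sphere or to the torus. -/

set_option autoImplicit false

namespace Pool.Schoen

open Filter Set Metric
open scoped Topology RealInnerProductSpace ContDiff

/-- The covering of the torus, on the square. -/
private noncomputable def Torus_q (z : ℂ) : Circle × Circle := (Circle.exp z.re, Circle.exp z.im)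

/-- The square. -/
private def Torus_K : Set ℂ := Icc 0 (2 * Real.pi) ×ℂ Icc 0 (2 * Real.pi)

private theorem Torus_mem {z : ℂ} : z ∈ Torus_K ↔
    (0 ≤ z.re ∧ z.re ≤ 2 * Real.pi) ∧ 0 ≤ z.im ∧ z.im ≤ 2 * Real.pi := by
  unfold Torus_K
  rw [Complex.mem_reProdIm, mem_Icc, mem_Icc]

private theorem Torus_mk {s t : ℝ} (hs : s ∈ Icc 0 (2 * Real.pi)) (ht : t ∈ Icc 0 (2 * Real.pi)) :
    (⟨s, t⟩ : ℂ) ∈ Torus_K :=
  Torus_mem.2 ⟨hs, ht⟩

private theorem Torus_cont : Continuous Torus_q := by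
  unfold Torus_q
  exact (Circle.exp.continuous.comp Complex.continuous_re).prodMk
    (Circle.exp.continuous.comp Complex.continuous_im)

private theorem Torus_compact : IsCompact Torus_K := by
  unfold Torus_K
  exact isCompact_Icc.reProdIm isCompact_Icc

private theorem Torus_convex : Convex ℝ Torus_K := by
  unfold Torus_K
  exact (((convex_Icc (0 : ℝ) (2 * Real.pi)).linear_preimage Complex.reLm).inter
    ((convex_Icc (0 : ℝ) (2 * Real.pi)).linear_preimage Complex.imLm))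

private theorem Torus_circle (w : Circle) : ∃ s ∈ Icc 0 (2 * Real.pi), Circle.exp s = w := by
  have hpi := Real.pi_pos
  by_cases h : 0 ≤ Complex.arg w
  · refine ⟨Complex.arg w, ⟨h, ?_⟩, Circle.exp_arg w⟩
    have := Complex.arg_le_pi (w : ℂ)
    linarith
  · push Not at h
    refine ⟨Complex.arg w + 2 * Real.pi, ⟨?_, by linarith⟩, ?_⟩
    · have := Complex.neg_pi_lt_arg (w : ℂ)
      linarith
    · rw [Circle.exp_add, Circle.exp_two_pi, mul_one, Circle.exp_arg]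

private theorem Torus_surj (w : Circle × Circle) : ∃ z ∈ Torus_K, Torus_q z = w := by
  obtain ⟨s, hs, hs'⟩ := Torus_circle w.1
  obtain ⟨t, ht, ht'⟩ := Torus_circle w.2
  refine ⟨⟨s, t⟩, Torus_mem.2 ⟨hs, ht⟩, ?_⟩
  exact Prod.ext hs' ht'

/-- Two parameters of the same point. -/
private theorem Torus_eq {s t : ℝ} (hs : s ∈ Icc 0 (2 * Real.pi)) (ht : t ∈ Icc 0 (2 * Real.pi))
    (h : Circle.exp s = Circle.exp t) :
    s = t ∨ (s = 0 ∧ t = 2 * Real.pi) ∨ (s = 2 * Real.pi ∧ t = 0) := by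
  have hpi := Real.pi_pos
  obtain ⟨m, hm⟩ := Circle.exp_eq_exp.1 h
  have h1 : (m : ℝ) * (2 * Real.pi) ≤ 2 * Real.pi := by linarith [hs.2, ht.1]
  have h2 : -(2 * Real.pi) ≤ (m : ℝ) * (2 * Real.pi) := by linarith [hs.1, ht.2]
  have h3 : (m : ℝ) ≤ 1 := by
    by_contra h
    push Not at h
    nlinarith
  have h4 : (-1 : ℝ) ≤ m := by
    by_contra h
    push Not at h
    nlinarith
  have h5 : m ≤ 1 := by exact_mod_cast h3
  have h6 : -1 ≤ m := by exact_mod_cast h4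
  have h7 : m = -1 ∨ m = 0 ∨ m = 1 := by omega
  rcases h7 with rfl | rfl | rfl
  · right; left
    push_cast at hm
    constructor <;> linarith [hs.1, ht.2]
  · left
    push_cast at hm
    linarith
  · right; right
    push_cast at hm
    constructor <;> linarith [hs.2, ht.1]

private theorem Torus_int {x y : ℝ} (h : Complex.exp (x * Complex.I) = Complex.exp (y * Complex.I)) :
    ∃ n : ℤ, x = y + n * (2 * Real.pi) := by
  obtain ⟨n, hn⟩ := Complex.exp_eq_exp_iff_exists_int.1 h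
  refine ⟨n, ?_⟩
  have h1 := congrArg Complex.im hn
  simpa using h1

/-- Two lifts of the same map on an interval differ by a constant. -/
private theorem Torus_const {a b : ℝ → ℝ} (ha : ContinuousOn a (Icc 0 (2 * Real.pi)))
    (hb : ContinuousOn b (Icc 0 (2 * Real.pi)))
    (h : ∀ t ∈ Icc 0 (2 * Real.pi), Complex.exp (a t * Complex.I) = Complex.exp (b t * Complex.I)) :
    ∃ n : ℤ, ∀ t ∈ Icc 0 (2 * Real.pi), a t = b t + n * (2 * Real.pi) := by
  have hpi := Real.pi_pos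
  have hint : ∀ t ∈ Icc 0 (2 * Real.pi), ∃ n : ℤ, a t = b t + n * (2 * Real.pi) :=
    fun t ht => Torus_int (h t ht)
  choose! n hn using hint
  have cn : ContinuousOn n (Icc 0 (2 * Real.pi)) := by
    have c3 : ContinuousOn (fun x => (a x - b x) / (2 * Real.pi)) (Icc 0 (2 * Real.pi)) :=
      (ha.sub hb).div_const _
    have c4 : ContinuousOn ((fun m : ℤ => (m : ℝ)) ∘ n) (Icc 0 (2 * Real.pi)) := by
      refine c3.congr fun x hx => ?_
      change (n x : ℝ) = (a x - b x) / (2 * Real.pi)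
      rw [hn x hx]
      field_simp
      ring
    exact Int.isClosedEmbedding_coe_real.isInducing.continuousOn_iff.2 c4
  have h0 : (0 : ℝ) ∈ Icc 0 (2 * Real.pi) := ⟨le_refl _, by positivity⟩
  exact ⟨n 0, fun t ht => by rw [isPreconnected_Icc.constant cn h0 ht]; exact hn t ht⟩

/-- A map of the torus to the circle has a lift on the square, with two degrees. -/
private theorem Torus_pull {u : Circle × Circle → ℂ} (hu : Continuous u) (hn : ∀ z, ‖u z‖ = 1) :
    ∃ (g : ℂ → ℝ) (m n : ℤ), ContinuousOn g Torus_K ∧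
      (∀ z ∈ Torus_K, u (Torus_q z) = Complex.exp (g z * Complex.I)) ∧
      (∀ t ∈ Icc 0 (2 * Real.pi), g ⟨2 * Real.pi, t⟩ = g ⟨0, t⟩ + m * (2 * Real.pi)) ∧
      ∀ s ∈ Icc 0 (2 * Real.pi), g ⟨s, 2 * Real.pi⟩ = g ⟨s, 0⟩ + n * (2 * Real.pi) := by
  have hpi := Real.pi_pos
  obtain ⟨g, hg, hg'⟩ := liftS_convex_compact Torus_compact Torus_convex (fun z => u (Torus_q z))
    (hu.comp Torus_cont).continuousOn fun z _ => hn _
  have e0 : (0 : ℝ) ∈ Icc 0 (2 * Real.pi) := ⟨le_refl _, by positivity⟩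
  have e1 : (2 * Real.pi) ∈ Icc 0 (2 * Real.pi) := ⟨by positivity, le_refl _⟩
  have hx : Circle.exp (2 * Real.pi) = Circle.exp 0 := by rw [Circle.exp_two_pi, Circle.exp_zero]
  have cL : ∀ a : ℝ, Continuous fun t : ℝ => (⟨a, t⟩ : ℂ) := fun a => by
    have : (fun t : ℝ => (⟨a, t⟩ : ℂ)) = fun t : ℝ => (a : ℂ) + t * Complex.I := by
      funext t
      apply Complex.ext <;> simp
    rw [this]
    fun_prop
  have cR : ∀ a : ℝ, Continuous fun s : ℝ => (⟨s, a⟩ : ℂ) := fun a => by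
    have : (fun s : ℝ => (⟨s, a⟩ : ℂ)) = fun s : ℝ => (s : ℂ) + a * Complex.I := by
      funext t
      apply Complex.ext <;> simp
    rw [this]
    fun_prop
  obtain ⟨m, hm⟩ := Torus_const (a := fun t => g ⟨2 * Real.pi, t⟩) (b := fun t => g ⟨0, t⟩)
    (hg.comp (cL _).continuousOn fun t ht => Torus_mk e1 ht)
    (hg.comp (cL _).continuousOn fun t ht => Torus_mk e0 ht) fun t ht => by
      rw [← hg' _ (Torus_mk e1 ht), ← hg' _ (Torus_mk e0 ht)]
      simp only [Torus_q, hx]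
  obtain ⟨n, hn'⟩ := Torus_const (a := fun s => g ⟨s, 2 * Real.pi⟩) (b := fun s => g ⟨s, 0⟩)
    (hg.comp (cR _).continuousOn fun t ht => Torus_mk ht e1)
    (hg.comp (cR _).continuousOn fun t ht => Torus_mk ht e0) fun t ht => by
      rw [← hg' _ (Torus_mk ht e1), ← hg' _ (Torus_mk ht e0)]
      simp only [Torus_q, hx]
  exact ⟨g, m, n, hg, hg', hm, hn'⟩

/-- A periodic function on the square descends to the torus. -/
private theorem Torus_desc {G : ℂ → ℝ} (hG : ContinuousOn G Torus_K)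
    (h1 : ∀ t ∈ Icc 0 (2 * Real.pi), G ⟨2 * Real.pi, t⟩ = G ⟨0, t⟩)
    (h2 : ∀ s ∈ Icc 0 (2 * Real.pi), G ⟨s, 2 * Real.pi⟩ = G ⟨s, 0⟩) :
    ∃ v : Circle × Circle → ℝ, Continuous v ∧ ∀ z ∈ Torus_K, v (Torus_q z) = G z := by
  have : CompactSpace Torus_K := isCompact_iff_compactSpace.1 Torus_compact
  set q : C(Torus_K, Circle × Circle) := ⟨fun z => Torus_q z, Torus_cont.comp continuous_subtype_val⟩
    with hq
  have hsurj : Function.Surjective q := fun w => by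
    obtain ⟨z, hz, hz'⟩ := Torus_surj w
    exact ⟨⟨z, hz⟩, hz'⟩
  have hquot : Topology.IsQuotientMap q :=
    (q.continuous.isClosedMap).isQuotientMap q.continuous hsurj
  set g : C(Torus_K, ℝ) := ⟨fun z => G z, continuousOn_iff_continuous_domRestrict.1 hG⟩ with hg
  have hre : ∀ (s s' t : ℝ), s ∈ Icc 0 (2 * Real.pi) → s' ∈ Icc 0 (2 * Real.pi) →
      t ∈ Icc 0 (2 * Real.pi) → Circle.exp s = Circle.exp s' → G ⟨s, t⟩ = G ⟨s', t⟩ := by
    intro s s' t hs hs' ht h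
    rcases Torus_eq hs hs' h with rfl | ⟨rfl, rfl⟩ | ⟨rfl, rfl⟩
    · rfl
    · exact (h1 t ht).symm
    · exact h1 t ht
  have him : ∀ (s t t' : ℝ), s ∈ Icc 0 (2 * Real.pi) → t ∈ Icc 0 (2 * Real.pi) →
      t' ∈ Icc 0 (2 * Real.pi) → Circle.exp t = Circle.exp t' → G ⟨s, t⟩ = G ⟨s, t'⟩ := by
    intro s t t' hs ht ht' h
    rcases Torus_eq ht ht' h with rfl | ⟨rfl, rfl⟩ | ⟨rfl, rfl⟩
    · rfl
    · exact (h2 s hs).symm
    · exact h2 s hs
  have hfac : Function.FactorsThrough g q := by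
    rintro ⟨⟨s, t⟩, hz⟩ ⟨⟨s', t'⟩, hz'⟩ h
    have h3 : Circle.exp s = Circle.exp s' := congrArg Prod.fst h
    have h4 : Circle.exp t = Circle.exp t' := congrArg Prod.snd h
    have m := Torus_mem.1 hz
    have m' := Torus_mem.1 hz'
    change G ⟨s, t⟩ = G ⟨s', t'⟩
    rw [hre s s' t m.1 m'.1 m.2 h3, him s' t t' m'.1 m.2 m'.2 h4]
  refine ⟨hquot.lift g hfac, (hquot.lift g hfac).continuous, fun z hz => ?_⟩
  have := DFunLike.congr_fun (hquot.lift_comp g hfac) ⟨z, hz⟩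
  exact this

/-- Three pairs of integers are dependent. -/
private theorem Torus_dep (m1 m2 m3 n1 n2 n3 : ℤ) : ∃ a b c : ℤ, (a ≠ 0 ∨ b ≠ 0 ∨ c ≠ 0) ∧
    a * m1 + b * m2 + c * m3 = 0 ∧ a * n1 + b * n2 + c * n3 = 0 := by
  by_cases h : m2 * n3 - m3 * n2 = 0 ∧ m3 * n1 - m1 * n3 = 0 ∧ m1 * n2 - m2 * n1 = 0
  · obtain ⟨h1, h2, h3⟩ := h
    by_cases hm1 : m1 = 0
    · by_cases hm2 : m2 = 0
      · by_cases hm3 : m3 = 0
        · subst hm1 hm2 hm3
          by_cases hn1 : n1 = 0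
          · exact ⟨1, 0, 0, Or.inl one_ne_zero, by simp, by simp [hn1]⟩
          · exact ⟨n2, -n1, 0, Or.inr (Or.inl (neg_ne_zero.2 hn1)), by simp, by ring⟩
        · exact ⟨m3, 0, -m1, Or.inl hm3, by ring, by linarith⟩
      · exact ⟨m2, -m1, 0, Or.inl hm2, by ring, by linarith⟩
    · exact ⟨m2, -m1, 0, Or.inr (Or.inl (neg_ne_zero.2 hm1)), by ring, by linarith⟩
  · refine ⟨m2 * n3 - m3 * n2, m3 * n1 - m1 * n3, m1 * n2 - m2 * n1, ?_, by ring, by ring⟩
    by_contra h'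
    push Not at h'
    exact h h'

theorem dep3_circle : Dep3 (univ : Set (Circle × Circle)) := by
  intro u v w hu hv hw nu nv nw
  obtain ⟨g1, m1, n1, c1, e1, p1, q1⟩ := Torus_pull (continuousOn_univ.1 hu) fun z => nu z (mem_univ z)
  obtain ⟨g2, m2, n2, c2, e2, p2, q2⟩ := Torus_pull (continuousOn_univ.1 hv) fun z => nv z (mem_univ z)
  obtain ⟨g3, m3, n3, c3, e3, p3, q3⟩ := Torus_pull (continuousOn_univ.1 hw) fun z => nw z (mem_univ z)
  obtain ⟨a, b, c, habc, hm, hn⟩ := Torus_dep m1 m2 m3 n1 n2 n3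
  have hm' : (a : ℝ) * m1 + b * m2 + c * m3 = 0 := by exact_mod_cast hm
  have hn' : (a : ℝ) * n1 + b * n2 + c * n3 = 0 := by exact_mod_cast hn
  obtain ⟨G, cG, eG⟩ := Torus_desc (G := fun z => a * g1 z + b * g2 z + c * g3 z)
    (((continuousOn_const.mul c1).add (continuousOn_const.mul c2)).add (continuousOn_const.mul c3))
    (fun t ht => by
      simp only [p1 t ht, p2 t ht, p3 t ht]
      linear_combination (2 * Real.pi) * hm')
    (fun s hs => by
      simp only [q1 s hs, q2 s hs, q3 s hs]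
      linear_combination (2 * Real.pi) * hn')
  refine ⟨a, b, c, habc, G, cG.continuousOn, fun x _ => ?_⟩
  obtain ⟨z, hz, rfl⟩ := Torus_surj x
  change u (Torus_q z) ^ a * v (Torus_q z) ^ b * w (Torus_q z) ^ c = _
  rw [e1 z hz, e2 z hz, e3 z hz, eG z hz, ← Complex.exp_int_mul, ← Complex.exp_int_mul,
    ← Complex.exp_int_mul, ← Complex.exp_add, ← Complex.exp_add]
  push_cast
  ring_nf

theorem Dep3.homeo {Y Z : Type*} [TopologicalSpace Y] [TopologicalSpace Z] {A : Set Y} {B : Set Z}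
    (Φ : A ≃ₜ B) (h : Dep3 A) : Dep3 B := by
  classical
  intro u₁ u₂ u₃ h₁ h₂ h₃ n₁ n₂ n₃
  have key : ∀ u : Z → ℂ, ContinuousOn u B → (∀ x ∈ B, ‖u x‖ = 1) → ∃ u' : Y → ℂ,
      ContinuousOn u' A ∧ (∀ x ∈ A, ‖u' x‖ = 1) ∧ ∀ (y : Y) (hy : y ∈ A), u' y = u (Φ ⟨y, hy⟩) := by
    intro u hu hn
    set u' : Y → ℂ := fun y => if hy : y ∈ A then u (Φ ⟨y, hy⟩) else 1 with hu'
    have e0 : ∀ (y : Y) (hy : y ∈ A), u' y = u (Φ ⟨y, hy⟩) := fun y hy => by
      rw [hu']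
      exact dif_pos hy
    refine ⟨u', ?_, fun y hy => by rw [e0 y hy]; exact hn _ (Φ ⟨y, hy⟩).2, e0⟩
    rw [continuousOn_iff_continuous_domRestrict]
    have e1 : A.domRestrict u' = B.domRestrict u ∘ Φ := by
      funext a
      exact e0 a a.2
    rw [e1]
    exact (continuousOn_iff_continuous_domRestrict.1 hu).comp Φ.continuous
  obtain ⟨w₁, c₁, m₁, e₁⟩ := key u₁ h₁ n₁
  obtain ⟨w₂, c₂, m₂, e₂⟩ := key u₂ h₂ n₂
  obtain ⟨w₃, c₃, m₃, e₃⟩ := key u₃ h₃ n₃
  obtain ⟨a, b, c, habc, v', cv', ev'⟩ := h w₁ w₂ w₃ c₁ c₂ c₃ m₁ m₂ m₃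
  refine ⟨a, b, c, habc, fun z => if hz : z ∈ B then v' (Φ.symm ⟨z, hz⟩) else 0, ?_, ?_⟩
  · rw [continuousOn_iff_continuous_domRestrict]
    have e1 : B.domRestrict (fun z => if hz : z ∈ B then v' (Φ.symm ⟨z, hz⟩) else 0) =
        A.domRestrict v' ∘ Φ.symm := by
      funext b
      exact dif_pos b.2
    rw [e1]
    exact (continuousOn_iff_continuous_domRestrict.1 cv').comp Φ.symm.continuous
  · intro z hz
    have h1 : Φ ⟨(Φ.symm ⟨z, hz⟩ : Y), (Φ.symm ⟨z, hz⟩).2⟩ = ⟨z, hz⟩ := Φ.apply_symm_apply ⟨z, hz⟩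
    have h2 := ev' _ (Φ.symm ⟨z, hz⟩).2
    beta_reduce at h2
    rw [e₁ _ (Φ.symm ⟨z, hz⟩).2, e₂ _ (Φ.symm ⟨z, hz⟩).2, e₃ _ (Φ.symm ⟨z, hz⟩).2, h1] at h2
    beta_reduce
    rw [dif_pos hz]
    exact h2

/-- The torus. -/
theorem bd12_torus {Y : Type*} [TopologicalSpace Y] {T : Set Y}
    (h : Nonempty (T ≃ₜ Circle × Circle)) : Bd12 T := by
  obtain ⟨Φ⟩ := h
  refine ⟨?_, Or.inr (dep3_circle.homeo ((Homeomorph.Set.univ _).trans Φ.symm))⟩
  have h1 : T = range fun z : ℂ => ((Φ.symm (Torus_q z) : T) : Y) := by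
    ext y
    constructor
    · intro hy
      obtain ⟨z, _, hz⟩ := Torus_surj (Φ ⟨y, hy⟩)
      exact ⟨z, by simp only [hz, Homeomorph.symm_apply_apply]⟩
    · rintro ⟨z, rfl⟩
      exact (Φ.symm (Torus_q z)).2
  rw [h1]
  exact isConnected_range (continuous_subtype_val.comp (Φ.symm.continuous.comp Torus_cont))

/-- The sphere. -/
theorem bd12_sphere {Y : Type*} [TopologicalSpace Y] {T : Set Y}
    (h : Nonempty (T ≃ₜ sphere (0 : EuclideanSpace ℝ (Fin 3)) 1)) : Bd12 T := by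
  obtain ⟨Φ⟩ := h
  have hd : Module.finrank ℝ (EuclideanSpace ℝ (Fin 3)) = 3 := by simp
  refine ⟨?_, Or.inl (LiftS.homeo Φ.symm (liftS_sphere (by rw [hd])))⟩
  have h1 : IsConnected (sphere (0 : EuclideanSpace ℝ (Fin 3)) 1) := by
    refine isConnected_sphere ?_ 0 zero_le_one
    rw [← Module.finrank_eq_rank, hd]
    norm_num
  have : ConnectedSpace (sphere (0 : EuclideanSpace ℝ (Fin 3)) 1) :=
    isConnected_iff_connectedSpace.1 h1
  have : ConnectedSpace T := Φ.symm.surjective.connectedSpace Φ.symm.continuous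
  exact isConnected_iff_connectedSpace.2 inferInstance

end Pool.Schoen
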