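import Pool.Agent.H.MP_6c077c_gt.N2.LiftR
import Pool.Agent.H.MP_6c077c_gt.N2.Torus
import Pool.Agent.H.MP_6c077c_gt.N2.Unis
import Pool.Agent.H.MP_6c077c_gt.Al.Main
import Pool.Agent.H.MP_6c077c_gt.F2.StartK
import Pool.Agent.H.MP_6c077c_gt.F2.LeafB
import Pool.Agent.H.MP_6c077c_gt.F3.SphLift

/-! Both sides of a connected surface of rank two in dimension three have rank one. -/

set_option autoImplicit false

namespace Pool.Schoen

open Filter Set Metric
open scoped Topology RealInnerProductSpace ContDiff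

variable {E : Type*} [NormedAddCommGroup E] [InnerProductSpace ℝ E] [FiniteDimensional ℝ E]

/-- If the two sides have connected boundary and one of them has the lifting property, then the
boundary has it. -/
private theorem RankA_aux (hE : Module.finrank ℝ E = 3) {k : E → ℝ} (hk : ContDiff ℝ ∞ k)
    (hb : Bornology.IsBounded {x | k x = 0}) (hr : ∀ x, k x = 0 → gradient k x ≠ 0)
    (hc : IsConnected {x | k x = 0}) (hl : LiftS {x | k x ≤ 0} ∨ LiftS {x | 0 ≤ k x}) :
    LiftS {x | k x = 0} := by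
  obtain ⟨h1, h2⟩ := sides_conn hk.continuous hc
  have hsph : LiftS (sphere (0 : E) 1) := liftS_sphere_ne_two (by omega)
  have key : ∀ g : E → ℝ, ContDiff ℝ ∞ g → IsBall g → LiftS {x | g x = 0} := by
    intro g hg hball
    obtain ⟨φ, ψ, hφ, hψ, e1, -, -, e3⟩ := carries_of_isBall g hg hball
    have hm : ∀ x ∈ {x | g x = 0}, φ x ∈ sphere (0 : E) 1 := fun x hx => by
      rw [← e3]
      exact mem_image_of_mem φ hx
    refine LiftS.of_maps hsph hψ.continuous.continuousOn hφ.continuous.continuousOn ?_ hm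
      fun x _ => e1 x
    intro y hy
    rw [← e3] at hy
    obtain ⟨x, hx, rfl⟩ := hy
    rw [e1]
    exact hx
  rcases alexander_rd hE hk hb hr ⟨h1, h2, hl⟩ with h | h
  · exact key k hk h
  · have h3 := key (fun x => -k x) hk.neg h
    have h4 : {x | -k x = 0} = {x | k x = 0} := by
      ext x
      simp only [mem_ofPred_eq, neg_eq_zero]
    rwa [h4] at h3

/-- One side. -/
private theorem RankA_side {A B : Set E} (hA : IsClosed A) (hB : IsClosed B) (hU : A ∪ B = univ)
    (hd : Dep3 (A ∩ B)) (hn : ¬ LiftS B) : Dep2 A := by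
  intro u₁ u₂ c₁ c₂ n₁ n₂
  obtain ⟨v, cv, nv, hv⟩ : ∃ v : E → ℂ, ContinuousOn v B ∧ (∀ x ∈ B, ‖v x‖ = 1) ∧ ¬ Lifts B v := by
    by_contra hcon
    push Not at hcon
    exact hn fun v cv nv => hcon v cv nv
  obtain ⟨a, b, c, habc, hl⟩ := hd u₁ u₂ v (c₁.mono inter_subset_left) (c₂.mono inter_subset_left)
    (cv.mono inter_subset_right) (fun x hx => n₁ x hx.1) (fun x hx => n₂ x hx.1)
    (fun x hx => nv x hx.2)
  have z₁ : ∀ x ∈ A, u₁ x ≠ 0 := fun x hx h0 => by
    have := n₁ x hx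
    rw [h0, norm_zero] at this
    exact zero_ne_one this
  have z₂ : ∀ x ∈ A, u₂ x ≠ 0 := fun x hx h0 => by
    have := n₂ x hx
    rw [h0, norm_zero] at this
    exact zero_ne_one this
  have cw : ContinuousOn (fun x => u₁ x ^ a * u₂ x ^ b) A :=
    (c₁.zpow₀ a fun x hx => Or.inl (z₁ x hx)).mul (c₂.zpow₀ b fun x hx => Or.inl (z₂ x hx))
  have nw : ∀ x ∈ A, ‖u₁ x ^ a * u₂ x ^ b‖ = 1 := fun x hx => by
    rw [norm_mul, norm_zpow, norm_zpow, n₁ x hx, n₂ x hx, one_zpow, one_zpow, mul_one]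
  by_cases hc : c = 0
  · subst hc
    refine ⟨a, b, ?_, ?_⟩
    · rcases habc with h | h | h
      · exact Or.inl h
      · exact Or.inr h
      · exact absurd rfl h
    · have hl' : Lifts (A ∩ B) fun x => u₁ x ^ a * u₂ x ^ b := by
        refine hl.congr fun x _ => ?_
        rw [zpow_zero, mul_one]
      obtain ⟨U, hUc, hUn, hUe⟩ := extend_unit hA hB cw nw hl'
      rw [hU] at hUc hUn
      obtain ⟨φ, hφ, hφ'⟩ := liftS_univ E U hUc hUn
      exact ⟨φ, hφ.mono (subset_univ A), fun x hx => (hUe x hx).symm.trans (hφ' x (mem_univ x))⟩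
  · exfalso
    refine not_liftS_glue (v := v) (w := fun x => u₁ x ^ a * u₂ x ^ b) (b := 1) hB hA cv nv hv cw nw
      hc ?_ ?_
    · rw [inter_comm]
      refine hl.congr fun x _ => ?_
      rw [zpow_one, mul_comm]
    · rw [union_comm, hU]
      exact liftS_univ E

/-- PROOF. Both sides are connected (`sides_conn`). If one had the lifting property then `Rd k`
(`alexander_rd`, `TopE`), so `{k = 0}` would be diffeomorphic to a sphere (`Hom.carries`) and would
have the lifting property (`liftS_sphere_ne_two`). -/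
theorem rank_not (hE : Module.finrank ℝ E = 3) {k : E → ℝ} (hk : ContDiff ℝ ∞ k)
    (hb : Bornology.IsBounded {x | k x = 0}) (hr : ∀ x, k x = 0 → gradient k x ≠ 0)
    (hc : IsConnected {x | k x = 0}) (hn : ¬ LiftS {x | k x = 0}) :
    ¬ LiftS {x | k x ≤ 0} ∧ ¬ LiftS {x | 0 ≤ k x} :=
  ⟨fun h => hn (RankA_aux hE hk hb hr hc (Or.inl h)),
    fun h => hn (RankA_aux hE hk hb hr hc (Or.inr h))⟩

/-- PROOF. `v` nonliftable on `{0 ≤ k}`; by `Dep3` integers `(a, b, c) ≠ 0` with
`u₁ ^ a * u₂ ^ b * v ^ c` liftable on `{k = 0}`. If `c ≠ 0` then `not_liftS_glue` (with `v ^ c` and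
`w = u₁ ^ a * u₂ ^ b`) contradicts `liftS_univ`. So `c = 0`, `(a, b) ≠ 0` and `u₁ ^ a * u₂ ^ b` lifts
on `{k = 0}`; extend the lift to `{0 ≤ k}` (Tietze), glue, lift on the whole space. The other side is
the same. -/
theorem rank_dep (hE : Module.finrank ℝ E = 3) {k : E → ℝ} (hk : ContDiff ℝ ∞ k)
    (hb : Bornology.IsBounded {x | k x = 0}) (hr : ∀ x, k x = 0 → gradient k x ≠ 0)
    (hc : IsConnected {x | k x = 0}) (hn : ¬ LiftS {x | k x = 0}) (hd : Dep3 {x | k x = 0}) :
    Dep2 {x | k x ≤ 0} ∧ Dep2 {x | 0 ≤ k x} := by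
  obtain ⟨n1, n2⟩ := rank_not hE hk hb hr hc hn
  have h1 : IsClosed {x | k x ≤ 0} := isClosed_le hk.continuous continuous_const
  have h2 : IsClosed {x | 0 ≤ k x} := isClosed_le continuous_const hk.continuous
  have h3 : {x | k x ≤ 0} ∪ {x | 0 ≤ k x} = univ := by
    ext x
    simp only [mem_union, mem_ofPred_eq, mem_univ, iff_true]
    exact le_total _ _
  have h4 : {x | k x ≤ 0} ∩ {x | 0 ≤ k x} = {x | k x = 0} := by
    ext x
    simp only [mem_inter_iff, mem_ofPred_eq]
    exact ⟨fun h => le_antisymm h.1 h.2, fun h => ⟨h.le, h.ge⟩⟩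
  refine ⟨RankA_side h1 h2 h3 (by rw [h4]; exact hd) n2, RankA_side h2 h1 ?_ ?_ n1⟩
  · rw [union_comm]
    exact h3
  · rw [inter_comm, h4]
    exact hd

end Pool.Schoen
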