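import Pool.Agent.H.MP_6c077c_gt.N2.KMain
import Pool.Agent.H.MP_6c077c_gt.N2.Base
import Pool.Agent.H.MP_6c077c_gt.N2.Torus
import Pool.Agent.H.MP_6c077c_gt.IxB.SpecB
import Pool.Agent.H.MP_6c077c_gt.PP.BallC

/-! Slices with spheres and tori: the theorem for a direction. -/

set_option autoImplicit false

namespace Pool.Schoen

open Filter Set
open scoped Topology RealInnerProductSpace ContDiff

variable {V : Type*} [NormedAddCommGroup V] [InnerProductSpace ℝ V] [FiniteDimensional ℝ V]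

/-- A point with normal `-e` at which the second derivative is nondegenerate on the hyperplane has
an index. -/
theorem inward_nd_idx {n : ℕ} (hn : Module.finrank ℝ V = n + 1) {F : V → ℝ} (hF : ContDiff ℝ ∞ F)
    {e : V} (he : ‖e‖ = 1) {x : V} (hx : Inward F e x)
    (hnd : ∀ u : V, ⟪e, u⟫ = 0 → (∀ v : V, ⟪e, v⟫ = 0 → fderiv ℝ (fderiv ℝ F) x u v = 0) → u = 0) :
    ∃ k, Idx F e x k := by
  refine ⟨_, idx_of_gaussK n hn F hF e he x hx ?_⟩
  obtain ⟨hx0, l, hl, hg⟩ := hx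
  have hnorm : ‖gradient F x‖ = l := by
    rw [hg, norm_neg, norm_smul, he, mul_one, Real.norm_of_nonneg hl.le]
  have hne : gradient F x ≠ 0 := by
    intro h0
    rw [h0, norm_zero] at hnorm
    exact hl.ne hnorm
  have hnrm : nrm F x = -e := by
    rw [nrm, hnorm, hg, smul_neg, smul_smul, inv_mul_cancel₀ hl.ne', one_smul]
  obtain ⟨b, κ, hb0, hS, hdet, -⟩ := ix_spec n hn F hF x hne
  rw [hdet, Finset.prod_ne_zero_iff]
  intro i _ hi
  have hform : ∀ w : V, ⟪e, w⟫ = 0 →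
      fderiv ℝ (fderiv ℝ F) x w w = l * ⟪shape F x w, w⟫ := by
    intro w hw
    rw [level_form F hF x w (by rw [hnrm, inner_neg_right, real_inner_comm, hw, neg_zero]), hnorm,
      ← mul_assoc, mul_inv_cancel₀ hl.ne', one_mul]
  have hhess : ∀ a a' : V, ⟪e, a⟫ = 0 → ⟪e, a'⟫ = 0 →
      fderiv ℝ (fderiv ℝ F) x a a' = l * ⟪shape F x a, a'⟫ := by
    intro a a' ha ha'
    have h1 := hform (a + a') (by rw [inner_add_right, ha, ha', add_zero])
    have h2 := hform a ha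
    have h3 := hform a' ha'
    have h4 := ixHess_symm hF x a' a
    have h5 : ⟪shape F x a', a⟫ = ⟪shape F x a, a'⟫ := by
      rw [level_symm F hF x a' a, real_inner_comm]
    simp only [map_add, _root_.add_apply, inner_add_left, inner_add_right] at h1
    rw [h5] at h1
    linarith
  have hbi : ⟪e, b (some i)⟫ = 0 := by
    have h1 : ⟪b none, b (some i)⟫ = 0 := b.orthonormal.2 (by simp)
    rw [hb0, hnrm, inner_neg_left, neg_eq_zero] at h1
    exact h1
  have h0 : b (some i) = 0 := by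
    refine hnd _ hbi fun v hv => ?_
    rw [hhess _ v hbi hv, hS, hi, zero_smul, inner_zero_left, mul_zero]
  have h1 := b.orthonormal.1 (some i)
  rw [h0, norm_zero] at h1
  exact zero_ne_one h1

/-- The same for all horizontal points. -/
theorem crit_nd_idx {n : ℕ} (hn : Module.finrank ℝ V = n + 1) {F : V → ℝ} (hF : ContDiff ℝ ∞ F)
    (hreg : ∀ x, F x = 0 → gradient F x ≠ 0) {e : V} (he : ‖e‖ = 1) {x : V} (hx : Crit F e x)
    (hnd : ∀ u : V, ⟪e, u⟫ = 0 → (∀ v : V, ⟪e, v⟫ = 0 → fderiv ℝ (fderiv ℝ F) x u v = 0) → u = 0) :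
    ∃ k, Idx F e x k := by
  rcases (crit_iff he hreg x).1 hx with h1 | h1
  · exact inward_nd_idx hn hF he h1 hnd
  · obtain ⟨k, hk⟩ := inward_nd_idx hn hF (e := -e) (by rwa [norm_neg]) h1 (fun u hu h => by
      refine hnd u (by rwa [inner_neg_left, neg_eq_zero] at hu) fun v hv => ?_
      exact h v (by rw [inner_neg_left, hv, neg_zero]))
    exact ⟨k, idx_neg_dir.1 hk⟩

/-- One level above each point of a finite set, below the next one. -/
theorem exists_gaps {H : Set ℝ} (hH : H.Finite) : ∃ L : Set ℝ, L.Finite ∧ (∀ c ∈ L, c ∉ H) ∧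
    ∀ s ∈ H, ∀ t ∈ H, s < t → ∃ c ∈ L, s < c ∧ c < t := by
  have h1 : ∀ s : ℝ, ∃ δ : ℝ, 0 < δ ∧ ∀ c' ∈ H, c' ≠ s → δ ≤ |c' - s| := fun s => Cy.Cyl_gap hH s
  choose δ hδ hδH using h1
  refine ⟨(fun s => s + δ s / 2) '' H, hH.image _, ?_, fun s hs t ht hst => ?_⟩
  · rintro _ ⟨s, -, rfl⟩ h2
    have h3 := hδ s
    have h2' : s + δ s / 2 ∈ H := h2
    have h4 := hδH s _ h2' (by linarith)
    rw [add_sub_cancel_left, abs_of_pos (by positivity)] at h4
    linarith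
  · have h3 := hδ s
    have h4 := hδH s t ht hst.ne'
    rw [abs_of_pos (by linarith)] at h4
    exact ⟨_, ⟨s, hs, rfl⟩, by linarith, by linarith⟩

/-- **The theorem for a direction.** The horizontal points are nondegenerate and have different
heights, and the components of the regular slices of the body have connected boundary with the
lifting property or of rank at most two. -/
theorem n2_rd (hV : Module.finrank ℝ V = 4) {F : V → ℝ} (hF : ContDiff ℝ ∞ F)
    (hb : Bornology.IsBounded {x | F x ≤ 0}) (hreg : ∀ x, F x = 0 → gradient F x ≠ 0)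
    (hMc : IsConnected {x | F x = 0}) (hMl : LiftS {x | F x = 0}) {e : V} (he : ‖e‖ = 1)
    (hnd : ∀ x, Crit F e x → ∃ k, Idx F e x k)
    (hh : ∀ x y, Crit F e x → Crit F e y → ⟪e, x⟫ = ⟪e, y⟫ → x = y)
    (hs : ∀ x, F x ≤ 0 → (∀ y, Crit F e y → ⟪e, y⟫ ≠ ⟪e, x⟫) → Bd12 (bdC F e x)) : Rd F := by
  have hb0 : Bornology.IsBounded {x | F x = 0} := hb.subset fun x hx => le_of_eq hx
  have hcr : ∀ x, Crit F e x ↔ Inward F e x ∨ Inward F (-e) x := crit_iff he hreg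
  have hne : ‖-e‖ = 1 := by rwa [norm_neg]
  have hf1 : {x | Inward F e x}.Finite :=
    inward_finite hF hb0 hreg he fun x hx => hnd x ((hcr x).2 (Or.inl hx))
  have hf2 : {x | Inward F (-e) x}.Finite :=
    inward_finite hF hb0 hreg hne fun x hx => by
      obtain ⟨k, hk⟩ := hnd x ((hcr x).2 (Or.inr hx))
      exact ⟨k, idx_neg_dir.2 hk⟩
  have hfin : {x | Crit F e x}.Finite := (hf1.union hf2).subset fun x hx => (hcr x).1 hx
  obtain ⟨L, hL, hLn, hLg⟩ := exists_gaps (hfin.image fun x : V => ⟪e, x⟫)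
  obtain ⟨A, hA⟩ : ∃ A : ℝ → ℕ → Prop, A = fun s k => ∃ x, Inward F e x ∧ Idx F e x k ∧
    ⟪e, x⟫ = s := ⟨_, rfl⟩
  obtain ⟨B, hB⟩ : ∃ B : ℝ → ℕ → Prop, B = fun s k => ∃ x, Inward F (-e) x ∧ Idx F e x k ∧
    ⟪e, x⟫ = s := ⟨_, rfl⟩
  have hmem : ∀ s k, A s k ∨ B s k → s ∈ (fun x : V => ⟪e, x⟫) '' {x | Crit F e x} := by
    rintro s k (h1 | h1)
    · rw [hA] at h1
      obtain ⟨x, h2, -, h3⟩ := h1
      exact ⟨x, (hcr x).2 (Or.inl h2), h3⟩
    · rw [hB] at h1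
      obtain ⟨x, h2, -, h3⟩ := h1
      exact ⟨x, (hcr x).2 (Or.inr h2), h3⟩
  have hcL : ∀ x, Crit F e x → ⟪e, x⟫ ∉ L := fun x hx h1 => hLn _ h1 ⟨x, hx, rfl⟩
  have hsep : SepL L A B := by
    refine ⟨hL, fun t j k h1 h2 => ?_, fun t j k h1 h2 => ?_, fun t j k h1 h2 => ?_,
      fun s t j k h1 h2 hst => ?_⟩
    · rw [hA] at h1 h2
      obtain ⟨x, x1, x2, x3⟩ := h1
      obtain ⟨y, y1, y2, y3⟩ := h2
      have hxy : x = y := hh x y ((hcr x).2 (Or.inl x1)) ((hcr y).2 (Or.inl y1)) (x3.trans y3.symm)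
      subst hxy
      exact Cy.Idx.unique x2 y2
    · rw [hB] at h1 h2
      obtain ⟨x, x1, x2, x3⟩ := h1
      obtain ⟨y, y1, y2, y3⟩ := h2
      have hxy : x = y := hh x y ((hcr x).2 (Or.inr x1)) ((hcr y).2 (Or.inr y1)) (x3.trans y3.symm)
      subst hxy
      exact Cy.Idx.unique x2 y2
    · rw [hA] at h1
      rw [hB] at h2
      obtain ⟨x, x1, x2, x3⟩ := h1
      obtain ⟨y, y1, y2, y3⟩ := h2
      have hxy : x = y := hh x y ((hcr x).2 (Or.inl x1)) ((hcr y).2 (Or.inr y1)) (x3.trans y3.symm)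
      subst hxy
      obtain ⟨-, l, hl, h3⟩ := x1
      obtain ⟨-, m, hm, h4⟩ := y1
      have h5 : (l + m) • e = 0 := by
        rw [h3] at h4
        rw [add_smul]
        have h6 : m • e = -(l • e) := by rw [h4, smul_neg, neg_neg]
        rw [h6, add_neg_cancel]
      have h6 := congrArg norm h5
      rw [norm_smul, he, norm_zero, mul_one, Real.norm_of_nonneg (by positivity)] at h6
      linarith
    · exact hLg s (hmem s j h1) t (hmem t k h2) hst
  obtain ⟨hc1, hc2⟩ := sides_conn hF.continuous hMc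
  obtain ⟨S, hS⟩ := mark_exists he hF hb0 hL (by
    intro x hx hxc l hl
    exact hcL x (crit_of_vert hx hl) hxc)
  refine kt_rd hV he hL (fun f S h hno => kt_base hV he hsep h hno) _ S F rfl
    ⟨⟨hF, hb0, hreg, hnd⟩, hb, hcL, hc1, hc2, hMl, fun x hx hxL => ?_, fun x hx k hk => ?_,
      fun x hx k hk => ?_, hS⟩
  · refine hs x hx fun y hy h1 => hcL y hy ?_
    rw [h1]
    exact hxL
  · right
    rw [hA]
    exact ⟨x, hx, hk, rfl⟩
  · right
    rw [hB]
    exact ⟨x, hx, hk, rfl⟩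

/-- **Slices with spheres and tori.** The boundaries of the components of the regular slices of the
body are spheres and tori. -/
theorem n2_carries (hV : Module.finrank ℝ V = 4) (F : V → ℝ) (hF : ContDiff ℝ ∞ F)
    (hb : Bornology.IsBounded {x | F x ≤ 0}) (hreg : ∀ x, F x = 0 → gradient F x ≠ 0)
    (hMc : IsConnected {x | F x = 0}) (hMl : LiftS {x | F x = 0}) (e : V) (he : ‖e‖ = 1)
    (hnd : ∀ x, F x = 0 → (∃ l : ℝ, gradient F x = l • e) → ∀ u : V, ⟪e, u⟫ = 0 →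
      (∀ v : V, ⟪e, v⟫ = 0 → fderiv ℝ (fderiv ℝ F) x u v = 0) → u = 0)
    (hh : ∀ x y, F x = 0 → (∃ l : ℝ, gradient F x = l • e) → F y = 0 →
      (∃ l : ℝ, gradient F y = l • e) → x ≠ y → ⟪e, x⟫ ≠ ⟪e, y⟫)
    (hs : ∀ (x : V) (T : Set V), F x ≤ 0 →
      (∀ y, F y = 0 → (∃ l : ℝ, gradient F y = l • e) → ⟪e, y⟫ ≠ ⟪e, x⟫) →
      T = connectedComponentIn {y | F y ≤ 0 ∧ ⟪e, y⟫ = ⟪e, x⟫} x ∩ {y | F y = 0} →
      Nonempty (T ≃ₜ Metric.sphere (0 : EuclideanSpace ℝ (Fin 3)) 1) ∨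
        Nonempty (T ≃ₜ Circle × Circle)) :
    ∃ φ ψ : V → V, ContDiff ℝ ∞ φ ∧ ContDiff ℝ ∞ ψ ∧ (∀ x, ψ (φ x) = x) ∧ (∀ x, φ (ψ x) = x) ∧
      (∃ R : ℝ, ∀ x, R ≤ ‖x‖ → φ x = x) ∧ φ '' {x | F x = 0} = Metric.sphere (0 : V) 1 := by
  haveI : Nontrivial V := Module.nontrivial_of_finrank_pos (R := ℝ) (by omega)
  refine carries_of_isBall F hF (Rd.isBall ?_ hb)
  refine n2_rd hV hF hb hreg hMc hMl he (fun x hx => ?_) (fun x y hx hy hxy => ?_) fun x hx hx' => ?_
  · exact crit_nd_idx (n := 3) hV hF hreg he hx (hnd x hx.1 (hx.vert he))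
  · by_contra hne
    exact hh x y hx.1 (hx.vert he) hy.1 (hy.vert he) hne hxy
  · rcases hs x (bdC F e x) hx (fun y hy ⟨l, hl⟩ => hx' y (crit_of_vert hy hl)) rfl with h1 | h1
    · exact bd12_sphere h1
    · exact bd12_torus h1

end Pool.Schoen
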