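import Pool.Agent.H.MP_6c077c_gt.N2.SweepS

/-! A general sweep: properties which pass from a slice to the part of the body above it. -/

set_option autoImplicit false

namespace Pool.Schoen

open Filter Set Metric
open scoped Topology RealInnerProductSpace ContDiff

variable {V : Type*} [NormedAddCommGroup V] [InnerProductSpace ℝ V] [FiniteDimensional ℝ V]

/-- PROOF. `sweep_step`; the supremum of the `t ∈ [c, T]` with `Q (layS F e c t)` is `T` and is attained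
(see `ext_above` in helper58/Ext.lean). -/
theorem sweep {F : V → ℝ} {e : V} (he : ‖e‖ = 1) (h : Mo F e) {c T : ℝ} (hcT : c ≤ T)
    (hc : ∀ x, Inward F e x → ⟪e, x⟫ ≠ c) (hT : ∀ x, Inward F e x → ⟪e, x⟫ ≠ T)
    {R : Set V → Prop}
    (hR : ∀ p, Inward F e p → c < ⟪e, p⟫ → ⟪e, p⟫ < T → ∀ ε : ℝ, 0 < ε →
      ∃ U L : Set V, IsOpen U ∧ p ∈ U ∧ U ⊆ L ∧ IsClosed L ∧ L ⊆ ball p ε ∧
        ∃ η₀ : ℝ, 0 < η₀ ∧ ∀ η : ℝ, 0 ≤ η → η < η₀ →
          R {x | x ∈ L ∧ x ∉ U ∧ F x ≤ 0 ∧ ⟪x, e⟫ ≤ ⟪p, e⟫ - η})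
    {Q : Set V → Prop} {ε : V → ℝ} (hε : ∀ p, 0 < ε p)
    (hmono : ∀ B B', Q B → layS F e c c ⊆ B' → B' ⊆ B → Q B')
    (hbox : ∀ p, Inward F e p → c < ⟪e, p⟫ → ⟪e, p⟫ < T → ∀ L, IsClosed L → L ⊆ ball p (ε p) →
      ∀ Z, IsClosed Z → layS F e c c ⊆ Z → R (Z ∩ L) → Q Z → Q (Z ∪ L))
    (hhom : ∀ t, c ≤ t → t ≤ T → ∀ B, Q B → ∀ H : ℝ → V → V,
      Continuous (fun q : ℝ × V => H q.1 q.2) → (∀ x, H 0 x = x) →
      (∀ x ∈ layS F e c t, H 1 x ∈ B) →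
      (∀ σ ∈ Icc (0 : ℝ) 1, ∀ x ∈ layS F e c t, H σ x ∈ layS F e c t ∨
        ∃ p, Inward F e p ∧ c < ⟪e, p⟫ ∧ ⟪e, p⟫ < T ∧ dist (H σ x) p < ε p) →
      (∀ σ ∈ Icc (0 : ℝ) 1, ∀ x ∈ layS F e c c, H σ x = x) → Q (layS F e c t))
    (h0 : Q (layS F e c c)) : Q (layS F e c T) := by
  set S : Set ℝ := {t | c ≤ t ∧ t ≤ T ∧ Q (layS F e c t)} with hS
  have hcS : c ∈ S := ⟨le_refl c, hcT, h0⟩
  have hbd : BddAbove S := ⟨T, fun t ht => ht.2.1⟩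
  have hne : S.Nonempty := ⟨c, hcS⟩
  have hct0 : c ≤ sSup S := le_csSup hbd hcS
  have ht0T : sSup S ≤ T := csSup_le hne fun t ht => ht.2.1
  obtain ⟨δ, hδ, hstep⟩ := sweep_step he h hcT hc hT hR hε hmono hbox hhom hct0 ht0T
  obtain ⟨s, hsS, hs⟩ := exists_lt_of_lt_csSup hne (show sSup S - δ < sSup S by linarith)
  have hst0 : s ≤ sSup S := le_csSup hbd hsS
  have hQ : Q (layS F e c (min (sSup S + δ / 2) T)) :=
    hstep s (min (sSup S + δ / 2) T) hsS.1 hs hst0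
      (le_min (by linarith) (le_trans hst0 ht0T))
      (lt_of_le_of_lt (min_le_left _ _) (by linarith)) (min_le_right _ _) hsS.2.2
  have hmem : min (sSup S + δ / 2) T ∈ S :=
    ⟨le_min (by linarith) hcT, min_le_right _ _, hQ⟩
  have hle : min (sSup S + δ / 2) T ≤ sSup S := le_csSup hbd hmem
  rcases le_total (sSup S + δ / 2) T with hcase | hcase
  · rw [min_eq_left hcase] at hle
    linarith
  · rw [min_eq_right hcase] at hQ
    exact hQ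

end Pool.Schoen
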