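import Pool.Agent.H.MP_6c077c_gt.N2.Push2

/-! A general sweep: one step. -/

set_option autoImplicit false

namespace Pool.Schoen

open Filter Set Metric
open scoped Topology RealInnerProductSpace ContDiff

variable {V : Type*} [NormedAddCommGroup V] [InnerProductSpace ℝ V] [FiniteDimensional ℝ V]

/-- Adding finitely many disjoint boxes. -/
private theorem sweepS_boxes {A₀ A : Set V} (hA : IsClosed A) (hA₀ : A₀ ⊆ A) (L : V → Set V)
    (P : Finset V) (hL : ∀ p ∈ P, IsClosed (L p))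
    (hd : ∀ p ∈ P, ∀ q ∈ P, p ≠ q → Disjoint (L p) (L q)) {Q : Set V → Prop} (hQ : Q A)
    (hbox : ∀ p ∈ P, ∀ Z, IsClosed Z → A₀ ⊆ Z → Z ∩ L p = A ∩ L p → Q Z → Q (Z ∪ L p)) :
    Q (A ∪ ⋃ p ∈ P, L p) := by
  classical
  revert hL hd hbox
  refine Finset.induction_on P ?_ ?_
  · intro _ _ _
    simpa using hQ
  · intro a s ha ih hL hd hbox
    have ih' := ih (fun p hp => hL p (Finset.mem_insert_of_mem hp))
      (fun p hp q hq => hd p (Finset.mem_insert_of_mem hp) q (Finset.mem_insert_of_mem hq))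
      (fun p hp => hbox p (Finset.mem_insert_of_mem hp))
    have hcl : IsClosed (⋃ p ∈ s, L p) :=
      s.finite_toSet.isClosed_biUnion fun p hp => hL p (Finset.mem_insert_of_mem hp)
    have h1 : (A ∪ ⋃ p ∈ s, L p) ∩ L a = A ∩ L a := by
      ext x
      constructor
      · rintro ⟨hx | hx, hxa⟩
        · exact ⟨hx, hxa⟩
        · exfalso
          obtain ⟨p, hp, hxp⟩ := mem_iUnion₂.1 hx
          have hne : p ≠ a := by
            rintro rfl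
            exact ha hp
          exact (Set.disjoint_left.1 (hd p (Finset.mem_insert_of_mem hp) a
            (Finset.mem_insert_self a s) hne)) hxp hxa
      · rintro ⟨hx, hxa⟩
        exact ⟨Or.inl hx, hxa⟩
    have h2 := hbox a (Finset.mem_insert_self a s) _ (hA.union hcl)
      (hA₀.trans subset_union_left) h1 ih'
    have h3 : A ∪ ⋃ p ∈ insert a s, L p = (A ∪ ⋃ p ∈ s, L p) ∪ L a := by
      rw [Finset.set_biUnion_insert, union_comm (L a), union_assoc]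
    rw [h3]
    exact h2

/-- PROOF. As `ext_step` (helper58/Ext.lean), with `push2` instead of `ext_push`. The inward points at
height `t0` are finitely many (`inward_finite`), none if `t0 = c` or `t0 = T`; take boxes `U p ⊆ L p`
from `hR`, of radius smaller than `ε p`, than `t0 - c`, `T - t0` and half the distances of the points,
and `Z = layS F e c s ∩ ⋂ (U p)ᶜ`; then `Q (layS F e c s) → Q Z` (`hmono`) `→ Q (Z ∪ ⋃ L p)` (`hbox`, one
box after the other; the rings are `Z ∩ L p`) `→ Q (layS F e c t)` (`hhom` with the homotopy of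
`push2`). -/
theorem sweep_step {F : V → ℝ} {e : V} (he : ‖e‖ = 1) (h : Mo F e) {c T : ℝ} (hcT : c ≤ T)
    (hc : ∀ x, Inward F e x → ⟪e, x⟫ ≠ c) (hT : ∀ x, Inward F e x → ⟪e, x⟫ ≠ T)
    {R : Set V → Prop}
    (hR : ∀ p, Inward F e p → c < ⟪e, p⟫ → ⟪e, p⟫ < T → ∀ ε : ℝ, 0 < ε →
      ∃ U L : Set V, IsOpen U ∧ p ∈ U ∧ U ⊆ L ∧ IsClosed L ∧ L ⊆ ball p ε ∧
        ∃ η₀ : ℝ, 0 < η₀ ∧ ∀ η : ℝ, 0 ≤ η → η < η₀ →
          R {x | x ∈ L ∧ x ∉ U ∧ F x ≤ 0 ∧ ⟪x, e⟫ ≤ ⟪p, e⟫ - η})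
    {Q : Set V → Prop} {ε : V → ℝ} (hε : ∀ p, 0 < ε p)
    (hmono : ∀ B B', Q B → layS F e c c ⊆ B' → B' ⊆ B → Q B')
    (hbox : ∀ p, Inward F e p → c < ⟪e, p⟫ → ⟪e, p⟫ < T → ∀ L, IsClosed L → L ⊆ ball p (ε p) →
      ∀ Z, IsClosed Z → layS F e c c ⊆ Z → R (Z ∩ L) → Q Z → Q (Z ∪ L))
    (hhom : ∀ t, c ≤ t → t ≤ T → ∀ B, Q B → ∀ H : ℝ → V → V,
      Continuous (fun q : ℝ × V => H q.1 q.2) → (∀ x, H 0 x = x) →
      (∀ x ∈ layS F e c t, H 1 x ∈ B) →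
      (∀ σ ∈ Icc (0 : ℝ) 1, ∀ x ∈ layS F e c t, H σ x ∈ layS F e c t ∨
        ∃ p, Inward F e p ∧ c < ⟪e, p⟫ ∧ ⟪e, p⟫ < T ∧ dist (H σ x) p < ε p) →
      (∀ σ ∈ Icc (0 : ℝ) 1, ∀ x ∈ layS F e c c, H σ x = x) → Q (layS F e c t)) {t0 : ℝ} (hct0 : c ≤ t0)
    (ht0T : t0 ≤ T) : ∃ δ : ℝ, 0 < δ ∧ ∀ s t : ℝ, c ≤ s → t0 - δ < s → s ≤ t0 → s ≤ t →
      t < t0 + δ → t ≤ T → Q (layS F e c s) → Q (layS F e c t) := by
  classical
  have hF := h.smooth
  have hfin : {x | Inward F e x}.Finite := inward_finite hF h.bdd h.reg he fun x hx =>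
    h.nd x ((crit_iff he h.reg x).2 (Or.inl hx))
  have hz : Continuous fun x : V => ⟪e, x⟫ := continuous_const.inner continuous_id
  obtain ⟨P, hPd⟩ : ∃ P : Finset V, P = hfin.toFinset.filter fun x => ⟪e, x⟫ = t0 := ⟨_, rfl⟩
  have hPm : ∀ x, x ∈ P ↔ Inward F e x ∧ ⟪e, x⟫ = t0 := by
    intro x
    rw [hPd, Finset.mem_filter, Set.Finite.mem_toFinset]
    rfl
  have hPc : ∀ p ∈ P, c < t0 := fun p hp => by
    obtain ⟨h1, h2⟩ := (hPm p).1 hp
    exact lt_of_le_of_ne hct0 fun h3 => hc p h1 (h2.trans h3.symm)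
  have hPT : ∀ p ∈ P, t0 < T := fun p hp => by
    obtain ⟨h1, h2⟩ := (hPm p).1 hp
    exact lt_of_le_of_ne ht0T fun h3 => hT p h1 (h2.trans h3)
  -- a small radius
  obtain ⟨ε0, hε0, hε0p, hεc, hεd⟩ : ∃ ε0 : ℝ, 0 < ε0 ∧ (∀ p ∈ P, ε0 ≤ ε p) ∧
      (∀ p ∈ P, ε0 ≤ t0 - c) ∧ ∀ p ∈ P, ∀ q ∈ P, p ≠ q → 2 * ε0 ≤ dist p q := by
    have h1 : ∀ p ∈ P, 0 < t0 - c := fun p hp => by
      have := hPc p hp
      linarith
    have h2 : ∃ ε : ℝ, 0 < ε ∧ ∀ z ∈ (P ×ˢ P).filter (fun z => z.1 ≠ z.2), ε ≤ dist z.1 z.2 / 2 := by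
      rcases ((P ×ˢ P).filter (fun z => z.1 ≠ z.2)).eq_empty_or_nonempty with h3 | h3
      · exact ⟨1, one_pos, fun z hz1 => by rw [h3] at hz1; exact absurd hz1 (Finset.notMem_empty z)⟩
      · refine ⟨((P ×ˢ P).filter (fun z => z.1 ≠ z.2)).inf' h3 fun z => dist z.1 z.2 / 2, ?_, ?_⟩
        · rw [Finset.lt_inf'_iff]
          intro z hz1
          have := dist_pos.2 (Finset.mem_filter.1 hz1).2
          linarith
        · intro z hz1
          exact Finset.inf'_le _ hz1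
    obtain ⟨ε1, hε1, hε1'⟩ := h2
    rcases P.eq_empty_or_nonempty with h3 | h3
    · refine ⟨ε1, hε1, fun p hp => ?_, fun p hp => ?_, fun p hp => ?_⟩ <;>
      · rw [h3] at hp
        exact absurd hp (Finset.notMem_empty p)
    · obtain ⟨p0, hp0⟩ := h3
      have h6 : 0 < P.inf' ⟨p0, hp0⟩ ε := (Finset.lt_inf'_iff _).2 fun p _ => hε p
      refine ⟨min (P.inf' ⟨p0, hp0⟩ ε) (min ε1 (t0 - c)), lt_min h6 (lt_min hε1 (h1 p0 hp0)),
        fun p hp => (min_le_left _ _).trans (Finset.inf'_le _ hp),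
        fun p _ => (min_le_right _ _).trans (min_le_right _ _), fun p hp q hq hpq => ?_⟩
      have h4 := hε1' (p, q) (Finset.mem_filter.2 ⟨Finset.mk_mem_product hp hq, hpq⟩)
      have h5 := (min_le_right (P.inf' ⟨p0, hp0⟩ ε) (min ε1 (t0 - c))).trans
        (min_le_left ε1 (t0 - c))
      simp only at h4
      linarith
  have hbx : ∀ p ∈ P, ∃ U L : Set V, IsOpen U ∧ p ∈ U ∧ U ⊆ L ∧ IsClosed L ∧ L ⊆ ball p ε0 ∧
      ∃ η₀ : ℝ, 0 < η₀ ∧ ∀ η : ℝ, 0 ≤ η → η < η₀ →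
        R {x | x ∈ L ∧ x ∉ U ∧ F x ≤ 0 ∧ ⟪x, e⟫ ≤ ⟪p, e⟫ - η} := by
    intro p hp
    obtain ⟨h1, h2⟩ := (hPm p).1 hp
    exact hR p h1 (by rw [h2]; exact hPc p hp) (by rw [h2]; exact hPT p hp) ε0 hε0
  choose! U L hUo hpU hUL hLc hLb η₀ hη₀ hlift using hbx
  -- common constants
  obtain ⟨η, hη, hη'⟩ : ∃ η : ℝ, 0 < η ∧ ∀ p ∈ P, η ≤ η₀ p := by
    rcases P.eq_empty_or_nonempty with h3 | h3
    · exact ⟨1, one_pos, fun p hp => by rw [h3] at hp; exact absurd hp (Finset.notMem_empty p)⟩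
    · exact ⟨P.inf' h3 η₀, (Finset.lt_inf'_iff _).2 fun p hp => hη₀ p hp,
        fun p hp => Finset.inf'_le _ hp⟩
  obtain ⟨r, hr, hr'⟩ : ∃ r : ℝ, 0 < r ∧ ∀ p ∈ P, ball p r ⊆ U p := by
    have h1 : ∀ p ∈ P, ∃ r : ℝ, 0 < r ∧ ball p r ⊆ U p := fun p hp =>
      Metric.isOpen_iff.1 (hUo p hp) p (hpU p hp)
    choose! rr hrr hrr' using h1
    rcases P.eq_empty_or_nonempty with h3 | h3
    · exact ⟨1, one_pos, fun p hp => by rw [h3] at hp; exact absurd hp (Finset.notMem_empty p)⟩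
    · exact ⟨P.inf' h3 rr, (Finset.lt_inf'_iff _).2 fun p hp => hrr p hp,
        fun p hp => (ball_subset_ball (Finset.inf'_le _ hp)).trans (hrr' p hp)⟩
  obtain ⟨δ0, hδ0, hδ0'⟩ : ∃ δ0 : ℝ, 0 < δ0 ∧ ∀ x, Inward F e x → |⟪e, x⟫ - t0| ≤ δ0 → x ∈ P := by
    have h1 : ∃ ε : ℝ, 0 < ε ∧ ∀ z ∈ hfin.toFinset.filter (fun x => ⟪e, x⟫ ≠ t0),
        ε ≤ |⟪e, z⟫ - t0| / 2 := by
      rcases (hfin.toFinset.filter (fun x => ⟪e, x⟫ ≠ t0)).eq_empty_or_nonempty with h3 | h3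
      · exact ⟨1, one_pos, fun z hz1 => by rw [h3] at hz1; exact absurd hz1 (Finset.notMem_empty z)⟩
      · refine ⟨(hfin.toFinset.filter (fun x => ⟪e, x⟫ ≠ t0)).inf' h3
          fun z => |⟪e, z⟫ - t0| / 2, ?_, ?_⟩
        · rw [Finset.lt_inf'_iff]
          intro z hz1
          have := abs_pos.2 (sub_ne_zero.2 (Finset.mem_filter.1 hz1).2)
          linarith
        · intro z hz1
          exact Finset.inf'_le _ hz1
    obtain ⟨ε1, hε1, h2⟩ := h1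
    refine ⟨ε1, hε1, fun x hx hxt => ?_⟩
    rw [hPm]
    refine ⟨hx, ?_⟩
    by_contra h3
    have h4 := h2 x (Finset.mem_filter.2 ⟨(Set.Finite.mem_toFinset _).2 hx, h3⟩)
    have h5 := abs_pos.2 (sub_ne_zero.2 h3)
    linarith
  obtain ⟨δ1, hδ1, hpush⟩ := push2 hF h.bdd h.reg he (t0 := t0) hδ0 hr P fun x hx hxt =>
    ⟨x, hδ0' x hx hxt, by rw [dist_self]; linarith⟩
  refine ⟨min δ1 η, lt_min hδ1 hη, fun s t hcs hs hst0 hst ht htT hE => ?_⟩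
  have m1 := min_le_left δ1 η
  have m2 := min_le_right δ1 η
  obtain ⟨H, hHc, hH0, hH1, hH2, hH3, hH4⟩ := hpush s t (by linarith) hst (by linarith)
  have hLz : ∀ p ∈ P, ∀ x ∈ L p, c < ⟪e, x⟫ := by
    intro p hp x hx
    have h1 := hLb p hp hx
    rw [mem_ball, dist_eq_norm] at h1
    have h2 : |⟪e, x - p⟫| ≤ ‖x - p‖ := by
      have := abs_real_inner_le_norm e (x - p)
      rwa [he, one_mul] at this
    rw [inner_sub_right, ((hPm p).1 hp).2] at h2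
    have h3 := hεc p hp
    have h4 := (abs_le.1 h2).1
    linarith
  have hLd : ∀ p ∈ P, ∀ q ∈ P, p ≠ q → Disjoint (L p) (L q) := by
    intro p hp q hq hpq
    rw [Set.disjoint_left]
    intro x hx hx'
    have h1 := hLb p hp hx
    have h2 := hLb q hq hx'
    rw [mem_ball] at h1 h2
    have h3 := hεd p hp q hq hpq
    have h4 := dist_triangle_left p q x
    linarith
  obtain ⟨Z, hZ⟩ : ∃ Z : Set V, Z = layS F e c s ∩ (⋂ p ∈ P, (U p)ᶜ) := ⟨_, rfl⟩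
  have hZc : IsClosed Z := by
    rw [hZ]
    refine (layS_closed hF.continuous e c s).inter (isClosed_biInter fun p hp => ?_)
    exact (hUo p hp).isClosed_compl
  have hZs : Z ⊆ layS F e c s := by
    rw [hZ]
    exact inter_subset_left
  have hAZ : layS F e c c ⊆ Z := by
    intro x hx
    rw [hZ]
    refine ⟨layS_mono hcs hx, mem_iInter₂.2 fun p hp hxU => ?_⟩
    have := hLz p hp x (hUL p hp hxU)
    linarith [hx.2.2]
  have hZl : ∀ p ∈ P, R (Z ∩ L p) := by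
    intro p hp
    have h1 := hlift p hp (t0 - s) (by linarith) (by linarith [hη' p hp])
    have h2 : Z ∩ L p = {x | x ∈ L p ∧ x ∉ U p ∧ F x ≤ 0 ∧ ⟪x, e⟫ ≤ ⟪p, e⟫ - (t0 - s)} := by
      have hpe : ⟪p, e⟫ = t0 := by rw [real_inner_comm]; exact ((hPm p).1 hp).2
      ext x
      rw [hZ]
      constructor
      · rintro ⟨⟨hx, hxU⟩, hxL⟩
        refine ⟨hxL, (mem_iInter₂.1 hxU) p hp, hx.1, ?_⟩
        rw [hpe, real_inner_comm]
        linarith [hx.2.2]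
      · rintro ⟨hxL, hxU, hxF, hxz⟩
        rw [hpe, real_inner_comm] at hxz
        refine ⟨⟨⟨hxF, (hLz p hp x hxL).le, by linarith⟩, mem_iInter₂.2 fun q hq hxq => ?_⟩, hxL⟩
        by_cases hpq : p = q
        · rw [← hpq] at hxq
          exact hxU hxq
        · exact Set.disjoint_left.1 (hLd p hp q hq hpq) hxL (hUL q hq hxq)
    rw [h2]
    exact h1
  have hE1 : Q (Z ∪ ⋃ p ∈ P, L p) := by
    refine sweepS_boxes hZc hAZ L P hLc hLd (hmono _ _ hE hAZ hZs) fun p hp Z' hZ'c hAZ' hZ'L hQ' => ?_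
    obtain ⟨h1, h2⟩ := (hPm p).1 hp
    refine hbox p h1 (by rw [h2]; exact hPc p hp) (by rw [h2]; exact hPT p hp) (L p) (hLc p hp)
      ((hLb p hp).trans (ball_subset_ball (hε0p p hp))) Z' hZ'c hAZ' ?_ hQ'
    rw [hZ'L]
    exact hZl p hp
  have hnear : ∀ p ∈ P, ∀ y, dist y p < r → dist y p < ε p := by
    intro p hp y hy
    have h1 := hLb p hp (hUL p hp (hr' p hp (mem_ball.2 hy)))
    exact (mem_ball.1 h1).trans_le (hε0p p hp)
  refine hhom t (hcs.trans hst) htT _ hE1 H hHc hH0 ?_ ?_ ?_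
  · intro x hx
    rcases hH1 x hx.1 hx.2.2 with h1 | ⟨p, hp, h1⟩
    · have h2 : H 1 x ∈ layS F e c s := by
        refine ⟨h1.1, ?_, h1.2⟩
        exact (le_min hx.2.1 hcs).trans (hH3 1 ⟨zero_le_one, le_rfl⟩ x).1
      by_cases h3 : ∀ p ∈ P, H 1 x ∉ U p
      · left
        rw [hZ]
        exact ⟨h2, mem_iInter₂.2 h3⟩
      · push Not at h3
        obtain ⟨p, hp, h4⟩ := h3
        right
        exact mem_iUnion₂.2 ⟨p, hp, hUL p hp h4⟩
    · right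
      exact mem_iUnion₂.2 ⟨p, hp, hUL p hp (hr' p hp (mem_ball.2 h1))⟩
  · intro σ hσ x hx
    rcases hH4 σ hσ x hx.1 hx.2.2 with h1 | ⟨p, hp, h1⟩
    · left
      obtain ⟨h2, h3⟩ := hH3 σ hσ x
      exact ⟨h1, (le_min hx.2.1 hcs).trans h2, h3.trans hx.2.2⟩
    · right
      obtain ⟨h2, h3⟩ := (hPm p).1 hp
      exact ⟨p, h2, by rw [h3]; exact hPc p hp, by rw [h3]; exact hPT p hp, hnear p hp _ h1⟩
  · intro σ hσ x hx
    exact hH2 σ hσ x (hx.2.2.trans hcs)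

end Pool.Schoen
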