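import Pool.Agent.H.MP_6c077c_gt.N2.Sweep
import Pool.Agent.H.MP_6c077c_gt.N2.Box2

/-! Slabs: extension of lifts. -/

set_option autoImplicit false

namespace Pool.Schoen

open Filter Set Metric
open scoped Topology RealInnerProductSpace ContDiff

variable {V : Type*} [NormedAddCommGroup V] [InnerProductSpace ℝ V] [FiniteDimensional ℝ V]
variable {F : V → ℝ} {e : V} {c t : ℝ}

private theorem ThreeB_const {A : Set V} {w : ℂ} (hw : ‖w‖ = 1) : Lifts A fun _ => w := by
  refine ⟨fun _ => Complex.arg w, continuousOn_const, fun x _ => ?_⟩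
  have h := Complex.norm_mul_exp_arg_mul_I w
  rw [hw, Complex.ofReal_one, one_mul] at h
  exact h.symm

/-- the normalized function -/
private noncomputable def ThreeB_nm (G : V → ℂ) (x : V) : ℂ := G x / (‖G x‖ : ℂ)

private theorem ThreeB_norm' {G : V → ℂ} {x : V} (h : G x ≠ 0) : ‖ThreeB_nm G x‖ = 1 := by
  unfold ThreeB_nm
  rw [norm_div, Complex.norm_real, norm_norm]
  exact div_self (norm_ne_zero_iff.2 h)

private theorem ThreeB_eq {G : V → ℂ} {x : V} (h : ‖G x‖ = 1) : ThreeB_nm G x = G x := by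
  unfold ThreeB_nm
  rw [h, Complex.ofReal_one, div_one]

private theorem ThreeB_contAt {G : V → ℂ} (hG : Continuous G) {x : V} (h : G x ≠ 0) :
    ContinuousAt (ThreeB_nm G) x := by
  unfold ThreeB_nm
  refine hG.continuousAt.div ?_ ?_
  · exact (Complex.continuous_ofReal.comp hG.norm).continuousAt
  · exact Complex.ofReal_ne_zero.2 (norm_ne_zero_iff.2 h)

private theorem ThreeB_near {G : V → ℂ} {x p : V} (hp : ‖G p‖ = 1) (hx : ‖G x - G p‖ < 1 / 2) :
    G x ≠ 0 ∧ ‖ThreeB_nm G x - ThreeB_nm G p‖ < 2 := by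
  have h1 : 1 / 2 < ‖G x‖ := by
    have h2 := norm_sub_norm_le (G p) (G p - G x)
    rw [sub_sub_cancel, norm_sub_rev] at h2
    linarith
  have h0 : G x ≠ 0 := by
    intro h2
    rw [h2, norm_zero] at h1
    linarith
  refine ⟨h0, ?_⟩
  have h2 : ‖G x‖ < 3 / 2 := by
    have h3 := norm_add_le (G p) (G x - G p)
    rw [add_sub_cancel] at h3
    linarith
  have h3 : ‖ThreeB_nm G x - G x‖ < 1 / 2 := by
    have h4 : ThreeB_nm G x - G x = ThreeB_nm G x * ((1 - ‖G x‖ : ℝ) : ℂ) := by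
      unfold ThreeB_nm
      have h5 : (‖G x‖ : ℂ) ≠ 0 := Complex.ofReal_ne_zero.2 (norm_ne_zero_iff.2 h0)
      push_cast
      field_simp
    rw [h4, norm_mul, ThreeB_norm' h0, one_mul, Complex.norm_real, Real.norm_eq_abs, abs_lt]
    constructor <;> linarith
  rw [ThreeB_eq hp]
  have h4 := norm_add_le (ThreeB_nm G x - G x) (G x - G p)
  rw [sub_add_sub_cancel] at h4
  linarith

/-- No index one: lifts extend. PROOF. Extend `u` to a continuous `G : V → ℂ` (Tietze, `layS` is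
closed) and let `g = G / ‖G‖`; `ε p` with `‖G x - G p‖ < 1 / 2` on `ball p (ε p)` (`‖G p‖ = 1` for the
inward points between `c` and `t`); `sweep` with `R = IsPreconnected`, `Q B = Lifts B g ∧ ∀ x ∈ B, G x ≠
0`: over a box `g` lifts (`g / g p` is near one), and the lifts are glued along the preconnected ring
(`lifts_union`; it needs `g` continuous on `Z ∪ L`); `hhom`: `σ ↦ g (H (1 - σ) x)` and
`lifts_homotopy_set`. -/
theorem slab_inj (he : ‖e‖ = 1) (h : Mo F e) (hct : c ≤ t) (hc : ∀ x, Crit F e x → ⟪e, x⟫ ≠ c)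
    (ht : ∀ x, Crit F e x → ⟪e, x⟫ ≠ t) (h1 : NoI F e 1 c t) {u : V → ℂ}
    (hu : ContinuousOn u (layS F e c t)) (hu1 : ∀ x ∈ layS F e c t, ‖u x‖ = 1)
    (hl : Lifts (layS F e c c) u) : Lifts (layS F e c t) u := by
  have hcr : ∀ x, Inward F e x → Crit F e x := fun x hx =>
    (crit_iff he h.reg x).2 (Or.inl hx)
  have hcl : IsClosed (layS F e c t) := layS_closed h.smooth.continuous e c t
  haveI : TietzeExtension.{_} ℂ := TietzeExtension.of_tvs ℝ
  obtain ⟨G', hG'⟩ := ContinuousMap.exists_restrict_eq hcl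
    (⟨(layS F e c t).restrict u, hu.restrict⟩ : C(layS F e c t, ℂ))
  obtain ⟨G, hG⟩ : ∃ G : V → ℂ, ∀ x, G x = G' x := ⟨_, fun _ => rfl⟩
  have hGc : Continuous G := by
    have h2 : G = G' := funext hG
    rw [h2]
    exact G'.continuous
  have hGu : ∀ x ∈ layS F e c t, G x = u x := by
    intro x hx
    have h2 := congrArg (fun k : C(layS F e c t, ℂ) => k ⟨x, hx⟩) hG'
    rw [hG]
    exact h2
  have hG1 : ∀ x ∈ layS F e c t, ‖G x‖ = 1 := fun x hx => by rw [hGu x hx, hu1 x hx]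
  have hG0 : ∀ x ∈ layS F e c t, G x ≠ 0 := by
    intro x hx h2
    have h3 := hG1 x hx
    rw [h2, norm_zero] at h3
    exact zero_ne_one h3
  have hex : ∀ p : V, ∃ ε : ℝ, 0 < ε ∧ ∀ x, dist x p < ε → ‖G x - G p‖ < 1 / 2 := by
    intro p
    obtain ⟨ε, hε, h2⟩ := Metric.continuousAt_iff.1 (hGc.continuousAt (x := p)) (1 / 2)
      (by norm_num)
    refine ⟨ε, hε, fun x hx => ?_⟩
    have h3 := h2 hx
    rwa [dist_eq_norm] at h3
  choose ε hε hεG using hex
  have hpin : ∀ p, Inward F e p → c < ⟪e, p⟫ → ⟪e, p⟫ < t → ‖G p‖ = 1 := by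
    intro p hp h2 h3
    exact hG1 p ⟨hp.1.le, h2.le, h3.le⟩
  have hgcont : ∀ B : Set V, (∀ x ∈ B, G x ≠ 0) → ContinuousOn (ThreeB_nm G) B :=
    fun B hB x hx => (ThreeB_contAt hGc (hB x hx)).continuousWithinAt
  have key := sweep he h hct (fun x hx => hc x (hcr x hx)) (fun x hx => ht x (hcr x hx))
    (R := fun A => IsPreconnected A) ?_
    (Q := fun B => Lifts B (ThreeB_nm G) ∧ ∀ x ∈ B, G x ≠ 0) (ε := ε) hε ?_ ?_ ?_ ?_
  · exact key.1.congr fun x hx => by rw [ThreeB_eq (hG1 x hx), hGu x hx]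
  · intro p hp h2 h3 δ hδ
    obtain ⟨k, hk⟩ := h.nd p (hcr p hp)
    have hk1 : k ≠ 1 := by
      intro h4
      rw [h4] at hk
      exact h1 p hp h2 h3 hk
    obtain ⟨U, L, hU, hpU, hUL, hL, hLb, η₀, hη₀, hR⟩ :=
      box2 F h.smooth e he p hp k hk δ hδ
    exact ⟨U, L, hU, hpU, hUL, hL, hLb, η₀, hη₀, fun η h4 h5 => (hR η h4 h5).2 hk1⟩
  · rintro B B' ⟨h2, h3⟩ _ h4
    exact ⟨h2.mono h4, fun x hx => h3 x (h4 hx)⟩
  · rintro p hp h2 h3 L hL hLb Z hZ _ hR ⟨h4, h5⟩
    have hp1 := hpin p hp h2 h3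
    have hnear : ∀ x ∈ L, G x ≠ 0 ∧ ‖ThreeB_nm G x - ThreeB_nm G p‖ < 2 := fun x hx =>
      ThreeB_near hp1 (hεG p x (mem_ball.1 (hLb hx)))
    have hpne : G p ≠ 0 := by
      intro h6
      rw [h6, norm_zero] at hp1
      exact zero_ne_one hp1
    have hne : ∀ x ∈ Z ∪ L, G x ≠ 0 := by
      rintro x (hx | hx)
      · exact h5 x hx
      · exact (hnear x hx).1
    have hLl : Lifts L (ThreeB_nm G) := by
      refine (ThreeB_const (A := L) (ThreeB_norm' hpne)).of_close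
        (hgcont L fun x hx => (hnear x hx).1) continuousOn_const
        (fun x hx => ThreeB_norm' (hnear x hx).1) fun x hx => (hnear x hx).2
    exact ⟨lifts_union hZ hL (hgcont _ hne) h4 hLl hR, hne⟩
  · rintro s hcs hst B ⟨h2, h3⟩ H hH hH0 hH1 hHσ _
    have hsub : layS F e c s ⊆ layS F e c t := layS_mono hst
    have hne : ∀ σ ∈ Icc (0 : ℝ) 1, ∀ x ∈ layS F e c s, G (H σ x) ≠ 0 := by
      intro σ hσ x hx
      rcases hHσ σ hσ x hx with h4 | ⟨p, hp, h4, h5, h6⟩
      · exact hG0 _ (hsub h4)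
      · exact (ThreeB_near (hpin p hp h4 h5) (hεG p _ h6)).1
    refine ⟨?_, fun x hx => hG0 x (hsub hx)⟩
    have h4 := lifts_homotopy_set (A := layS F e c s)
      (fun (σ : ℝ) (x : V) => ThreeB_nm G (H (1 - σ) x)) ?_ ?_ ?_
    · refine h4.congr fun x _ => ?_
      show ThreeB_nm G (H (1 - 1) x) = ThreeB_nm G x
      rw [sub_self, hH0]
    · intro q hq
      have h5 : (1 : ℝ) - q.1 ∈ Icc (0 : ℝ) 1 := ⟨by linarith [hq.1.2], by linarith [hq.1.1]⟩
      have h6 := ThreeB_contAt hGc (hne _ h5 q.2 hq.2)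
      have h7 : Continuous fun q : ℝ × V => H (1 - q.1) q.2 :=
        hH.comp ((continuous_const.sub continuous_fst).prodMk continuous_snd)
      exact (ContinuousAt.comp (g := ThreeB_nm G) (f := fun q : ℝ × V => H (1 - q.1) q.2) h6
        h7.continuousAt).continuousWithinAt
    · intro σ hσ x hx
      exact ThreeB_norm' (hne _ ⟨by linarith [hσ.2], by linarith [hσ.1]⟩ x hx)
    · obtain ⟨v, hv, hv1⟩ := h2
      have h5 : Continuous (H 1) := hH.comp (continuous_const.prodMk continuous_id)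
      refine ⟨fun x => v (H 1 x), hv.comp h5.continuousOn hH1, fun x hx => ?_⟩
      show ThreeB_nm G (H (1 - 0) x) = _
      rw [sub_zero]
      exact hv1 _ (hH1 x hx)
  · have hsub : layS F e c c ⊆ layS F e c t := layS_mono hct
    exact ⟨hl.congr fun x hx => by rw [ThreeB_eq (hG1 x (hsub hx)), hGu x (hsub hx)],
      fun x hx => hG0 x (hsub hx)⟩

end Pool.Schoen
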