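import Pool.Agent.H.MP_6c077c_gt.N2.ThreeA
import Pool.Agent.H.MP_6c077c_gt.N2.ThreeB

/-! The three facts on slabs, from below and from above. -/

set_option autoImplicit false

namespace Pool.Schoen

open Filter Set Metric
open scoped Topology RealInnerProductSpace ContDiff

variable {V : Type*} [NormedAddCommGroup V] [InnerProductSpace ℝ V] [FiniteDimensional ℝ V]
variable {F : V → ℝ} {e : V} {c t : ℝ}

theorem layS_neg_dir (F : V → ℝ) (e : V) (c t : ℝ) : layS F (-e) (-t) (-c) = layS F e c t := by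
  ext x
  show (F x ≤ 0 ∧ -t ≤ ⟪-e, x⟫ ∧ ⟪-e, x⟫ ≤ -c) ↔ (F x ≤ 0 ∧ c ≤ ⟪e, x⟫ ∧ ⟪e, x⟫ ≤ t)
  rw [inner_neg_left, neg_le_neg_iff, neg_le_neg_iff]
  exact and_congr_right fun _ => and_comm

/-- `Mo.flip` is the opposite direction; this is the opposite sign (`BaseN_idx_neg`, `crit_neg`). -/
theorem mo_neg (he : ‖e‖ = 1) (h : Mo F e) : Mo (fun x => -F x) e := by
  refine ⟨h.smooth.neg, ?_, ?_, ?_⟩
  · have h1 : {x | -F x = 0} = {x | F x = 0} := by
      ext x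
      exact neg_eq_zero (a := F x)
    rw [h1]
    exact h.bdd
  · intro x hx h1
    have h2 : fderiv ℝ (fun y => -F y) x = -fderiv ℝ F x := fderiv_fun_neg
    unfold gradient at h1
    rw [h2, map_neg, neg_eq_zero] at h1
    exact h.reg x (neg_eq_zero.1 hx) h1
  · intro x hx
    obtain ⟨k, hk⟩ := h.nd x (crit_neg.1 hx)
    obtain ⟨j, -, hj⟩ := BaseN_idx_neg h.smooth he hk
    exact ⟨j, hj⟩

private theorem Three_crit {a : ℝ} (h : ∀ x, Crit F e x → ⟪e, x⟫ ≠ a) :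
    ∀ x, Crit F (-e) x → ⟪-e, x⟫ ≠ -a := by
  intro x hx h1
  rw [inner_neg_left, neg_inj] at h1
  exact h x (crit_flip.1 hx) h1

/-- The three facts from above: they are the facts for `-e`. -/
theorem slab_extS_dn (he : ‖e‖ = 1) (h : Mo F e) (hct : c ≤ t) (hc : ∀ x, Crit F e x → ⟪e, x⟫ ≠ c)
    (ht : ∀ x, Crit F e x → ⟪e, x⟫ ≠ t) (h2 : NoI F (-e) 2 (-t) (-c)) :
    ExtS (layS F e t t) (layS F e c t) := by
  have h3 := slab_extS (by rw [norm_neg]; exact he) h.flip (neg_le_neg hct) (Three_crit ht)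
    (Three_crit hc) h2
  rwa [layS_neg_dir, layS_neg_dir] at h3

theorem slab_extB_dn (he : ‖e‖ = 1) (h : Mo F e) (hct : c ≤ t) (hc : ∀ x, Crit F e x → ⟪e, x⟫ ≠ c)
    (ht : ∀ x, Crit F e x → ⟪e, x⟫ ≠ t) (h1 : NoI F (-e) 1 (-t) (-c)) :
    ExtB (layS F e t t) (layS F e c t) := by
  have h3 := slab_extB (by rw [norm_neg]; exact he) h.flip (neg_le_neg hct) (Three_crit ht)
    (Three_crit hc) h1
  rwa [layS_neg_dir, layS_neg_dir] at h3

theorem slab_inj_dn (he : ‖e‖ = 1) (h : Mo F e) (hct : c ≤ t) (hc : ∀ x, Crit F e x → ⟪e, x⟫ ≠ c)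
    (ht : ∀ x, Crit F e x → ⟪e, x⟫ ≠ t) (h1 : NoI F (-e) 1 (-t) (-c)) {u : V → ℂ}
    (hu : ContinuousOn u (layS F e c t)) (hu1 : ∀ x ∈ layS F e c t, ‖u x‖ = 1)
    (hl : Lifts (layS F e t t) u) : Lifts (layS F e c t) u := by
  have h3 := slab_inj (F := F) (e := -e) (c := -t) (t := -c) (u := u)
    (by rw [norm_neg]; exact he) h.flip (neg_le_neg hct) (Three_crit ht) (Three_crit hc) h1
    (by rw [layS_neg_dir]; exact hu) (by rw [layS_neg_dir]; exact hu1)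
    (by rw [layS_neg_dir]; exact hl)
  rwa [layS_neg_dir] at h3

end Pool.Schoen
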