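import Pool.Agent.H.MP_6c077c_gt.N2.Sweep
import Pool.Agent.H.MP_6c077c_gt.N2.Box2

/-! Slabs: extension of maps to the circle and of locally constant maps. -/

set_option autoImplicit false

namespace Pool.Schoen

open Filter Set Metric
open scoped Topology RealInnerProductSpace ContDiff

variable {V : Type*} [NormedAddCommGroup V] [InnerProductSpace ℝ V] [FiniteDimensional ℝ V]
variable {F : V → ℝ} {e : V} {c t : ℝ}

section aux

variable {Y : Type*} [TopologicalSpace Y]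

private theorem ThreeA_mono {A B B' : Set Y} (h : ExtB A B) (hB : B' ⊆ B) : ExtB A B' := by
  intro u hu h1
  obtain ⟨U, hU, hU1, hUe⟩ := h u hu h1
  exact ⟨U, hU.mono hB, fun x hx => hU1 x (hB hx), hUe⟩

private theorem ThreeA_of_map {A B X : Set Y} (h : ExtB A B) {ρ : Y → Y} (hρ : ContinuousOn ρ X)
    (hm : ∀ x ∈ X, ρ x ∈ B) (hid : ∀ x ∈ A, ρ x = x) : ExtB A X := by
  intro u hu h1
  obtain ⟨U, hU, hU1, hUe⟩ := h u hu h1
  refine ⟨fun x => U (ρ x), hU.comp hρ hm, fun x hx => hU1 _ (hm x hx), fun x hx => ?_⟩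
  show U (ρ x) = u x
  rw [hid x hx, hUe x hx]

/-- a continuous function with the values `0`, `1` on a preconnected set is constant -/
private theorem ThreeA_const {S : Set Y} (hS : IsPreconnected S) {u : Y → ℝ}
    (hu : ContinuousOn u S) (h1 : ∀ x ∈ S, u x = 0 ∨ u x = 1) :
    ∃ k : ℝ, (k = 0 ∨ k = 1) ∧ ∀ x ∈ S, u x = k := by
  rcases S.eq_empty_or_nonempty with h | ⟨x0, hx0⟩
  · refine ⟨0, Or.inl rfl, fun x hx => ?_⟩
    rw [h] at hx
    exact absurd hx (notMem_empty x)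
  · have key : ∀ a ∈ S, ∀ b ∈ S, u a = 0 → u b = 1 → False := by
      intro a ha b hb ha0 hb1
      have h2 := hS.intermediate_value ha hb hu
      rw [ha0, hb1] at h2
      obtain ⟨x, hx, hx2⟩ := h2 (show (1 / 2 : ℝ) ∈ Icc (0 : ℝ) 1 by norm_num)
      rcases h1 x hx with h3 | h3 <;> rw [h3] at hx2 <;> norm_num at hx2
    refine ⟨u x0, h1 x0 hx0, fun x hx => ?_⟩
    rcases h1 x hx with h3 | h3 <;> rcases h1 x0 hx0 with h4 | h4
    · rw [h3, h4]
    · exact (key x hx x0 hx0 h3 h4).elim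
    · exact (key x0 hx0 x hx h4 h3).elim
    · rw [h3, h4]

private theorem ThreeA_union {A Z L : Set Y} (hA : ExtB A Z) (hAZ : A ⊆ Z) (hZ : IsClosed Z)
    (hL : IsClosed L) (h : IsPreconnected (Z ∩ L)) : ExtB A (Z ∪ L) := by
  intro u hu h1
  obtain ⟨U, hU, hU1, hUe⟩ := hA u hu h1
  obtain ⟨k, hk, hk'⟩ := ThreeA_const h (hU.mono inter_subset_left) fun x hx => hU1 x hx.1
  obtain ⟨w, hw, hwZ, hwL⟩ := glue_contOn hZ hL hU (continuousOn_const (c := k)) hk'
  refine ⟨w, hw, ?_, fun x hx => (hwZ x (hAZ hx)).trans (hUe x hx)⟩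
  rintro x (hx | hx)
  · rw [hwZ x hx]
    exact hU1 x hx
  · rw [hwL x hx]
    exact hk

end aux

/-- No index two: maps to the circle extend. PROOF. `sweep` with `R = LiftS` (`box2`), `Q B = ExtS
(layS F e c c) B`, `ε = 1`; `ExtS.mono`, `ExtS.trans` with `ExtS.union`, `ExtS.of_map`, `ExtS.refl`. -/
theorem slab_extS (he : ‖e‖ = 1) (h : Mo F e) (hct : c ≤ t) (hc : ∀ x, Crit F e x → ⟪e, x⟫ ≠ c)
    (ht : ∀ x, Crit F e x → ⟪e, x⟫ ≠ t) (h2 : NoI F e 2 c t) :
    ExtS (layS F e c c) (layS F e c t) := by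
  have hcr : ∀ x, Inward F e x → Crit F e x := fun x hx => (crit_iff he h.reg x).2 (Or.inl hx)
  refine sweep he h hct (fun x hx => hc x (hcr x hx)) (fun x hx => ht x (hcr x hx))
    (R := LiftS) (Q := ExtS (layS F e c c)) (ε := fun _ => 1) ?_ (fun _ => one_pos)
    (fun B B' hB _ hBB => hB.mono hBB) ?_ ?_ (ExtS.refl _)
  · intro p hp hpc hpt ε hε
    obtain ⟨k, hk⟩ := h.nd p (hcr p hp)
    have hk2 : k ≠ 2 := by
      rintro rfl
      exact h2 p hp hpc hpt hk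
    obtain ⟨U, L, hU, hpU, hUL, hL, hLb, η₀, hη₀, hη⟩ := box2 F h.smooth e he p hp k hk ε hε
    exact ⟨U, L, hU, hpU, hUL, hL, hLb, η₀, hη₀, fun η h0 h1 => (hη η h0 h1).1 hk2⟩
  · intro p _ _ _ L hL _ Z hZ hAZ hR hQ
    exact hQ.trans (ExtS.union hZ hL hR) hAZ
  · intro t' _ _ B hQ H hH _ h1 _ hfix
    have h3 : Continuous (H 1) := hH.comp (Continuous.prodMk_right (1 : ℝ))
    exact hQ.of_map h3.continuousOn h1 (hfix 1 ⟨zero_le_one, le_rfl⟩)

/-- No index one: locally constant maps extend. PROOF. `sweep` with `R = IsPreconnected`, `Q B = ExtB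
(layS F e c c) B`: over the box extend by the constant value on the ring `Z ∩ L`. -/
theorem slab_extB (he : ‖e‖ = 1) (h : Mo F e) (hct : c ≤ t) (hc : ∀ x, Crit F e x → ⟪e, x⟫ ≠ c)
    (ht : ∀ x, Crit F e x → ⟪e, x⟫ ≠ t) (h1 : NoI F e 1 c t) :
    ExtB (layS F e c c) (layS F e c t) := by
  have hcr : ∀ x, Inward F e x → Crit F e x := fun x hx => (crit_iff he h.reg x).2 (Or.inl hx)
  refine sweep he h hct (fun x hx => hc x (hcr x hx)) (fun x hx => ht x (hcr x hx))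
    (R := IsPreconnected) (Q := ExtB (layS F e c c)) (ε := fun _ => 1) ?_ (fun _ => one_pos)
    (fun B B' hB _ hBB => ThreeA_mono hB hBB) ?_ ?_ fun u hu hu1 => ⟨u, hu, hu1, fun _ _ => rfl⟩
  · intro p hp hpc hpt ε hε
    obtain ⟨k, hk⟩ := h.nd p (hcr p hp)
    have hk1 : k ≠ 1 := by
      rintro rfl
      exact h1 p hp hpc hpt hk
    obtain ⟨U, L, hU, hpU, hUL, hL, hLb, η₀, hη₀, hη⟩ := box2 F h.smooth e he p hp k hk ε hε
    exact ⟨U, L, hU, hpU, hUL, hL, hLb, η₀, hη₀, fun η h0 h3 => (hη η h0 h3).2 hk1⟩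
  · intro p _ _ _ L hL _ Z hZ hAZ hR hQ
    exact ThreeA_union hQ hAZ hZ hL hR
  · intro t' _ _ B hQ H hH _ h3 _ hfix
    have h4 : Continuous (H 1) := hH.comp (Continuous.prodMk_right (1 : ℝ))
    exact ThreeA_of_map hQ h4.continuousOn h3 (hfix 1 ⟨zero_le_one, le_rfl⟩)

end Pool.Schoen
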