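import Pool.Agent.H.MP_6c077c_gt.N2.LiftR

/-! Maps of the torus to the circle. -/

set_option autoImplicit false

namespace Pool.Schoen

open Filter Set Metric
open scoped Topology RealInnerProductSpace

/-- a continuous function whose values differ by integral multiples of `2π` from zero is constant -/
private theorem TorA_const {X : Type*} [TopologicalSpace X] [PreconnectedSpace X] {f : X → ℝ}
    (hf : Continuous f) (h : ∀ x, ∃ n : ℤ, f x = n * (2 * Real.pi)) (x y : X) : f x = f y := by
  have hpi := Real.pi_pos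
  have key : ∀ x y : X, ¬ f x < f y := by
    intro x y hxy
    obtain ⟨m, hm⟩ := h x
    obtain ⟨n, hn⟩ := h y
    have hmn : (m : ℝ) < n := by
      by_contra hcon
      rw [not_lt] at hcon
      have := mul_le_mul_of_nonneg_right hcon (by positivity : 0 ≤ 2 * Real.pi)
      linarith
    have hmn' : (m : ℝ) + 1 ≤ n := by
      have : m + 1 ≤ n := by exact_mod_cast hmn
      exact_mod_cast this
    have h5 : (m * (2 * Real.pi) + Real.pi : ℝ) ∈ Icc (f x) (f y) := by
      have := mul_le_mul_of_nonneg_right hmn' (by positivity : 0 ≤ 2 * Real.pi)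
      constructor
      · linarith
      · linarith
    obtain ⟨z, hz⟩ := intermediate_value_univ x y hf h5
    obtain ⟨k, hk⟩ := h z
    have h6 : (k : ℝ) * (2 * Real.pi) = (m + 1 / 2) * (2 * Real.pi) := by
      rw [← hk, hz]
      ring
    have h7 : (k : ℝ) = m + 1 / 2 := mul_right_cancel₀ (by positivity) h6
    have h8 : (2 * k : ℝ) = 2 * m + 1 := by linarith
    have h9 : 2 * k = 2 * m + 1 := by exact_mod_cast h8
    omega
  exact le_antisymm (not_lt.1 (key y x)) (not_lt.1 (key x y))

private theorem TorA_int {a b : ℝ} (h : Complex.exp (a * Complex.I) = Complex.exp (b * Complex.I)) :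
    ∃ n : ℤ, a - b = n * (2 * Real.pi) := by
  rw [Complex.exp_eq_exp_iff_exists_int] at h
  obtain ⟨n, hn⟩ := h
  refine ⟨n, ?_⟩
  have h1 : ((a - b - n * (2 * Real.pi) : ℝ) : ℂ) * Complex.I = 0 := by
    push_cast
    linear_combination hn
  have h2 := (mul_eq_zero.1 h1).resolve_right Complex.I_ne_zero
  have h3 : a - b - n * (2 * Real.pi) = 0 := by exact_mod_cast h2
  linarith

/-- A map of the torus to the circle which lifts on both axes lifts. PROOF. Pull back by
`(s, t) ↦ (Circle.exp s, Circle.exp t)` to the plane, where it lifts, `u = exp (i φ)` (`liftS_univ`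
or convexity). For fixed `t` the number `φ (s + 2π, t) - φ (s, t)` is a multiple of `2π`, constant in
`(s, t)` by connectedness, and zero for `t = 0` as `u` lifts on the first axis; the same for the second
variable. So `φ` is doubly periodic and factors through the torus; the factor is continuous as
`Circle.exp` is a quotient map (local homeomorphism, open). -/
theorem torus_lifts {u : Circle × Circle → ℂ} (hu : Continuous u) (h1 : ∀ x, ‖u x‖ = 1)
    (ha : Lifts (univ : Set Circle) fun z => u (z, 1)) (hb : Lifts (univ : Set Circle) fun z => u (1, z)) :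
    Lifts (univ : Set (Circle × Circle)) u := by
  obtain ⟨α, hα, hα1⟩ := ha
  obtain ⟨β, hβ, hβ1⟩ := hb
  rw [continuousOn_univ] at hα hβ
  have hq : Continuous (Prod.map Circle.exp Circle.exp : ℝ × ℝ → Circle × Circle) :=
    Circle.exp.continuous.prodMap Circle.exp.continuous
  obtain ⟨φ, hφ, hφ1⟩ := liftS_univ (ℝ × ℝ)
    (fun z => u (Prod.map Circle.exp Circle.exp z)) (hu.comp hq).continuousOn fun z _ => h1 _
  rw [continuousOn_univ] at hφ
  have hper : ∀ s : ℝ, Circle.exp (s + 2 * Real.pi) = Circle.exp s := fun s =>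
    Circle.periodic_exp s
  have h1s : ∀ s : ℝ, u (Circle.exp s, 1) = Complex.exp (φ (s, 0) * Complex.I) := by
    intro s
    have h := hφ1 (s, 0) (mem_univ _)
    rw [← h]
    show u (Circle.exp s, 1) = u (Circle.exp s, Circle.exp 0)
    rw [Circle.exp_zero]
  have h1t : ∀ t : ℝ, u (1, Circle.exp t) = Complex.exp (φ (0, t) * Complex.I) := by
    intro t
    have h := hφ1 (0, t) (mem_univ _)
    rw [← h]
    show u (1, Circle.exp t) = u (Circle.exp 0, Circle.exp t)
    rw [Circle.exp_zero]
  -- the period in the first variable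
  have ps : ∀ s t : ℝ, φ (s + 2 * Real.pi, t) = φ (s, t) := by
    have e1 : ∀ z : ℝ × ℝ, φ (z.1 + 2 * Real.pi, z.2) - φ z = φ (0 + 2 * Real.pi, 0) - φ (0, 0) := by
      intro z
      refine TorA_const (X := ℝ × ℝ) (f := fun z => φ (z.1 + 2 * Real.pi, z.2) - φ z)
        ((hφ.comp (by fun_prop)).sub hφ) (fun z => ?_) z (0, 0)
      refine TorA_int ?_
      have h3 := hφ1 (z.1 + 2 * Real.pi, z.2) (mem_univ _)
      have h4 := hφ1 z (mem_univ _)
      rw [← h3, ← h4]
      show u (Circle.exp (z.1 + 2 * Real.pi), Circle.exp z.2) = u (Circle.exp z.1, Circle.exp z.2)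
      rw [hper]
    have e2 : ∀ s : ℝ, φ (s, 0) - α (Circle.exp s) = φ (0, 0) - α (Circle.exp 0) := by
      intro s
      refine TorA_const (X := ℝ) (f := fun s => φ (s, 0) - α (Circle.exp s))
        ((hφ.comp (by fun_prop)).sub (hα.comp Circle.exp.continuous)) (fun s => ?_) s 0
      refine TorA_int ?_
      rw [← h1s, ← hα1 _ (mem_univ _)]
    intro s t
    have e3 := e1 (s, t)
    have e4 := e2 (0 + 2 * Real.pi)
    rw [hper] at e4
    simp only at e3
    linarith
  have pt : ∀ s t : ℝ, φ (s, t + 2 * Real.pi) = φ (s, t) := by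
    have e1 : ∀ z : ℝ × ℝ, φ (z.1, z.2 + 2 * Real.pi) - φ z = φ (0, 0 + 2 * Real.pi) - φ (0, 0) := by
      intro z
      refine TorA_const (X := ℝ × ℝ) (f := fun z => φ (z.1, z.2 + 2 * Real.pi) - φ z)
        ((hφ.comp (by fun_prop)).sub hφ) (fun z => ?_) z (0, 0)
      refine TorA_int ?_
      have h3 := hφ1 (z.1, z.2 + 2 * Real.pi) (mem_univ _)
      have h4 := hφ1 z (mem_univ _)
      rw [← h3, ← h4]
      show u (Circle.exp z.1, Circle.exp (z.2 + 2 * Real.pi)) = u (Circle.exp z.1, Circle.exp z.2)
      rw [hper]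
    have e2 : ∀ t : ℝ, φ (0, t) - β (Circle.exp t) = φ (0, 0) - β (Circle.exp 0) := by
      intro t
      refine TorA_const (X := ℝ) (f := fun t => φ (0, t) - β (Circle.exp t))
        ((hφ.comp (by fun_prop)).sub (hβ.comp Circle.exp.continuous)) (fun t => ?_) t 0
      refine TorA_int ?_
      rw [← h1t, ← hβ1 _ (mem_univ _)]
    intro s t
    have e3 := e1 (s, t)
    have e4 := e2 (0 + 2 * Real.pi)
    rw [hper] at e4
    simp only at e3
    linarith
  -- the factor
  have hquo : Topology.IsQuotientMap (Prod.map Circle.exp Circle.exp : ℝ × ℝ → Circle × Circle) := by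
    refine (isLocalHomeomorph_circleExp.isOpenMap.prodMap
      isLocalHomeomorph_circleExp.isOpenMap).isQuotientMap hq ?_
    exact Function.Surjective.prodMap (fun z => ⟨_, Circle.exp_arg z⟩) fun z => ⟨_, Circle.exp_arg z⟩
  have hv : ∀ z : ℝ × ℝ, φ (Complex.arg (Circle.exp z.1), Complex.arg (Circle.exp z.2)) = φ z := by
    rintro ⟨s, t⟩
    obtain ⟨m, hm⟩ := Circle.exp_eq_exp.1 (Circle.exp_arg (Circle.exp s))
    obtain ⟨n, hn⟩ := Circle.exp_eq_exp.1 (Circle.exp_arg (Circle.exp t))
    simp only
    rw [hm, hn]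
    have k1 : ∀ (m : ℤ) (s t : ℝ), φ (s + m * (2 * Real.pi), t) = φ (s, t) := fun m s t =>
      Function.Periodic.int_mul (f := fun s => φ (s, t)) (fun s => ps s t) m s
    have k2 : ∀ (n : ℤ) (s t : ℝ), φ (s, t + n * (2 * Real.pi)) = φ (s, t) := fun n s t =>
      Function.Periodic.int_mul (f := fun t => φ (s, t)) (fun t => pt s t) n t
    rw [k1, k2]
  refine ⟨fun z => φ (Complex.arg z.1, Complex.arg z.2), ?_, fun z _ => ?_⟩
  · rw [continuousOn_univ, hquo.continuous_iff]
    refine hφ.congr fun z => ?_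
    exact (hv z).symm
  · have h3 := hφ1 (Complex.arg z.1, Complex.arg z.2) (mem_univ _)
    rw [← h3]
    show u z = u (Circle.exp (Complex.arg z.1), Circle.exp (Complex.arg z.2))
    rw [Circle.exp_arg, Circle.exp_arg]

end Pool.Schoen
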