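import Pool.Agent.H.MP_6c077c_gt.N2.Start

/-!
# Hypersurfaces of Euclidean 4-space with spherical and toral slices (MP_6c077c_gt)

`M = {F = 0}` is the regular zero set of a smooth function `F` on Euclidean 4-space with
`W = {F ≤ 0}` bounded; `M` is homeomorphic to the 3-sphere (or only connected and such that every
circle valued map lifts).  Let `e` be a unit vector.  The horizontal points are the points of `M` at
which the normal is `e` or `-e`; the height of `x` is `⟪e, x⟫`.

Theorem `result`: suppose that the horizontal points are nondegenerate critical points of the height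
function on `M` and have different heights, and that every component of a slice of `W` at a height
without horizontal points is bounded by one sphere or one torus (so it is a ball, a solid torus or the
exterior of a knot).  Then `M` is carried onto the round sphere by a diffeomorphism with bounded
support.
-/

set_option autoImplicit false

namespace Pool.Agent.Results.MP_6c077c_gt.TorusSlices

open scoped ContDiff RealInnerProductSpace
open Metric Set Pool.Schoen

/-- Let the second derivative of `F` be nondegenerate on the hyperplane orthogonal to `e` at the points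
of `M = {F = 0}` with normal `e` or `-e`, and let these points have different heights. If for every
component of a slice of `W = {F ≤ 0}` at another height the intersection with `M` is homeomorphic to a
sphere or to a torus, then `M` is unknotted. -/
theorem result (F : EuclideanSpace ℝ (Fin 4) → ℝ) (hF : ContDiff ℝ ∞ F)
    (hb : Bornology.IsBounded {x | F x ≤ 0}) (hreg : ∀ x, F x = 0 → gradient F x ≠ 0)
    (hM : Nonempty ({x : EuclideanSpace ℝ (Fin 4) // F x = 0} ≃ₜ
        sphere (0 : EuclideanSpace ℝ (Fin 4)) 1) ∨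
      (IsConnected {x | F x = 0} ∧
        ∀ u : EuclideanSpace ℝ (Fin 4) → ℂ, ContinuousOn u {x | F x = 0} →
          (∀ x ∈ {x | F x = 0}, ‖u x‖ = 1) →
          ∃ v : EuclideanSpace ℝ (Fin 4) → ℝ, ContinuousOn v {x | F x = 0} ∧
            ∀ x ∈ {x | F x = 0}, u x = Complex.exp (v x * Complex.I)))
    (e : EuclideanSpace ℝ (Fin 4)) (he : ‖e‖ = 1)
    (h₁ : ∀ x, F x = 0 → (∃ l : ℝ, gradient F x = l • e) → ∀ u, ⟪e, u⟫ = 0 →
      (∀ v, ⟪e, v⟫ = 0 → fderiv ℝ (fderiv ℝ F) x u v = 0) → u = 0)
    (h₂ : ∀ x y, F x = 0 → (∃ l : ℝ, gradient F x = l • e) → F y = 0 →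
      (∃ l : ℝ, gradient F y = l • e) → x ≠ y → ⟪e, x⟫ ≠ ⟪e, y⟫)
    (h₃ : ∀ (x : EuclideanSpace ℝ (Fin 4)) (T : Set (EuclideanSpace ℝ (Fin 4))), F x ≤ 0 →
      (∀ y, F y = 0 → (∃ l : ℝ, gradient F y = l • e) → ⟪e, y⟫ ≠ ⟪e, x⟫) →
      T = connectedComponentIn {y | F y ≤ 0 ∧ ⟪e, y⟫ = ⟪e, x⟫} x ∩ {y | F y = 0} →
      Nonempty (T ≃ₜ sphere (0 : EuclideanSpace ℝ (Fin 3)) 1) ∨
        Nonempty (T ≃ₜ Circle × Circle)) :
    ∃ φ ψ : EuclideanSpace ℝ (Fin 4) → EuclideanSpace ℝ (Fin 4),
      ContDiff ℝ ∞ φ ∧ ContDiff ℝ ∞ ψ ∧ (∀ x, ψ (φ x) = x) ∧ (∀ x, φ (ψ x) = x) ∧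
      (∃ R : ℝ, ∀ x, R ≤ ‖x‖ → φ x = x) ∧
      φ '' {x | F x = 0} = sphere (0 : EuclideanSpace ℝ (Fin 4)) 1 := by
  obtain ⟨hc, hl⟩ : IsConnected {x | F x = 0} ∧ LiftS {x | F x = 0} := by
    rcases hM with h | h
    · exact level_top (by simp) F h
    · exact h
  exact n2_carries (by simp) F hF hb hreg hc hl e he h₁ h₂ h₃

end Pool.Agent.Results.MP_6c077c_gt.TorusSlices
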