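import Pool.Agent.H.MP_6c077c_gt.N2.Start

/-!
# Hypersurfaces of Euclidean 4-space with spherical and toral slices (MP_6c077c_gt)

`M = {F = 0}` is the regular zero set of a smooth function `F` on Euclidean 4-space with
`W = {F ≤ 0}` bounded; `M` is homeomorphic to the 3-sphere.  Let `e` be a unit vector.  The horizontal
points are the points of `M` at which the normal is `e` or `-e`; the height of `x` is `⟪e, x⟫`.

Theorem `result`: suppose that the horizontal points are nondegenerate critical points of the height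
function on `M` and have different heights, and that every component of a slice of `W` at a height
without horizontal points is bounded by one sphere or one torus (so it is a ball, a solid torus or the
exterior of a knot).  Then `M` is carried onto the round sphere by a diffeomorphism with bounded
support.
-/

set_option autoImplicit false

namespace Pool.Agent.Results.MP_6c077c_gt.TorusSlicesB

open scoped ContDiff RealInnerProductSpace
open Metric Set Pool.Schoen

/-- `x` is a point of `{F = 0}` at which the gradient of `F` is a multiple of `e`. -/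
def Horizontal (F : EuclideanSpace ℝ (Fin 4) → ℝ) (e x : EuclideanSpace ℝ (Fin 4)) : Prop :=
  F x = 0 ∧ ∃ l : ℝ, gradient F x = l • e

/-- The part of `{F = 0}` in the component of `x` in the slice of `{F ≤ 0}` by the hyperplane through
`x` orthogonal to `e`. -/
def sliceBoundary (F : EuclideanSpace ℝ (Fin 4) → ℝ) (e x : EuclideanSpace ℝ (Fin 4)) :
    Set (EuclideanSpace ℝ (Fin 4)) :=
  connectedComponentIn {y | F y ≤ 0 ∧ ⟪e, y⟫ = ⟪e, x⟫} x ∩ {y | F y = 0}

/-- Let the second derivative of `F` be nondegenerate on the hyperplane orthogonal to `e` at the points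
of `M = {F = 0}` with normal `e` or `-e`, and let these points have different heights. If for every
component of a slice of `W = {F ≤ 0}` at another height the intersection with `M` is homeomorphic to a
sphere or to a torus, then `M` is unknotted. -/
theorem result (F : EuclideanSpace ℝ (Fin 4) → ℝ) (hF : ContDiff ℝ ∞ F)
    (hb : Bornology.IsBounded {x | F x ≤ 0}) (hreg : ∀ x, F x = 0 → gradient F x ≠ 0)
    (hM : Nonempty ({x : EuclideanSpace ℝ (Fin 4) // F x = 0} ≃ₜ
        sphere (0 : EuclideanSpace ℝ (Fin 4)) 1))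
    (e : EuclideanSpace ℝ (Fin 4)) (he : ‖e‖ = 1)
    (h₁ : ∀ x, Horizontal F e x → ∀ u, ⟪e, u⟫ = 0 →
      (∀ v, ⟪e, v⟫ = 0 → fderiv ℝ (fderiv ℝ F) x u v = 0) → u = 0)
    (h₂ : ∀ x y, Horizontal F e x → Horizontal F e y → x ≠ y → ⟪e, x⟫ ≠ ⟪e, y⟫)
    (h₃ : ∀ x, F x ≤ 0 → (∀ y, Horizontal F e y → ⟪e, y⟫ ≠ ⟪e, x⟫) →
      Nonempty (sliceBoundary F e x ≃ₜ sphere (0 : EuclideanSpace ℝ (Fin 3)) 1) ∨
        Nonempty (sliceBoundary F e x ≃ₜ Circle × Circle)) :
    ∃ φ ψ : EuclideanSpace ℝ (Fin 4) → EuclideanSpace ℝ (Fin 4),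
      ContDiff ℝ ∞ φ ∧ ContDiff ℝ ∞ ψ ∧ (∀ x, ψ (φ x) = x) ∧ (∀ x, φ (ψ x) = x) ∧
      (∃ R : ℝ, ∀ x, R ≤ ‖x‖ → φ x = x) ∧
      φ '' {x | F x = 0} = sphere (0 : EuclideanSpace ℝ (Fin 4)) 1 := by
  obtain ⟨hc, hl⟩ : IsConnected {x | F x = 0} ∧ LiftS {x | F x = 0} := level_top (by simp) F hM
  refine n2_carries (by simp) F hF hb hreg hc hl e he (fun x hx h => h₁ x ⟨hx, h⟩)
    (fun x y hx h hy h' => h₂ x y ⟨hx, h⟩ ⟨hy, h'⟩) (fun x T hx h hT => ?_)
  subst hT
  exact h₃ x hx fun y hy => h y hy.1 hy.2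

end Pool.Agent.Results.MP_6c077c_gt.TorusSlicesB
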